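import Pool.Agent.Lib.MP_6e8030_nt.W.Base

open IntermediateField
open scoped ComplexConjugate

noncomputable section

namespace OzakiFree

/-! ### A1: Frobenius elements and the decomposition group -/

private theorem A1_charP {p : ℕ} (hp : p.Prime) (B : Ideal ZO) (hB : B.IsMaximal)
    (hpB : (p : ZO) ∈ B) : CharP (ZO ⧸ B) p := by
  have : Nontrivial (ZO ⧸ B) := Ideal.Quotient.nontrivial_iff.2 hB.ne_top
  refine (CharP.charP_iff_prime_eq_zero hp).2 ?_
  rw [← map_natCast (Ideal.Quotient.mk B)]
  exact Ideal.Quotient.eq_zero_iff_mem.2 hpB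

private theorem A1_closed (x : Om) (s : Set Om) : IsClosed {σ : GQ | σ x ∈ s} := by
  refine ⟨?_⟩
  exact N3_loc x sᶜ

private theorem A1_clB (B : Ideal ZO) (z w : ZO) : IsClosed {σ : GQ | σ • z - w ∈ B} := by
  have : {σ : GQ | σ • z - w ∈ B} =
      {σ : GQ | σ (z : Om) ∈ {y : Om | ∃ b ∈ B, (b : Om) = y - w}} := by
    ext σ
    constructor
    · intro h
      exact ⟨_, h, rfl⟩
    · rintro ⟨b, hb, hb2⟩
      have : σ • z - w = b := Subtype.ext hb2.symm
      change σ • z - w ∈ B
      rw [this]
      exact hb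
  rw [this]
  exact A1_closed _ _

/-- a ring endomorphism of an algebraic extension of the prime field is on a finite set a power of
the Frobenius endomorphism -/
private theorem A1_fin {l : ℕ} [hl : Fact l.Prime] {κ : Type*} [Field κ] [Algebra (ZMod l) κ]
    [Algebra.IsAlgebraic (ZMod l) κ] (f : κ →+* κ) (s : Finset κ) :
    ∃ n : ℕ, ∀ x ∈ s, f x = x ^ l ^ n := by
  let F : IntermediateField (ZMod l) κ := adjoin (ZMod l) (s : Set κ)
  have hF : FiniteDimensional (ZMod l) F := by
    refine finiteDimensional_adjoin fun x _ => ?_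
    exact Algebra.IsIntegral.isIntegral x
  have hfin : Finite F := Module.finite_of_finite (ZMod l)
  let f' : κ →ₐ[ZMod l] κ :=
    { f with
      commutes' := fun r => by
        change (f.comp (algebraMap (ZMod l) κ)) r = algebraMap (ZMod l) κ r
        rw [Subsingleton.elim (f.comp (algebraMap (ZMod l) κ)) (algebraMap (ZMod l) κ)] }
  obtain ⟨n, hn⟩ := (FiniteField.bijective_frobeniusAlgHom_pow (ZMod l) F).2
    (f'.restrictNormal F)
  refine ⟨n, fun x hx => ?_⟩
  have hxF : x ∈ F := subset_adjoin _ _ hx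
  have h1 := f'.restrictNormal_commutes F ⟨x, hxF⟩
  have h2 : ∀ (m : ℕ) (y : F), ((FiniteField.frobeniusAlgHom (ZMod l) F ^ m) y : F) = y ^ l ^ m := by
    intro m y
    rw [AlgHom.coe_pow, FiniteField.coe_frobeniusAlgHom, pow_iterate, ZMod.card]
  have h3 : (f'.restrictNormal F) ⟨x, hxF⟩ = (⟨x, hxF⟩ : F) ^ l ^ (n : ℕ) := by
    rw [← hn]
    exact h2 _ _
  rw [h3] at h1
  exact h1.symm

/-- a Frobenius element of `Gal(Om/ℚ)` at `B` (use `exists_frob` with `F = ⊥`) -/
theorem exists_frobB {l : ℕ} (hl : l.Prime) (B : Ideal ZO) (hB : B.IsMaximal) (hlB : (l : ZO) ∈ B) :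
    ∃ φ : GQ, ∀ z : ZO, φ • z - z ^ l ∈ B := by
  classical
  have hchar := A1_charP hl B hB hlB
  have hfp : Fact l.Prime := ⟨hl⟩
  have := hB.isPrime
  let N : IntermediateField ℚ Om := ⊥
  let : TopologicalSpace (integralClosure ℤ Om) := ⊥
  have : DiscreteTopology (integralClosure ℤ Om) := ⟨rfl⟩
  have : ContinuousSMul (Om ≃ₐ[N] Om) (integralClosure ℤ Om) := by
    rw [continuousSMul_iff_stabilizer_isOpen]
    intro x
    have h1 := stabilizer_isOpen_of_isIntegral (K := N) (L := Om) (x : Om)
    have h2 : (MulAction.stabilizer (Om ≃ₐ[N] Om) x : Set (Om ≃ₐ[N] Om)) =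
        MulAction.stabilizer (Om ≃ₐ[N] Om) (x : Om) := by
      ext g
      constructor
      · intro h
        exact congrArg Subtype.val h
      · intro h
        exact Subtype.ext h
    rw [h2]
    exact h1
  have hbij : Function.Bijective (frobenius (integralClosure ℤ Om ⧸ B) l) := by
    constructor
    · exact frobenius_inj _ l
    · intro y
      obtain ⟨z, rfl⟩ := Ideal.Quotient.mk_surjective y
      obtain ⟨w, hw⟩ := IsAlgClosed.exists_pow_nat_eq (z : Om) hl.pos
      have hwint : IsIntegral ℤ w := by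
        refine IsIntegral.of_pow hl.pos ?_
        rw [hw]
        exact z.2
      refine ⟨Ideal.Quotient.mk B ⟨w, hwint⟩, ?_⟩
      rw [frobenius_def, ← map_pow]
      congr 1
      exact Subtype.ext hw
  let e : (integralClosure ℤ Om ⧸ B) ≃ₐ[R4A N ⧸ B.under (R4A N)] (integralClosure ℤ Om ⧸ B) :=
    { __ := RingEquiv.ofBijective (frobenius (integralClosure ℤ Om ⧸ B) l) hbij
      commutes' := by
        rintro ⟨z⟩
        change (Ideal.Quotient.mk B (z : integralClosure ℤ Om)) ^ l =
          Ideal.Quotient.mk B (z : integralClosure ℤ Om)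
        obtain ⟨r, hr⟩ := IntermediateField.mem_bot.1 z.2
        have hint : IsIntegral ℤ r := by
          refine (isIntegral_algebraMap_iff (algebraMap ℚ Om).injective).mp ?_
          rw [hr]
          exact (z : integralClosure ℤ Om).2
        obtain ⟨n, hn⟩ := IsIntegrallyClosed.isIntegral_iff.mp hint
        have h1 : (z : integralClosure ℤ Om) = (n : integralClosure ℤ Om) := by
          apply Subtype.ext
          refine Eq.trans hr.symm ?_
          rw [← hn]
          simp
        rw [h1, map_intCast]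
        have := map_intCast (frobenius (integralClosure ℤ Om ⧸ B) l) n
        rwa [frobenius_def] at this }
  obtain ⟨s, hs⟩ := Ideal.Quotient.stabilizerHom_surjective_of_profinite
    (G := (Om ≃ₐ[N] Om)) (B.under (R4A N)) B e
  refine ⟨AlgEquiv.restrictScalars ℚ (s : Om ≃ₐ[N] Om), fun z => ?_⟩
  rw [← Ideal.Quotient.eq]
  have := DFunLike.congr_fun hs (Ideal.Quotient.mk B z)
  refine Eq.trans this ?_
  rw [map_pow]
  rfl

private theorem A1_pow {l : ℕ} (hl : l.Prime) (B : Ideal ZO) (hB : B.IsMaximal)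
    (φ : GQ) (hφ : ∀ z : ZO, φ • z - z ^ l ∈ B) (n : ℕ) (z : ZO) :
    φ ^ n • z - z ^ l ^ n ∈ B := by
  induction n with
  | zero => simp
  | succ n ih =>
    have h1 := hφ (φ ^ n • z)
    have h2 : (φ ^ n • z) ^ l - (z ^ l ^ n) ^ l ∈ B := by
      rw [← Ideal.Quotient.eq] at ih ⊢
      rw [map_pow, ih, ← map_pow]
    have h3 := B.add_mem h1 h2
    rw [sub_add_sub_cancel, ← mul_smul, ← pow_succ', ← pow_mul, ← pow_succ] at h3
    exact h3

/-- The decomposition group is generated by a Frobenius element and the inertia group. PROOF. If `z ∈ B` then `φ z ≡ z ^ l ≡ 0`,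
so `φ B ≤ B`, equality by maximality (`φ B` is maximal). Let `d ∈ DB B`. For finitely many `z₁..z_r ∈ ZO` the residue classes generate a finite field
`F_q` inside `ZO / B` (`ZO / B` is algebraic over `F_l`), `d` induces an automorphism of it, which is a power `x ↦ x ^ (l ^ n)` of the Frobenius
automorphism, so `d z_i ≡ φ ^ n z_i mod B` for all `i`. The sets `{a ∈ closure (range fun n => φ ^ n) | a • z - d • z ∈ B}` are closed, so by compactness of
`GQ` (`N3_compact`, or `inferInstance`) there is `a` in the closure with `a • z - d • z ∈ B` for all `z`. `a ∈ DB B` (closed), so `a⁻¹ d z - z ∈ B`. -/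
theorem frob_gen {l : ℕ} (hl : l.Prime) (B : Ideal ZO) (hB : B.IsMaximal) (hlB : (l : ZO) ∈ B)
    (φ : GQ) (hφ : ∀ z : ZO, φ • z - z ^ l ∈ B) :
    φ ∈ DB B ∧ ∀ d ∈ DB B, ∃ a ∈ closure (Set.range fun n : ℕ => φ ^ n), a⁻¹ * d ∈ B.inertia GQ := by
  have hprime := hB.isPrime
  refine ⟨?_, ?_⟩
  · intro z
    constructor
    · intro hz
      have h1 := B.add_mem (hφ z) (B.pow_mem_of_mem hz l hl.pos)
      rwa [sub_add_cancel] at h1
    · intro hz
      have h1 := B.sub_mem hz (hφ z)
      rw [sub_sub_cancel] at h1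
      exact hprime.mem_of_pow_mem l h1
  · intro d hd
    have hg : IsGalois ℚ Om := N3_gal
    have hcomp : CompactSpace GQ := inferInstance
    have hfin : ∀ s : Finset ZO, ∃ n : ℕ, ∀ z ∈ s, φ ^ n • z - d • z ∈ B := by
      intro s
      classical
      have hfp : Fact l.Prime := ⟨hl⟩
      let _ : Field (ZO ⧸ B) := Ideal.Quotient.field B
      have hchar : CharP (ZO ⧸ B) l := A1_charP hl B hB hlB
      let _ : Algebra (ZMod l) (ZO ⧸ B) := ZMod.algebra (ZO ⧸ B) l
      have halg : Algebra.IsAlgebraic (ZMod l) (ZO ⧸ B) := by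
        refine ⟨fun x => ?_⟩
        obtain ⟨z, rfl⟩ := Ideal.Quotient.mk_surjective x
        have h1 : IsIntegral ℤ z := by
          have h0 : IsIntegral ℤ (z : Om) := z.2
          exact (isIntegral_algebraMap_iff (R := ℤ) (A := ZO) (B := Om)
            (FaithfulSMul.algebraMap_injective ZO Om)).mp h0
        obtain ⟨p, hp1, hp2⟩ := h1
        refine IsIntegral.isAlgebraic ⟨p.map (Int.castRingHom (ZMod l)), hp1.map _, ?_⟩
        rw [Polynomial.eval₂_map]
        have h3 := congrArg (Ideal.Quotient.mk B) hp2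
        rw [Polynomial.hom_eval₂, map_zero] at h3
        rw [← h3]
        congr 1
        exact RingHom.ext_int _ _
      let f : (ZO ⧸ B) →+* (ZO ⧸ B) := Ideal.quotientMap B (MulSemiringAction.toRingHom GQ ZO d)
        (fun z hz => (hd z).1 hz)
      obtain ⟨n, hn⟩ := A1_fin (l := l) f (s.image (Ideal.Quotient.mk B))
      refine ⟨n, fun z hz => ?_⟩
      have h1 := hn (Ideal.Quotient.mk B z) (Finset.mem_image_of_mem _ hz)
      have h2 : f (Ideal.Quotient.mk B z) = Ideal.Quotient.mk B (d • z) := rfl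
      rw [h2, ← map_pow, Ideal.Quotient.eq] at h1
      have h3 := B.sub_mem (A1_pow hl B hB φ hφ n z) h1
      rwa [sub_sub_sub_cancel_right] at h3
    let t : ZO → Set GQ := fun z => {a : GQ | a • z - d • z ∈ B}
    have hne := (isClosed_closure (s := Set.range fun n : ℕ => φ ^ n)).isCompact.inter_iInter_nonempty
      t (fun z => A1_clB B z (d • z)) (fun u => by
        obtain ⟨n, hn⟩ := hfin u
        refine ⟨φ ^ n, subset_closure ⟨n, rfl⟩, ?_⟩
        rw [Set.mem_iInter₂]
        exact hn)
    obtain ⟨a, ha1, ha2⟩ := hne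
    rw [Set.mem_iInter] at ha2
    have ha2' : ∀ z : ZO, a • z - d • z ∈ B := ha2
    have haD : a ∈ DB B := by
      intro z
      rw [hd z]
      constructor
      · intro hz
        have := B.add_mem (ha2' z) hz
        rwa [sub_add_cancel] at this
      · intro hz
        have := B.sub_mem hz (ha2' z)
        rwa [sub_sub_cancel] at this
    refine ⟨a, ha1, ?_⟩
    rw [mem_inertia]
    intro z
    refine (haD _).2 ?_
    rw [smul_sub, mul_smul, smul_inv_smul]
    have := B.neg_mem (ha2' z)
    rwa [neg_sub] at this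

end OzakiFree
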