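import Pool.Agent.Lib.MP_6e8030_nt.W.A1

open IntermediateField
open scoped ComplexConjugate

noncomputable section

namespace OzakiFree

/-! ### A2: the prime 2 -/

private theorem A2_isOpen {G : Type*} [Group G] [TopologicalSpace G] [IsTopologicalGroup G]
    (U : Subgroup G) (hU : IsOpen (U : Set G)) (S : Set G) (h : ∀ g ∈ S, ∀ u ∈ U, g * u ∈ S) :
    IsOpen S := by
  rw [isOpen_iff_mem_nhds]
  intro g hg
  have h1 : IsOpen ((fun x => g⁻¹ * x) ⁻¹' (U : Set G)) := hU.preimage (continuous_const_mul g⁻¹)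
  refine Filter.mem_of_superset (h1.mem_nhds (by simp)) fun y hy => ?_
  have := h g hg _ hy
  simpa using this

private theorem A2_isClosed {G : Type*} [Group G] [TopologicalSpace G] [IsTopologicalGroup G]
    (U : Subgroup G) (hU : IsOpen (U : Set G)) (S : Set G) (h : ∀ g ∈ S, ∀ u ∈ U, g * u ∈ S) :
    IsClosed S := by
  rw [← isOpen_compl_iff]
  refine A2_isOpen U hU _ fun g hg u hu hgu => hg ?_
  have := h _ hgu _ (U.inv_mem hu)
  simpa using this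

private theorem A2_inertia_closed (B : Ideal (integralClosure ℤ Om)) :
    IsClosed (B.inertia GQ : Set GQ) := by
  have h1 : (B.inertia GQ : Set GQ) = ⋂ x : integralClosure ℤ Om, {σ : GQ | σ • x - x ∈ B} := by
    ext σ
    rw [Set.mem_iInter]
    exact Iff.rfl
  rw [h1]
  refine isClosed_iInter fun x => ?_
  refine A2_isClosed _ (stabilizer_isOpen_of_isIntegral (x : Om) :
    IsOpen (MulAction.stabilizer GQ (x : Om) : Set GQ)) _ fun g hg u hu => ?_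
  have h2 : u • x = x := by
    apply Subtype.ext
    rw [integralClosure.coe_smul]
    exact hu
  change (g * u) • x - x ∈ B
  rw [mul_smul, h2]
  exact hg

/-- an element which lies in `PQ p ⊔ V` for all open `V` lies in `PQ p` -/
private theorem A2_mem_PQ {p : ℕ} (g : GQ)
    (h : ∀ V : Subgroup GQ, IsOpen (V : Set GQ) → g ∈ PQ p ⊔ V) : g ∈ PQ p := by
  rw [PQ, IntermediateField.mem_fixingSubgroup_iff]
  intro x hx
  have hV : IsOpen (MulAction.stabilizer GQ x : Set GQ) := stabilizer_isOpen_of_isIntegral x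
  have h1 := h _ hV
  have h2 : PQ p ⊔ MulAction.stabilizer GQ x ≤ MulAction.stabilizer GQ x := by
    refine sup_le ?_ le_rfl
    intro t ht
    rw [MulAction.mem_stabilizer_iff]
    exact (IntermediateField.mem_fixingSubgroup_iff _ _).1 ht x hx
  exact h2 h1

private theorem A2_lift (p : ℕ) (A : Subgroup GQ) (σ t : GQ) (htA : t ∈ A)
    (hσ : ∀ V : Subgroup GQ, IsOpen (V : Set GQ) → ∀ a ∈ A, ∃ i : ℕ, σ ^ i * a ∈ PQ p ⊔ V) :
    ∃ ρ ∈ closure (Set.range fun n : ℕ => σ ^ n), ρ * t ∈ PQ p := by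
  let ι := {V : Subgroup GQ // IsOpen (V : Set GQ)}
  let C : ι → Set GQ := fun V =>
    closure (Set.range fun n : ℕ => σ ^ n) ∩ {ρ | ρ * t ∈ PQ p ⊔ V.1}
  have hC : ∀ V, IsClosed (C V) := by
    intro V
    refine isClosed_closure.inter ?_
    have h1 : IsOpen ((PQ p ⊔ V.1 : Subgroup GQ) : Set GQ) := Subgroup.isOpen_mono le_sup_right V.2
    exact (Subgroup.isClosed_of_isOpen _ h1).preimage (continuous_mul_const t)
  have hne : ∀ V, (C V).Nonempty := by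
    intro V
    obtain ⟨i, hi⟩ := hσ V.1 V.2 t htA
    exact ⟨σ ^ i, subset_closure ⟨i, rfl⟩, hi⟩
  have hdir : Directed (fun a b : Set GQ => b ⊆ a) C := by
    intro V W
    refine ⟨⟨V.1 ⊓ W.1, V.2.inter W.2⟩, ?_, ?_⟩
    · rintro ρ ⟨h1, h2⟩
      exact ⟨h1, (sup_le_sup_left inf_le_left _ : PQ p ⊔ (V.1 ⊓ W.1) ≤ PQ p ⊔ V.1) h2⟩
    · rintro ρ ⟨h1, h2⟩
      exact ⟨h1, (sup_le_sup_left inf_le_right _ : PQ p ⊔ (V.1 ⊓ W.1) ≤ PQ p ⊔ W.1) h2⟩
  have hcomp : CompactSpace GQ := inferInstance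
  have : Nonempty ι := ⟨⟨⊤, isOpen_univ⟩⟩
  obtain ⟨ρ, hρ⟩ := IsCompact.nonempty_iInter_of_directed_nonempty_isCompact_isClosed C hdir hne
    (fun V => (hC V).isCompact) hC
  rw [Set.mem_iInter] at hρ
  refine ⟨ρ, (hρ ⟨⊤, isOpen_univ⟩).1, A2_mem_PQ _ fun V hV => ?_⟩
  exact (hρ ⟨V, hV⟩).2

/-- PROOF. `exists_sigma` (U7) for `p = 2` gives `B` and `σ₀ ∈ I_B` whose powers are dense modulo `PQ 2`. `surj`: the set `I_B * PQ 2` is compact (the inertia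
group is closed, see `U9_inertia_closed`), so closed, and contains `g` (`g ∈ σ₀⁻ⁱ (PQ 2 ⊔ G)` for all open `G`; `U9_lift` is similar).
Take a Frobenius element `φ₀` (A1, `l = 2`), `ν ∈ I_B` with `ν⁻¹ φ₀ ∈ PQ 2`, `φ := ν⁻¹ φ₀`: again `φ z ≡ z ^ 2 mod B`. `gen`: A1 gives `a` in the closure of the powers of
`φ`, so `a ∈ PQ 2` (closed), `ν := a⁻¹ d ∈ I_B ⊓ PQ 2`. Let `V ≤ U` be open and normal in `GQ`; `a = φ ^ n v`, `v ∈ V`, `d = a ν = φ ^ n ν (ν⁻¹ v ν)`. -/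
theorem exists_prime2 : ∃ (B : Ideal ZO) (φ : GQ), Prime2 B φ := by
  obtain ⟨B, σ₀, hBm, h2B, hσB, hdense⟩ := exists_sigma Nat.prime_two
  have hsurj : ∀ g : GQ, ∃ ν ∈ B.inertia GQ, ν⁻¹ * g ∈ PQ 2 := by
    intro g
    obtain ⟨ρ, hρ, hρg⟩ := A2_lift 2 ⊤ σ₀ g (Subgroup.mem_top _)
      (fun V hV a _ => hdense V hV a)
    have hρB : ρ ∈ B.inertia GQ := by
      have h3 : closure (Set.range fun n : ℕ => σ₀ ^ n) ⊆ (B.inertia GQ : Set GQ) :=
        closure_minimal (by rintro _ ⟨n, rfl⟩; exact (B.inertia GQ).pow_mem hσB n)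
          (A2_inertia_closed B)
      exact h3 hρ
    exact ⟨ρ⁻¹, (B.inertia GQ).inv_mem hρB, by rw [inv_inv]; exact hρg⟩
  obtain ⟨φ₀, hφ₀⟩ := exists_frobB Nat.prime_two B hBm h2B
  obtain ⟨ν₀, hν₀, hνP⟩ := hsurj φ₀
  have hφ : ∀ z : ZO, (ν₀⁻¹ * φ₀) • z - z ^ 2 ∈ B := by
    intro z
    have h1 := mem_inertia.1 ((B.inertia GQ).inv_mem hν₀) (φ₀ • z)
    have h2 := B.add_mem h1 (hφ₀ z)
    rw [sub_add_sub_cancel] at h2
    rw [mul_smul]
    exact h2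
  obtain ⟨hD, hgen⟩ := frob_gen Nat.prime_two B hBm h2B (ν₀⁻¹ * φ₀) hφ
  refine ⟨B, ν₀⁻¹ * φ₀, ⟨hBm, ?_, hνP, hD, hsurj, ?_⟩⟩
  · exact_mod_cast h2B
  · intro d hd hdP U hU
    obtain ⟨a, ha, had⟩ := hgen d hd
    have haP : a ∈ PQ 2 := by
      have h3 : closure (Set.range fun n : ℕ => (ν₀⁻¹ * φ₀) ^ n) ⊆ (PQ 2 : Set GQ) :=
        closure_minimal (by rintro _ ⟨n, rfl⟩; exact (PQ 2).pow_mem hνP n)
          (InfiniteGalois.fixingSubgroup_isClosed _)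
      exact h3 ha
    have hopen : IsOpen {x : GQ | (x * (a⁻¹ * d))⁻¹ * d ∈ U} :=
      hU.preimage (((continuous_mul_const (a⁻¹ * d)).inv).mul continuous_const)
    have hmem : a ∈ {x : GQ | (x * (a⁻¹ * d))⁻¹ * d ∈ U} := by
      show (a * (a⁻¹ * d))⁻¹ * d ∈ U
      rw [mul_inv_cancel_left, inv_mul_cancel]
      exact U.one_mem
    obtain ⟨x, hx1, n, hx2⟩ := mem_closure_iff.1 ha _ hopen hmem
    refine ⟨n, a⁻¹ * d, had, (PQ 2).mul_mem ((PQ 2).inv_mem haP) hdP, ?_⟩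
    have hx3 : (ν₀⁻¹ * φ₀) ^ n = x := hx2
    rw [hx3]
    exact hx1

end OzakiFree
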