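import Pool.Agent.Lib.MP_6e8030_nt.W.L1

open IntermediateField
open scoped ComplexConjugate

noncomputable section

namespace OzakiFree

/-! ### L2: degrees, and all open subgroups containing `PQ 2` -/

private theorem L2_alg : Algebra.IsAlgebraic ℚ Om := inferInstance

private theorem L2_gal : IsGalois ℚ Om := by
  have h1 : Algebra.IsAlgebraic ℚ Om := L2_alg
  have h2 : IsAlgClosure ℚ Om := inferInstance
  have h3 : Normal ℚ Om := IsAlgClosure.normal ℚ Om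
  have h4 : Algebra.IsSeparable ℚ Om := Algebra.IsAlgebraic.isSeparable_of_perfectField
  exact ⟨⟩

attribute [local instance] L2_gal

private theorem L2_prim (m : ℕ) : ∃ ξ : Om, IsPrimitiveRoot ξ (2 ^ m) := by
  have : NeZero (2 ^ m) := ⟨pow_ne_zero _ two_ne_zero⟩
  have : NeZero ((2 ^ m : ℕ) : Om) := ⟨by exact_mod_cast pow_ne_zero m two_ne_zero⟩
  exact HasEnoughRootsOfUnity.exists_primitiveRoot Om (2 ^ m)

private theorem L2_sq_prim {m : ℕ} {ξ : Om} (h : IsPrimitiveRoot ξ (2 ^ (m + 1))) :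
    IsPrimitiveRoot (ξ ^ 2) (2 ^ m) :=
  h.pow (pow_pos (by norm_num) _) (by rw [pow_succ, mul_comm])

private theorem L2_ne0 {m : ℕ} {ξ : Om} (h : IsPrimitiveRoot ξ (2 ^ m)) : ξ ≠ 0 :=
  h.ne_zero (pow_ne_zero _ two_ne_zero)

/-- `u` in the group of `Dl m` but not of `Dl (m + 1)` -/
private theorem L2_step {m : ℕ} {ξ : Om} (h : IsPrimitiveRoot ξ (2 ^ (m + 1))) {u : GQ}
    (h1 : u ∈ (Dl m).fixingSubgroup) (h2 : u ∉ (Dl (m + 1)).fixingSubgroup) :
    u ξ = -ξ ∨ u ξ = -ξ⁻¹ := by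
  rw [mem_Dl h, not_or] at h2
  rw [mem_Dl (L2_sq_prim h)] at h1
  rcases h1 with h1 | h1
  · rw [map_pow] at h1
    rcases sq_eq_sq_iff_eq_or_eq_neg.1 h1 with h3 | h3
    · exact absurd h3 h2.1
    · exact Or.inl h3
  · rw [map_pow, ← inv_pow] at h1
    rcases sq_eq_sq_iff_eq_or_eq_neg.1 h1 with h3 | h3
    · exact absurd h3 h2.2
    · exact Or.inr h3

private theorem L2_conv {m : ℕ} (hm : 2 ≤ m) {ξ : Om} (h : IsPrimitiveRoot ξ (2 ^ (m + 1))) {u : GQ}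
    (h1 : u ξ = -ξ) : u ∈ (Dl m).fixingSubgroup ∧ u ∉ (Dl (m + 1)).fixingSubgroup := by
  have h0 := L2_ne0 h
  constructor
  · rw [mem_Dl (L2_sq_prim h)]
    left
    rw [map_pow, h1, neg_sq]
  · rw [mem_Dl h, h1, not_or]
    constructor
    · intro h2
      exact h0 (self_eq_neg.1 h2.symm)
    · intro h2
      have h3 : ξ ^ 4 = 1 := by
        have h4 : ξ ^ 2 = -1 := by
          have h5 : ξ * ξ⁻¹ = 1 := mul_inv_cancel₀ h0
          rw [← h2] at h5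
          linear_combination -h5
        calc ξ ^ 4 = (ξ ^ 2) ^ 2 := by ring
          _ = 1 := by rw [h4]; ring
      have h4 := h.dvd_of_pow_eq_one 4 h3
      have h5 : 2 ^ 3 ≤ 2 ^ (m + 1) := Nat.pow_le_pow_right (by norm_num) (by omega)
      have h6 := Nat.le_of_dvd (by norm_num) h4
      omega

private theorem L2_i {m : ℕ} {ξ : Om} (h : IsPrimitiveRoot ξ (2 ^ (m + 1))) : ξ ^ (2 ^ m) = -1 := by
  have h1 : (ξ ^ (2 ^ m)) ^ 2 = 1 ^ 2 := by
    rw [← pow_mul, ← pow_succ, h.pow_eq_one, one_pow]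
  rcases sq_eq_sq_iff_eq_or_eq_neg.1 h1 with h2 | h2
  · exfalso
    have h3 := h.dvd_of_pow_eq_one _ h2
    have h4 := Nat.le_of_dvd (pow_pos (by norm_num) _) h3
    have h5 : 2 ^ (m + 1) = 2 * 2 ^ m := by rw [pow_succ, mul_comm]
    have h6 : 0 < 2 ^ m := pow_pos (by norm_num) _
    omega
  · exact h2

private theorem L2_sq {m : ℕ} (hm : 2 ≤ m) {u : GQ}
    (h1 : u ∈ (Dl m).fixingSubgroup) (h2 : u ∉ (Dl (m + 1)).fixingSubgroup) :
    u * u ∈ (Dl (m + 1)).fixingSubgroup ∧ u * u ∉ (Dl (m + 1 + 1)).fixingSubgroup := by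
  obtain ⟨ξ, hξ⟩ := L2_prim (m + 1 + 1)
  refine L2_conv (by omega) hξ ?_
  have h0 := L2_ne0 hξ
  obtain ⟨j, hj⟩ : ∃ j, m = j + 2 := ⟨m - 2, by omega⟩
  set i : Om := ξ ^ (2 ^ m) with hi
  have hii : i ^ 2 = -1 := by
    rw [hi, ← pow_mul, ← pow_succ]
    exact L2_i hξ
  have hi0 : i ≠ 0 := pow_ne_zero _ h0
  have hinv : i⁻¹ = -i := inv_eq_of_mul_eq_one_right (by linear_combination -hii)
  have hu : ∀ x : Om, (u * u) x = u (u x) := fun x => rfl
  rw [hu]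
  have hevn : (-1 : Om) ^ (2 ^ (j + 1)) = 1 := Even.neg_one_pow (by
    rw [pow_succ]
    exact even_two.mul_left _)
  have hpow : ∀ x : Om, (x ^ 2) ^ (2 ^ (j + 1)) = x ^ (2 ^ m) := by
    intro x
    rw [← pow_mul, hj, ← pow_succ']
  rcases L2_step (L2_sq_prim hξ) h1 h2 with h3 | h3
  · have h4 : u i = i := by
      have h5 : u i = (u (ξ ^ 2)) ^ (2 ^ (j + 1)) := by rw [hi, ← hpow ξ, map_pow]
      rw [h5, h3, neg_eq_neg_one_mul, mul_pow, hevn, one_mul, hpow]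
    have h6 : (u ξ) ^ 2 = (i * ξ) ^ 2 := by
      rw [← map_pow, h3, mul_pow, hii]
      ring
    rcases sq_eq_sq_iff_eq_or_eq_neg.1 h6 with h7 | h7
    · rw [h7, map_mul, h4, h7]
      linear_combination ξ * hii
    · rw [h7, map_neg, map_mul, h4, h7]
      linear_combination ξ * hii
  · have h4 : u i = -i := by
      have h5 : u i = (u (ξ ^ 2)) ^ (2 ^ (j + 1)) := by rw [hi, ← hpow ξ, map_pow]
      rw [h5, h3, neg_eq_neg_one_mul, mul_pow, hevn, one_mul, inv_pow, hpow, hinv]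
    have h6 : (u ξ) ^ 2 = (i * ξ⁻¹) ^ 2 := by
      rw [← map_pow, h3, mul_pow, hii, inv_pow]
      ring
    rcases sq_eq_sq_iff_eq_or_eq_neg.1 h6 with h7 | h7
    · rw [h7, map_mul, map_inv₀, h4, h7, mul_inv, inv_inv, hinv]
      linear_combination ξ * hii
    · rw [h7, map_neg, map_mul, map_inv₀, h4, h7, inv_neg, mul_inv, inv_inv, hinv]
      linear_combination ξ * hii

private theorem L2_pow {m : ℕ} (hm : 2 ≤ m) {u : GQ}
    (h1 : u ∈ (Dl m).fixingSubgroup) (h2 : u ∉ (Dl (m + 1)).fixingSubgroup) (k : ℕ) :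
    u ^ (2 ^ k) ∈ (Dl (m + k)).fixingSubgroup ∧ u ^ (2 ^ k) ∉ (Dl (m + k + 1)).fixingSubgroup := by
  induction k with
  | zero => exact ⟨by simpa using h1, by simpa using h2⟩
  | succ k ih =>
    have h3 := L2_sq (by omega) ih.1 ih.2
    rw [← pow_add, ← two_mul, ← pow_succ'] at h3
    exact h3

private theorem L2_prod {m : ℕ} {u w : GQ}
    (h1 : u ∈ (Dl m).fixingSubgroup) (h2 : u ∉ (Dl (m + 1)).fixingSubgroup)
    (h3 : w ∈ (Dl m).fixingSubgroup) (h4 : w ∉ (Dl (m + 1)).fixingSubgroup) :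
    u * w ∈ (Dl (m + 1)).fixingSubgroup := by
  obtain ⟨ξ, hξ⟩ := L2_prim (m + 1)
  have hu : (u * w) ξ = u (w ξ) := rfl
  rw [mem_Dl hξ, hu]
  rcases L2_step hξ h1 h2 with h5 | h5 <;> rcases L2_step hξ h3 h4 with h6 | h6
  · left
    rw [h6, map_neg, h5, neg_neg]
  · right
    rw [h6, map_neg, map_inv₀, h5, inv_neg, neg_neg]
  · right
    rw [h6, map_neg, h5, neg_neg]
  · left
    rw [h6, map_neg, map_inv₀, h5, inv_neg, neg_neg, inv_inv]

private theorem L2_two : (Dl 2).fixingSubgroup = ⊤ := by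
  rw [eq_top_iff]
  intro σ _
  obtain ⟨ξ, hξ⟩ := L2_prim 2
  have h0 := L2_ne0 hξ
  rw [mem_Dl hξ]
  have h1 : ξ ^ 2 = -1 := by
    have := L2_i (m := 1) hξ
    rwa [pow_one] at this
  have h2 : (σ ξ) ^ 2 = ξ ^ 2 := by rw [← map_pow, h1, map_neg, map_one]
  rcases sq_eq_sq_iff_eq_or_eq_neg.1 h2 with h3 | h3
  · exact Or.inl h3
  · right
    rw [h3]
    have h4 : ξ * (-ξ) = 1 := by linear_combination -h1
    exact eq_inv_of_mul_eq_one_right h4

private theorem L2_three : ∃ u : GQ, u ∉ (Dl 3).fixingSubgroup := by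
  by_contra hcon
  push Not at hcon
  obtain ⟨ξ, hξ⟩ := L2_prim 3
  have h0 := L2_ne0 hξ
  have h4 : ξ ^ 4 = -1 := L2_i (m := 2) hξ
  have h1 : ∀ σ : GQ, σ (ξ + ξ⁻¹) = ξ + ξ⁻¹ := by
    intro σ
    rcases (mem_Dl hξ σ).1 (hcon σ) with h | h
    · rw [map_add, map_inv₀, h]
    · rw [map_add, map_inv₀, h, inv_inv, add_comm]
  obtain ⟨r, hr⟩ := (InfiniteGalois.mem_range_algebraMap_iff_fixed (ξ + ξ⁻¹)).2 h1
  have h2 : (ξ + ξ⁻¹) ^ 2 = 2 := by
    have h3 : ξ ^ 2 * ((ξ + ξ⁻¹) ^ 2 - 2) = 0 := by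
      have h5 : ξ * ξ⁻¹ = 1 := mul_inv_cancel₀ h0
      linear_combination (2 * ξ ^ 2 + ξ * ξ⁻¹ + 1) * h5 + h4
    rcases mul_eq_zero.1 h3 with h5 | h5
    · exact absurd h5 (pow_ne_zero 2 h0)
    · linear_combination h5
  rw [← hr] at h2
  have h3 : r ^ 2 = 2 := by
    apply (algebraMap ℚ Om).injective
    rw [map_pow, h2, map_ofNat]
  have h5 : ((r : ℝ)) ^ 2 = 2 := by exact_mod_cast h3
  have h6 : Real.sqrt 2 = |(r : ℝ)| := by rw [← h5, Real.sqrt_sq_eq_abs]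
  exact irrational_sqrt_two ⟨|r|, by rw [h6]; push_cast; rfl⟩

private theorem L2_exists (m : ℕ) (hm : 2 ≤ m) :
    ∃ w : GQ, w ∈ (Dl m).fixingSubgroup ∧ w ∉ (Dl (m + 1)).fixingSubgroup := by
  obtain ⟨u, hu⟩ := L2_three
  obtain ⟨k, rfl⟩ : ∃ k, m = 2 + k := ⟨m - 2, by omega⟩
  exact ⟨_, L2_pow le_rfl (by rw [L2_two]; exact Subgroup.mem_top u) hu k⟩

private theorem L2_index {m : ℕ} (hm : 2 ≤ m) :
    (Dl (m + 1)).fixingSubgroup.index = 2 * (Dl m).fixingSubgroup.index := by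
  have hle : (Dl (m + 1)).fixingSubgroup ≤ (Dl m).fixingSubgroup :=
    IntermediateField.fixingSubgroup_antitone (Dl_mono (Nat.le_succ m))
  rw [← Subgroup.relIndex_mul_index hle]
  congr 1
  obtain ⟨w, hw1, hw2⟩ := L2_exists m hm
  show ((Dl (m + 1)).fixingSubgroup.subgroupOf (Dl m).fixingSubgroup).index = 2
  rw [Subgroup.index_eq_two_iff]
  refine ⟨⟨w, hw1⟩, fun b => ?_⟩
  rw [Subgroup.mem_subgroupOf, Subgroup.mem_subgroupOf]
  by_cases hb : (b : GQ) ∈ (Dl (m + 1)).fixingSubgroup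
  · refine Or.inr ⟨hb, fun h => hw2 ?_⟩
    have h2 : ((b * ⟨w, hw1⟩ : (Dl m).fixingSubgroup) : GQ) = (b : GQ) * w := rfl
    rw [h2] at h
    have := Subgroup.mul_mem _ (Subgroup.inv_mem _ hb) h
    rwa [inv_mul_cancel_left] at this
  · exact Or.inl ⟨L2_prod b.2 hb hw1 hw2, hb⟩

private theorem L2_mem_two (σ : GQ) : σ ∈ PQ 2 ↔ σ ∈ P2 := by
  have h := mem_cycZp Nat.prime_two ⊥ (by
    intro ζ hζ
    have h2 : (ζ - 1) * (ζ + 1) = 0 := by linear_combination hζ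
    rcases mul_eq_zero.1 h2 with h | h
    · rw [sub_eq_zero.1 h]; exact one_mem _
    · rw [eq_neg_of_add_eq_zero_left h]; exact neg_mem (one_mem _)) σ
  have hPP : PP 2 = P2 := if_pos rfl
  rw [hPP] at h
  unfold PQ
  rw [h]
  refine ⟨fun h => h.1, fun h => ⟨h, ?_⟩⟩
  rw [IntermediateField.fixingSubgroup_bot]
  exact Subgroup.mem_top σ

private theorem L2_mem_P2 (t : GQ) (h : ∀ ζ ∈ muInf 2, t (ζ + ζ⁻¹) = ζ + ζ⁻¹) : t ∈ P2 := by
  have h1 := forall_mem_adjoin_smul_eq_self_iff ℚ (S := {y : Om | ∃ ζ ∈ muInf 2, y = ζ + ζ⁻¹}) t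
  have h2 : ∀ x ∈ {y : Om | ∃ ζ ∈ muInf 2, y = ζ + ζ⁻¹}, t • x = x := by
    rintro x ⟨ζ, hζ, rfl⟩
    exact h ζ hζ
  exact fun x => (h1.2 h2) x.1 x.2

private theorem L2_lim (U : Subgroup GQ) (hU : IsOpen (U : Set GQ)) (hP : PQ 2 ≤ U) :
    ∃ n, (Dl n).fixingSubgroup ≤ U := by
  have hcl : ∀ n, IsClosed ((Dl n).fixingSubgroup : Set GQ) := fun n =>
    InfiniteGalois.fixingSubgroup_isClosed _
  have hanti : Antitone fun n => ((Dl n).fixingSubgroup : Set GQ) := by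
    refine antitone_nat_of_succ_le fun m => ?_
    exact IntermediateField.fixingSubgroup_antitone (Dl_mono (Nat.le_succ m))
  obtain ⟨n, hn⟩ := exists_subset_nhds_of_isCompact' (U := (U : Set GQ))
    (V := fun n => ((Dl n).fixingSubgroup : Set GQ))
    (directed_of_isDirected_le fun i j hij => hanti hij) (fun n => (hcl n).isCompact) hcl
    (fun t ht => hU.mem_nhds (hP (by
      rw [L2_mem_two]
      refine L2_mem_P2 t ?_
      rintro ζ ⟨m, hm⟩
      have h1 : t ∈ (Dl m).fixingSubgroup := Set.mem_iInter.1 ht m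
      exact h1 ⟨ζ + ζ⁻¹, subset_adjoin _ _ ⟨ζ, hm, rfl⟩⟩)))
  exact ⟨n, hn⟩

/-- The group `GQ / (Dl m).fixingSubgroup` is `(ZMod (2 ^ m))ˣ / ±1` (irreducibility of the cyclotomic polynomial); `ℚ(ζ)/Dl m` has degree 2. -/
theorem Dl_rank {m : ℕ} (hm : 2 ≤ m) : Module.finrank ℚ (Dl m) = 2 ^ (m - 2) := by
  rw [IntermediateField.finrank_eq_fixingSubgroup_index]
  obtain ⟨k, rfl⟩ : ∃ k, m = 2 + k := ⟨m - 2, by omega⟩
  clear hm
  rw [Nat.add_sub_cancel_left]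
  induction k with
  | zero => rw [add_zero, L2_two, Subgroup.index_top, pow_zero]
  | succ k ih =>
    rw [← add_assoc, L2_index (by omega), ih, pow_succ, mul_comm]

/-- PROOF. `U` contains `PQ 2`, so its field is contained in `ℚ_∞ = ⋃ Dl m` (see `R8`, `U10_mem_two` : `PQ 2 = P2`), is finite, so contained in some `Dl n`. The
group `(ZMod (2 ^ n))ˣ / ±1` is cyclic (generated by 5), so its subgroups are the images of the `(Dl m).fixingSubgroup`, `2 ≤ m ≤ n` (compare the degrees, `Dl_rank`). -/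
theorem exists_Dl (U : Subgroup GQ) (hU : IsOpen (U : Set GQ)) (hP : PQ 2 ≤ U) :
    ∃ m, 2 ≤ m ∧ U = (Dl m).fixingSubgroup := by
  classical
  have hex : ∃ n, (Dl (n + 2)).fixingSubgroup ≤ U := by
    obtain ⟨n, hn⟩ := L2_lim U hU hP
    exact ⟨n, le_trans (IntermediateField.fixingSubgroup_antitone (Dl_mono (by omega))) hn⟩
  obtain ⟨n, hn, hmin⟩ : ∃ n, (Dl (n + 2)).fixingSubgroup ≤ U ∧
      ∀ k < n, ¬ (Dl (k + 2)).fixingSubgroup ≤ U :=
    ⟨Nat.find hex, Nat.find_spec hex, fun k hk => Nat.find_min hex hk⟩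
  refine ⟨n + 2, by omega, le_antisymm ?_ hn⟩
  intro u hu
  by_contra hun
  rcases n with _ | n
  · rw [zero_add, L2_two] at hun
    exact hun (Subgroup.mem_top u)
  have hex2 : ∃ k, u ∉ (Dl (k + 2)).fixingSubgroup := ⟨n + 1, hun⟩
  obtain ⟨k, hk, hkmin⟩ : ∃ k, u ∉ (Dl (k + 2)).fixingSubgroup ∧
      ∀ j < k, ¬ u ∉ (Dl (j + 2)).fixingSubgroup :=
    ⟨Nat.find hex2, Nat.find_spec hex2, fun j hj => Nat.find_min hex2 hj⟩
  have hkn : k ≤ n + 1 := by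
    by_contra hc
    exact hkmin (n + 1) (by omega) hun
  rcases k with _ | k
  · rw [zero_add, L2_two] at hk
    exact hk (Subgroup.mem_top u)
  have hk1 : u ∈ (Dl (k + 2)).fixingSubgroup := by
    have := hkmin k (by omega)
    exact not_not.1 this
  have hk2 : u ∉ (Dl (k + 2 + 1)).fixingSubgroup := by
    have e : k + 1 + 2 = k + 2 + 1 := by omega
    rwa [e] at hk
  obtain ⟨h1, h2⟩ := L2_pow (m := k + 2) (by omega) hk1 hk2 (n - k)
  have e1 : k + 2 + (n - k) = n + 2 := by omega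
  rw [e1] at h1 h2
  have hwU : u ^ (2 ^ (n - k)) ∈ U := U.pow_mem hu _
  have e2 : n + 1 + 2 = n + 2 + 1 := by omega
  rw [e2] at hn
  refine hmin n (by omega) fun σ hσ => ?_
  by_cases hσ2 : σ ∈ (Dl (n + 2 + 1)).fixingSubgroup
  · exact hn hσ2
  · have h3 := hn (L2_prod hσ hσ2 h1 h2)
    have h4 := U.mul_mem h3 (U.inv_mem hwU)
    rwa [mul_inv_cancel_right] at h4

end OzakiFree
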