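import Pool.Agent.Lib.MP_6e8030_nt.W.A1
import Pool.Agent.Lib.MP_6e8030_nt.W.L2

open IntermediateField
open scoped ComplexConjugate

noncomputable section

namespace OzakiFree

private theorem B1_key1 {p : ℕ} (B : Ideal (integralClosure ℤ Om))
    (hpB : (p : integralClosure ℤ Om) ∉ B) (η : integralClosure ℤ Om) (h : η ^ p = 1)
    (hB : η - 1 ∈ B) : η = 1 := by
  by_contra hne
  have h1 : (∑ i ∈ Finset.range p, η ^ i) * (η - 1) = 0 := by
    rw [geom_sum_mul, h, sub_self]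
  have h2 : ∑ i ∈ Finset.range p, η ^ i = 0 := by
    rcases mul_eq_zero.1 h1 with h2 | h2
    · exact h2
    · exact absurd (sub_eq_zero.1 h2) hne
  apply hpB
  have h3 : Ideal.Quotient.mk B η = 1 := by
    have := Ideal.Quotient.eq_zero_iff_mem.2 hB
    rw [map_sub, map_one] at this
    exact sub_eq_zero.1 this
  have h4 := congrArg (Ideal.Quotient.mk B) h2
  rw [map_sum, map_zero] at h4
  simp only [map_pow, h3, one_pow, Finset.sum_const, Finset.card_range, nsmul_eq_mul,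
    mul_one] at h4
  rw [← map_natCast (Ideal.Quotient.mk B)] at h4
  exact Ideal.Quotient.eq_zero_iff_mem.1 h4

private theorem B1_key2 {p : ℕ} (B : Ideal (integralClosure ℤ Om))
    (hpB : (p : integralClosure ℤ Om) ∉ B) (m : ℕ) : ∀ (η : integralClosure ℤ Om),
    η ^ (p ^ m) = 1 → η - 1 ∈ B → η = 1 := by
  induction m with
  | zero => intro η h _; simpa using h
  | succ m ih =>
    intro η h hB
    have h1 : η ^ p = 1 := by
      apply ih
      · rw [← pow_mul, ← pow_succ']; exact h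
      · obtain ⟨c, hc⟩ := sub_dvd_pow_sub_pow η 1 p
        rw [one_pow] at hc
        rw [hc]
        exact B.mul_mem_right _ hB
    exact B1_key1 B hpB η h1 hB

/-- a Frobenius element at an odd prime on the roots of unity of 2-power order -/
private theorem B1_frob {l m : ℕ} (B : Ideal ZO) (h2 : (2 : ZO) ∉ B) (g : GQ)
    (hg : ∀ z : ZO, g • z - z ^ l ∈ B) (ζ : Om) (hζ : ζ ^ (2 ^ m) = 1) : g ζ = ζ ^ l := by
  have hint : IsIntegral ℤ ζ := IsIntegral.of_pow (pow_pos (by norm_num : 0 < 2) m) (by rw [hζ]; exact isIntegral_one)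
  let Z : ZO := ⟨ζ, hint⟩
  have hZ : Z ^ (2 ^ m) = 1 := Subtype.ext hζ
  have hZl : Z ^ l * (Z ^ l) ^ (2 ^ m - 1) = 1 := by
    rw [← pow_succ', Nat.sub_add_cancel (Nat.one_le_two_pow), ← pow_mul, mul_comm, pow_mul, hZ, one_pow]
  have hgZ : (g • Z) ^ (2 ^ m) = 1 := by
    rw [← smul_pow', hZ, smul_one]
  have h1 : (g • Z) * (Z ^ l) ^ (2 ^ m - 1) = 1 := by
    refine B1_key2 (p := 2) B (by exact_mod_cast h2) m _ ?_ ?_
    · rw [mul_pow, hgZ, one_mul, ← pow_mul, ← pow_mul, mul_comm (2 ^ m - 1), ← mul_assoc, mul_comm l,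
        mul_assoc, pow_mul, hZ, one_pow]
    · have h : (g • Z) * (Z ^ l) ^ (2 ^ m - 1) - 1 = (g • Z - Z ^ l) * (Z ^ l) ^ (2 ^ m - 1) := by
        rw [sub_mul, hZl]
      rw [h]
      exact B.mul_mem_right _ (hg Z)
  have h3 : g • Z = Z ^ l := by
    calc g • Z = (g • Z) * (Z ^ l * (Z ^ l) ^ (2 ^ m - 1)) := by rw [hZl, mul_one]
      _ = ((g • Z) * (Z ^ l) ^ (2 ^ m - 1)) * Z ^ l := by ring
      _ = Z ^ l := by rw [h1, one_mul]
  exact congrArg (Subtype.val) h3

private theorem B1_isOpen {G : Type*} [Group G] [TopologicalSpace G] [IsTopologicalGroup G]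
    (U : Subgroup G) (hU : IsOpen (U : Set G)) (S : Set G) (h : ∀ g ∈ S, ∀ u ∈ U, g * u ∈ S) :
    IsOpen S := by
  rw [isOpen_iff_mem_nhds]
  intro g hg
  have h1 : IsOpen ((fun x => g⁻¹ * x) ⁻¹' (U : Set G)) := hU.preimage (continuous_const_mul g⁻¹)
  refine Filter.mem_of_superset (h1.mem_nhds (by simp)) fun y hy => ?_
  have := h g hg _ hy
  simpa using this

private theorem B1_isClosed {G : Type*} [Group G] [TopologicalSpace G] [IsTopologicalGroup G]
    (U : Subgroup G) (hU : IsOpen (U : Set G)) (S : Set G) (h : ∀ g ∈ S, ∀ u ∈ U, g * u ∈ S) :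
    IsClosed S := by
  rw [← isOpen_compl_iff]
  refine B1_isOpen U hU _ fun g hg u hu hgu => hg ?_
  have := h _ hgu _ (U.inv_mem hu)
  simpa using this

private theorem B1_stab (x : Om) : IsOpen (MulAction.stabilizer GQ x : Set GQ) :=
  stabilizer_isOpen_of_isIntegral x

private theorem B1_DB_closed (B : Ideal ZO) : IsClosed (DB B : Set GQ) := by
  have h1 : (DB B : Set GQ) = ⋂ x : ZO, {σ : GQ | x ∈ B ↔ σ • x ∈ B} := by
    ext σ
    rw [Set.mem_iInter]
    exact Iff.rfl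
  rw [h1]
  refine isClosed_iInter fun x => ?_
  refine B1_isClosed _ (B1_stab (x : Om)) _ fun g hg u hu => ?_
  have h2 : u • x = x := by
    apply Subtype.ext
    rw [integralClosure.coe_smul]
    exact hu
  change x ∈ B ↔ (g * u) • x ∈ B
  rw [mul_smul, h2]
  exact hg

private theorem B1_mem_two (σ : GQ) : σ ∈ PQ 2 ↔ σ ∈ P2 := by
  have h := mem_cycZp Nat.prime_two ⊥ (by
    intro ζ hζ
    have h2 : (ζ - 1) * (ζ + 1) = 0 := by linear_combination hζ
    rcases mul_eq_zero.1 h2 with h | h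
    · rw [sub_eq_zero.1 h]; exact one_mem _
    · rw [eq_neg_of_add_eq_zero_left h]; exact neg_mem (one_mem _)) σ
  have hPP : PP 2 = P2 := if_pos rfl
  rw [hPP] at h
  unfold PQ
  rw [h]
  refine ⟨fun h => h.1, fun h => ⟨h, ?_⟩⟩
  rw [IntermediateField.fixingSubgroup_bot]
  exact Subgroup.mem_top σ

/-! ### B1: the primes over an odd prime number in the tower `ℚ_∞` -/

/-- PROOF. Let `l` be the odd prime number in `B` (`exists_prime_mem`), `g₀` a Frobenius element at `B` (`exists_frobB`), so `g₀ ∈ DB B` (`frob_gen`). On roots of unity of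
2-power order `g₀ ζ = ζ ^ l` (`g₀ ζ ≡ ζ ^ l mod B` and `B` is odd, `R5_key2` is private in R5, copy it). `l ≠ ±1`, so `g₀ ∉ (Dl n).fixingSubgroup` for some `n`. Let `m₀` be minimal with
`2 ≤ m₀`, `g₀ ∉ (Dl (m₀+1)).fixingSubgroup`; so `g₀ ∈ (Dl m₀).fixingSubgroup`. For every open `U ≥ PQ 2` the group `U ⊔ closure{g₀}` (`Subgroup.zpowers`) is open and contains `PQ 2`, so by
L2 it is some `(Dl j).fixingSubgroup`, it contains `g₀`, so `j ≤ m₀` (else it is in `(Dl (m₀+1)).fixingSubgroup`), so it contains `(Dl m₀).fixingSubgroup`. So every `g ∈ (Dl m₀).fixingSubgroup` is in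
`DB B * U` for all open `U ≥ PQ 2` and the compact set `DB B * PQ 2` is the intersection of these (`DB B` is closed). Same for `m ≥ m₀`: then `g ∈ (Dl m).fixingSubgroup ≤ (Dl m₀).fixingSubgroup`. -/
theorem layer_B (B : Ideal ZO) (hB : B.IsMaximal) (h2 : (2 : ZO) ∉ B) :
    ∃ m₀, 2 ≤ m₀ ∧ ∀ m, m₀ ≤ m → ∀ g ∈ (Dl m).fixingSubgroup, ∃ d ∈ DB B, d⁻¹ * g ∈ PQ 2 := by
  obtain ⟨l, hl, hlB, -⟩ := exists_prime_mem B hB
  have hl2 : l ≠ 2 := by
    rintro rfl
    exact h2 (by exact_mod_cast hlB)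
  have hl3 : 2 < l := lt_of_le_of_ne hl.two_le (Ne.symm hl2)
  obtain ⟨g₀, hg₀⟩ := exists_frobB hl B hB hlB
  have hg₀D : g₀ ∈ DB B := (frob_gen hl B hB hlB g₀ hg₀).1
  have hmono : ∀ {i j : ℕ}, i ≤ j → (Dl j).fixingSubgroup ≤ (Dl i).fixingSubgroup := fun h =>
    IntermediateField.fixingSubgroup_antitone (Dl_mono h)
  -- `g₀` acts nontrivially on a layer
  have hno : g₀ ∉ (Dl (l + 2 + 1)).fixingSubgroup := by
    intro h
    have : NeZero (2 ^ (l + 2 + 1)) := ⟨pow_ne_zero _ two_ne_zero⟩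
    have : NeZero ((2 ^ (l + 2 + 1) : ℕ) : Om) := ⟨by exact_mod_cast pow_ne_zero _ two_ne_zero⟩
    obtain ⟨ζ, hζ⟩ := HasEnoughRootsOfUnity.exists_primitiveRoot Om (2 ^ (l + 2 + 1))
    have h1 := B1_frob B h2 g₀ hg₀ ζ hζ.pow_eq_one
    have hlt : l + 1 < 2 ^ (l + 2 + 1) := by
      have h3 : l + 2 + 1 < 2 ^ (l + 2 + 1) := Nat.lt_two_pow_self
      omega
    have hζ0 : ζ ≠ 0 := hζ.ne_zero (pow_ne_zero _ two_ne_zero)
    rcases (mem_Dl hζ g₀).1 h with h3 | h3
    · rw [h1] at h3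
      have h4 : ζ ^ (l - 1) = 1 := by
        have h5 : ζ ^ (l - 1) * ζ = 1 * ζ := by
          rw [← pow_succ, Nat.sub_add_cancel (by omega), one_mul, h3]
        exact mul_right_cancel₀ hζ0 h5
      have h5 := Nat.le_of_dvd (by omega) (hζ.dvd_of_pow_eq_one _ h4)
      omega
    · rw [h1] at h3
      have h4 : ζ ^ (l + 1) = 1 := by
        rw [pow_succ, h3, inv_mul_cancel₀ hζ0]
      have h5 := Nat.le_of_dvd (by omega) (hζ.dvd_of_pow_eq_one _ h4)
      omega
  refine ⟨l + 2, by omega, fun m hm g hg => ?_⟩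
  have hg' : g ∈ (Dl (l + 2)).fixingSubgroup := hmono hm hg
  have hopen : ∀ k, IsOpen ((Dl k).fixingSubgroup : Set GQ) := fun k =>
    IntermediateField.fixingSubgroup_isOpen (Dl k)
  have hPU : ∀ k, PQ 2 ≤ (Dl k).fixingSubgroup := fun k =>
    IntermediateField.fixingSubgroup_antitone (Dl_le k)
  have hnorm : ∀ k, ((Dl k).fixingSubgroup).Normal := by
    intro k
    refine ⟨fun u hu x => ?_⟩
    have h := mul_mem (hPU k (PQ_comm Nat.prime_two x u)) hu
    rwa [inv_mul_cancel_right] at h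
  -- approximation
  have happ : ∀ k, ∃ d ∈ DB B, d⁻¹ * g ∈ (Dl k).fixingSubgroup := by
    intro k
    have hn := hnorm k
    obtain ⟨j, -, hj⟩ := exists_Dl ((Dl k).fixingSubgroup ⊔ Subgroup.zpowers g₀)
      (Subgroup.isOpen_mono le_sup_left (hopen k)) ((hPU k).trans le_sup_left)
    have hjle : j ≤ l + 2 := by
      by_contra hlt
      refine hno (hmono (show l + 2 + 1 ≤ j by omega) ?_)
      rw [← hj]
      exact Subgroup.mem_sup_right (Subgroup.mem_zpowers g₀)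
    have h1 : g ∈ (Dl k).fixingSubgroup ⊔ Subgroup.zpowers g₀ := by
      rw [hj]
      exact hmono hjle hg'
    obtain ⟨y, hy, z, hz, rfl⟩ := Subgroup.mem_sup_of_normal_left.1 h1
    refine ⟨z, (Subgroup.zpowers_le.2 hg₀D) hz, ?_⟩
    have h3 := hn.conj_mem y hy z⁻¹
    rwa [inv_inv, mul_assoc] at h3
  -- compactness
  have hgal : IsGalois ℚ Om := N3_gal
  have hcomp : CompactSpace GQ := inferInstance
  let C : ℕ → Set GQ := fun k => (DB B : Set GQ) ∩ {d : GQ | d⁻¹ * g ∈ (Dl k).fixingSubgroup}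
  have hC : ∀ k, IsClosed (C k) := by
    intro k
    refine (B1_DB_closed B).inter ?_
    have h1 : IsClosed ((Dl k).fixingSubgroup : Set GQ) := Subgroup.isClosed_of_isOpen _ (hopen k)
    exact h1.preimage (continuous_inv.mul continuous_const)
  have hanti : ∀ k, C (k + 1) ⊆ C k := by
    rintro k d ⟨h1, h3⟩
    exact ⟨h1, hmono (Nat.le_succ k) h3⟩
  have hne : (⋂ k, C k).Nonempty := by
    refine IsCompact.nonempty_iInter_of_sequence_nonempty_isCompact_isClosed C hanti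
      (fun k => ?_) (hC 0).isCompact hC
    obtain ⟨d, hd, hd'⟩ := happ k
    exact ⟨d, hd, hd'⟩
  obtain ⟨d, hd⟩ := hne
  rw [Set.mem_iInter] at hd
  refine ⟨d, (hd 0).1, ?_⟩
  rw [B1_mem_two]
  refine (mem_fix_adjoin _ _).2 ?_
  rintro y ⟨ζ, ⟨k, hk⟩, rfl⟩
  exact (mem_fix_adjoin _ _).1 (hd k).2 _ ⟨ζ, hk, rfl⟩

end OzakiFree
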