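import Pool.Agent.Lib.MP_6e8030_nt.W.A2

open IntermediateField
open scoped ComplexConjugate

noncomputable section

namespace OzakiFree

/-! ### B2a: units which are squares modulo 4 -/

private theorem B2a_inertia (D : IntermediateField ℚ Om)
    (u : (ZF D)ˣ) (c d : ZF D) (h : (u : ZF D) = c ^ 2 + 4 * d) (y : Om)
    (hy : y ^ 2 = (u : ZF D).val) (B : Ideal ZO) (hB : B.IsMaximal) (t : GQ)
    (ht : t ∈ B.inertia GQ) (htD : t ∈ D.fixingSubgroup) : t y = y := by
  have hfix : ∀ z : ZF D, t ((iota D z : ZO) : Om) = ((iota D z : ZO) : Om) := fun z =>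
    (IntermediateField.mem_fixingSubgroup_iff _ _).1 htD _ (ZF_val_mem z)
  have hunit : iota D (u : ZF D) ∉ B := by
    intro hmem
    exact hB.ne_top (B.eq_top_of_isUnit_mem hmem ((Units.isUnit u).map (iota D)))
  have hy2 : y ^ 2 = ((iota D (u : ZF D) : ZO) : Om) := hy
  by_cases h2 : ((2 : ℕ) : ZO) ∈ B
  · have hb : iota D (u : ZF D) = iota D c ^ 2 + ((2 : ℕ) : ZO) ^ 2 * iota D d := by
      rw [h, map_add, map_mul, map_pow, map_ofNat]
      norm_num
    refine inertia_fix_p Nat.prime_two B hB h2 t ht ?_ y (iota D u) (iota D c) (iota D d)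
      (hfix c) (hfix u) ?_ hb hy2
    · intro ζ hζ
      have h3 : (ζ - 1) * (ζ + 1) = 0 := by linear_combination hζ
      rcases mul_eq_zero.1 h3 with h3 | h3
      · rw [sub_eq_zero.1 h3, map_one]
      · rw [eq_neg_of_add_eq_zero_left h3, map_neg, map_one]
    · intro hc
      apply hunit
      rw [hb]
      exact B.add_mem (B.pow_mem_of_mem hc 2 two_pos)
        (B.mul_mem_right _ (B.pow_mem_of_mem h2 2 two_pos))
  · refine inertia_fix_div Nat.prime_two B hB h2 t ht y 1 1 (iota D u) (iota D u) ?_ (hfix u)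
      (map_one t) ?_ hunit one_ne_zero hy2 ?_
    · exact map_one t
    · exact fun h1 => hB.ne_top ((Ideal.eq_top_iff_one _).2 h1)
    · rw [one_pow]; rfl

/-- PROOF. Let `y ^ 2 = u`. For `t ∈ I_B ⊓ D.fixingSubgroup` we have `t y = y`: for `2 ∉ B` by GD `inertia_fix_div` (`r = 1`, `b = w = u`, `y = 1`), for `2 ∈ B` by
GE `inertia_fix_p` (`c ∉ B` since `u ∉ B`). The function `g ↦ if g y = y then 0 else 1` is a character of `PQ 2 ≤ D.fixingSubgroup`; it is zero by `no_unram_all`. Every `g ∈ D.fixingSubgroup` is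
`ν x`, `ν ∈ I_B` (`B` from `exists_prime2`), `x ∈ PQ 2`, and `ν = g x⁻¹` fixes `D`; so `g y = y`; so `y ∈ D`, an algebraic integer, a unit. -/
theorem unit_square (D : IntermediateField ℚ Om) [FiniteDimensional ℚ D] (hD : D ≤ cycZp 2 ⊥)
    (u : (ZF D)ˣ) (c d : ZF D) (h : (u : ZF D) = c ^ 2 + 4 * d) : ∃ v : (ZF D)ˣ, u = v ^ 2 := by
  classical
  obtain ⟨B₂, φ, hP⟩ := exists_prime2
  obtain ⟨y, hy⟩ : ∃ y : Om, y ^ 2 = (u : ZF D).val := IsAlgClosed.exists_pow_nat_eq _ two_pos
  have key := fun (B : Ideal ZO) (hB : B.IsMaximal) (t : GQ) (ht : t ∈ B.inertia GQ)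
    (htD : t ∈ D.fixingSubgroup) => B2a_inertia D u c d h y hy B hB t ht htD
  have hle : PQ 2 ≤ D.fixingSubgroup := IntermediateField.fixingSubgroup_le hD
  have hpm : ∀ g ∈ D.fixingSubgroup, g y = y ∨ g y = -y := by
    intro g hg
    have h1 : (g y) ^ 2 = y ^ 2 := by
      rw [← map_pow, hy]
      exact (IntermediateField.mem_fixingSubgroup_iff _ _).1 hg _ (ZF_val_mem _)
    exact sq_eq_sq_iff_eq_or_eq_neg.1 h1
  let ψ : GQ → ZMod 2 := fun g => if g y = y then 0 else 1
  have hψ : HomOn (PQ 2) ψ := by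
    intro g hg k hk
    have hgk : (g * k) y = g (k y) := rfl
    by_cases h0 : g y = y
    · by_cases h1 : k y = y
      · have h2 : (g * k) y = y := by rw [hgk, h1, h0]
        simp only [ψ, h0, h1, h2, if_true, add_zero]
      · have h3 : k y = -y := (hpm k (hle hk)).resolve_left h1
        have h2 : ¬ (g * k) y = y := by rw [hgk, h3, map_neg, h0, ← h3]; exact h1
        simp only [ψ, h0, h1, h2, if_true, if_false, zero_add]
    · have h4 : g y = -y := (hpm g (hle hg)).resolve_left h0
      by_cases h1 : k y = y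
      · have h2 : ¬ (g * k) y = y := by rw [hgk, h1]; exact h0
        simp only [ψ, h0, h1, h2, if_true, if_false, add_zero]
      · have h3 : k y = -y := (hpm k (hle hk)).resolve_left h1
        have h2 : (g * k) y = y := by rw [hgk, h3, map_neg, h4, neg_neg]
        simp only [ψ, h0, h1, h2, if_true, if_false]
        decide
  have hc : LCOn (PQ 2) ψ := by
    have hyint : IsIntegral ℚ y := Algebra.IsIntegral.isIntegral y
    have : FiniteDimensional ℚ (adjoin ℚ {y}) := adjoin.finiteDimensional hyint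
    refine ⟨(adjoin ℚ {y}).fixingSubgroup, IntermediateField.fixingSubgroup_isOpen _, ?_⟩
    intro g _ k hk _
    have h1 : k y = y := (IntermediateField.mem_fixingSubgroup_iff _ _).1 hk _
      (mem_adjoin_simple_self ℚ y)
    have h2 : (g * k) y = g y := by
      change g (k y) = g y
      rw [h1]
    simp only [ψ, h2]
  have h0 := no_unram_all Nat.prime_two ψ hψ hc (by
    intro B hB t ht htP
    have h1 := key B hB t ht (hle htP)
    simp only [ψ, h1, if_true])
  have h1 : ∀ t ∈ PQ 2, t y = y := by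
    intro t ht
    by_contra hne
    have := h0 t ht
    simp only [ψ, hne, if_false] at this
    exact one_ne_zero this
  have hyD : y ∈ D := by
    rw [← InfiniteGalois.fixedField_fixingSubgroup D, IntermediateField.mem_fixedField_iff]
    intro g hg
    obtain ⟨ν, hν, hνg⟩ := hP.surj g
    have h2 : ν ∈ D.fixingSubgroup := by
      have h3 : ν = g * (ν⁻¹ * g)⁻¹ := by group
      rw [h3]
      exact mul_mem hg (inv_mem (hle hνg))
    have h3 : g y = ν ((ν⁻¹ * g) y) := by
      change g y = (ν * (ν⁻¹ * g)) y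
      rw [mul_inv_cancel_left]
    rw [h3, h1 _ hνg]
    exact key B₂ hP.max ν hν h2
  have hyZ : IsIntegral ℤ y := by
    apply IsIntegral.of_pow two_pos
    rw [hy]
    exact ZF_val_isIntegral _
  have hyZ2 : IsIntegral ℤ (⟨y, hyD⟩ : FL D) := by
    have h2 := isIntegral_algHom_iff (FLhom D).toIntAlgHom (x := (⟨y, hyD⟩ : FL D))
      (FLhom D).injective
    exact h2.1 hyZ
  let w : ZF D := ⟨⟨y, hyD⟩, hyZ2⟩
  have hw : w ^ 2 = u := by
    apply ZF_val_inj
    have h2 : (w ^ 2).val = (((iota D (w ^ 2) : ZO)) : Om) := rfl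
    rw [h2, map_pow, ← hy]
    rfl
  have hwu : IsUnit w := by
    have h2 : IsUnit (w ^ 2) := by rw [hw]; exact u.isUnit
    exact (isUnit_pow_iff two_ne_zero).1 h2
  refine ⟨hwu.unit, ?_⟩
  apply Units.ext
  rw [Units.val_pow_eq_pow_val, IsUnit.unit_spec, hw]

end OzakiFree
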