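import Pool.Agent.Lib.MP_6e8030_nt.W.Base

open IntermediateField
open scoped ComplexConjugate

noncomputable section

namespace OzakiFree

/-! ### B2b: `[E : E²] = 2 ^ n` for the units of a totally real field of degree `n` -/

private theorem B2b_tors {K : Type} [Field K] [NumberField K]
    (hr : ∀ (φ : K →+* ℂ) (x : K), conj (φ x) = φ x) (x : (NumberField.RingOfIntegers K)ˣ)
    (hx : x ∈ NumberField.Units.torsion K) : x = 1 ∨ x = -1 := by
  obtain ⟨φ⟩ : Nonempty (K →+* ℂ) := inferInstance
  have h1 : ‖φ (x : K)‖ = 1 :=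
    (NumberField.InfinitePlace.eq_iff_eq _ 1).1 ((NumberField.Units.mem_torsion K).1 hx) φ
  have h2 : φ (x : K) * φ (x : K) = 1 := by
    have h3 := Complex.mul_conj (φ (x : K))
    rw [hr, Complex.normSq_eq_norm_sq, h1] at h3
    rw [h3]
    norm_num
  have h4 : (x : K) * (x : K) = 1 := by
    apply φ.injective
    rw [map_mul, map_one]
    exact h2
  rcases mul_self_eq_one_iff.1 h4 with h5 | h5
  · left
    apply NumberField.Units.coe_injective K
    change (x : K) = ((1 : (NumberField.RingOfIntegers K)ˣ) : K)
    rw [h5]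
    simp
  · right
    apply NumberField.Units.coe_injective K
    change (x : K) = ((-1 : (NumberField.RingOfIntegers K)ˣ) : K)
    rw [h5]
    simp

private theorem B2b_neg {K : Type} [Field K] [NumberField K] :
    (-1 : (NumberField.RingOfIntegers K)ˣ) ∈ NumberField.Units.torsion K := by
  rw [NumberField.Units.torsion, CommGroup.mem_torsion, isOfFinOrder_iff_pow_eq_one]
  exact ⟨2, by norm_num, by simp⟩

private theorem B2b_order {K : Type} [Field K] [NumberField K]
    (hr : ∀ (φ : K →+* ℂ) (x : K), conj (φ x) = φ x) :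
    Nat.card (NumberField.Units.torsion K) = 2 := by
  rw [Nat.card_eq_two_iff]
  refine ⟨1, ⟨-1, B2b_neg⟩, ?_, ?_⟩
  · intro h
    have h1 : (1 : (NumberField.RingOfIntegers K)ˣ) = -1 := congrArg Subtype.val h
    have h2 : ((1 : (NumberField.RingOfIntegers K)ˣ) : K) =
      ((-1 : (NumberField.RingOfIntegers K)ˣ) : K) := by rw [← h1]
    simp only [Units.val_one, map_one, Units.val_neg, map_neg] at h2
    have h3 : (2 : K) = 0 := by linear_combination h2
    exact two_ne_zero h3
  · ext t
    simp only [Set.mem_insert_iff, Set.mem_singleton_iff, Set.mem_univ, iff_true]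
    rcases B2b_tors hr t t.2 with h | h
    · left; exact Subtype.ext h
    · right; exact Subtype.ext h

private theorem B2b_gen {K : Type} [Field K] [NumberField K]
    (hr : ∀ (φ : K →+* ℂ) (x : K), conj (φ x) = φ x) :
    (MonoidHom.range (powMonoidHom 2 :
      (NumberField.RingOfIntegers K)ˣ →* (NumberField.RingOfIntegers K)ˣ)).index =
      2 ^ (NumberField.Units.rank K + 1) := by
  classical
  let r := NumberField.Units.rank K
  let E := (NumberField.RingOfIntegers K)ˣ
  let T := NumberField.Units.torsion K
  let F : T → (Fin r → ℤ) → E := fun t e => t * ∏ i, NumberField.Units.fundSystem K i ^ e i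
  have hFbij : ∀ x : E, ∃! p : T × (Fin r → ℤ), x = F p.1 p.2 :=
    fun x => NumberField.Units.exist_unique_eq_mul_prod K x
  choose dec hdec huniq using hFbij
  have hd2 : ∀ t e, dec (F t e) = (t, e) := fun t e => (huniq (F t e) (t, e) rfl).symm
  have hFmul : ∀ t t' e e', F t e * F t' e' = F (t * t') (e + e') := by
    intro t t' e e'
    simp only [F, Pi.add_apply, zpow_add, Finset.prod_mul_distrib, Subgroup.coe_mul]
    exact mul_mul_mul_comm _ _ _ _
  have hdmul : ∀ x y, dec (x * y) = ((dec x).1 * (dec y).1, (dec x).2 + (dec y).2) := by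
    intro x y
    have : x * y = F ((dec x).1 * (dec y).1) ((dec x).2 + (dec y).2) := by
      rw [← hFmul, ← hdec x, ← hdec y]
    rw [this, hd2]
  let g : E →* T × Multiplicative (Fin r → ZMod 2) :=
    MonoidHom.mk' (fun x => ((dec x).1, Multiplicative.ofAdd fun i => ((dec x).2 i : ZMod 2))) (by
      intro x y
      refine Prod.ext ?_ ?_
      · change (dec (x * y)).1 = _
        rw [hdmul]
        rfl
      · change Multiplicative.ofAdd (fun i => ((dec (x * y)).2 i : ZMod 2)) =
          Multiplicative.ofAdd (fun i => ((dec x).2 i : ZMod 2)) *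
            Multiplicative.ofAdd (fun i => ((dec y).2 i : ZMod 2))
        rw [← ofAdd_add]
        congr 1
        funext i
        rw [hdmul]
        change (((dec x).2 i + (dec y).2 i : ℤ) : ZMod 2) = _
        rw [Int.cast_add]
        rfl)
  have hg : ∀ x, g x = ((dec x).1, Multiplicative.ofAdd fun i => ((dec x).2 i : ZMod 2)) :=
    fun _ => rfl
  have htt : ∀ t : T, t * t = 1 := by
    intro t
    apply Subtype.ext
    change (t : E) * (t : E) = 1
    rcases B2b_tors hr t t.2 with h | h
    · rw [h, one_mul]
    · rw [h]; simp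
  have hker : g.ker = MonoidHom.range (powMonoidHom 2 : E →* E) := by
    ext x
    rw [MonoidHom.mem_ker, MonoidHom.mem_range]
    constructor
    · intro hx
      rw [hg] at hx
      have h1 : (dec x).1 = 1 := congrArg Prod.fst hx
      have h2 : (fun i => ((dec x).2 i : ZMod 2)) = 0 :=
        Multiplicative.ofAdd.injective (congrArg Prod.snd hx)
      have h3 : ∀ i, ∃ k : ℤ, (dec x).2 i = k + k := by
        intro i
        have h4 : ((dec x).2 i : ZMod 2) = 0 := congrFun h2 i
        obtain ⟨k, hk⟩ := (ZMod.intCast_zmod_eq_zero_iff_dvd _ 2).1 h4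
        exact ⟨k, by rw [hk]; push_cast; ring⟩
      choose k hk using h3
      refine ⟨F 1 k, ?_⟩
      rw [powMonoidHom_apply, pow_two, hFmul, one_mul]
      have h5 : k + k = (dec x).2 := by
        funext i
        rw [hk i]
        rfl
      rw [h5, ← h1, ← hdec x]
    · rintro ⟨y, rfl⟩
      rw [powMonoidHom_apply, map_pow, hg, pow_two]
      refine Prod.ext ?_ ?_
      · exact htt _
      · change Multiplicative.ofAdd (fun i => ((dec y).2 i : ZMod 2)) *
          Multiplicative.ofAdd (fun i => ((dec y).2 i : ZMod 2)) = 1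
        rw [← ofAdd_add]
        change Multiplicative.ofAdd _ = Multiplicative.ofAdd 0
        congr 1
        funext i
        exact CharTwo.add_self_eq_zero _
  have hsurj : Function.Surjective g := by
    rintro ⟨t, e⟩
    refine ⟨F t (fun i => ((Multiplicative.toAdd e i).val : ℤ)), ?_⟩
    rw [hg, hd2]
    refine Prod.ext rfl ?_
    change Multiplicative.ofAdd (fun i => (((Multiplicative.toAdd e i).val : ℤ) : ZMod 2)) = e
    have : (fun i => (((Multiplicative.toAdd e i).val : ℤ) : ZMod 2)) = Multiplicative.toAdd e := by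
      funext i
      rw [Int.cast_natCast, ZMod.natCast_zmod_val]
    rw [this]
    rfl
  have hidx : g.ker.index = 2 ^ (r + 1) := by
    rw [Subgroup.index_ker, MonoidHom.range_eq_top.2 hsurj, Nat.card_congr Subgroup.topEquiv.toEquiv,
      Nat.card_prod, B2b_order hr]
    have h1 : Nat.card (Multiplicative (Fin r → ZMod 2)) = 2 ^ r := by
      rw [Nat.card_congr Multiplicative.toAdd, Nat.card_fun, Nat.card_zmod, Nat.card_fin]
    rw [h1, pow_succ, mul_comm]
  rw [← hker]
  exact hidx

/-- torsion `±1`, rank `n - 1` (`rank_real`, `units_finite` of the library) -/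
theorem card_units_sq (D : IntermediateField ℚ Om) [FiniteDimensional ℚ D] (hD : TotReal D) :
    (MonoidHom.range (powMonoidHom 2 : (ZF D)ˣ →* (ZF D)ˣ)).index = 2 ^ Module.finrank ℚ D := by
  have h1 := B2b_gen (K := FL D) (fun φ x => U2a_isReal D hD φ x)
  have h2 := rank_real D hD
  have h3 : Module.finrank ℤ (Additive (NumberField.RingOfIntegers (FL D))ˣ) =
      NumberField.Units.rank (FL D) := NumberField.Units.finrank_eq (FL D)
  have h4 : Module.finrank ℤ (UA D) = NumberField.Units.rank (FL D) := h3
  rw [h4] at h2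
  rw [← h2]
  exact h1

end OzakiFree
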