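import Pool.Agent.Lib.MP_6e8030_nt.W.Base

open IntermediateField
open scoped ComplexConjugate

noncomputable section

namespace OzakiFree

/-! ### B2c: squares modulo 4 -/

private theorem B2c_card (K : Type) [Field K] [NumberField K] (m : ℕ) :
    Nat.card (NumberField.RingOfIntegers K ⧸ Ideal.span {(m : NumberField.RingOfIntegers K)}) =
      m ^ Module.finrank ℚ K := by
  rw [← Submodule.cardQuot_apply, ← Ideal.absNorm_apply, Ideal.absNorm_span_singleton]
  have h1 : (m : NumberField.RingOfIntegers K) = algebraMap ℤ (NumberField.RingOfIntegers K) m := by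
    simp
  rw [h1, Algebra.norm_algebraMap, NumberField.RingOfIntegers.rank, Int.natAbs_pow, Int.natAbs_natCast]

private theorem B2c_index {G : Type} [CommGroup G] [Finite G] (f : G →* G) :
    f.range.index = Nat.card f.ker := by
  have h1 := f.range.card_mul_index
  have h2 := f.ker.card_mul_index
  rw [Subgroup.index_ker] at h2
  have h3 : 0 < Nat.card f.range := Nat.card_pos
  have h4 : Nat.card f.range * f.range.index = Nat.card f.range * Nat.card f.ker := by
    rw [h1, ← h2, mul_comm]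
  exact Nat.eq_of_mul_eq_mul_left h3 h4

private theorem B2c_half (K : Type) [Field K] [NumberField K] (x c : NumberField.RingOfIntegers K)
    (h : x ^ 2 - 1 = 4 * c) : ∃ z : NumberField.RingOfIntegers K, x = 1 + 2 * z := by
  have h2 : (algebraMap (NumberField.RingOfIntegers K) K x) ^ 2 - 1 =
      4 * algebraMap (NumberField.RingOfIntegers K) K c := by
    rw [← map_pow, ← map_one (algebraMap (NumberField.RingOfIntegers K) K), ← map_sub, h, map_mul, map_ofNat]
  have h1 : IsIntegral (NumberField.RingOfIntegers K)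
      ((algebraMap (NumberField.RingOfIntegers K) K x - 1) / 2) := by
    refine ⟨Polynomial.X ^ 2 + Polynomial.X - Polynomial.C c, by monicity!, ?_⟩
    rw [Polynomial.eval₂_sub, Polynomial.eval₂_add, Polynomial.eval₂_pow, Polynomial.eval₂_X, Polynomial.eval₂_C]
    linear_combination h2 / 4
  obtain ⟨z, hz⟩ := IsIntegrallyClosed.isIntegral_iff.1 h1
  refine ⟨z, ?_⟩
  apply FaithfulSMul.algebraMap_injective (NumberField.RingOfIntegers K) K
  rw [map_add, map_mul, map_one, map_ofNat, hz]
  ring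

private theorem B2c_gen (K : Type) [Field K] [NumberField K] :
    (MonoidHom.range (powMonoidHom 2 :
      (NumberField.RingOfIntegers K ⧸ Ideal.span {(4 : NumberField.RingOfIntegers K)})ˣ →*
      (NumberField.RingOfIntegers K ⧸ Ideal.span {(4 : NumberField.RingOfIntegers K)})ˣ)).index =
      2 ^ Module.finrank ℚ K := by
  set O := NumberField.RingOfIntegers K with hO
  have hfin : Finite (O ⧸ Ideal.span {(4 : O)}) := by
    apply Nat.finite_of_card_ne_zero
    have h1 := B2c_card K 4
    have h2 : ((4 : ℕ) : NumberField.RingOfIntegers K) = 4 := by norm_num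
    rw [h2] at h1
    rw [h1]
    positivity
  rw [B2c_index]
  have hsq : ∀ z : O, (Ideal.Quotient.mk (Ideal.span {(4 : O)}) (1 + 2 * z)) *
      (Ideal.Quotient.mk (Ideal.span {(4 : O)}) (1 + 2 * z)) = 1 := by
    intro z
    rw [← map_mul, ← map_one (Ideal.Quotient.mk (Ideal.span {(4 : O)})), Ideal.Quotient.eq,
      Ideal.mem_span_singleton']
    exact ⟨z + z ^ 2, by ring⟩
  let g : (O ⧸ Ideal.span {(2 : O)}) → (powMonoidHom 2 : (O ⧸ Ideal.span {(4 : O)})ˣ →*
      (O ⧸ Ideal.span {(4 : O)})ˣ).ker := fun q =>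
    ⟨⟨Ideal.Quotient.mk (Ideal.span {(4 : O)}) (1 + 2 * Quotient.out q),
      Ideal.Quotient.mk (Ideal.span {(4 : O)}) (1 + 2 * Quotient.out q), hsq _, hsq _⟩, by
      rw [MonoidHom.mem_ker]
      apply Units.ext
      show (Ideal.Quotient.mk (Ideal.span {(4 : O)}) (1 + 2 * Quotient.out q)) ^ 2 = 1
      rw [pow_two]
      exact hsq _⟩
  have hout : ∀ q : O ⧸ Ideal.span {(2 : O)}, Ideal.Quotient.mk (Ideal.span {(2 : O)}) (Quotient.out q) = q :=
    fun q => Quotient.out_eq q
  have hbij : Function.Bijective g := by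
    constructor
    · intro q q' h
      have h1 : Ideal.Quotient.mk (Ideal.span {(4 : O)}) (1 + 2 * Quotient.out q) =
          Ideal.Quotient.mk (Ideal.span {(4 : O)}) (1 + 2 * Quotient.out q') :=
        congrArg (fun u : (powMonoidHom 2 : (O ⧸ Ideal.span {(4 : O)})ˣ →*
          (O ⧸ Ideal.span {(4 : O)})ˣ).ker => (u.1 : O ⧸ Ideal.span {(4 : O)})) h
      rw [Ideal.Quotient.eq, Ideal.mem_span_singleton'] at h1
      obtain ⟨c, hc⟩ := h1
      rw [← hout q, ← hout q', Ideal.Quotient.eq, Ideal.mem_span_singleton']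
      refine ⟨c, ?_⟩
      have h2 : (2 : O) ≠ 0 := two_ne_zero
      apply mul_left_cancel₀ h2
      linear_combination hc
    · rintro ⟨u, hu⟩
      obtain ⟨x, hx⟩ := Ideal.Quotient.mk_surjective (u : O ⧸ Ideal.span {(4 : O)})
      rw [MonoidHom.mem_ker] at hu
      have hu' : (u : O ⧸ Ideal.span {(4 : O)}) ^ 2 = 1 := congrArg (fun u : (O ⧸ Ideal.span {(4 : O)})ˣ =>
        (u : O ⧸ Ideal.span {(4 : O)})) hu
      rw [← hx, ← map_pow, ← map_one (Ideal.Quotient.mk (Ideal.span {(4 : O)})), Ideal.Quotient.eq,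
        Ideal.mem_span_singleton'] at hu'
      obtain ⟨c, hc⟩ := hu'
      obtain ⟨z, hz⟩ := B2c_half K x c (by rw [← hc]; ring)
      refine ⟨Ideal.Quotient.mk (Ideal.span {(2 : O)}) z, ?_⟩
      apply Subtype.ext
      apply Units.ext
      show Ideal.Quotient.mk (Ideal.span {(4 : O)}) (1 + 2 * Quotient.out (Ideal.Quotient.mk (Ideal.span {(2 : O)}) z)) = u
      have h3 := hout (Ideal.Quotient.mk (Ideal.span {(2 : O)}) z)
      rw [Ideal.Quotient.eq, Ideal.mem_span_singleton'] at h3
      obtain ⟨w, hw⟩ := h3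
      rw [← hx, Ideal.Quotient.eq, Ideal.mem_span_singleton']
      refine ⟨w, ?_⟩
      rw [hz]
      linear_combination 2 * hw
  rw [← Nat.card_congr (Equiv.ofBijective g hbij)]
  have h1 := B2c_card K 2
  have h2 : ((2 : ℕ) : NumberField.RingOfIntegers K) = 2 := by norm_num
  rw [h2] at h1
  exact h1

/-- PROOF. `G = (O/4)ˣ` is finite, so the index of the squares is the number of `x ∈ G` with `x ^ 2 = 1`. If `x² ≡ 1 mod 4` then `z = (x - 1)/2 ∈ D` satisfies `z ^ 2 + z = (x ^ 2 - 1)/4 ∈ O`, so `z` is an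
integer: `x = 1 + 2 z`; conversely `(1 + 2 z) ^ 2 ≡ 1 mod 4`; `z ↦ 1 + 2 z mod 4` induces a bijection of `O/2` (of order `2 ^ n`) with the `x ∈ G`, `x² = 1`. -/
theorem card_mod4 (D : IntermediateField ℚ Om) [FiniteDimensional ℚ D] :
    (MonoidHom.range (powMonoidHom 2 : (ZF D ⧸ Ideal.span {(4 : ZF D)})ˣ →*
      (ZF D ⧸ Ideal.span {(4 : ZF D)})ˣ)).index = 2 ^ Module.finrank ℚ D := by
  exact B2c_gen (FL D)

end OzakiFree
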