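import Pool.Agent.Lib.MP_6e8030_nt.W.B2a
import Pool.Agent.Lib.MP_6e8030_nt.W.B2b
import Pool.Agent.Lib.MP_6e8030_nt.W.B2c

open IntermediateField
open scoped ComplexConjugate

noncomputable section

namespace OzakiFree

/-! ### B2d: a multiple by a unit is a square modulo 4 -/

theorem B2d_sup {E G : Type*} [CommGroup E] [CommGroup G] (f : E →* G) (E2 : Subgroup E) (S : Subgroup G) (N : ℕ)
    (hN : N ≠ 0) (h1 : E2.index = N) (h2 : S.index = N) (h3 : S.comap f = E2) : f.range ⊔ S = ⊤ := by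
  have e1 : S.relIndex f.range = N := by
    rw [← Subgroup.index_comap, h3, h1]
  have e2 : S.relIndex (f.range ⊔ S) = S.relIndex f.range := Subgroup.relIndex_sup_right _ _
  have e3 : S.relIndex (f.range ⊔ S) * (f.range ⊔ S).index = S.index :=
    Subgroup.relIndex_mul_index le_sup_right
  rw [e2, e1, h2] at e3
  have e4 : (f.range ⊔ S).index = 1 := by
    have := Nat.eq_of_mul_eq_mul_left (Nat.pos_of_ne_zero hN) (e3.trans (mul_one N).symm)
    exact this
  exact Subgroup.index_eq_one.1 e4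

theorem B2d_mk {R : Type*} [CommRing R] {x y : R}
    (h : Ideal.Quotient.mk (Ideal.span {(4 : R)}) x = Ideal.Quotient.mk (Ideal.span {(4 : R)}) y) :
    ∃ d, x = y + 4 * d := by
  rw [Ideal.Quotient.eq, Ideal.mem_span_singleton'] at h
  obtain ⟨d, hd⟩ := h
  exact ⟨d, by rw [mul_comm, hd]; ring⟩

/-- PROOF. The map `E/E² → (O/4)ˣ / squares` is injective: if `u ≡ x ^ 2 mod 4` then `u = c ^ 2 + 4 d` and `unit_square` applies. Both sides have `2 ^ n` elements (`card_units_sq`, `card_mod4`;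
`D` is totally real as a subfield of `ℚ_∞`), so it is bijective; apply surjectivity to `π⁻¹`. -/
theorem exists_unit_mul (D : IntermediateField ℚ Om) [FiniteDimensional ℚ D] (hD : D ≤ cycZp 2 ⊥)
    (hr : TotReal D) (π : ZF D) (hπ : ∃ e f : ZF D, e * π + f * 4 = 1) :
    ∃ (u : (ZF D)ˣ) (c d : ZF D), π * u = c ^ 2 + 4 * d := by
  obtain ⟨e, f, hef⟩ := hπ
  set q := Ideal.Quotient.mk (Ideal.span {(4 : ZF D)}) with hq
  have q4 : q 4 = 0 := Ideal.Quotient.eq_zero_iff_mem.2 (Ideal.subset_span rfl)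
  have hqe : q e * q π = 1 := by
    have := congrArg q hef
    rw [map_add, map_mul, map_mul, q4, mul_zero, add_zero, map_one] at this
    exact this
  have hsq : ∀ (z : (ZF D ⧸ Ideal.span {(4 : ZF D)})), ∃ c : ZF D, q c = z := fun z =>
    Ideal.Quotient.mk_surjective z
  have h3 : (MonoidHom.range (powMonoidHom 2 : (ZF D ⧸ Ideal.span {(4 : ZF D)})ˣ →*
      (ZF D ⧸ Ideal.span {(4 : ZF D)})ˣ)).comap (Units.map (q : ZF D →* _)) =
      MonoidHom.range (powMonoidHom 2 : (ZF D)ˣ →* (ZF D)ˣ) := by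
    ext u
    constructor
    · intro hu
      obtain ⟨z, hz⟩ := hu
      obtain ⟨c, hc⟩ := hsq z
      have e1 : q u = q (c ^ 2) := by
        have := congrArg Units.val hz
        rw [map_pow, hc]
        exact this.symm
      obtain ⟨d, hd⟩ := B2d_mk e1
      obtain ⟨v, hv⟩ := unit_square D hD u c d hd
      exact ⟨v, hv.symm⟩
    · rintro ⟨v, rfl⟩
      refine ⟨Units.map (q : ZF D →* _) v, ?_⟩
      rw [powMonoidHom_apply, powMonoidHom_apply, map_pow]
  have htop := B2d_sup (Units.map (q : ZF D →* _)) _ _ _ (pow_ne_zero _ two_ne_zero) (card_units_sq D hr)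
    (card_mod4 D) h3
  have hm : (Units.mk (q e) (q π) hqe ((mul_comm _ _).trans hqe)) ∈ (⊤ : Subgroup _) := Subgroup.mem_top _
  rw [← htop, Subgroup.mem_sup] at hm
  obtain ⟨r, ⟨u, rfl⟩, s, ⟨z, rfl⟩, hs⟩ := hm
  obtain ⟨c, hc⟩ := hsq ((z⁻¹ : (ZF D ⧸ Ideal.span {(4 : ZF D)})ˣ) : ZF D ⧸ Ideal.span {(4 : ZF D)})
  have e2 : q u * (z : ZF D ⧸ Ideal.span {(4 : ZF D)}) ^ 2 = q e := congrArg Units.val hs
  have e3 : (z : ZF D ⧸ Ideal.span {(4 : ZF D)}) * q c = 1 := by
    rw [hc]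
    exact z.mul_inv
  have e1 : q (π * u) = q (c ^ 2) := by
    rw [map_mul, map_pow]
    calc q π * q u = q π * q u * (z * q c) ^ 2 := by rw [e3, one_pow, mul_one]
      _ = (q u * z ^ 2) * q π * q c ^ 2 := by ring
      _ = q c ^ 2 := by rw [e2, hqe, one_mul]
  obtain ⟨d, hd⟩ := B2d_mk e1
  exact ⟨u, c, d, hd⟩

end OzakiFree
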