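import Pool.Agent.Lib.MP_6e8030_nt.W.B2d
import Pool.Agent.Lib.MP_6e8030_nt.W.L2

open IntermediateField
open scoped ComplexConjugate

noncomputable section

namespace OzakiFree

/-! ### B2e: the element `a` -/

/-- PROOF. `h` = class number of `D`, odd by `class_layer`; `(B ∩ D) ^ h = (π)`, `π` is prime to 2 (the only prime dividing it is `B ∩ D`, and `2 ∉ B`); `a = π u`, `u` from `exists_unit_mul`. -/
theorem exists_a (D : IntermediateField ℚ Om) [FiniteDimensional ℚ D] (hD : D ≤ cycZp 2 ⊥)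
    (hr : TotReal D) (B : Ideal ZO) (hB : B.IsMaximal) (h2 : (2 : ZO) ∉ B) :
    ∃ (a c d : ZF D) (h : ℕ), a ≠ 0 ∧ Odd h ∧ Ideal.span {a} = (B.comap (iota D)) ^ h ∧
      a = c ^ 2 + 4 * d := by
  have hdd : IsDedekindDomain (ZF D) := instDedekindZF D
  have hfin : Fintype (ClassGroup (ZF D)) :=
    inferInstanceAs (Fintype (ClassGroup (NumberField.RingOfIntegers (FL D))))
  have hPmax : (B.comap (iota D)).IsMaximal := comap_max D B hB
  have hnf : ¬ IsField (ZF D) := NumberField.RingOfIntegers.not_isField (FL D)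
  have hP0 : B.comap (iota D) ≠ ⊥ := Ring.ne_bot_of_isMaximal_of_not_isField hPmax hnf
  have h2P : (2 : ZF D) ∉ B.comap (iota D) := by
    rw [Ideal.mem_comap, map_ofNat]
    exact h2
  have hcl : ¬ 2 ∣ NumberField.classNumber (FL D) := class_layer Nat.prime_two D hD
  obtain ⟨h, hh⟩ : ∃ h, h = NumberField.classNumber (FL D) := ⟨_, rfl⟩
  rw [← hh] at hcl
  have hprin : Submodule.IsPrincipal ((B.comap (iota D)) ^ h) := by
    have h1 : ClassGroup.mk0 (⟨B.comap (iota D), mem_nonZeroDivisors_iff_ne_zero.2 hP0⟩ :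
        nonZeroDivisors (Ideal (ZF D))) ^ h = 1 := by
      have h3 : h = Fintype.card (ClassGroup (ZF D)) := by
        rw [hh]
        unfold NumberField.classNumber
        exact Fintype.card_congr (Equiv.refl _)
      rw [h3]
      exact pow_card_eq_one
    rw [← map_pow, ClassGroup.mk0_eq_one_iff] at h1
    exact h1
  obtain ⟨π, hπ⟩ := hprin
  have hcop : IsCoprime ((B.comap (iota D)) ^ h) (Ideal.span {(2 : ZF D)} ^ 2) := by
    refine IsCoprime.pow ?_
    rw [Ideal.isCoprime_iff_sup_eq]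
    refine hPmax.1.2 _ ?_
    exact lt_of_le_of_ne le_sup_left fun he => h2P (by
      rw [he]
      exact Ideal.mem_sup_right (Ideal.mem_span_singleton_self _))
  have hsp : (B.comap (iota D)) ^ h = Ideal.span {π} := hπ
  rw [hsp, Ideal.span_singleton_pow, Ideal.isCoprime_span_singleton_iff] at hcop
  obtain ⟨e, f, hef⟩ := hcop
  obtain ⟨u, c, d, hu⟩ := exists_unit_mul D hD hr π ⟨e, f, by rw [← hef]; norm_num⟩
  refine ⟨π * u, c, d, h, ?_, ?_, ?_, hu⟩
  · intro h0
    have h3 : π = 0 := by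
      rcases mul_eq_zero.1 h0 with h4 | h4
      · exact h4
      · exact absurd h4 u.ne_zero
    rw [h3, Ideal.span_singleton_zero] at hsp
    exact pow_ne_zero h hP0 hsp
  · rw [← Nat.not_even_iff_odd, even_iff_two_dvd]
    exact hcl
  · rw [hsp]
    exact Ideal.span_singleton_mul_right_unit u.isUnit π

end OzakiFree
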