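import Pool.Agent.Lib.MP_6e8030_nt.W.Base

open IntermediateField
open scoped ComplexConjugate

noncomputable section

namespace OzakiFree

/-! ### B2f: ramification in `D(√a)` -/

/-- a field containing `y` -/
theorem B2f_lift (M : IntermediateField ℚ Om) (y : Om) (hy : y ∈ M) (hi : IsIntegral ℤ y) :
    ∃ y' : ZF M, y'.val = y := by
  have hyi : IsIntegral ℤ (⟨y, hy⟩ : FL M) := by
    refine (isIntegral_algHom_iff (FLhom M).toIntAlgHom (FLhom M).injective).1 ?_
    exact hi
  exact ⟨⟨⟨y, hy⟩, hyi⟩, rfl⟩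

theorem B2f_even (M : IntermediateField ℚ Om) [FiniteDimensional ℚ M] (B : Ideal ZO)
    (hB : B.IsMaximal) (y : ZF M) (hy : y ≠ 0) :
    multiplicity (B.comap (iota M)) (Ideal.span {y ^ 2}) =
      2 * multiplicity (B.comap (iota M)) (Ideal.span {y}) := by
  obtain ⟨hQ, hQ0⟩ := U3_comap_maximal M B hB
  have hpr := Ideal.prime_of_isPrime hQ0 hQ
  have hyI : Ideal.span {y} ≠ ⊥ := by
    rw [Ne, Ideal.span_singleton_eq_bot]
    exact hy
  have hf : FiniteMultiplicity (B.comap (iota M)) (Ideal.span {y}) :=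
    FiniteMultiplicity.of_prime_left hpr hyI
  rw [← Ideal.span_singleton_pow]
  exact hf.multiplicity_pow hpr

/-- the field fixed by the elements fixing `D` -/
theorem B2f_mem (D : IntermediateField ℚ Om) (y : Om) (h : ∀ t ∈ D.fixingSubgroup, t y = y) :
    y ∈ D := by
  have h1 := InfiniteGalois.fixedField_fixingSubgroup D
  rw [← h1, IntermediateField.mem_fixedField_iff]
  exact h

/-- PROOF. (i) Let `t ∈ I_{B'} ⊓ D.fixingSubgroup`, `B' ∩ D ≠ B ∩ D =: q`. Then `a ∉ B'` (the only prime containing `a` is `q`). If `2 ∉ B'` use GD (`r = 1, b = w = a, y = 1`), if `2 ∈ B'` use GE.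
(ii) Suppose all `t ∈ I_B` (they are in `PQ 2 ≤ D.fixingSubgroup`) fix `y`. If `y ∈ D` then `(a) = (y) ^ 2` has even multiplicity `h` at `q`, contradiction. Otherwise `M = D(y)` is cyclic of degree 2 over `D`
(`field_of_char`, U14), and `mult_ram` (U3) gives `e = 1`: the multiplicity of `B ∩ M` in `(a)` is that of `q`, i.e. `h`, odd; but it is twice that of `y`. -/
theorem theta_facts (D : IntermediateField ℚ Om) [FiniteDimensional ℚ D] (hD : D ≤ cycZp 2 ⊥)
    (B : Ideal ZO) (hB : B.IsMaximal) (h2 : (2 : ZO) ∉ B) (a c d : ZF D) (h : ℕ) (ha : a ≠ 0)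
    (hh : Odd h) (hq : Ideal.span {a} = (B.comap (iota D)) ^ h) (hacd : a = c ^ 2 + 4 * d)
    (y : Om) (hy : y ^ 2 = a.val) :
    (∀ B' : Ideal ZO, B'.IsMaximal → ∀ t ∈ B'.inertia GQ, t ∈ D.fixingSubgroup →
      B'.comap (iota D) ≠ B.comap (iota D) → t y = y) ∧ ∃ t ∈ B.inertia GQ, t y ≠ y := by
  have hp2 : Nat.Prime 2 := Nat.prime_two
  have hval : ∀ t ∈ D.fixingSubgroup, ∀ x : ZF D, t x.val = x.val :=
    fun t ht x => fix_F ht _ (ZF_val_mem x)
  have haval : a.val ≠ 0 := fun h0 => ha (ZF_val_inj a 0 h0)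
  have hyi : IsIntegral ℤ y := by
    apply IsIntegral.of_pow (n := 2) (by norm_num)
    rw [hy]
    exact ZF_val_isIntegral a
  constructor
  · intro B' hB' t ht htD hne
    have haB' : iota D a ∉ B' := by
      intro hmem
      apply hne
      have h1 : (B.comap (iota D)) ^ h ≤ B'.comap (iota D) := by
        rw [← hq, Ideal.span_singleton_le_iff_mem]
        exact hmem
      have h3 : B.comap (iota D) ≤ B'.comap (iota D) :=
        (comap_max D B' hB').isPrime.le_of_pow_le h1
      exact ((comap_max D B hB).eq_of_le (comap_max D B' hB').ne_top h3).symm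
    by_cases h2' : (2 : ZO) ∈ B'
    · have hc : iota D c ∉ B' := by
        intro hcm
        apply haB'
        rw [hacd, map_add, map_pow, map_mul]
        refine B'.add_mem (B'.pow_mem_of_mem hcm 2 (by norm_num)) (B'.mul_mem_right _ ?_)
        have h4 : iota D 4 = 2 * 2 := by
          rw [map_ofNat]
          norm_num
        rw [h4]
        exact B'.mul_mem_right _ h2'
      refine inertia_fix_p hp2 B' hB' (by exact_mod_cast h2') t ht ?_ y (iota D a) (iota D c)
        (iota D d) (hval t htD c) (hval t htD a) hc ?_ hy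
      · intro ζ hζ
        rcases sq_eq_one_iff.1 hζ with h5 | h5
        · rw [h5, map_one]
        · rw [h5, map_neg, map_one]
      · rw [hacd, map_add, map_pow, map_mul, map_ofNat]
        norm_num
    · exact inertia_fix_div hp2 B' hB' (by exact_mod_cast h2') t ht y 1 1 (iota D a) (iota D a)
        (map_one t) (hval t htD a) (map_one t) ((Ideal.ne_top_iff_one B').1 hB'.ne_top) haB'
        one_ne_zero hy (by simp)
  · by_contra hcon
    push Not at hcon
    have hI : ∀ t ∈ B.inertia GQ, t ∈ D.fixingSubgroup := by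
      intro t ht
      have h3 := inertia_mem_PQ hp2 B hB (by exact_mod_cast h2) t ht
      unfold PQ at h3
      rw [IntermediateField.mem_fixingSubgroup_iff] at h3 ⊢
      exact fun x hx => h3 x (hD hx)
    obtain ⟨hq1, hq0⟩ := U3_comap_maximal D B hB
    have hpr := Ideal.prime_of_isPrime hq0 hq1
    have hmult : multiplicity (B.comap (iota D)) (Ideal.span {a}) = h := by
      rw [hq]
      exact multiplicity_pow_self_of_prime hpr h
    by_cases hyD : y ∈ D
    · obtain ⟨y', hy'⟩ := B2f_lift D y hyD hyi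
      have h3 : a = y' ^ 2 := by
        apply ZF_val_inj
        rw [← hy, ← hy']
        rfl
      have hy0 : y' ≠ 0 := by
        intro h0
        apply ha
        rw [h3, h0]
        simp
      have h4 := B2f_even D B hB y' hy0
      rw [← h3, hmult] at h4
      rw [h4] at hh
      exact (Nat.not_odd_iff_even.2 (even_two_mul _)) hh
    · have hζ : IsPrimitiveRoot (-1 : Om) 2 := IsPrimitiveRoot.neg_one 0 (by norm_num)
      have hθ0 : ∀ σ ∈ D.fixingSubgroup, chi (p := 2) (-1) y σ = 0 ↔ σ y = y :=
        fun σ hσ => chiF_zero_iff hp2 hζ hy haval σ (hval σ hσ a)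
      obtain ⟨M, hM, hcyc, hMf⟩ := field_of_char hp2 D (chi (p := 2) (-1) y)
        (chiF_homOn hp2 hζ hy haval _ (fun σ _ => by rw [map_neg, map_one])
          (fun σ hσ => hval σ hσ a)) (chiF_lcOn _) (by
            by_contra hno
            push Not at hno
            exact hyD (B2f_mem D y fun t ht => (hθ0 t ht).1 (hno t ht)))
      have hyM : y ∈ M := by
        apply B2f_mem
        intro t ht
        have h3 := (hMf t).1 ht
        exact (hθ0 t h3.1).1 h3.2
      obtain ⟨y', hy'⟩ := B2f_lift M y hyM hyi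
      have h3 : (y' ^ 2 : ZF M).val = a.val := by
        rw [← hy, ← hy']
        rfl
      obtain ⟨e, -, he, hmul⟩ := mult_ram hp2 D M hcyc B hB
      have he1 : e = 1 := he fun t ht htD => (hMf t).2 ⟨htD, (hθ0 t htD).2 (hcon t ht)⟩
      have h4 := hmul a (y' ^ 2) ha h3
      rw [he1, one_mul, hmult] at h4
      have hy0 : y' ≠ 0 := by
        intro h0
        apply haval
        rw [← h3, h0]
        simp
        rfl
      rw [B2f_even M B hB y' hy0] at h4
      rw [← h4] at hh
      exact (Nat.not_odd_iff_even.2 (even_two_mul _)) hh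

end OzakiFree
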