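import Pool.Agent.Lib.MP_6e8030_nt.W.A2

open IntermediateField
open scoped ComplexConjugate

noncomputable section

namespace OzakiFree

/-! ### Rp: finite sets of representatives -/

private theorem Rp_aux (G : Subgroup GQ) (hG : IsOpen (G : Set GQ)) (ν : GQ ⧸ G → GQ)
    (hν : ∀ q, (QuotientGroup.mk (ν q) : GQ ⧸ G) = q) :
    ∃ T : Finset GQ, (∀ s ∈ T, ∃ q, s = ν q) ∧ ∀ g : GQ, ∃! s, s ∈ T ∧ s⁻¹ * g ∈ G := by
  classical
  have hc : CompactSpace GQ := inferInstance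
  have hf : Finite (GQ ⧸ G) := Subgroup.quotient_finite_of_isOpen G hG
  have hft : Fintype (GQ ⧸ G) := Fintype.ofFinite _
  refine ⟨Finset.univ.image ν, ?_, ?_⟩
  · intro s hs
    obtain ⟨q, -, rfl⟩ := Finset.mem_image.1 hs
    exact ⟨q, rfl⟩
  · intro g
    refine ⟨ν (QuotientGroup.mk g), ⟨Finset.mem_image_of_mem _ (Finset.mem_univ _), ?_⟩, ?_⟩
    · exact QuotientGroup.eq.1 (hν _)
    · rintro s ⟨hs, h⟩
      obtain ⟨q, -, rfl⟩ := Finset.mem_image.1 hs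
      have h1 : (QuotientGroup.mk (ν q) : GQ ⧸ G) = QuotientGroup.mk g := QuotientGroup.eq.2 h
      rw [hν] at h1
      rw [h1]

/-- an open subgroup has finite index (`GQ` is compact) -/
theorem exists_reps (G : Subgroup GQ) (hG : IsOpen (G : Set GQ)) :
    ∃ T : Finset GQ, ∀ g : GQ, ∃! s, s ∈ T ∧ s⁻¹ * g ∈ G := by
  obtain ⟨T, -, hT⟩ := Rp_aux G hG Quotient.out (fun q => Quotient.out_eq' q)
  exact ⟨T, hT⟩

/-- representatives in the inertia group: `g = ν x`, `ν ∈ I_B`, `x ∈ PQ 2` (`hP.surj`), `ν⁻¹ g ∈ PQ 2 ≤ G` -/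
theorem exists_reps_in {B : Ideal ZO} {φ : GQ} (hP : Prime2 B φ) (G : Subgroup GQ)
    (hG : IsOpen (G : Set GQ)) (hPG : PQ 2 ≤ G) :
    ∃ T : Finset GQ, (∀ s ∈ T, s ∈ B.inertia GQ) ∧ ∀ g : GQ, ∃! s, s ∈ T ∧ s⁻¹ * g ∈ G := by
  choose ν hν1 hν2 using hP.surj
  obtain ⟨T, h1, hT⟩ := Rp_aux G hG (fun q => ν (Quotient.out q)) (fun q => by
    have h2 : (QuotientGroup.mk (ν (Quotient.out q)) : GQ ⧸ G) = QuotientGroup.mk (Quotient.out q) :=
      QuotientGroup.eq.2 (hPG (hν2 _))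
    rw [h2]
    exact Quotient.out_eq' q)
  refine ⟨T, fun s hs => ?_, hT⟩
  obtain ⟨q, rfl⟩ := h1 s hs
  exact hν1 _

private theorem Rp_int (z : ZF (⊥ : IntermediateField ℚ Om)) :
    ∃ n : ℤ, ((iota ⊥ z : ZO) : Om) = n := by
  obtain ⟨q, hq⟩ := IntermediateField.mem_bot.1 (ZF_val_mem z)
  have h1 : IsIntegral ℤ q := by
    have h2 : IsIntegral ℤ (algebraMap ℚ Om q) := by
      rw [hq]
      exact ZF_val_isIntegral z
    exact (isIntegral_algebraMap_iff (algebraMap ℚ Om).injective).1 h2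
  obtain ⟨n, hn⟩ := IsIntegrallyClosed.isIntegral_iff.1 h1
  refine ⟨n, ?_⟩
  rw [iota_coe, ← hq, ← hn]
  simp

private theorem Rp_mem (B : Ideal ZO) (hB : B.IsMaximal) (h2 : (2 : ZO) ∈ B) (n : ℤ) (x : ZO)
    (hx : (x : Om) = n) : x ∈ B ↔ (2 : ℤ) ∣ n := by
  have hx' : x = (n : ZO) := Subtype.ext (by rw [hx]; push_cast; rfl)
  rw [hx']
  constructor
  · intro h
    by_contra hn
    obtain ⟨k, hk⟩ := Int.not_even_iff_odd.1 (fun he => hn he.two_dvd)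
    apply hB.ne_top
    rw [Ideal.eq_top_iff_one]
    have h3 : (1 : ZO) = (n : ZO) - (k : ZO) * 2 := by rw [hk]; push_cast; ring
    rw [h3]
    exact B.sub_mem h (B.mul_mem_left _ h2)
  · rintro ⟨k, rfl⟩
    push_cast
    exact B.mul_mem_right _ h2

/-- all maximal ideals over 2 are conjugate under `PQ 2`: `trans_F` for `⊥` gives `B' = g B`; `ν ∈ I_B` with `ν⁻¹ g⁻¹ ∈ PQ 2`, and `g ν` instead of `g` -/
theorem conj2 {B : Ideal ZO} {φ : GQ} (hP : Prime2 B φ) (B' : Ideal ZO) (hB' : B'.IsMaximal)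
    (h2 : (2 : ZO) ∈ B') : ∃ g ∈ PQ 2, Mv g B' B := by
  have h : B.comap (iota ⊥) = B'.comap (iota ⊥) := by
    ext z
    obtain ⟨n, hn⟩ := Rp_int z
    rw [Ideal.mem_comap, Ideal.mem_comap, Rp_mem B hP.max hP.two n _ hn, Rp_mem B' hB' h2 n _ hn]
  obtain ⟨g, -, hg⟩ := trans_F ⊥ B B' hP.max hB' h
  have hg' : Mv g B B' := hg
  obtain ⟨ν, hν, hνg⟩ := hP.surj g
  refine ⟨g⁻¹ * ν, ?_, hg'.inv.mul (inertia_le_DB B hν)⟩
  have h3 := (PQ 2).inv_mem hνg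
  rwa [mul_inv_rev, inv_inv] at h3

end OzakiFree
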