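import Pool.Agent.Lib.MP_6e8030_nt.W.Cg
import Pool.Agent.Lib.MP_6e8030_nt.W.Rp

open IntermediateField
open scoped ComplexConjugate

noncomputable section

namespace OzakiFree

/-! ### B3c: congruences in the layers -/

private theorem B3c_lift (F : IntermediateField ℚ Om) (z : ZO) (hz : (z : Om) ∈ F) :
    ∃ w : ZF F, iota F w = z := by
  have h1 : IsIntegral ℤ ((⟨(z : Om), hz⟩ : F) : F) := by
    have h2 : IsIntegral ℤ ((algebraMap F Om) (⟨(z : Om), hz⟩ : F)) := z.2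
    exact (isIntegral_algebraMap_iff (algebraMap F Om).injective).1 h2
  refine ⟨(⟨(⟨(z : Om), hz⟩ : F), ?_⟩ : NumberField.RingOfIntegers (FL F)), ?_⟩
  · exact h1
  · exact Subtype.ext rfl

private theorem B3c_inj (F : IntermediateField ℚ Om) (z w : ZF F) (h : iota F z = iota F w) :
    z = w := by
  refine ZF_val_inj z w ?_
  exact congrArg (Subtype.val : ZO → Om) h

/-- elements of `PQ 2` fix the elements of the layers -/
private theorem B3c_fix (D : IntermediateField ℚ Om) (hD : D ≤ cycZp 2 ⊥) (g : GQ) (hg : g ∈ PQ 2)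
    (x : ZF D) : g • (iota D x) = iota D x := by
  apply Subtype.ext
  rw [integralClosure.coe_smul]
  exact (IntermediateField.mem_fixingSubgroup_iff _ _).1 hg x.val (hD (ZF_val_mem x))

/-- the ideal of the `r` with `2 ^ n ∣ r x` -/
private def B3c_I (n : ℕ) (x : ZO) : Ideal ZO where
  carrier := {r | ∃ z, r * x = 2 ^ n * z}
  add_mem' := by
    rintro a b ⟨z, hz⟩ ⟨w, hw⟩
    exact ⟨z + w, by rw [add_mul, hz, hw, mul_add]⟩
  zero_mem' := ⟨0, by rw [zero_mul, mul_zero]⟩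
  smul_mem' := by
    rintro c a ⟨z, hz⟩
    exact ⟨c * z, by rw [smul_eq_mul, mul_assoc, hz]; ring⟩

private theorem B3c_mem {n : ℕ} {x r : ZO} : r ∈ B3c_I n x ↔ ∃ z, r * x = 2 ^ n * z := Iff.rfl

/-- PROOF. All maximal ideals `B'` over 2 are conjugate to `B` by elements `g ∈ PQ 2`, which fix `D`: (`trans_F` for `⊥`: `B' = g B`; take `ν ∈ I_B` with `ν⁻¹ g⁻¹ ∈ PQ 2` and replace `g` by `g ν`). So
`CongB B' n x 0` for all `B'` over 2. Let `J = {s ∈ ZF D | 2 ^ n ∣ s * x}`, an ideal. It contains `2 ^ n`; if it were contained in a maximal ideal `q` of `ZF D` then `2 ∈ q`, `q = B' ∩ D`, and `r x = 2 ^ n z` with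
`r ∈ ZO`, `r ∉ B'`; need `r ∈ ZF D`: the set `{r ∈ ZO | 2 ^ n ∣ r x in ZO}` is an ideal `I'` of `ZO`, stable under `D.fixingSubgroup`, not contained in any maximal ideal (for `B'` odd: it contains `2 ^ n`), so `1 ∈ I'` directly.
So `x = 2 ^ n y` with `y ∈ ZO`, `y ∈ D`. -/
theorem cong_layer {B : Ideal ZO} {φ : GQ} (hP : Prime2 B φ) (D : IntermediateField ℚ Om)
    (hD : D ≤ cycZp 2 ⊥) (n : ℕ) (x : ZF D) (h : CongB B n (iota D x) 0) :
    ∃ y : ZF D, x = 2 ^ n * y := by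
  obtain ⟨r, z, hr, hrz⟩ := h
  rw [sub_zero] at hrz
  have htop : B3c_I n (iota D x) = ⊤ := by
    by_contra hne
    obtain ⟨B', hB', hle⟩ := Ideal.exists_le_maximal _ hne
    have h2n : (2 : ZO) ^ n ∈ B' := hle (B3c_mem.2 ⟨iota D x, rfl⟩)
    have h2 : (2 : ZO) ∈ B' := hB'.isPrime.mem_of_pow_mem n h2n
    obtain ⟨g, hg, hgB⟩ := conj2 hP B' hB' h2
    apply hr
    rw [hgB r]
    refine hle (B3c_mem.2 ⟨g • z, ?_⟩)
    have h3 := congrArg (fun y : ZO => g • y) hrz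
    simp only [smul_mul'] at h3
    rw [B3c_fix D hD g hg x] at h3
    rw [h3]
    congr 1
    apply Subtype.ext
    rw [integralClosure.coe_smul]
    show g (((2 : ZO) ^ n : ZO) : Om) = (((2 : ZO) ^ n : ZO) : Om)
    have h4 : (((2 : ZO) ^ n : ZO) : Om) = (2 : Om) ^ n := rfl
    rw [h4, map_pow, map_ofNat]
  have h1 : (1 : ZO) ∈ B3c_I n (iota D x) := by
    rw [htop]
    exact Submodule.mem_top
  obtain ⟨y, hy⟩ := B3c_mem.1 h1
  rw [one_mul] at hy
  have hyD : (y : Om) ∈ D := by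
    have h5 : x.val = (2 : Om) ^ n * (y : Om) := congrArg (Subtype.val : ZO → Om) hy
    have h6 : (y : Om) = ((2 : Om) ^ n)⁻¹ * x.val := by
      rw [h5, inv_mul_cancel_left₀ (pow_ne_zero n two_ne_zero)]
    rw [h6]
    exact D.mul_mem (D.inv_mem (pow_mem (ofNat_mem D 2) n)) (ZF_val_mem x)
  obtain ⟨w, hw⟩ := B3c_lift D y hyD
  refine ⟨w, B3c_inj D _ _ ?_⟩
  rw [map_mul, map_pow, map_ofNat, hw]
  exact hy

end OzakiFree
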