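import Pool.Agent.Lib.MP_6e8030_nt.W.Cg

open IntermediateField
open scoped ComplexConjugate

noncomputable section

namespace OzakiFree

/-! ### B3d: approximation -/

private theorem B3d_dedekind (M : IntermediateField ℚ Om) [FiniteDimensional ℚ M] :
    IsDedekindDomain (ZF M) :=
  inferInstanceAs (IsDedekindDomain (NumberField.RingOfIntegers (FL M)))

private theorem B3d_exists_tau {p : ℕ} (hp : p.Prime) (D M : IntermediateField ℚ Om)
    (h : CycDM p D M) : ∃ τ : GQ, τ ∈ D.fixingSubgroup ∧ τ ∉ M.fixingSubgroup := by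
  by_contra hcon
  push Not at hcon
  have h1 : M ≤ D := by
    rw [← InfiniteGalois.fixedField_fixingSubgroup M,
      ← InfiniteGalois.fixedField_fixingSubgroup D]
    exact IntermediateField.fixedField_antitone hcon
  have h2 := h.deg
  rw [IntermediateField.relfinrank_eq_one_iff.2 h1] at h2
  exact hp.one_lt.ne h2

/-- elements of a high power of `q` are divisible by `2 ^ n` at `q` -/
private theorem B3d_div {R : Type*} [CommRing R] [IsDedekindDomain R] (q : Ideal R)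
    (hq : q.IsMaximal) (hq0 : q ≠ ⊥) (a : R) (ha : a ≠ 0) (n : ℕ) :
    ∃ N : ℕ, ∀ y ∈ q ^ N, ∃ r z : R, r ∉ q ∧ r * y = a ^ n * z := by
  obtain ⟨π, hπ, hπ0, hu⟩ := exists_uniformizer q hq hq0
  obtain ⟨r1, w1, hr1, hw1, h1⟩ := hu a ha
  refine ⟨multiplicity q (Ideal.span {a}) * n, fun y hy => ?_⟩
  by_cases hy0 : y = 0
  · refine ⟨1, 0, fun h => hq.ne_top ((Ideal.eq_top_iff_one q).2 h), ?_⟩
    rw [hy0, mul_zero, mul_zero]
  obtain ⟨r2, w2, hr2, hw2, h2⟩ := hu y hy0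
  have hqp : Prime q := Ideal.prime_of_isPrime hq0 hq.isPrime
  have hsb : (Ideal.span {y} : Ideal R) ≠ 0 := by
    simpa [Ideal.zero_eq_bot, Ideal.span_singleton_eq_bot] using hy0
  have hfin : FiniteMultiplicity q (Ideal.span {y}) := FiniteMultiplicity.of_prime_left hqp hsb
  have hle : multiplicity q (Ideal.span {a}) * n ≤ multiplicity q (Ideal.span {y}) := by
    apply hfin.le_multiplicity_of_pow_dvd
    rw [Ideal.dvd_span_singleton]
    exact hy
  obtain ⟨m, hm⟩ := Nat.exists_eq_add_of_le hle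
  rw [hm] at h2
  refine ⟨r2 * w1 ^ n, r1 ^ n * π ^ m * w2, ?_, ?_⟩
  · intro h
    rcases hq.isPrime.mem_or_mem h with h | h
    · exact hr2 h
    · exact hw1 (hq.isPrime.mem_of_pow_mem n h)
  · have h3 : (r1 * a) ^ n = (π ^ (multiplicity q (Ideal.span {a})) * w1) ^ n := by rw [h1]
    rw [mul_pow, mul_pow, ← pow_mul] at h3
    calc r2 * w1 ^ n * y = (r2 * y) * w1 ^ n := by ring
      _ = π ^ (multiplicity q (Ideal.span {a}) * n) * w1 ^ n * π ^ m * w2 := by
          rw [h2, pow_add]; ring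
      _ = a ^ n * (r1 ^ n * π ^ m * w2) := by rw [← h3]; ring

/-- PROOF. Let `τ ∈ E₁.fixingSubgroup`, `τ ∉ E₂.fixingSubgroup`. The primes `q = B ∩ E₂` and `q' = τ B ∩ E₂ = τ⁻¹ B ∩ E₂` (`τ² ∈ E₂.fixingSubgroup`) are different: otherwise (`trans_F` for `E₂`) `τ B = g B` with
`g ∈ E₂.fixingSubgroup`, so `g⁻¹ τ ∈ DB B ⊓ E₁.fixingSubgroup ≤ E₂.fixingSubgroup`, contradiction. Choose `e ∈ ZF E₂` with `e ≡ 1 mod q ^ N`, `e ≡ 0 mod q' ^ N` (CRT), `x := e α + τ(e α) ∈ E₁`. Then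
`x - α = (e - 1) α + τ(e) τ(α)`, `e - 1 ∈ q ^ N` and `τ(e) ∈ τ(q') ^ N = q ^ N`. Elements of `q ^ N` are `≡ 0 mod 2 ^ n` at `B` when `N` is large: (if `2 ∉ B` trivial) with a uniformizer `π` of `q` (GA
`exists_uniformizer`): `r * 2 = π ^ k w`, `r, w ∉ q`, and `r' b = π ^ (mult) w'` with `mult ≥ N = k n`. -/
theorem approx {B : Ideal ZO} (hB : B.IsMaximal) (E₁ E₂ : IntermediateField ℚ Om)
    [FiniteDimensional ℚ E₁] [FiniteDimensional ℚ E₂] (hc : CycDM 2 E₁ E₂)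
    (hdec : ∀ d ∈ DB B, d ∈ E₁.fixingSubgroup → d ∈ E₂.fixingSubgroup) (α : ZF E₂) (n : ℕ) :
    ∃ x : ZF E₁, CongB B n (iota E₂ α) (iota E₁ x) := by
  classical
  by_cases h2 : (2 : ZO) ∈ B
  swap
  · refine ⟨0, 2 ^ n, iota E₂ α - iota E₁ 0, ?_, rfl⟩
    exact fun h => h2 (hB.isPrime.mem_of_pow_mem n h)
  have := B3d_dedekind E₂
  obtain ⟨τ, hτ1, hτ2⟩ := B3d_exists_tau Nat.prime_two E₁ E₂ hc
  have hst : ∀ x ∈ E₂, τ x ∈ E₂ := hc.stable τ hτ1
  set σ : ZF E₂ →+* ZF E₂ := actZ E₂ τ hst with hσ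
  have hττ : ∀ x ∈ E₂, τ (τ x) = x := by
    intro x hx
    have h := (U5_gal Nat.prime_two E₁ E₂ hc).1 τ hτ1 x hx
    rw [pow_two, AlgEquiv.mul_apply] at h
    exact h
  have hσσ : ∀ z, σ (σ z) = z := by
    intro z
    apply ZF_val_inj
    rw [hσ, actZ_val, actZ_val]
    exact hττ _ (ZF_val_mem z)
  set q : Ideal (ZF E₂) := B.comap (iota E₂) with hqdef
  set q' : Ideal (ZF E₂) := q.comap σ with hq'def
  have hsurj : Function.Surjective σ := fun z => ⟨σ z, hσσ z⟩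
  have hq0 : q ≠ ⊥ := (U3_comap_maximal E₂ B hB).2
  have hqmax : q.IsMaximal := (U3_comap_maximal E₂ B hB).1.isMaximal hq0
  have hq'max : q'.IsMaximal := Ideal.comap_isMaximal_of_surjective σ hsurj
  have hne : q ≠ q' := by
    intro heq
    obtain ⟨B', hB', hmv⟩ := exists_Mv τ B hB
    have hcomap : B.comap (iota E₂) = B'.comap (iota E₂) := by
      rw [← hqdef, heq]
      ext z
      rw [hq'def, Ideal.mem_comap, hqdef, Ideal.mem_comap, Ideal.mem_comap, hmv]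
      have : τ • iota E₂ z = iota E₂ (σ z) := Subtype.ext rfl
      rw [this]
    obtain ⟨g, hg, hgB⟩ := trans_F E₂ B B' hB hB' hcomap
    have h3 : Mv (g * τ⁻¹) B B := Mv.mul hgB hmv.inv
    have hg1 : g ∈ E₁.fixingSubgroup := by
      rw [IntermediateField.mem_fixingSubgroup_iff] at hg ⊢
      exact fun x hx => hg x (hc.le hx)
    have h4 := hdec _ h3 (mul_mem hg1 (inv_mem hτ1))
    have h5 : τ⁻¹ ∈ E₂.fixingSubgroup := by
      have := mul_mem (inv_mem hg) h4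
      rwa [inv_mul_cancel_left] at this
    exact hτ2 (by have := inv_mem h5; rwa [inv_inv] at this)
  have h20 : (2 : ZF E₂) ≠ 0 := by
    intro h
    have h3 := congrArg (fun z : ZF E₂ => ((iota E₂ z : ZO) : Om)) h
    simp only [map_ofNat, map_zero] at h3
    exact two_ne_zero (α := Om) h3
  obtain ⟨N, hN⟩ := B3d_div q hqmax hq0 2 h20 n
  have hcop : IsCoprime (q ^ N) (q' ^ N) :=
    ((Ideal.isCoprime_of_isMaximal hne).pow_left).pow_right
  obtain ⟨a, ha, e, he, hae⟩ := Ideal.isCoprime_iff_exists.1 hcop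
  have hσe : σ e ∈ q ^ N := by
    have h3 : σ e ∈ Ideal.map σ (q' ^ N) := Ideal.mem_map_of_mem σ he
    rw [Ideal.map_pow] at h3
    exact Ideal.pow_right_mono Ideal.map_comap_le N h3
  -- the element
  have hfix : τ (e * α + σ (e * α)).val = (e * α + σ (e * α)).val := by
    have h3 : σ (e * α + σ (e * α)) = e * α + σ (e * α) := by
      rw [map_add, hσσ, add_comm]
    exact congrArg ZF.val h3
  have hmem := U2b_mem Nat.prime_two hc hτ1 hτ2 _ (ZF_val_mem (e * α + σ (e * α))) hfix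
  obtain ⟨x, hx⟩ := U2b_lift (e * α + σ (e * α)) hmem
  have hxi : iota E₁ x = iota E₂ (e * α + σ (e * α)) := Subtype.ext hx
  obtain ⟨r, z, hr, hrz⟩ := hN (a * α - σ e * σ α)
    (Ideal.sub_mem _ (Ideal.mul_mem_right _ _ ha) (Ideal.mul_mem_right _ _ hσe))
  refine ⟨x, iota E₂ r, iota E₂ z, hr, ?_⟩
  have h3 : α - (e * α + σ (e * α)) = a * α - σ e * σ α := by
    rw [map_mul]
    linear_combination (-α) * hae
  rw [hxi, ← map_sub, h3, ← map_mul, hrz, map_mul, map_pow, map_ofNat]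

end OzakiFree
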