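import Pool.Agent.Lib.MP_6e8030_nt.W.Base

open IntermediateField
open scoped ComplexConjugate

noncomputable section

namespace OzakiFree

/-! ### Nm1: norms as products over representatives -/

private theorem Nm1_prod (D : IntermediateField ℚ Om) [FiniteDimensional ℚ D] (T : Finset GQ)
    (hT : ∀ g : GQ, ∃! s, s ∈ T ∧ s⁻¹ * g ∈ D.fixingSubgroup) (x : D) :
    ∏ s ∈ T, s (x : Om) = algebraMap ℚ Om (Algebra.norm ℚ x) := by
  rw [Algebra.norm_eq_prod_embeddings ℚ Om x]
  refine Finset.prod_bij (fun (s : GQ) _ => (s : Om →ₐ[ℚ] Om).comp D.val) (fun _ _ => Finset.mem_univ _)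
    ?_ ?_ (fun _ _ => rfl)
  · intro s hs s' hs' h
    obtain ⟨u, -, hu⟩ := hT s'
    have h1 : s' = u := hu s' ⟨hs', by rw [inv_mul_cancel]; exact Subgroup.one_mem _⟩
    have h2 : s = u := hu s ⟨hs, by
      rw [IntermediateField.mem_fixingSubgroup_iff]
      intro y hy
      have h3 := DFunLike.congr_fun h (⟨y, hy⟩ : D)
      have h4 : s y = s' y := h3
      show s⁻¹ (s' y) = y
      rw [← h4]
      exact AlgEquiv.symm_apply_apply s y⟩
    rw [h1, h2]
  · intro τ _
    obtain ⟨ψ, hψ⟩ := IsAlgClosed.surjective_domRestrict_of_isAlgebraic (K := ℚ) (L := D) (E := Om)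
      (M := Om) τ
    have hb : Function.Bijective ψ := Algebra.IsAlgebraic.algHom_bijective ψ
    obtain ⟨s, ⟨hs, hsg⟩, -⟩ := hT (AlgEquiv.ofBijective ψ hb)
    refine ⟨s, hs, ?_⟩
    ext y
    have h1 := (IntermediateField.mem_fixingSubgroup_iff _ _).1 hsg (y : Om) y.2
    have h2 : s⁻¹ (ψ y) = y := h1
    have h3 : ψ y = s y := by
      have := congrArg s h2
      rw [← this]
      exact (AlgEquiv.apply_symm_apply s (ψ y)).symm
    have h4 : ψ y = τ y := DFunLike.congr_fun hψ y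
    show s (y : Om) = τ y
    rw [← h3, h4]

/-- PROOF. The elements of `T` give the `[D:ℚ]` different embeddings of `D` into `Om`; so the product is the norm (`Algebra.norm_eq_prod_embeddings`), and `|N(x)| = Nat.card (O/(x))` (`Ideal.absNorm_span_singleton`). For `x = 0` too
(`Nat.card` of the infinite ring `O` is `0`). -/
theorem norm_card (D : IntermediateField ℚ Om) [FiniteDimensional ℚ D] (T : Finset GQ)
    (hT : ∀ g : GQ, ∃! s, s ∈ T ∧ s⁻¹ * g ∈ D.fixingSubgroup) (x : ZF D) :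
    ∃ n : ℤ, ∏ s ∈ T, s x.val = (n : Om) ∧ n.natAbs = Nat.card (ZF D ⧸ Ideal.span {x}) := by
  refine ⟨Algebra.norm ℤ (show NumberField.RingOfIntegers (FL D) from x), ?_, ?_⟩
  · have h1 := Nm1_prod D T hT (show D from x.1)
    have h2 : ((Algebra.norm ℤ (show NumberField.RingOfIntegers (FL D) from x) : ℤ) : ℚ) =
        Algebra.norm ℚ (show FL D from x.1) := Algebra.coe_norm_int _
    have h3 : (Algebra.norm ℚ (show FL D from x.1)) = Algebra.norm ℚ (show D from x.1) := by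
      have e : (DivisionRing.toRatAlgebra : Algebra ℚ (FL D)) =
        (inferInstanceAs (Algebra ℚ D) : Algebra ℚ (FL D)) := Subsingleton.elim _ _
      rw [e]
      rfl
    have h4 : ∏ s ∈ T, s x.val = algebraMap ℚ Om (Algebra.norm ℚ (show D from x.1)) := h1
    rw [h4, ← h3, ← h2, map_intCast]
  · have h1 := Ideal.absNorm_span_singleton (show NumberField.RingOfIntegers (FL D) from x)
    rw [← h1, Ideal.absNorm_apply]
    rfl

/-- The norm of `x` modulo `2 ^ n` depends on `x` modulo `2 ^ n` only: `∏ s(x + 2 ^ n y) - ∏ s(x)` is an integer in `2 ^ n ZO`. -/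
theorem norm_cong (D : IntermediateField ℚ Om) [FiniteDimensional ℚ D] (T : Finset GQ)
    (hT : ∀ g : GQ, ∃! s, s ∈ T ∧ s⁻¹ * g ∈ D.fixingSubgroup) (x y : ZF D) (n : ℕ) (N N' : ℤ)
    (h : ∏ s ∈ T, s x.val = (N : Om)) (h' : ∏ s ∈ T, s (x + 2 ^ n * y).val = (N' : Om)) :
    (2 ^ n : ℤ) ∣ N' - N := by
  have hmod : ∏ s ∈ T, s • iota D (x + 2 ^ n * y) - ∏ s ∈ T, s • iota D x ∈ Ideal.span {(2 ^ n : ZO)} := by
    rw [← Ideal.Quotient.eq_zero_iff_mem, map_sub, map_prod, map_prod, sub_eq_zero]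
    refine Finset.prod_congr rfl fun s _ => ?_
    rw [← sub_eq_zero, ← map_sub, Ideal.Quotient.eq_zero_iff_mem, Ideal.mem_span_singleton]
    refine ⟨s • iota D y, ?_⟩
    rw [map_add, map_mul, map_pow, map_ofNat, smul_add, smul_mul', smul_pow']
    have e : s • (2 : ZO) = 2 := by
      apply Subtype.ext
      exact map_ofNat s 2
    rw [e]
    ring
  obtain ⟨z, hz⟩ := Ideal.mem_span_singleton.1 hmod
  have hz' := congrArg (fun u : ZO => (u : Om)) hz
  have e1 : ((∏ s ∈ T, s • iota D (x + 2 ^ n * y) - ∏ s ∈ T, s • iota D x : ZO) : Om) =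
      (N' : Om) - (N : Om) := by
    rw [← h, ← h']
    push_cast
    rfl
  have e2 : ((N' : Om) - (N : Om)) = 2 ^ n * (z : Om) := by
    rw [← e1]
    rw [hz]
    push_cast
    rfl
  have e3 : (z : Om) = algebraMap ℚ Om (((N' - N : ℤ) : ℚ) / 2 ^ n) := by
    rw [map_div₀, map_intCast, map_pow, map_ofNat]
    have h2 : (2 : Om) ^ n ≠ 0 := pow_ne_zero _ two_ne_zero
    rw [eq_div_iff h2]
    push_cast
    rw [e2, mul_comm]
  have e4 : IsIntegral ℤ (((N' - N : ℤ) : ℚ) / 2 ^ n) := by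
    have h2 : IsIntegral ℤ (z : Om) := z.2
    rw [e3] at h2
    exact (isIntegral_algebraMap_iff (algebraMap ℚ Om).injective).1 h2
  obtain ⟨m, hm⟩ := IsIntegrallyClosed.isIntegral_iff.1 e4
  refine ⟨m, ?_⟩
  have h2 : (2 : ℚ) ^ n ≠ 0 := pow_ne_zero _ two_ne_zero
  rw [eq_div_iff h2] at hm
  have h3 : ((m * 2 ^ n : ℤ) : ℚ) = ((N' - N : ℤ) : ℚ) := by
    rw [← hm]
    push_cast
    rfl
  have h4 : m * 2 ^ n = N' - N := by exact_mod_cast h3
  rw [← h4, mul_comm]

end OzakiFree
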