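import Pool.Agent.Lib.MP_6e8030_nt.W.B3f
import Pool.Agent.Lib.MP_6e8030_nt.W.Nm1
import Pool.Agent.Lib.MP_6e8030_nt.W.Rp

open IntermediateField
open scoped ComplexConjugate

noncomputable section

namespace OzakiFree

/-! ### B3e: norms of odd elements of the layers -/

private theorem B3e_dvd (m : ℕ) (k : ℤ) (h : (k : ZMod (2 ^ m)) = 0) : (2 ^ m : ℤ) ∣ k := by
  have h1 := (ZMod.intCast_zmod_eq_zero_iff_dvd k (2 ^ m)).1 h
  push_cast at h1
  exact h1

/-- PROOF. `norm_card` and `card_ideal`: all primes of `D = Dl m` over 2 are equal to `B ∩ D` (`Prime2.surj` and `trans_F`: the maximal ideals over 2 are conjugate by elements of `PQ 2`, which fix `D`), so `(x)` is prime to 2. -/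
theorem norm_layer {B : Ideal ZO} {φ : GQ} (hP : Prime2 B φ) {m : ℕ} (T : Finset GQ)
    (hT : ∀ g : GQ, ∃! s, s ∈ T ∧ s⁻¹ * g ∈ (Dl m).fixingSubgroup) (x : ZF (Dl m))
    (hx : iota (Dl m) x ∉ B) :
    ∃ n : ℤ, ∏ s ∈ T, s x.val = (n : Om) ∧ ((2 ^ m : ℤ) ∣ n - 1 ∨ (2 ^ m : ℤ) ∣ n + 1) := by
  obtain ⟨n, hn, hc⟩ := norm_card (Dl m) T hT x
  have h2 : ∀ q : Ideal (ZF (Dl m)), q.IsMaximal → Ideal.span {x} ≤ q →
      (2 : ZF (Dl m)) ∉ q := by
    intro q hq hxq h2q
    obtain ⟨B', hB', hB'q⟩ := exists_over (Dl m) q hq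
    have h2B : (2 : ZO) ∈ B' := by
      have h3 : iota (Dl m) 2 ∈ B' := by
        rw [← Ideal.mem_comap, hB'q]
        exact h2q
      rwa [map_ofNat] at h3
    obtain ⟨g, hg, hM⟩ := conj2 hP B' hB' h2B
    have hxB : iota (Dl m) x ∈ B' := by
      rw [← Ideal.mem_comap, hB'q]
      exact hxq (Ideal.mem_span_singleton_self x)
    apply hx
    rw [hM]
    have hfix : g • iota (Dl m) x = iota (Dl m) x := by
      refine Subtype.ext ?_
      exact hg ⟨x.val, Dl_le m (ZF_val_mem x)⟩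
    rw [hfix]
    exact hxB
  have h0 : Ideal.span {x} ≠ ⊥ := by
    intro h
    rw [Ideal.span_singleton_eq_bot] at h
    apply hx
    rw [h, map_zero]
    exact B.zero_mem
  refine ⟨n, hn, ?_⟩
  have hcast : ((n.natAbs : ℤ) : ZMod (2 ^ m)) = ((Nat.card (ZF (Dl m) ⧸ Ideal.span {x}) : ℕ) : ZMod (2 ^ m)) := by
    rw [hc]
    push_cast
    rfl
  rcases card_ideal (Ideal.span {x}) h2 h0 with h | h
  · rw [h] at hcast
    rcases Int.natAbs_eq n with hn' | hn'
    · left
      refine B3e_dvd m _ ?_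
      rw [← hn'] at hcast
      push_cast
      rw [hcast, sub_self]
    · right
      refine B3e_dvd m _ ?_
      have h4 : (n : ZMod (2 ^ m)) = -((n.natAbs : ℤ) : ZMod (2 ^ m)) := by
        rw [← Int.cast_neg, ← hn']
      push_cast
      rw [h4, hcast, neg_add_cancel]
  · rw [h] at hcast
    rcases Int.natAbs_eq n with hn' | hn'
    · right
      refine B3e_dvd m _ ?_
      rw [← hn'] at hcast
      push_cast
      rw [hcast, neg_add_cancel]
    · left
      refine B3e_dvd m _ ?_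
      have h4 : (n : ZMod (2 ^ m)) = -((n.natAbs : ℤ) : ZMod (2 ^ m)) := by
        rw [← Int.cast_neg, ← hn']
      push_cast
      rw [h4, hcast, neg_neg, sub_self]

end OzakiFree
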