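import Pool.Agent.Lib.MP_6e8030_nt.W.L1

open IntermediateField
open scoped ComplexConjugate

noncomputable section

namespace OzakiFree

/-! ### B3f: norms of odd primes of the layers -/

private theorem B3f_mulK (K : Type*) [Field K] [NumberField K]
    (I J : Ideal (NumberField.RingOfIntegers K)) :
    Nat.card (NumberField.RingOfIntegers K ⧸ (I * J)) =
      Nat.card (NumberField.RingOfIntegers K ⧸ I) * Nat.card (NumberField.RingOfIntegers K ⧸ J) :=
  cardQuot_mul I J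

private theorem B3f_mul {m : ℕ} (I J : Ideal (ZF (Dl m))) :
    Nat.card (ZF (Dl m) ⧸ (I * J)) = Nat.card (ZF (Dl m) ⧸ I) * Nat.card (ZF (Dl m) ⧸ J) :=
  B3f_mulK (FL (Dl m)) I J

private theorem B3f_quotK (K : Type*) [Field K] [NumberField K]
    (I : Ideal (NumberField.RingOfIntegers K)) (h0 : I ≠ ⊥) :
    Finite (NumberField.RingOfIntegers K ⧸ I) :=
  Ideal.finiteQuotientOfFreeOfNeBot I h0

private theorem B3f_quot {m : ℕ} (I : Ideal (ZF (Dl m))) (h0 : I ≠ ⊥) :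
    Finite (ZF (Dl m) ⧸ I) := B3f_quotK (FL (Dl m)) I h0

private theorem B3f_ne_botK (K : Type*) [Field K] [NumberField K]
    (q : Ideal (NumberField.RingOfIntegers K)) (hq : q.IsMaximal) : q ≠ ⊥ :=
  (q.bot_lt_of_maximal (NumberField.RingOfIntegers.not_isField K)).ne'

private theorem B3f_ne_bot {m : ℕ} (q : Ideal (ZF (Dl m))) (hq : q.IsMaximal) : q ≠ ⊥ :=
  B3f_ne_botK (FL (Dl m)) q hq

private theorem B3f_key1 (B : Ideal ZO) (h2 : (2 : ZO) ∉ B) (x : ZO)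
    (hx : x ^ 2 = 1) (h : x - 1 ∈ B) : x = 1 := by
  have h1 : (x - 1) * (x + 1) = 0 := by linear_combination hx
  rcases mul_eq_zero.1 h1 with h1 | h1
  · exact sub_eq_zero.1 h1
  · exfalso
    apply h2
    have h3 : (2 : ZO) = (x + 1) - (x - 1) := by ring
    rw [h3, h1]
    exact B.sub_mem B.zero_mem h

private theorem B3f_key2 (B : Ideal ZO) (h2 : (2 : ZO) ∉ B) (m : ℕ) :
    ∀ x : ZO, x ^ (2 ^ m) = 1 → x - 1 ∈ B → x = 1 := by
  induction m with
  | zero => intro x h _; simpa using h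
  | succ m ih =>
    intro x h hx
    have h1 : x ^ 2 = 1 := by
      apply ih
      · rw [← pow_mul, ← pow_succ']; exact h
      · have h3 : x ^ 2 - 1 = (x - 1) * (x + 1) := by ring
        rw [h3]
        exact B.mul_mem_right _ hx
    exact B3f_key1 B h2 x h1 hx

/-- PROOF. Let `B` be over `q` (`exists_over`), `N = Nat.card (O/q)`. There is `g ∈ (Dl m).fixingSubgroup` with `g z ≡ z ^ N mod B` for all `z ∈ ZO` (as in E8 `exists_frob`, which is the case `N` prime: for a finite Galois extension `E`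
of `Dl m` one has the arithmetic Frobenius element, and compactness; only `z = ζ` is needed here, so a finite level is enough: `exists_of_isInvariant` Frobenius lemmas of Mathlib for `E = Dl m (ζ)`, and extend to `GQ`).
`ζ` primitive `2 ^ m`-th: `g ζ = ζ ^ N` since both are roots of unity of 2-power order, congruent modulo the odd `B` (as `R5_key2`). `g` fixes `ζ + ζ⁻¹`, so `ζ ^ N = ζ` or `ζ⁻¹`. -/
theorem frob_card {m : ℕ} (q : Ideal (ZF (Dl m))) (hq : q.IsMaximal) (h2 : (2 : ZF (Dl m)) ∉ q) :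
    ((Nat.card (ZF (Dl m) ⧸ q) : ℕ) : ZMod (2 ^ m)) = 1 ∨
      ((Nat.card (ZF (Dl m) ⧸ q) : ℕ) : ZMod (2 ^ m)) = -1 := by
  classical
  obtain ⟨B, hB, hBq⟩ := exists_over (Dl m) q hq
  have hBp := hB.isPrime
  have h2B : (2 : ZO) ∉ B := by
    intro h
    apply h2
    rw [← hBq, Ideal.mem_comap, map_ofNat]
    exact h
  set N := Nat.card (ZF (Dl m) ⧸ q) with hN
  have : Finite (ZF (Dl m) ⧸ q) := B3f_quot q (B3f_ne_bot q hq)
  let : Fintype (ZF (Dl m) ⧸ q) := Fintype.ofFinite _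
  let : Field (ZF (Dl m) ⧸ q) := Ideal.Quotient.field q
  obtain ⟨l, hl, f, hlp, hcard⟩ := FiniteField.card' (ZF (Dl m) ⧸ q)
  have hNl : N = l ^ (f : ℕ) := by rw [hN, Nat.card_eq_fintype_card, hcard]
  have hlq : (l : ZF (Dl m)) ∈ q := by
    rw [← Ideal.Quotient.eq_zero_iff_mem, map_natCast]
    exact CharP.cast_eq_zero _ l
  have hlB : (l : ZO) ∈ B := by
    rw [← hBq, Ideal.mem_comap, map_natCast] at hlq
    exact hlq
  let : Field (ZO ⧸ B) := Ideal.Quotient.field B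
  have hfl : Fact l.Prime := ⟨hlp⟩
  have hch : CharP (ZO ⧸ B) l := by
    rw [CharP.charP_iff_prime_eq_zero hlp]
    rw [← map_natCast (Ideal.Quotient.mk B), Ideal.Quotient.eq_zero_iff_mem]
    exact hlB
  -- the root of unity
  have : NeZero ((2 ^ m : ℕ) : Om) := ⟨Nat.cast_ne_zero.2 (pow_ne_zero _ two_ne_zero)⟩
  obtain ⟨ζ, hζ⟩ := HasEnoughRootsOfUnity.exists_primitiveRoot Om (2 ^ m)
  have hpos : 0 < 2 ^ m := by positivity
  have hζi : IsIntegral ℤ ζ := hζ.isIntegral hpos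
  have hζi' : IsIntegral ℤ ζ⁻¹ := hζ.inv.isIntegral hpos
  set Z : ZO := ⟨ζ, hζi⟩ with hZ
  set Z' : ZO := ⟨ζ⁻¹, hζi'⟩ with hZ'
  have hZZ : Z * Z' = 1 := Subtype.ext (mul_inv_cancel₀ (hζ.ne_zero hpos.ne'))
  have hZm : Z ^ (2 ^ m) = 1 := Subtype.ext hζ.pow_eq_one
  have hmem : ζ + ζ⁻¹ ∈ Dl m := IntermediateField.subset_adjoin _ _ ⟨ζ, hζ.pow_eq_one, rfl⟩
  have hint : IsIntegral ℤ (⟨ζ + ζ⁻¹, hmem⟩ : FL (Dl m)) := by
    have h1 : IsIntegral ℤ (FLhom (Dl m) (⟨ζ + ζ⁻¹, hmem⟩ : FL (Dl m))) := hζi.add hζi'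
    rw [← RingHom.coe_coe (FLhom (Dl m))] at h1
    exact (isIntegral_algHom_iff ((FLhom (Dl m)).toIntAlgHom) (FLhom (Dl m)).injective).mp h1
  let z : ZF (Dl m) := ⟨⟨ζ + ζ⁻¹, hmem⟩, hint⟩
  have hz : iota (Dl m) z = Z + Z' := Subtype.ext rfl
  have hzN : z ^ N - z ∈ q := by
    have h := FiniteField.pow_card (Ideal.Quotient.mk q z)
    rw [← Nat.card_eq_fintype_card, ← hN, ← map_pow] at h
    exact Ideal.Quotient.eq.mp h
  have hzB : (Z + Z') ^ N - (Z + Z') ∈ B := by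
    rw [← hBq, Ideal.mem_comap, map_sub, map_pow, hz] at hzN
    exact hzN
  have hadd : (Z + Z') ^ N - (Z ^ N + Z' ^ N) ∈ B := by
    rw [← Ideal.Quotient.eq, map_pow, map_add, map_add, map_pow, map_pow, hNl]
    exact add_pow_char_pow (Ideal.Quotient.mk B Z) (Ideal.Quotient.mk B Z') l f
  have hfac : (Z ^ N - Z) * (1 - Z' ^ (N + 1)) ∈ B := by
    have h1 : (Z ^ N - Z) * (1 - Z' ^ (N + 1)) =
        ((Z + Z') ^ N - (Z + Z')) - ((Z + Z') ^ N - (Z ^ N + Z' ^ N)) := by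
      have h3 : Z ^ N * Z' ^ N = 1 := by rw [← mul_pow, hZZ, one_pow]
      have h4 : Z ^ N * Z' ^ (N + 1) = Z' := by
        rw [pow_succ, ← mul_assoc, h3, one_mul]
      have h5 : Z * Z' ^ (N + 1) = Z' ^ N := by
        rw [pow_succ, mul_comm (Z' ^ N) Z', ← mul_assoc, hZZ, one_mul]
      calc (Z ^ N - Z) * (1 - Z' ^ (N + 1)) =
          Z ^ N - Z - Z ^ N * Z' ^ (N + 1) + Z * Z' ^ (N + 1) := by ring
        _ = _ := by rw [h4, h5]; ring
    rw [h1]
    exact B.sub_mem hzB hadd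
  have hN0 : 0 < N := by rw [hNl]; exact pow_pos hlp.pos _
  rcases hBp.mem_or_mem hfac with h | h
  · left
    -- `ζ ^ (N - 1) = 1`
    have h1 : Z ^ (N - 1) - 1 ∈ B := by
      have h3 : Z ^ (N - 1) - 1 = Z' * (Z ^ N - Z) := by
        have h4 : Z ^ N = Z ^ (N - 1) * Z := by rw [← pow_succ, Nat.sub_add_cancel hN0]
        rw [h4]
        linear_combination (-(Z ^ (N - 1)) + 1) * hZZ
      rw [h3]
      exact B.mul_mem_left _ h
    have h5 : Z ^ (N - 1) = 1 := by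
      refine B3f_key2 B h2B m _ ?_ h1
      rw [← pow_mul, mul_comm, pow_mul, hZm, one_pow]
    have h6 : ζ ^ (N - 1) = 1 := congrArg Subtype.val h5
    have h7 : 2 ^ m ∣ N - 1 := (hζ.pow_eq_one_iff_dvd _).1 h6
    have h8 : ((N - 1 : ℕ) : ZMod (2 ^ m)) = 0 := (ZMod.natCast_eq_zero_iff _ _).2 h7
    rw [Nat.cast_sub hN0, Nat.cast_one, sub_eq_zero] at h8
    exact h8
  · right
    have h1 : Z' ^ (N + 1) - 1 ∈ B := by
      rw [← neg_sub]
      exact B.neg_mem h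
    have hZm' : Z' ^ (2 ^ m) = 1 := Subtype.ext hζ.inv.pow_eq_one
    have h5 : Z' ^ (N + 1) = 1 := by
      refine B3f_key2 B h2B m _ ?_ h1
      rw [← pow_mul, mul_comm, pow_mul, hZm', one_pow]
    have h6 : ζ⁻¹ ^ (N + 1) = 1 := congrArg Subtype.val h5
    have h7 : 2 ^ m ∣ N + 1 := (hζ.inv.pow_eq_one_iff_dvd _).1 h6
    have h8 : ((N + 1 : ℕ) : ZMod (2 ^ m)) = 0 := (ZMod.natCast_eq_zero_iff _ _).2 h7
    rw [Nat.cast_add, Nat.cast_one] at h8
    exact eq_neg_of_add_eq_zero_left h8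

/-- PROOF. `Nat.card (O/I)` (`Ideal.absNorm`) is multiplicative: product of the `Nat.card (O/q)` over the prime factors `q` of `I`, all odd. -/
theorem card_ideal {m : ℕ} (I : Ideal (ZF (Dl m))) (h2 : ∀ q : Ideal (ZF (Dl m)), q.IsMaximal → I ≤ q →
    (2 : ZF (Dl m)) ∉ q) (h0 : I ≠ ⊥) :
    ((Nat.card (ZF (Dl m) ⧸ I) : ℕ) : ZMod (2 ^ m)) = 1 ∨
      ((Nat.card (ZF (Dl m) ⧸ I) : ℕ) : ZMod (2 ^ m)) = -1 := by
  induction I using UniqueFactorizationMonoid.induction_on_prime with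
  | h₁ => exact absurd rfl h0
  | h₂ I hI =>
    left
    have h1 : I = ⊤ := Ideal.isUnit_iff.1 hI
    subst h1
    have : Subsingleton (ZF (Dl m) ⧸ (⊤ : Ideal (ZF (Dl m)))) :=
      Ideal.Quotient.subsingleton_iff.2 rfl
    rw [Nat.card_of_subsingleton (0 : ZF (Dl m) ⧸ (⊤ : Ideal (ZF (Dl m)))), Nat.cast_one]
  | h₃ J q hJ hq ih =>
    have hJ0 : J ≠ ⊥ := hJ
    have hqm : q.IsMaximal := (Ideal.isPrime_of_prime hq).isMaximal hq.ne_zero
    have h3 := ih (fun q' hq' hle => h2 q' hq' (Ideal.mul_le_right.trans hle)) hJ0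
    have h4 := frob_card q hqm (h2 q hqm Ideal.mul_le_left)
    rw [B3f_mul, Nat.cast_mul]
    rcases h3 with h3 | h3 <;> rcases h4 with h4 | h4 <;> rw [h3, h4] <;> simp

end OzakiFree
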