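import Pool.Agent.Lib.MP_6e8030_nt.W.Base

open IntermediateField
open scoped ComplexConjugate

noncomputable section

namespace OzakiFree

private theorem L1_adj (S : Set Om) (σ : GQ) :
    σ ∈ (adjoin ℚ S).fixingSubgroup ↔ ∀ x ∈ S, σ x = x := by
  constructor
  · intro h x hx
    exact (IntermediateField.mem_fixingSubgroup_iff _ _).1 h x (subset_adjoin ℚ S hx)
  · intro h
    have h1 : adjoin ℚ S ≤ IntermediateField.fixedField (Subgroup.zpowers σ) := by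
      rw [adjoin_le_iff]
      intro x hx
      refine (IntermediateField.mem_fixedField_iff _ _).2 fun τ hτ => ?_
      have h2 : Subgroup.zpowers σ ≤ MulAction.stabilizer GQ x := by
        rw [Subgroup.zpowers_le]
        exact h x hx
      exact h2 hτ
    rw [IntermediateField.le_iff_le] at h1
    exact h1 (Subgroup.mem_zpowers σ)

private theorem L1_pt (σ : GQ) {ζ : Om} (h0 : ζ ≠ 0) :
    σ (ζ + ζ⁻¹) = ζ + ζ⁻¹ ↔ σ ζ = ζ ∨ σ ζ = ζ⁻¹ := by
  constructor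
  · intro h1
    have hne1 : σ ζ ≠ 0 := (map_ne_zero σ).2 h0
    rw [map_add, map_inv₀] at h1
    have h2 : (σ ζ - ζ) * (σ ζ * ζ - 1) = 0 := by
      field_simp at h1
      linear_combination h1
    rcases mul_eq_zero.1 h2 with h | h
    · left; exact sub_eq_zero.1 h
    · right; exact eq_inv_of_mul_eq_one_left (sub_eq_zero.1 h)
  · rintro (h | h)
    · rw [map_add, map_inv₀, h]
    · rw [map_add, map_inv₀, h, inv_inv, add_comm]

private theorem L1_ne {ζ : Om} {m : ℕ} (h : ζ ^ (2 ^ m) = 1) : ζ ≠ 0 := by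
  rintro rfl
  rw [zero_pow (pow_ne_zero _ two_ne_zero)] at h
  exact zero_ne_one h

/-! ### L1: the layers of `ℚ_∞` -/

theorem Dl_le (m : ℕ) : Dl m ≤ cycZp 2 ⊥ := by
  have h1 : PQ 2 ≤ (Dl m).fixingSubgroup := by
    intro t ht
    have h2 := PQ_two t ht
    unfold P2 at h2
    rw [L1_adj] at h2
    unfold Dl
    rw [L1_adj]
    rintro y ⟨ζ, hζ, rfl⟩
    exact h2 _ ⟨ζ, ⟨m, hζ⟩, rfl⟩
  have h3 : Dl m ≤ IntermediateField.fixedField (PQ 2) := by
    rw [IntermediateField.le_iff_le]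
    exact h1
  refine h3.trans (le_of_eq ?_)
  exact InfiniteGalois.fixedField_fixingSubgroup _

instance Dl_fin (m : ℕ) : FiniteDimensional ℚ (Dl m) := by
  have h1 : {y : Om | ∃ ζ : Om, ζ ^ (2 ^ m) = 1 ∧ y = ζ + ζ⁻¹}.Finite := by
    have h2 : {ζ : Om | ζ ^ (2 ^ m) = 1}.Finite := by
      classical
      refine ((Polynomial.nthRoots (2 ^ m) (1 : Om)).toFinset.finite_toSet).subset ?_
      intro ζ hζ
      rw [Finset.mem_coe, Multiset.mem_toFinset, Polynomial.mem_nthRoots (pow_pos two_pos m)]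
      exact hζ
    refine (h2.image fun ζ => ζ + ζ⁻¹).subset ?_
    rintro y ⟨ζ, hζ, rfl⟩
    exact ⟨ζ, hζ, rfl⟩
  have : Finite {y : Om | ∃ ζ : Om, ζ ^ (2 ^ m) = 1 ∧ y = ζ + ζ⁻¹} := h1
  unfold Dl
  exact IntermediateField.finiteDimensional_adjoin fun x _ => Algebra.IsIntegral.isIntegral x

theorem Dl_mono {m n : ℕ} (h : m ≤ n) : Dl m ≤ Dl n := by
  unfold Dl
  refine adjoin.mono ℚ _ _ ?_
  rintro y ⟨ζ, hζ, rfl⟩
  refine ⟨ζ, ?_, rfl⟩
  obtain ⟨k, rfl⟩ := Nat.exists_eq_add_of_le h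
  rw [pow_add, pow_mul, hζ, one_pow]

/-- `σ` fixes `ζ + ζ⁻¹` iff `σ ζ = ζ` or `σ ζ = ζ⁻¹`; all `2 ^ m`-th roots of unity are powers of `ζ` -/
theorem mem_Dl {m : ℕ} {ζ : Om} (hζ : IsPrimitiveRoot ζ (2 ^ m)) (σ : GQ) :
    σ ∈ (Dl m).fixingSubgroup ↔ σ ζ = ζ ∨ σ ζ = ζ⁻¹ := by
  unfold Dl
  rw [L1_adj]
  constructor
  · intro h
    exact (L1_pt σ (L1_ne hζ.pow_eq_one)).1 (h _ ⟨ζ, hζ.pow_eq_one, rfl⟩)
  · rintro h y ⟨ξ, hξ, rfl⟩
    rw [L1_pt σ (L1_ne hξ)]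
    have : NeZero (2 ^ m) := ⟨pow_ne_zero _ two_ne_zero⟩
    obtain ⟨i, -, rfl⟩ := hζ.eq_pow_of_pow_eq_one hξ
    rw [map_pow]
    rcases h with h | h
    · left; rw [h]
    · right; rw [h, inv_pow]

theorem Dl_real (m : ℕ) : TotReal (Dl m) := by
  intro φ c hc
  refine IntermediateField.fixingSubgroup_antitone (Dl_le m) ?_
  change c ∈ PQ 2
  rw [mem_PQ_iff Nat.prime_two]
  refine ⟨2, two_pos, ?_⟩
  intro ζ _
  rw [pow_two, AlgEquiv.mul_apply]
  apply φ.injective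
  rw [hc, hc, Complex.conj_conj]

end OzakiFree
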