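import Pool.Agent.Lib.MP_6e8030_nt.W.A1
import Pool.Agent.Lib.MP_6e8030_nt.W.L1

open IntermediateField
open scoped ComplexConjugate

noncomputable section

namespace OzakiFree

/-! ### B3g: Frobenius in the next layer -/

/-- a root of unity of 2-power order which is `1` modulo an odd prime is `1` -/
private theorem B3g_root (B : Ideal ZO) (h2 : (2 : ZO) ∉ B) :
    ∀ (n : ℕ) (η : ZO), η ^ (2 ^ n) = 1 → η - 1 ∈ B → η = 1
  | 0, η, h, _ => by simpa using h
  | n + 1, η, h, hB1 => by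
    have h3 : (η ^ 2) ^ (2 ^ n) = 1 := by rw [← pow_mul, ← pow_succ', h]
    have h4 : η ^ 2 - 1 ∈ B := by
      have h5 : η ^ 2 - 1 = (η - 1) * (η + 1) := by ring
      rw [h5]
      exact B.mul_mem_right _ hB1
    have h5 := B3g_root B h2 n (η ^ 2) h3 h4
    have h6 : (η - 1) * (η + 1) = 0 := by
      have h7 : (η - 1) * (η + 1) = η ^ 2 - 1 := by ring
      rw [h7, h5, sub_self]
    rcases mul_eq_zero.1 h6 with h7 | h7
    · exact sub_eq_zero.1 h7
    · exfalso
      apply h2
      have h8 : (2 : ZO) = -(η - 1) + (η + 1) := by ring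
      rw [h8, h7, add_zero]
      exact B.neg_mem hB1

/-- the elements with `x ^ N = x` come from the subfield with `N` elements -/
private theorem B3g_fix {K : Type*} [Field K] {R : Type*} [CommRing R] (f : R →+* K)
    (hmax : (RingHom.ker f).IsMaximal) (hN : Nat.card (R ⧸ RingHom.ker f) ≠ 0) :
    (∀ x y : K, (x + y) ^ Nat.card (R ⧸ RingHom.ker f) =
      x ^ Nat.card (R ⧸ RingHom.ker f) + y ^ Nat.card (R ⧸ RingHom.ker f)) ∧
    ∀ x : K, x ^ Nat.card (R ⧸ RingHom.ker f) = x → ∃ r, f r = x := by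
  classical
  have hfin : Finite (R ⧸ RingHom.ker f) := Nat.finite_of_card_ne_zero hN
  let _ : Field (R ⧸ RingHom.ker f) := Ideal.Quotient.field _
  let _ : Fintype (R ⧸ RingHom.ker f) := Fintype.ofFinite _
  have hginj : Function.Injective (RingHom.kerLift f) := RingHom.kerLift_injective f
  obtain ⟨p, hp⟩ := CharP.exists (R ⧸ RingHom.ker f)
  obtain ⟨n, hpp, hcard⟩ := FiniteField.card (R ⧸ RingHom.ker f) p
  have hcN : Nat.card (R ⧸ RingHom.ker f) = Fintype.card (R ⧸ RingHom.ker f) :=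
    Nat.card_eq_fintype_card
  have _ : Fact p.Prime := ⟨hpp⟩
  have _ : CharP K p := charP_of_injective_ringHom hginj p
  have h1 : 1 < Fintype.card (R ⧸ RingHom.ker f) := Fintype.one_lt_card
  refine ⟨fun x y => ?_, fun x hx => ?_⟩
  · rw [hcN, hcard]
    exact add_pow_char_pow x y p n
  · rw [hcN] at hx
    set q := Fintype.card (R ⧸ RingHom.ker f) with hq
    have hne : (Polynomial.X ^ q - Polynomial.X : Polynomial K) ≠ 0 :=
      FiniteField.X_pow_card_sub_X_ne_zero K h1
    have hdeg : (Polynomial.X ^ q - Polynomial.X : Polynomial K).natDegree = q :=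
      FiniteField.X_pow_card_sub_X_natDegree_eq K h1
    have hsub : (Finset.univ.image (RingHom.kerLift f)) ⊆
        (Polynomial.X ^ q - Polynomial.X : Polynomial K).roots.toFinset := by
      intro y hy
      obtain ⟨z, -, rfl⟩ := Finset.mem_image.1 hy
      rw [Multiset.mem_toFinset, Polynomial.mem_roots hne, Polynomial.IsRoot.def,
        Polynomial.eval_sub, Polynomial.eval_pow, Polynomial.eval_X, ← map_pow,
        FiniteField.pow_card, sub_self]
    have hle : (Polynomial.X ^ q - Polynomial.X : Polynomial K).roots.toFinset.card ≤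
        (Finset.univ.image (RingHom.kerLift f)).card := by
      rw [Finset.card_image_of_injective _ hginj, Finset.card_univ]
      calc _ ≤ (Polynomial.X ^ q - Polynomial.X : Polynomial K).roots.card :=
            Multiset.toFinset_card_le _
        _ ≤ (Polynomial.X ^ q - Polynomial.X : Polynomial K).natDegree :=
            Polynomial.card_roots' _
        _ = _ := hdeg
    have heq := Finset.eq_of_subset_of_card_le hsub hle
    have hxr : x ∈ (Polynomial.X ^ q - Polynomial.X : Polynomial K).roots.toFinset := by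
      rw [Multiset.mem_toFinset, Polynomial.mem_roots hne, Polynomial.IsRoot.def,
        Polynomial.eval_sub, Polynomial.eval_pow, Polynomial.eval_X, hx, sub_self]
    rw [← heq] at hxr
    obtain ⟨z, -, hz⟩ := Finset.mem_image.1 hxr
    obtain ⟨r, rfl⟩ := Ideal.Quotient.mk_surjective z
    exact ⟨r, hz⟩

/-- PROOF. Let `N = Nat.card (O/q)`, `q = B ∩ Dl m`, `ζ` primitive of order `2 ^ (m+1)`. `d` acts on the finite field `F ≤ ZO/B` generated by `O/q` and the class of `ζ`, trivially on `O/q`, so as a power `x ↦ x ^ (N ^ k)`. So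
`d ζ ≡ ζ ^ (N ^ k) mod B`, so `d ζ = ζ ^ (N ^ k) = ζ ^ (±1)` (roots of unity of 2-power order are different modulo the odd `B`), and `mem_Dl`. -/
theorem frob_next {m : ℕ} (B : Ideal ZO) (hB : B.IsMaximal) (h2 : (2 : ZO) ∉ B) (d : GQ)
    (hd : d ∈ DB B) (hdm : d ∈ (Dl m).fixingSubgroup)
    (hN : ((Nat.card (ZF (Dl m) ⧸ B.comap (iota (Dl m))) : ℕ) : ZMod (2 ^ (m + 1))) = 1 ∨
      ((Nat.card (ZF (Dl m) ⧸ B.comap (iota (Dl m))) : ℕ) : ZMod (2 ^ (m + 1))) = -1) :
    d ∈ (Dl (m + 1)).fixingSubgroup := by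
  obtain ⟨ζ, hζ⟩ := HasEnoughRootsOfUnity.exists_primitiveRoot Om (2 ^ (m + 1))
  have hpos : 0 < 2 ^ (m + 1) := by positivity
  have hζint : IsIntegral ℤ ζ := IsIntegral.of_pow hpos (by rw [hζ.pow_eq_one]; exact isIntegral_one)
  let Z : ZO := ⟨ζ, hζint⟩
  have hZ : Z ^ (2 ^ (m + 1)) = 1 := by
    apply Subtype.ext
    push_cast
    exact hζ.pow_eq_one
  let Y : ZO := Z ^ (2 ^ (m + 1) - 1)
  have hZY : Z * Y = 1 := by
    show Z * Z ^ (2 ^ (m + 1) - 1) = 1
    rw [← pow_succ', Nat.sub_add_cancel hpos, hZ]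
  -- the residue fields
  let _ : Field (ZO ⧸ B) := Ideal.Quotient.field B
  let f : ZF (Dl m) →+* ZO ⧸ B := (Ideal.Quotient.mk B).comp (iota (Dl m))
  have hker : RingHom.ker f = B.comap (iota (Dl m)) := by
    ext x
    rw [RingHom.mem_ker, Ideal.mem_comap]
    exact Ideal.Quotient.eq_zero_iff_mem
  have hone : (1 : ZMod (2 ^ (m + 1))) ≠ 0 := by
    have _ : Fact (1 < 2 ^ (m + 1)) := ⟨Nat.one_lt_two_pow (by omega)⟩
    exact one_ne_zero
  have hN0 : Nat.card (ZF (Dl m) ⧸ B.comap (iota (Dl m))) ≠ 0 := by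
    intro h0
    rw [h0, Nat.cast_zero] at hN
    rcases hN with h | h
    · exact hone h.symm
    · exact hone (by rw [← neg_eq_zero, ← h])
  have hmax : (RingHom.ker f).IsMaximal := by
    rw [hker]
    exact comap_max (Dl m) B hB
  have hfix := B3g_fix f hmax (by rw [hker]; exact hN0)
  rw [hker] at hfix
  obtain ⟨hadd, hsurj⟩ := hfix
  set N := Nat.card (ZF (Dl m) ⧸ B.comap (iota (Dl m))) with hNdef
  -- powers of the root of unity
  have hpowN : (Z ^ N = Z ∧ Y ^ N = Y) ∨ (Z ^ N = Y ∧ Y ^ N = Z) := by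
    have hY : Y ^ (2 ^ (m + 1)) = 1 := by
      show (Z ^ (2 ^ (m + 1) - 1)) ^ (2 ^ (m + 1)) = 1
      rw [← pow_mul, mul_comm, pow_mul, hZ, one_pow]
    rcases hN with h | h
    · left
      have h1 : N ≡ 1 [MOD 2 ^ (m + 1)] := by
        rw [← ZMod.natCast_eq_natCast_iff, Nat.cast_one]
        exact h
      constructor
      · rw [pow_eq_pow_of_modEq h1 hZ, pow_one]
      · rw [pow_eq_pow_of_modEq h1 hY, pow_one]
    · right
      have h1 : N ≡ 2 ^ (m + 1) - 1 [MOD 2 ^ (m + 1)] := by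
        rw [← ZMod.natCast_eq_natCast_iff, h, Nat.cast_sub hpos, ZMod.natCast_self, Nat.cast_one,
          zero_sub]
      constructor
      · exact pow_eq_pow_of_modEq h1 hZ
      · rw [pow_eq_pow_of_modEq h1 hY]
        have h3 : Z * (Y * Y ^ (2 ^ (m + 1) - 1)) = Z := by
          rw [← pow_succ', Nat.sub_add_cancel hpos, hY, mul_one]
        rwa [← mul_assoc, hZY, one_mul] at h3
  have hcN : (Ideal.Quotient.mk B (Z + Y)) ^ N = Ideal.Quotient.mk B (Z + Y) := by
    rw [map_add, hadd, ← map_pow, ← map_pow]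
    rcases hpowN with ⟨h1, h3⟩ | ⟨h1, h3⟩
    · rw [h1, h3]
    · rw [h1, h3, add_comm]
  obtain ⟨y, hy⟩ := hsurj _ hcN
  have hyB : iota (Dl m) y - (Z + Y) ∈ B := Ideal.Quotient.eq.1 hy
  have hdy : d • (iota (Dl m) y) = iota (Dl m) y := by
    apply Subtype.ext
    show d (y.val) = y.val
    exact (IntermediateField.mem_fixingSubgroup_iff _ _).1 hdm _ (ZF_val_mem y)
  have h3 : d • (iota (Dl m) y - (Z + Y)) ∈ B := (hd _).1 hyB
  rw [smul_sub, hdy, smul_add] at h3
  have h4 : (d • Z + d • Y) - (Z + Y) ∈ B := by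
    have h5 := B.sub_mem hyB h3
    have h6 : iota (Dl m) y - (Z + Y) - (iota (Dl m) y - (d • Z + d • Y)) =
        (d • Z + d • Y) - (Z + Y) := by ring
    rwa [h6] at h5
  have hdZY : (d • Z) * (d • Y) = 1 := by
    rw [← smul_mul', hZY, smul_one]
  have h5 : (d • Z - Z) * (1 - Y * (d • Y)) ∈ B := by
    have h6 : (d • Z - Z) * (1 - Y * (d • Y)) = (d • Z + d • Y) - (Z + Y) := by
      linear_combination (-Y) * hdZY + (d • Y) * hZY
    rw [h6]
    exact h4
  have hdZpow : (d • Z) ^ (2 ^ (m + 1)) = 1 := by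
    rw [← smul_pow', hZ, smul_one]
  have hYpow : Y ^ (2 ^ (m + 1)) = 1 := by
    show (Z ^ (2 ^ (m + 1) - 1)) ^ (2 ^ (m + 1)) = 1
    rw [← pow_mul, mul_comm, pow_mul, hZ, one_pow]
  rw [mem_Dl hζ]
  have hdcoe : ((d • Z : ZO) : Om) = d ζ := rfl
  rcases hB.isPrime.mem_or_mem h5 with h6 | h6
  · left
    have h7 : (d • Z) * Y - 1 ∈ B := by
      have h8 : (d • Z) * Y - 1 = (d • Z - Z) * Y := by
        linear_combination hZY
      rw [h8]
      exact B.mul_mem_right _ h6
    have h8 := B3g_root B h2 (m + 1) _ (by rw [mul_pow, hdZpow, hYpow, one_mul]) h7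
    have h9 : d • Z = Z := by
      linear_combination Z * h8 - (d • Z) * hZY
    rw [← hdcoe, h9]
  · right
    have h7 : (d • Z) * Z - 1 ∈ B := by
      have h8 : (d • Z) * Z - 1 = (d • Z) * Z * (1 - Y * (d • Y)) := by
        linear_combination (Z * Y) * hdZY + hZY
      rw [h8]
      exact B.mul_mem_left _ h6
    have h8 := B3g_root B h2 (m + 1) _ (by rw [mul_pow, hdZpow, hZ, one_mul]) h7
    have h9 : d ζ * ζ = 1 := congrArg (Subtype.val : ZO → Om) h8
    exact eq_inv_of_mul_eq_one_left h9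

end OzakiFree
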