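import Pool.Agent.Lib.MP_6e8030_nt.W.B3e
import Pool.Agent.Lib.MP_6e8030_nt.W.B3g
import Pool.Agent.Lib.MP_6e8030_nt.W.B3c
import Pool.Agent.Lib.MP_6e8030_nt.W.B3d
import Pool.Agent.Lib.MP_6e8030_nt.W.B2f
import Pool.Agent.Lib.MP_6e8030_nt.W.L2
import Pool.Agent.Lib.MP_6e8030_nt.W.Rp

open IntermediateField
open scoped ComplexConjugate

noncomputable section

namespace OzakiFree

/-! ### B3h: reciprocity -/

private theorem B3h_PQ (D : IntermediateField ℚ Om) (hD : D ≤ cycZp 2 ⊥) : PQ 2 ≤ D.fixingSubgroup :=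
  IntermediateField.fixingSubgroup_antitone hD

/-- the stabilizer of `y` is open -/
private theorem B3h_open (y : Om) : ∃ U : Subgroup GQ, IsOpen (U : Set GQ) ∧ ∀ u ∈ U, u y = y := by
  refine ⟨(IntermediateField.adjoin ℚ {y}).fixingSubgroup, ?_, ?_⟩
  · have : FiniteDimensional ℚ (IntermediateField.adjoin ℚ {y}) :=
      IntermediateField.adjoin.finiteDimensional (Algebra.IsAlgebraic.isAlgebraic y).isIntegral
    exact IntermediateField.fixingSubgroup_isOpen _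
  · intro u hu
    rw [IntermediateField.mem_fixingSubgroup_iff] at hu
    exact hu y (IntermediateField.mem_adjoin_simple_self ℚ y)

private theorem B3h_pow_fix {g : GQ} {y : Om} (h : g y = y) (n : ℕ) : (g ^ n) y = y := by
  induction n with
  | zero => rfl
  | succ n ih => rw [pow_succ, AlgEquiv.mul_apply, h, ih]

/-- (1) the decomposition group at `B₂` in `D.fixingSubgroup` fixes `y` -/
private theorem B3h_fix {B₂ : Ideal ZO} {φ : GQ} (hP : Prime2 B₂ φ) (D : IntermediateField ℚ Om)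
    (hD : D ≤ cycZp 2 ⊥) (y : Om)
    (h1 : ∀ t ∈ B₂.inertia GQ, t ∈ D.fixingSubgroup → t y = y) (hφ : φ y = y) :
    ∀ d ∈ DB B₂, d ∈ D.fixingSubgroup → d y = y := by
  intro d hd hdD
  obtain ⟨ν, hν, hνx⟩ := hP.surj d
  have hxD : ν⁻¹ * d ∈ D.fixingSubgroup := B3h_PQ D hD hνx
  have hνD : ν ∈ D.fixingSubgroup := by
    have : ν = d * (ν⁻¹ * d)⁻¹ := by group
    rw [this]
    exact mul_mem hdD (inv_mem hxD)
  have hxB : ν⁻¹ * d ∈ DB B₂ := mul_mem (inv_mem (inertia_le_DB B₂ hν)) hd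
  obtain ⟨U, hU, hUy⟩ := B3h_open y
  obtain ⟨n, ν', hν', hν'P, hu⟩ := hP.gen _ hxB hνx U hU
  have hν'y : ν' y = y := h1 ν' hν' (B3h_PQ D hD hν'P)
  have hx : ν⁻¹ * d = φ ^ n * ν' * ((φ ^ n * ν')⁻¹ * (ν⁻¹ * d)) := by group
  have hxy : (ν⁻¹ * d) y = y := by
    rw [hx, AlgEquiv.mul_apply, hUy _ hu, AlgEquiv.mul_apply, hν'y, B3h_pow_fix hφ n]
  have hdd : d = ν * (ν⁻¹ * d) := by group
  rw [hdd, AlgEquiv.mul_apply, hxy]
  exact h1 ν hν hνD

private theorem B3h_lift (M : IntermediateField ℚ Om) (y : Om) (hy : y ∈ M) (hi : IsIntegral ℤ y) :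
    ∃ α : ZF M, α.val = y := by
  refine ⟨⟨(⟨y, hy⟩ : FL M), ?_⟩, rfl⟩
  refine (isIntegral_algHom_iff (FLhom M).toIntAlgHom (FLhom M).injective).1 ?_
  exact hi

private theorem B3h_mem (M : IntermediateField ℚ Om) (y : Om) (h : ∀ g ∈ M.fixingSubgroup, g y = y) :
    y ∈ M := by
  have hg : IsGalois ℚ Om := N3_gal
  rw [← InfiniteGalois.fixedField_fixingSubgroup M, IntermediateField.mem_fixedField_iff]
  exact h

/-- the field `D(y)` -/
private theorem B3h_field (D : IntermediateField ℚ Om) [FiniteDimensional ℚ D] (a : ZF D) (ha : a ≠ 0)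
    (y : Om) (hy : y ^ 2 = a.val) (h3 : ∃ t ∈ D.fixingSubgroup, t y ≠ y) :
    ∃ (M : IntermediateField ℚ Om) (_ : FiniteDimensional ℚ M), CycDM 2 D M ∧ y ∈ M ∧
      ∀ g ∈ D.fixingSubgroup, g y = y → g ∈ M.fixingSubgroup := by
  have hζ : IsPrimitiveRoot (-1 : Om) 2 := IsPrimitiveRoot.neg_one 0 (by norm_num)
  have ha0 : a.val ≠ 0 := val_ne_zero ha
  have hfix : ∀ σ ∈ D.fixingSubgroup, σ a.val = a.val := fun σ hσ => fix_F hσ _ (ZF_val_mem a)
  have hc1 : HomOn D.fixingSubgroup (chi (p := 2) (-1) y) :=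
    chiF_homOn Nat.prime_two hζ hy ha0 _ (fun σ _ => by rw [map_neg, map_one]) hfix
  have hc2 : LCOn D.fixingSubgroup (chi (p := 2) (-1) y) := chiF_lcOn _
  obtain ⟨t, ht, hty⟩ := h3
  obtain ⟨M, hM, hDM, hmem⟩ := field_of_char Nat.prime_two D (chi (p := 2) (-1) y) hc1 hc2
    ⟨t, ht, fun h0 => hty ((chiF_zero_iff Nat.prime_two hζ hy ha0 t (hfix t ht)).1 h0)⟩
  refine ⟨M, hM, hDM, ?_, ?_⟩
  · refine B3h_mem M y fun g hg => ?_
    obtain ⟨h5, h6⟩ := (hmem g).1 hg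
    exact (chiF_zero_iff Nat.prime_two hζ hy ha0 g (hfix g h5)).1 h6
  · intro g hg hgy
    exact (hmem g).2 ⟨hg, (chiF_zero_iff Nat.prime_two hζ hy ha0 g (hfix g hg)).2 hgy⟩

/-- (2) `a` is a square modulo `2 ^ n` -/
private theorem B3h_square {B₂ : Ideal ZO} {φ : GQ} (hP : Prime2 B₂ φ) (D : IntermediateField ℚ Om)
    [FiniteDimensional ℚ D] (hD : D ≤ cycZp 2 ⊥) (a : ZF D) (ha : a ≠ 0) (y : Om)
    (hy : y ^ 2 = a.val) (h3 : ∃ t ∈ D.fixingSubgroup, t y ≠ y)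
    (hdec : ∀ d ∈ DB B₂, d ∈ D.fixingSubgroup → d y = y) (n : ℕ) :
    ∃ x z : ZF D, x ^ 2 = a + 2 ^ n * z := by
  obtain ⟨M, hM, hDM, hyM, hmem⟩ := B3h_field D a ha y hy h3
  have hyi : IsIntegral ℤ y := by
    refine IsIntegral.of_pow (n := 2) (by norm_num) ?_
    rw [hy]
    exact ZF_val_isIntegral a
  obtain ⟨α, hα⟩ := B3h_lift M y hyM hyi
  obtain ⟨x, hx⟩ := approx hP.max D M hDM (fun d hd hdD => hmem d hdD (hdec d hd hdD)) α n
  have hmul := CongB.mul hP.max hx hx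
  have e1 : iota M α * iota M α = iota D a := by
    apply Subtype.ext
    show α.val * α.val = a.val
    rw [hα, ← hy, pow_two]
  rw [e1] at hmul
  obtain ⟨r, z, hr, hrz⟩ := hmul
  obtain ⟨z', hz'⟩ := cong_layer hP D hD n (x ^ 2 - a) ⟨r, -z, hr, by
    rw [map_sub, map_pow, mul_neg, ← hrz]
    ring⟩
  exact ⟨x, z', by rw [← hz']; ring⟩

private theorem B3h_dvd {m : ℕ} (hm : 2 ≤ m) {n : ℤ} (h : (2 ^ m : ℤ) ∣ n - 1 ∨ (2 ^ m : ℤ) ∣ n + 1) :
    (2 ^ (m + 1) : ℤ) ∣ n ^ 2 - 1 := by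
  have h1 : (2 : ℤ) ∣ 2 ^ m := dvd_pow_self 2 (by omega)
  rcases h with h | h
  · have h2 : (2 : ℤ) ∣ n + 1 := by
      have h3 := h1.trans h
      omega
    have h4 := mul_dvd_mul h h2
    have e : (n - 1) * (n + 1) = n ^ 2 - 1 := by ring
    rw [e, ← pow_succ] at h4
    exact h4
  · have h2 : (2 : ℤ) ∣ n - 1 := by
      have h3 := h1.trans h
      omega
    have h4 := mul_dvd_mul h h2
    have e : (n + 1) * (n - 1) = n ^ 2 - 1 := by ring
    rw [e, ← pow_succ] at h4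
    exact h4

/-- (3) the norm of `a` -/
private theorem B3h_norm {B₂ : Ideal ZO} {φ : GQ} (hP : Prime2 B₂ φ) {m : ℕ} (hm : 2 ≤ m)
    (a x z : ZF (Dl m)) (hx : x ^ 2 = a + 2 ^ (m + 1) * z) (hxB : iota (Dl m) x ∉ B₂) :
    ((Nat.card (ZF (Dl m) ⧸ Ideal.span {a}) : ℕ) : ZMod (2 ^ (m + 1))) = 1 ∨
      ((Nat.card (ZF (Dl m) ⧸ Ideal.span {a}) : ℕ) : ZMod (2 ^ (m + 1))) = -1 := by
  obtain ⟨T, hT⟩ := exists_reps (Dl m).fixingSubgroup (IntermediateField.fixingSubgroup_isOpen _)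
  obtain ⟨n, hn, hn'⟩ := norm_layer hP T hT x hxB
  obtain ⟨N, hN, hNc⟩ := norm_card (Dl m) T hT a
  have hx2 : (a + 2 ^ (m + 1) * z).val = x.val ^ 2 := by
    rw [← hx, pow_two, pow_two]
    rfl
  have hN2 : ∏ s ∈ T, s (a + 2 ^ (m + 1) * z).val = ((n ^ 2 : ℤ) : Om) := by
    rw [hx2]
    simp only [map_pow]
    rw [Finset.prod_pow, hn]
    push_cast
    rfl
  have h1 := norm_cong (Dl m) T hT a z (m + 1) N (n ^ 2) hN hN2
  have h2 := B3h_dvd hm hn'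
  have h3 : (2 ^ (m + 1) : ℤ) ∣ 1 - N := by
    have h4 := dvd_sub h1 h2
    have e : n ^ 2 - N - (n ^ 2 - 1) = 1 - N := by ring
    rwa [e] at h4
  have h4 : ((N : ℤ) : ZMod (2 ^ (m + 1))) = ((1 : ℤ) : ZMod (2 ^ (m + 1))) := by
    rw [ZMod.intCast_eq_intCast_iff_dvd_sub]
    exact_mod_cast h3
  rw [Int.cast_one] at h4
  rw [← hNc]
  rcases Int.natAbs_eq N with h5 | h5
  · left
    rw [h5, Int.cast_natCast] at h4
    exact h4
  · right
    rw [h5, Int.cast_neg, Int.cast_natCast] at h4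
    rw [← h4, neg_neg]

private theorem B3h_card0 (K : Type) [Field K] [NumberField K]
    (q : Ideal (NumberField.RingOfIntegers K)) (h : ℕ) :
    Nat.card (NumberField.RingOfIntegers K ⧸ q ^ h) =
      (Nat.card (NumberField.RingOfIntegers K ⧸ q)) ^ h := by
  have h1 := map_pow (Ideal.absNorm (S := NumberField.RingOfIntegers K)) q h
  rw [Ideal.absNorm_apply, Ideal.absNorm_apply, Submodule.cardQuot_apply,
    Submodule.cardQuot_apply] at h1
  exact h1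

private theorem B3h_card (D : IntermediateField ℚ Om) [FiniteDimensional ℚ D] (q : Ideal (ZF D))
    (h : ℕ) : Nat.card (ZF D ⧸ q ^ h) = (Nat.card (ZF D ⧸ q)) ^ h :=
  B3h_card0 (FL D) q h

private theorem B3h_zmod (m u h : ℕ) (hh : Odd h)
    (hu : ((u ^ h : ℕ) : ZMod (2 ^ (m + 1))) = 1 ∨ ((u ^ h : ℕ) : ZMod (2 ^ (m + 1))) = -1) :
    (u : ZMod (2 ^ (m + 1))) = 1 ∨ (u : ZMod (2 ^ (m + 1))) = -1 := by
  rw [Nat.cast_pow] at hu
  have hh0 : h ≠ 0 := by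
    rintro rfl
    exact absurd hh (by decide)
  have hunit : IsUnit (u : ZMod (2 ^ (m + 1))) := by
    rw [← isUnit_pow_iff hh0]
    rcases hu with h1 | h1
    · rw [h1]
      exact isUnit_one
    · rw [h1]
      exact isUnit_one.neg
  obtain ⟨v, hv⟩ := hunit
  have hne : NeZero (2 ^ (m + 1)) := ⟨by positivity⟩
  have hcard : (Nat.card (ZMod (2 ^ (m + 1)))ˣ).Coprime h := by
    rw [Nat.card_eq_fintype_card, ZMod.card_units_eq_totient,
      Nat.totient_prime_pow_succ Nat.prime_two]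
    norm_num
    exact Nat.Coprime.pow_left m ((Nat.coprime_two_left).2 hh)
  have hinj := (powCoprime hcard).injective
  rcases hu with h1 | h1
  · left
    have h2 : v = 1 := by
      apply hinj
      show v ^ h = 1 ^ h
      apply Units.ext
      rw [one_pow, Units.val_pow_eq_pow_val, hv, h1]
      rfl
    rw [← hv, h2]
    rfl
  · right
    have h2 : v = -1 := by
      apply hinj
      show v ^ h = (-1) ^ h
      apply Units.ext
      rw [hh.neg_one_pow, Units.val_pow_eq_pow_val, hv, h1]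
      rfl
    rw [← hv, h2]
    rfl

/-- (4) the layers are different -/
private theorem B3h_layers {m : ℕ} (hm : 2 ≤ m)
    (h : (Dl m).fixingSubgroup ≤ (Dl (m + 1)).fixingSubgroup) : False := by
  have hle : Dl (m + 1) ≤ Dl m := fun x hx => B3h_mem (Dl m) x fun g hg => fix_F (h hg) x hx
  have he : Dl (m + 1) = Dl m := le_antisymm hle (Dl_mono (Nat.le_succ m))
  have h1 := Dl_rank hm
  have h2 := Dl_rank (m := m + 1) (by omega)
  rw [he, h1] at h2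
  have h3 := Nat.pow_right_injective (le_refl 2) h2
  omega

/-- PROOF. `D = Dl m`, `G = D.fixingSubgroup`. Suppose `φ y = y`. (1) `d y = y` for all `d ∈ DB B₂ ⊓ G`: `d = ν x`, `ν ∈ I_{B₂}`, `x ∈ PQ 2` (`hP.surj`), `ν = d x⁻¹ ∈ G` fixes `y` by `theta_facts` (i) (`B₂ ∩ D ≠ B ∩ D`,
since `2 ∉ B`); `x ∈ DB B₂ ⊓ PQ 2` and `hP.gen` with `U` = stabilizer of `y`: `x = φ ^ n ν' u`. (2) By `theta_facts` (ii) `y ∉ D`. `M = D(y)`, `CycDM 2 D M` (U14 `field_of_char` or directly), `approx` with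
`E₁ = D`, `E₂ = M`, `α = y`, `n = m + 1`: `x ∈ ZF D` with `x ≡ y`, so `x ^ 2 ≡ a` modulo `2 ^ (m+1)` at `B₂`; `cong_layer`: `x ^ 2 = a + 2 ^ (m+1) z`. (3) `norm_layer` for `x` (`x ∉ B₂` because `a ∉ B₂`) : `N(x) ≡ ±1 mod 2 ^ m`, so
`N(x)² ≡ 1 mod 2 ^ (m+1)`, so `N(a) ≡ 1 mod 2 ^ (m+1)` (`norm_cong`), and `|N(a)| = Nat.card (O/(a)) = (Nat.card (O/q)) ^ h`, `q = B ∩ D`, `h` odd. So `Nat.card (O/q) ≡ ±1 mod 2 ^ (m+1)` (the unit group of `ZMod (2 ^ (m+1))` has 2-power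
order, so `x ↦ x ^ h` is injective on it, and `(±1) ^ h = ±1`). (4) `frob_next`: `DB B ⊓ G ≤ (Dl (m+1)).fixingSubgroup`, so with `hlay`: `G ≤ (Dl (m+1)).fixingSubgroup` (`g = d x`, `x ∈ PQ 2`, `d = g x⁻¹ ∈ G`), contradiction to `Dl_rank`. -/
theorem recip {B₂ : Ideal ZO} {φ : GQ} (hP : Prime2 B₂ φ) {m : ℕ} (hm : 2 ≤ m) (B : Ideal ZO)
    (hB : B.IsMaximal) (h2 : (2 : ZO) ∉ B)
    (hlay : ∀ g ∈ (Dl m).fixingSubgroup, ∃ d ∈ DB B, d⁻¹ * g ∈ PQ 2)
    (a c d : ZF (Dl m)) (h : ℕ) (ha : a ≠ 0) (hh : Odd h)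
    (hq : Ideal.span {a} = (B.comap (iota (Dl m))) ^ h) (hacd : a = c ^ 2 + 4 * d)
    (y : Om) (hy : y ^ 2 = a.val) : φ y ≠ y := by
  intro hφ
  have hD := Dl_le m
  have hPG := B3h_PQ (Dl m) hD
  obtain ⟨hi, t₀, ht₀, ht₀y⟩ := theta_facts (Dl m) hD B hB h2 a c d h ha hh hq hacd y hy
  have hne2 : B₂.comap (iota (Dl m)) ≠ B.comap (iota (Dl m)) := by
    intro he
    have h3 : (2 : ZF (Dl m)) ∈ B₂.comap (iota (Dl m)) := by
      show iota (Dl m) 2 ∈ B₂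
      rw [map_ofNat]
      exact hP.two
    rw [he] at h3
    have h4 : iota (Dl m) 2 ∈ B := h3
    rw [map_ofNat] at h4
    exact h2 h4
  have hdec := B3h_fix hP (Dl m) hD y (fun t ht htD => hi B₂ hP.max t ht htD hne2) hφ
  have ht₀P : t₀ ∈ PQ 2 := by
    refine (mem_PQ_iff Nat.prime_two t₀).2 ⟨1, one_pos, fun ζ hζ => ?_⟩
    rw [pow_one]
    exact inertia_fix_mu Nat.prime_two B hB (by exact_mod_cast h2) t₀ ht₀ ζ hζ
  obtain ⟨x, z, hx⟩ := B3h_square hP (Dl m) hD a ha y hy ⟨t₀, hPG ht₀P, ht₀y⟩ hdec (m + 1)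
  have hh0 : h ≠ 0 := by
    rintro rfl
    exact absurd hh (by decide)
  have hmaxq : (B.comap (iota (Dl m))).IsMaximal := comap_max (Dl m) B hB
  have hmax2 : (B₂.comap (iota (Dl m))).IsMaximal := comap_max (Dl m) B₂ hP.max
  have h2in : (2 : ZF (Dl m)) ∈ B₂.comap (iota (Dl m)) := by
    show iota (Dl m) 2 ∈ B₂
    rw [map_ofNat]
    exact hP.two
  have hxB : iota (Dl m) x ∉ B₂ := by
    intro hxB
    have h3 : x ∈ B₂.comap (iota (Dl m)) := hxB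
    have h4 : a ∈ B₂.comap (iota (Dl m)) := by
      have e : a = x ^ 2 - 2 ^ (m + 1) * z := by rw [hx]; ring
      rw [e]
      refine Ideal.sub_mem _ (Ideal.pow_mem_of_mem _ h3 2 (by norm_num)) ?_
      exact Ideal.mul_mem_right _ _ (Ideal.pow_mem_of_mem _ h2in (m + 1) (by omega))
    have h5 : (B.comap (iota (Dl m))) ^ h ≤ B₂.comap (iota (Dl m)) := by
      rw [← hq, Ideal.span_singleton_le_iff_mem]
      exact h4
    have h6 : B.comap (iota (Dl m)) ≤ B₂.comap (iota (Dl m)) :=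
      hmax2.isPrime.le_of_pow_le h5
    exact hne2 (hmaxq.eq_of_le hmax2.ne_top h6).symm
  have hcard := B3h_norm hP hm a x z hx hxB
  rw [hq, B3h_card] at hcard
  have hN := B3h_zmod m _ h hh hcard
  refine B3h_layers hm fun g hg => ?_
  obtain ⟨d', hd', hdg⟩ := hlay g hg
  have hd'G : d' ∈ (Dl m).fixingSubgroup := by
    have e : d' = g * (d'⁻¹ * g)⁻¹ := by group
    rw [e]
    exact mul_mem hg (inv_mem (hPG hdg))
  have h7 := frob_next B hB h2 d' hd' hd'G hN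
  have h8 : d'⁻¹ * g ∈ (Dl (m + 1)).fixingSubgroup := B3h_PQ (Dl (m + 1)) (Dl_le (m + 1)) hdg
  have e : g = d' * (d'⁻¹ * g) := by group
  rw [e]
  exact mul_mem h7 h8

end OzakiFree
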