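import Pool.Agent.Lib.MP_6e8030_nt.W.B3h
import Pool.Agent.Lib.MP_6e8030_nt.W.B2e
import Pool.Agent.Lib.MP_6e8030_nt.W.B1

open IntermediateField
open scoped ComplexConjugate

noncomputable section

namespace OzakiFree

/-! ### B3i: the character `θ_B` -/

theorem B3i_val_zero {D : IntermediateField ℚ Om} {a : ZF D} (h : a.val = 0) : a = 0 :=
  ZF_val_inj a 0 h

theorem B3i_open (y : Om) : ∃ U : Subgroup GQ, IsOpen (U : Set GQ) ∧ ∀ u ∈ U, u y = y := by
  have hint : IsIntegral ℚ y := (Algebra.IsAlgebraic.isAlgebraic y).isIntegral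
  have hfd : FiniteDimensional ℚ (adjoin ℚ {y}) := adjoin.finiteDimensional hint
  refine ⟨(adjoin ℚ {y}).fixingSubgroup, IntermediateField.fixingSubgroup_isOpen _, ?_⟩
  intro u hu
  exact (IntermediateField.mem_fixingSubgroup_iff _ _).1 hu y
    (IntermediateField.mem_adjoin_simple_self ℚ y)

/-- PROOF. `m` from `layer_B`, `a` from `exists_a` (`D = Dl m`, `Dl_real`, `Dl_le`), `y ^ 2 = a`, `θ g = if g y = y then 0 else 1`: a character of `D.fixingSubgroup ≥ PQ 2` since `g y = ± y`. `θ t ≠ 0`, `t ∈ I_{B'}`: by `theta_facts`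
`B' ∩ D = B ∩ D`, so `B' = g B`, `g ∈ D.fixingSubgroup` (`trans_F`), `g⁻¹ ∈ D.fixingSubgroup`, `g⁻¹ = d x'`, so `g = x'⁻¹ d⁻¹`, `B' = x'⁻¹ B`. `θ φ = 1`: `recip`. -/
theorem exists_theta {B₂ : Ideal ZO} {φ : GQ} (hP : Prime2 B₂ φ) (B : Ideal ZO)
    (hB : B.IsMaximal) (h2 : (2 : ZO) ∉ B) :
    ∃ θ : GQ → ZMod 2, HomOn (PQ 2) θ ∧ LCOn (PQ 2) θ ∧
      (∀ B' : Ideal ZO, B'.IsMaximal → ∀ t ∈ B'.inertia GQ, t ∈ PQ 2 → θ t ≠ 0 →
        ∃ g ∈ PQ 2, Mv g B' B) ∧
      (∃ t ∈ B.inertia GQ, θ t ≠ 0) ∧ θ φ = 1 := by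
  classical
  obtain ⟨m, hm, hlay⟩ := layer_B B hB h2
  obtain ⟨a, c, d, h, ha, hh, hq, hacd⟩ := exists_a (Dl m) (Dl_le m) (Dl_real m) B hB h2
  obtain ⟨y, hy⟩ : ∃ y : Om, y ^ 2 = a.val := IsAlgClosed.exists_pow_nat_eq a.val two_pos
  obtain ⟨hf1, hf2⟩ := theta_facts (Dl m) (Dl_le m) B hB h2 a c d h ha hh hq hacd y hy
  have hrec := recip hP hm B hB h2 (hlay m le_rfl) a c d h ha hh hq hacd y hy
  have hy0 : y ≠ 0 := by
    rintro rfl
    apply ha
    apply B3i_val_zero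
    rw [← hy]
    ring
  have hneg : -y ≠ y := by
    intro h1
    apply hy0
    have h3 : (2 : Om) * y = 0 := by linear_combination -h1
    rcases mul_eq_zero.1 h3 with h4 | h4
    · exact absurd h4 two_ne_zero
    · exact h4
  have hPD : ∀ g ∈ PQ 2, g ∈ (Dl m).fixingSubgroup := by
    intro g hg
    rw [IntermediateField.mem_fixingSubgroup_iff]
    intro x hx
    exact (IntermediateField.mem_fixingSubgroup_iff _ _).1 hg x (Dl_le m hx)
  have hpm : ∀ g ∈ PQ 2, g y = y ∨ g y = -y := by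
    intro g hg
    have h1 : g a.val = a.val :=
      (IntermediateField.mem_fixingSubgroup_iff _ _).1 (hPD g hg) _ (ZF_val_mem a)
    have h3 : (g y) ^ 2 = y ^ 2 := by
      rw [← map_pow, hy, h1]
    exact sq_eq_sq_iff_eq_or_eq_neg.1 h3
  refine ⟨fun g => if g y = y then 0 else 1, ?_, ?_, ?_, ?_, ?_⟩
  · intro g hg k hk
    have hgk : (g * k) y = g (k y) := rfl
    show (if (g * k) y = y then (0 : ZMod 2) else 1) =
      (if g y = y then 0 else 1) + (if k y = y then 0 else 1)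
    rw [hgk]
    rcases hpm k hk with h1 | h1
    · rw [h1, if_pos rfl, add_zero]
    · rw [h1, map_neg, if_neg hneg]
      rcases hpm g hg with h3 | h3
      · rw [h3, if_neg hneg, if_pos rfl, zero_add]
      · rw [h3, neg_neg, if_pos rfl, if_neg hneg]
        rfl
  · obtain ⟨U, hU, hUy⟩ := B3i_open y
    refine ⟨U, hU, ?_⟩
    intro g _ u hu _
    have hgu : (g * u) y = g (u y) := rfl
    show (if (g * u) y = y then (0 : ZMod 2) else 1) = (if g y = y then 0 else 1)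
    rw [hgu, hUy u hu]
  · intro B' hB' t ht htP hθ
    have hty : t y ≠ y := by
      intro h1
      exact hθ (if_pos h1)
    have hcomap : B'.comap (iota (Dl m)) = B.comap (iota (Dl m)) := by
      by_contra hne
      exact hty (hf1 B' hB' t ht (hPD t htP) hne)
    obtain ⟨g, hg, hgB⟩ := trans_F (Dl m) B B' hB hB' hcomap.symm
    obtain ⟨e, he, heg⟩ := hlay m le_rfl g hg
    have h1 : Mv (e⁻¹ * g) B B' := Mv.mul ((DB B).inv_mem he) hgB
    exact ⟨(e⁻¹ * g)⁻¹, (PQ 2).inv_mem heg, h1.inv⟩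
  · obtain ⟨t, ht, hty⟩ := hf2
    refine ⟨t, ht, ?_⟩
    show (if t y = y then (0 : ZMod 2) else 1) ≠ 0
    rw [if_neg hty]
    exact one_ne_zero
  · show (if φ y = y then (0 : ZMod 2) else 1) = 1
    rw [if_neg hrec]

end OzakiFree
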