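import Pool.Agent.Lib.MP_6e8030_nt.W.X1

open IntermediateField
open scoped ComplexConjugate

noncomputable section

namespace OzakiFree

/-! ### B4: tame inertia -/

/-- on the inertia group of `B`, `2 ∉ B`, the characters of `PQ 2` which extend to `E` are multiples of one function `κ` -/
private theorem B4_val (E : IntermediateField ℚ Om) [FiniteDimensional ℚ E] (hE : E ≤ cycZp 2 ⊥)
    (B : Ideal ZO) (hB : B.IsMaximal) (h2 : ((2 : ℕ) : ZO) ∉ B) :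
    ∃ κ : GQ → ZMod 2, ∀ χ χ' : GQ → ZMod 2, HomOn E.fixingSubgroup χ' →
      LCOn E.fixingSubgroup χ' → (∀ t ∈ PQ 2, χ' t = χ t) →
      ∃ a : ZMod 2, ∀ t ∈ B.inertia GQ, χ t = a * κ t := by
  have hζ : IsPrimitiveRoot (-1 : Om) 2 := IsPrimitiveRoot.neg_one 0 (by norm_num)
  obtain ⟨z, hz⟩ := exists_kappa (F := E) Nat.prime_two hζ B hB h2
  refine ⟨chi (p := 2) (-1) z, fun χ χ' h1 h3 h4 => ?_⟩
  obtain ⟨α, y, hα, hy, hk⟩ := kummer_gen Nat.prime_two hζ E (neg_mem (one_mem E)) χ' h1 h3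
  refine ⟨(multiplicity (B.comap (iota E)) (Ideal.span {α}) : ZMod 2), fun t ht => ?_⟩
  have htP : t ∈ PQ 2 := inertia_mem_PQ Nat.prime_two B hB h2 t ht
  have htE : t ∈ E.fixingSubgroup := IntermediateField.fixingSubgroup_le hE htP
  have hα0 : α.val ≠ 0 := fun h => hα (ZF_val_inj α 0 h)
  have h5 := chiF_unique Nat.prime_two hζ (rt_ne_zero Nat.prime_two hy hα0) t _ (hk t htE)
  rw [ZMod.natCast_zmod_val, h4 t htP] at h5
  rw [← h5]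
  exact hz t ht htE α y hα hy

/-- PROOF. Extend both characters to the same `Dl m` (`extend_layer`), `kummer_gen` (E4) with `ζ = -1`, `p = 2`, and `exists_kappa` (GCore): on `I_B` both are multiples (by the valuations modulo 2) of one function. -/
theorem tame (B : Ideal ZO) (hB : B.IsMaximal) (h2 : (2 : ZO) ∉ B) (χ₁ χ₂ : GQ → ZMod 2)
    (h₁ : HomOn (PQ 2) χ₁) (l₁ : LCOn (PQ 2) χ₁) (h₂ : HomOn (PQ 2) χ₂) (l₂ : LCOn (PQ 2) χ₂)
    (t t' : GQ) (ht : t ∈ B.inertia GQ) (ht' : t' ∈ B.inertia GQ) :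
    χ₁ t * χ₂ t' = χ₁ t' * χ₂ t := by
  obtain ⟨m₁, e₁⟩ := extend_layer χ₁ h₁ l₁
  obtain ⟨m₂, e₂⟩ := extend_layer χ₂ h₂ l₂
  obtain ⟨χ₁', h1', l1', ee1⟩ := e₁ (max m₁ m₂) (le_max_left _ _)
  obtain ⟨χ₂', h2', l2', ee2⟩ := e₂ (max m₁ m₂) (le_max_right _ _)
  have h2n : ((2 : ℕ) : ZO) ∉ B := by exact_mod_cast h2
  obtain ⟨κ, hκ⟩ := B4_val (Dl (max m₁ m₂)) (Dl_le _) B hB h2n
  obtain ⟨a, ha⟩ := hκ χ₁ χ₁' h1' l1' ee1
  obtain ⟨b, hb⟩ := hκ χ₂ χ₂' h2' l2' ee2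
  rw [ha t ht, ha t' ht', hb t ht, hb t' ht']
  ring

end OzakiFree
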