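import Pool.Agent.Lib.MP_6e8030_nt.W.B1
import Pool.Agent.Lib.MP_6e8030_nt.W.Rp

open IntermediateField
open scoped ComplexConjugate

noncomputable section

namespace OzakiFree

/-! ### B5a: finitely many orbits of ramified primes -/

private theorem B5a_conj (g : GQ) {x : GQ} (hx : x ∈ PQ 2) : g * x * g⁻¹ ∈ PQ 2 :=
  (E10_PQ_normal Nat.prime_two).conj_mem x hx g

/-- finitely many orbits of primes above `l` -/
private theorem B5a_over {B₂ : Ideal ZO} {φ : GQ} (hP : Prime2 B₂ φ) (l : ℕ) (hl : l.Prime) :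
    ∃ R : Set (Ideal ZO), R.Finite ∧ ∀ B : Ideal ZO, B.IsMaximal → (l : ZO) ∈ B →
      ∃ B' ∈ R, ∃ g ∈ PQ 2, Mv g B B' := by
  by_cases h2 : l = 2
  · subst h2
    refine ⟨{B₂}, Set.finite_singleton _, fun B hB hlB => ⟨B₂, rfl, ?_⟩⟩
    exact conj2 hP B hB (by simpa using hlB)
  by_cases hex : ∃ B' : Ideal ZO, B'.IsMaximal ∧ (l : ZO) ∈ B'
  · obtain ⟨B', hB', hlB'⟩ := hex
    have h2B : (2 : ZO) ∉ B' := by
      intro h
      obtain ⟨r, hr, -, hr'⟩ := exists_prime_mem B' hB'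
      have e1 : (r : ℤ) ∣ (l : ℤ) := (hr' _).1 (by simpa using hlB')
      have e2 : (r : ℤ) ∣ (2 : ℤ) := (hr' 2).1 (by simpa using h)
      have e3 : r = l := (Nat.prime_dvd_prime_iff_eq hr hl).1 (by exact_mod_cast e1)
      have e4 : r = 2 := (Nat.prime_dvd_prime_iff_eq hr Nat.prime_two).1 (by exact_mod_cast e2)
      exact h2 (e3.symm.trans e4)
    obtain ⟨m, -, hm'⟩ := layer_B B' hB' h2B
    have hm := hm' m le_rfl
    obtain ⟨T, hT⟩ := exists_reps (Dl m).fixingSubgroup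
      (IntermediateField.fixingSubgroup_isOpen (Dl m))
    have hs : ∀ s : GQ, ∃ Bs : Ideal ZO, Mv s Bs B' := fun s => by
      obtain ⟨Bs, -, h⟩ := exists_Mv s⁻¹ B' hB'
      refine ⟨Bs, ?_⟩
      have := h.inv
      rwa [inv_inv] at this
    choose Bf hBf using hs
    refine ⟨Bf '' (T : Set GQ), T.finite_toSet.image _, fun B hB hlB => ?_⟩
    obtain ⟨g, hg⟩ := exists_conj_p hl B B' hB hB' hlB hlB'
    obtain ⟨s, ⟨hsT, hsg⟩, -⟩ := hT g
    obtain ⟨d, hd, hdx⟩ := hm _ hsg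
    refine ⟨Bf s, ⟨s, hsT, rfl⟩, g * d⁻¹ * s⁻¹, ?_,
      (Mv.mul hg ((DB B').inv_mem hd)).mul (hBf s).inv⟩
    have : g * d⁻¹ * s⁻¹ = (s * d) * (d⁻¹ * (s⁻¹ * g)) * (s * d)⁻¹ := by group
    rw [this]
    exact B5a_conj _ hdx
  · exact ⟨∅, Set.finite_empty, fun B hB hlB => absurd ⟨B, hB, hlB⟩ hex⟩

/-- the bad ideals -/
private def B5a_Bad (χ₀ : GQ → ZMod 2) (B : Ideal ZO) : Prop :=
  B.IsMaximal ∧ ∃ t ∈ B.inertia GQ, t ∈ PQ 2 ∧ χ₀ t ≠ 0

/-- the prime number in a bad ideal divides a fixed number -/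
private theorem B5a_dvd (k : IntermediateField ℚ Om) [FiniteDimensional ℚ k] (χ₀ : GQ → ZMod 2)
    (hk : KData k χ₀) : ∃ D : ℕ, D ≠ 0 ∧ ∀ B, B5a_Bad χ₀ B → ∃ l : ℕ, l.Prime ∧ l ∣ D ∧
      (l : ZO) ∈ B := by
  obtain ⟨D, hD, hgood⟩ := exists_good k
  refine ⟨D, hD, ?_⟩
  rintro B ⟨hB, t, ht, htP, hχ⟩
  obtain ⟨l, hl, hlB, -⟩ := exists_prime_mem B hB
  refine ⟨l, hl, ?_, hlB⟩
  by_contra hlD
  apply hχ
  have hfix := hgood l hl hlD B hB hlB t 1 (fun z => by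
    refine ⟨_, mem_inertia.1 ht (iota k z), rfl⟩)
  refine ((hk.mem t).1 ?_).2
  rw [mem_cycZp_PQ Nat.prime_two]
  refine ⟨htP, (N11_fix k t).2 fun x hx => ?_⟩
  rw [hfix x hx]
  rfl

/-- PROOF. Call a maximal ideal `B` BAD if some `t ∈ I_B ⊓ PQ 2` has `χ₀ t ≠ 0`, i.e. does not fix `k`. If `B` is bad and contains the prime number `l` then `l` divides a fixed number or `l = 2` (GB `exists_good`, for `F = k`: if `l` is good for
`k` then `t z - z ∈ B` for `z ∈ ZF k` gives `t = 1` on `k`). So finitely many `l`. For `l = 2`: all `B` over 2 are conjugate under `PQ 2` to `B₂` (`hP.surj`, `trans_F`). For `l` odd: all `B` over `l` are conjugate under `GQ` to one `B'`; take `m` from `layer_B B'`, then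
`B` over `l` has finitely many possibilities for `B ∩ Dl m` (`finite_above`), and `B ∩ Dl m = B'' ∩ Dl m` implies that they are conjugate under `PQ 2` (`B, B''` are conjugates `g B'`; the property of `layer_B` holds for all conjugates with the same `m`
since `PQ 2` and `(Dl m).fixingSubgroup` are normal; `trans_F` for `Dl m`). So there are finitely many orbits of bad ideals; choose representatives `Bs` and `τ`. -/
theorem finite_orbits (k : IntermediateField ℚ Om) [FiniteDimensional ℚ k] (χ₀ : GQ → ZMod 2)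
    (hk : KData k χ₀) {B₂ : Ideal ZO} {φ : GQ} (hP : Prime2 B₂ φ) :
    ∃ (s : ℕ) (Bs : Fin s → Ideal ZO) (τ : Fin s → GQ), (∀ m, (Bs m).IsMaximal) ∧
      (∀ m, τ m ∈ (Bs m).inertia GQ) ∧ (∀ m, τ m ∈ PQ 2) ∧ (∀ m, χ₀ (τ m) = 1) ∧
      (∀ B : Ideal ZO, B.IsMaximal → ∀ t ∈ B.inertia GQ, t ∈ PQ 2 → χ₀ t ≠ 0 →
        ∃ m, ∃ g ∈ PQ 2, Mv g B (Bs m)) ∧
      ∀ m n, ∀ g ∈ PQ 2, Mv g (Bs m) (Bs n) → m = n := by
  classical
  obtain ⟨D, hD, hbad⟩ := B5a_dvd k χ₀ hk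
  choose R hR hR' using fun l : D.primeFactors => B5a_over hP l.1 (Nat.prime_of_mem_primeFactors l.2)
  let RR : Set (Ideal ZO) := ⋃ l, R l
  have hRR : RR.Finite := Set.finite_iUnion hR
  have hcov : ∀ B, B5a_Bad χ₀ B → ∃ B' ∈ RR, ∃ g ∈ PQ 2, Mv g B B' := by
    intro B hB
    obtain ⟨l, hl, hlD, hlB⟩ := hbad B hB
    obtain ⟨B', hB', h⟩ := hR' ⟨l, Nat.mem_primeFactors.2 ⟨hl, hlD, hD⟩⟩ B hB.1 hlB
    exact ⟨B', Set.mem_iUnion.2 ⟨_, hB'⟩, h⟩
  let S : Setoid {B : Ideal ZO // B5a_Bad χ₀ B} :=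
    { r := fun B B' => ∃ g ∈ PQ 2, Mv g B.1 B'.1
      iseqv :=
        { refl := fun B => ⟨1, Subgroup.one_mem _, Mv_one _⟩
          symm := fun ⟨g, hg, h⟩ => ⟨g⁻¹, (PQ 2).inv_mem hg, h.inv⟩
          trans := fun ⟨g, hg, h⟩ ⟨g', hg', h'⟩ => ⟨g * g', (PQ 2).mul_mem hg hg', h.mul h'⟩ } }
  have hfin : Finite (Quotient S) := by
    have : Finite RR := hRR
    choose f hf g hg hgM using fun q : Quotient S => hcov q.out.1 q.out.2
    refine Finite.of_injective (fun q => (⟨f q, hf q⟩ : RR)) ?_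
    intro q q' hqq
    have hqq' : f q = f q' := congrArg Subtype.val hqq
    rw [← q.out_eq, ← q'.out_eq]
    refine Quotient.sound ⟨g q * (g q')⁻¹, (PQ 2).mul_mem (hg q) ((PQ 2).inv_mem (hg q')), ?_⟩
    refine (hgM q).mul ?_
    rw [hqq']
    exact (hgM q').inv
  obtain ⟨s, ⟨e⟩⟩ := Finite.exists_equiv_fin (Quotient S)
  choose t ht htP hχ using fun B : {B : Ideal ZO // B5a_Bad χ₀ B} => B.2.2
  refine ⟨s, fun m => (e.symm m).out.1, fun m => t (e.symm m).out, fun m => (e.symm m).out.2.1,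
    fun m => ht _, fun m => htP _, fun m => ?_, ?_, ?_⟩
  · have h1 := hχ (e.symm m).out
    generalize χ₀ (t (e.symm m).out) = c at h1
    revert h1
    revert c
    decide
  · intro B hB t ht htP hχ
    have hb : B5a_Bad χ₀ B := ⟨hB, t, ht, htP, hχ⟩
    refine ⟨e ⟦⟨B, hb⟩⟧, ?_⟩
    have h1 : (⟦⟨B, hb⟩⟧ : Quotient S) = ⟦(⟦⟨B, hb⟩⟧ : Quotient S).out⟧ := (Quotient.out_eq _).symm
    have h2 := Quotient.exact h1
    show ∃ g ∈ PQ 2, Mv g B (e.symm (e ⟦⟨B, hb⟩⟧)).out.1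
    rw [Equiv.symm_apply_apply]
    exact h2
  · intro m n g hg hM
    have h1 : (⟦(e.symm m).out⟧ : Quotient S) = ⟦(e.symm n).out⟧ := Quotient.sound ⟨g, hg, hM⟩
    rw [Quotient.out_eq, Quotient.out_eq] at h1
    exact e.symm.injective h1

end OzakiFree
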