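import Pool.Agent.Lib.MP_6e8030_nt.W.B5a
import Pool.Agent.Lib.MP_6e8030_nt.W.B4
import Pool.Agent.Lib.MP_6e8030_nt.W.B3i

open IntermediateField
open scoped ComplexConjugate

noncomputable section

namespace OzakiFree

/-! ### B5b: the dual characters -/

private theorem B5b_one {P : Subgroup GQ} {χ : GQ → ZMod 2} (h : HomOn P χ) : χ 1 = 0 := by
  have := h 1 (one_mem _) 1 (one_mem _)
  rw [mul_one] at this
  exact left_eq_add.1 this

private theorem B5b_conj {P : Subgroup GQ} {χ : GQ → ZMod 2} (h : HomOn P χ) {g t : GQ}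
    (hg : g ∈ P) (ht : t ∈ P) : χ (g * t * g⁻¹) = χ t := by
  rw [h _ (P.mul_mem hg ht) _ (P.inv_mem hg), h _ hg _ ht]
  have h1 : χ g + χ g⁻¹ = 0 := by
    rw [← h _ hg _ (P.inv_mem hg), mul_inv_cancel, B5b_one h]
  calc χ g + χ t + χ g⁻¹ = (χ g + χ g⁻¹) + χ t := by ring
    _ = χ t := by rw [h1, zero_add]

private theorem B5b_ne {c : ZMod 2} (h : c ≠ 0) : c = 1 := by
  revert h
  revert c
  decide

private theorem B5b_two {g : GQ} {B B' : Ideal ZO} (h : Mv g B B') :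
    (2 : ZO) ∈ B' ↔ (2 : ZO) ∈ B := by
  have h2 : g • (2 : ZO) = 2 := Subtype.ext (map_ofNat g 2)
  rw [h 2, h2]

private theorem B5b_lc {P : Subgroup GQ} {s : ℕ} {χ₀ : GQ → ZMod 2} {θ : Fin s → GQ → ZMod 2}
    (h0 : LCOn P χ₀) (h : ∀ m, LCOn P (θ m)) : LCOn P (fun g => χ₀ g - ∑ n, θ n g) := by
  obtain ⟨U₀, hU₀, h₀⟩ := h0
  choose U hU hh using h
  refine ⟨U₀ ⊓ ⨅ j, U j, ?_, ?_⟩
  · have : ((U₀ ⊓ ⨅ j, U j : Subgroup GQ) : Set GQ) = (U₀ : Set GQ) ∩ ⋂ j, (U j : Set GQ) := by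
      rw [Subgroup.coe_inf, Subgroup.coe_iInf]
    rw [this]
    exact hU₀.inter (isOpen_iInter_of_finite hU)
  · intro g hg u hu huP
    have h1 := (Subgroup.mem_inf.1 hu).1
    have h2 := (Subgroup.mem_iInf.1 (Subgroup.mem_inf.1 hu).2)
    show χ₀ (g * u) - ∑ n, θ n (g * u) = χ₀ g - ∑ n, θ n g
    rw [h₀ g hg u h1 huP, Finset.sum_congr rfl fun n _ => hh n g hg u (h2 n) huP]

private theorem B5b_hom {P : Subgroup GQ} {s : ℕ} {χ₀ : GQ → ZMod 2} {θ : Fin s → GQ → ZMod 2}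
    (h0 : HomOn P χ₀) (h : ∀ m, HomOn P (θ m)) : HomOn P (fun g => χ₀ g - ∑ n, θ n g) := by
  intro g hg g' hg'
  show χ₀ (g * g') - ∑ n, θ n (g * g') = χ₀ g - ∑ n, θ n g + (χ₀ g' - ∑ n, θ n g')
  rw [h0 g hg g' hg', Finset.sum_congr rfl fun n _ => h n g hg g' hg', Finset.sum_add_distrib]
  ring

/-- PROOF. Take `s, Bs, τ` from `finite_orbits`. `one2`: two ideals over 2 are conjugate under `PQ 2` (`hP.surj`, `trans_F`), so equal index. For `2 ∉ Bs m` let `ψ m = θ` of `exists_theta hP (Bs m)`; `θ t = 0` for `t ∈ I_{B₂} ⊓ PQ 2` (not conjugate, 2 ∉ Bs m).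
`ψ m (τ m) = 1`: `tame` for `χ₀` and `θ` with `t = τ m` and the `t'` with `θ t' ≠ 0`. `ψ m (τ n) = 0` for `n ≠ m` (`Bs n` is not conjugate to `Bs m`). If there is an index `e` with `2 ∈ Bs e`: `ψ e = χ₀ - ∑_{m ≠ e} ψ m`.
`pR`: by E2 `char_RL` for `K = cycZp 2 k`: for `t ∈ I_B` with `χ₀ t = 0`: `B` odd: (if some `t' ∈ I_B` has `χ₀ t' ≠ 0` use `tame`; otherwise `B` is not conjugate to `Bs m` (conjugate `τ m`), so `θ t = 0`); `B` over 2: `θ t = 0` since `Bs m` is odd;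
`ψ e` : by the formula. Complex conjugations: `χ₀ c ≠ 0`, so none in `(cycZp 2 k).fixingSubgroup`. -/
theorem exists_wdata (k : IntermediateField ℚ Om) [FiniteDimensional ℚ k] (χ₀ : GQ → ZMod 2)
    (hk : KData k χ₀) {B₂ : Ideal ZO} {φ : GQ} (hP : Prime2 B₂ φ) :
    ∃ (s : ℕ) (Bs : Fin s → Ideal ZO) (τ : Fin s → GQ) (ψ : Fin s → GQ → ZMod 2),
      WData k χ₀ B₂ φ s Bs τ ψ := by
  classical
  obtain ⟨s, Bs, τ, hmax, hin, hPτ, hχ1, hcov, hdist⟩ := finite_orbits k χ₀ hk hP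
  -- the characters `θ`
  have hθ : ∀ m, ∃ θ : GQ → ZMod 2, HomOn (PQ 2) θ ∧ LCOn (PQ 2) θ ∧
      ((2 : ZO) ∈ Bs m → ∀ g, θ g = 0) ∧
      (∀ B' : Ideal ZO, B'.IsMaximal → ∀ t ∈ B'.inertia GQ, t ∈ PQ 2 → θ t ≠ 0 →
        ∃ g ∈ PQ 2, Mv g B' (Bs m)) ∧
      ((2 : ZO) ∉ Bs m → (∃ t ∈ (Bs m).inertia GQ, θ t ≠ 0) ∧ θ φ = 1) := by
    intro m
    by_cases h2 : (2 : ZO) ∈ Bs m
    · refine ⟨fun _ => 0, fun _ _ _ _ => by rw [add_zero], ⟨⊤, isOpen_univ, fun _ _ _ _ _ => rfl⟩,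
        fun _ _ => rfl, fun _ _ _ _ _ h => absurd rfl h, fun h => absurd h2 h⟩
    · obtain ⟨θ, h1, h3, h4, h5, h6⟩ := exists_theta hP (Bs m) (hmax m) h2
      exact ⟨θ, h1, h3, fun h => absurd h h2, h4, fun _ => ⟨h5, h6⟩⟩
  choose θ hhom hlc heven horb hodd using hθ
  -- `θ` vanishes at inertia elements over 2
  have htwo : ∀ m, ∀ B : Ideal ZO, B.IsMaximal → (2 : ZO) ∈ B → ∀ t ∈ B.inertia GQ, t ∈ PQ 2 →
      θ m t = 0 := by
    intro m B hB h2 t ht htP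
    by_contra h
    obtain ⟨g, -, hg⟩ := horb m B hB t ht htP h
    exact h (heven m ((B5b_two hg).2 h2) t)
  -- `θ` vanishes at the inertia elements where `χ₀` does
  have hker : ∀ m, ∀ B : Ideal ZO, B.IsMaximal → ∀ t ∈ B.inertia GQ, t ∈ PQ 2 → χ₀ t = 0 →
      θ m t = 0 := by
    intro m B hB t ht htP hχ
    by_cases h2 : (2 : ZO) ∈ B
    · exact htwo m B hB h2 t ht htP
    · by_contra h
      obtain ⟨g, hg, hgM⟩ := horb m B hB t ht htP h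
      have h3 := tame B hB h2 χ₀ (θ m) hk.h0 hk.l0 (hhom m) (hlc m) t (g * τ m * g⁻¹) ht
        (hgM.inertia (hin m))
      rw [hχ, zero_mul, B5b_conj hk.h0 hg (hPτ m), hχ1, one_mul] at h3
      exact h h3.symm
  have hself : ∀ m, (2 : ZO) ∉ Bs m → θ m (τ m) = 1 := by
    intro m h2
    obtain ⟨⟨t', ht', hθt'⟩, -⟩ := hodd m h2
    have h3 := tame (Bs m) (hmax m) h2 χ₀ (θ m) hk.h0 hk.l0 (hhom m) (hlc m) (τ m) t' (hin m) ht'
    rw [hχ1, one_mul] at h3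
    refine B5b_ne fun h => hθt' ?_
    rw [h3, h, mul_zero]
  have hother : ∀ m n, m ≠ n → θ m (τ n) = 0 := by
    intro m n hmn
    by_contra h
    obtain ⟨g, hg, hgM⟩ := horb m (Bs n) (hmax n) (τ n) (hin n) (hPτ n) h
    exact hmn (hdist n m g hg hgM).symm
  have hsum : ∀ n, ∑ j, θ j (τ n) = if (2 : ZO) ∈ Bs n then 0 else 1 := by
    intro n
    rw [Finset.sum_eq_single n (fun j _ hj => hother j n hj) (fun h => absurd (Finset.mem_univ n) h)]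
    split_ifs with h
    · exact heven n h _
    · exact hself n h
  have hone2 : ∀ m n, (2 : ZO) ∈ Bs m → (2 : ZO) ∈ Bs n → m = n := by
    intro m n hm hn
    obtain ⟨g, hg, hgM⟩ := conj2 hP (Bs m) (hmax m) hm
    obtain ⟨g', hg', hgM'⟩ := conj2 hP (Bs n) (hmax n) hn
    exact hdist m n (g * g'⁻¹) ((PQ 2).mul_mem hg ((PQ 2).inv_mem hg')) (hgM.mul hgM'.inv)
  -- the dual characters
  obtain ⟨ψ, hψ1, hψ2⟩ : ∃ ψ : Fin s → GQ → ZMod 2,
      (∀ m, (2 : ZO) ∈ Bs m → ψ m = fun g => χ₀ g - ∑ n, θ n g) ∧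
      (∀ m, (2 : ZO) ∉ Bs m → ψ m = θ m) :=
    ⟨fun m => if (2 : ZO) ∈ Bs m then fun g => χ₀ g - ∑ n, θ n g else θ m,
      fun m h => if_pos h, fun m h => if_neg h⟩
  have hph : ∀ m, HomOn (PQ 2) (ψ m) := by
    intro m
    by_cases h2 : (2 : ZO) ∈ Bs m
    · rw [hψ1 m h2]
      exact B5b_hom hk.h0 hhom
    · rw [hψ2 m h2]
      exact hhom m
  have hpl : ∀ m, LCOn (PQ 2) (ψ m) := by
    intro m
    by_cases h2 : (2 : ZO) ∈ Bs m
    · rw [hψ1 m h2]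
      exact B5b_lc hk.l0 hlc
    · rw [hψ2 m h2]
      exact hlc m
  have hpk : ∀ m, ∀ B : Ideal ZO, B.IsMaximal → ∀ t ∈ B.inertia GQ, t ∈ PQ 2 → χ₀ t = 0 →
      ψ m t = 0 := by
    intro m B hB t ht htP hχ
    by_cases h2 : (2 : ZO) ∈ Bs m
    · rw [hψ1 m h2]
      show χ₀ t - ∑ n, θ n t = 0
      rw [hχ, Finset.sum_eq_zero fun n _ => hker n B hB t ht htP hχ, sub_zero]
    · rw [hψ2 m h2]
      exact hker m B hB t ht htP hχ
  refine ⟨s, Bs, τ, ψ, ⟨hk, hP, hmax, hin, hPτ, hχ1, hcov, hph, hpl, ?_, ?_, ?_, hone2⟩⟩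
  · intro m
    refine char_RL Nat.prime_two (cycZp 2 k) (ψ m) ?_ ?_ ?_ ?_
    · intro g hg g' hg'
      exact hph m g ((hk.mem g).1 hg).1 g' ((hk.mem g').1 hg').1
    · obtain ⟨U, hU, h⟩ := hpl m
      exact ⟨U, hU, fun g hg u hu hu' => h g ((hk.mem g).1 hg).1 u hu ((hk.mem u).1 hu').1⟩
    · intro B hB t ht htK
      exact hpk m B hB t ht ((hk.mem t).1 htK).1 ((hk.mem t).1 htK).2
    · intro f c hc hcK
      exact absurd ((hk.mem c).1 hcK).2 (hk.im f c hc)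
  · intro m n
    by_cases h2 : (2 : ZO) ∈ Bs m
    · rw [hψ1 m h2]
      show χ₀ (τ n) - ∑ j, θ j (τ n) = _
      rw [hsum, hχ1]
      by_cases hmn : m = n
      · subst hmn
        rw [if_pos h2, if_pos rfl, sub_zero]
      · have h3 : (2 : ZO) ∉ Bs n := fun h => hmn (hone2 m n h2 h)
        rw [if_neg h3, if_neg hmn, sub_self]
    · rw [hψ2 m h2]
      by_cases hmn : m = n
      · subst hmn
        rw [if_pos rfl, hself m h2]
      · rw [if_neg hmn, hother m n hmn]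
  · intro m h2
    rw [hψ2 m h2]
    exact ⟨(hodd m h2).2, fun t ht htP => htwo m B₂ hP.max hP.two t ht htP⟩

end OzakiFree
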