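import Pool.Agent.Lib.MP_6e8030_nt.VAll

open IntermediateField
open scoped ComplexConjugate

noncomputable section

namespace OzakiFree

/-! # Theorem W: definitions -/

/-- `g` maps `B'` onto `B`, that is `B = g B'` (as in `trans_F`) -/
def Mv (g : GQ) (B B' : Ideal ZO) : Prop := ∀ x : ZO, x ∈ B' ↔ g • x ∈ B

theorem Mv_one (B : Ideal ZO) : Mv 1 B B := fun x => by rw [one_smul]

/-- `B = g B'`, `B' = h B''` ==> `B = g h B''` -/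
theorem Mv.mul {g h : GQ} {B B' B'' : Ideal ZO} (h1 : Mv g B B') (h2 : Mv h B' B'') :
    Mv (g * h) B B'' := fun x => by rw [h2 x, h1 (h • x), mul_smul]

/-- `B = g B'` ==> `B' = g⁻¹ B` -/
theorem Mv.inv {g : GQ} {B B' : Ideal ZO} (h1 : Mv g B B') : Mv g⁻¹ B' B := fun x => by
  rw [h1 (g⁻¹ • x), smul_inv_smul]

theorem Mv.eq {B B' : Ideal ZO} (h1 : Mv 1 B B') : B = B' := by
  ext x
  rw [h1 x, one_smul]

/-- the decomposition group of `B` -/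
def DB (B : Ideal ZO) : Subgroup GQ where
  carrier := {g | Mv g B B}
  one_mem' := Mv_one B
  mul_mem' := fun h1 h2 => Mv.mul h1 h2
  inv_mem' := fun h1 => Mv.inv h1

theorem mem_DB {B : Ideal ZO} {g : GQ} : g ∈ DB B ↔ Mv g B B := Iff.rfl

theorem mem_inertia {B : Ideal ZO} {t : GQ} : t ∈ B.inertia GQ ↔ ∀ x : ZO, t • x - x ∈ B := Iff.rfl

theorem inertia_le_DB (B : Ideal ZO) : B.inertia GQ ≤ DB B := by
  intro t ht x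
  have h := mem_inertia.1 ht x
  constructor
  · intro hx
    have := B.add_mem h hx
    rwa [sub_add_cancel] at this
  · intro hx
    have := B.sub_mem hx h
    rwa [sub_sub_cancel] at this

/-- `B = g B'` ==> `g I_{B'} g⁻¹ = I_B` -/
theorem Mv.inertia {g : GQ} {B B' : Ideal ZO} (h1 : Mv g B B') {t : GQ}
    (ht : t ∈ B'.inertia GQ) : g * t * g⁻¹ ∈ B.inertia GQ := by
  rw [mem_inertia]
  intro x
  have h := (h1 _).1 (mem_inertia.1 ht (g⁻¹ • x))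
  rw [smul_sub, smul_inv_smul] at h
  rwa [mul_smul, mul_smul]

theorem Mv.inertia' {g : GQ} {B B' : Ideal ZO} (h1 : Mv g B B') {t : GQ}
    (ht : t ∈ B.inertia GQ) : g⁻¹ * t * g ∈ B'.inertia GQ := by
  have := h1.inv.inertia ht
  rwa [inv_inv] at this

/-- the maximal ideal `g B` -/
theorem exists_Mv (g : GQ) (B : Ideal ZO) (hB : B.IsMaximal) :
    ∃ B' : Ideal ZO, B'.IsMaximal ∧ Mv g B B' := by
  obtain ⟨B', h1, h2, -⟩ := conj_inertia_MF (p := 2) Nat.prime_two B hB 1 (Subgroup.one_mem _)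
    (Subgroup.one_mem _) g 1
  exact ⟨B', h1, h2⟩

/-- `B` is a maximal ideal over `2` and `φ ∈ PQ 2` is a Frobenius element at `B`: `I_B` maps onto
`GQ / PQ 2`, and modulo `I_B` the powers of `φ` are dense in `D_B ⊓ PQ 2` -/
structure Prime2 (B : Ideal ZO) (φ : GQ) : Prop where
  max : B.IsMaximal
  two : (2 : ZO) ∈ B
  memP : φ ∈ PQ 2
  memD : φ ∈ DB B
  surj : ∀ g : GQ, ∃ ν ∈ B.inertia GQ, ν⁻¹ * g ∈ PQ 2
  gen : ∀ d ∈ DB B, d ∈ PQ 2 → ∀ U : Subgroup GQ, IsOpen (U : Set GQ) →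
    ∃ (n : ℕ) (ν : GQ), ν ∈ B.inertia GQ ∧ ν ∈ PQ 2 ∧ (φ ^ n * ν)⁻¹ * d ∈ U

/-- the layer `ℚ(ζ + ζ⁻¹)`, `ζ` of order `2 ^ m`, of `ℚ_∞` -/
def Dl (m : ℕ) : IntermediateField ℚ Om := adjoin ℚ {y : Om | ∃ ζ : Om, ζ ^ (2 ^ m) = 1 ∧ y = ζ + ζ⁻¹}

/-- congruence modulo `2 ^ n` at `B` -/
def CongB (B : Ideal ZO) (n : ℕ) (x y : ZO) : Prop := ∃ r z : ZO, r ∉ B ∧ r * (x - y) = 2 ^ n * z

/-- the sign `(-1) ^ a` -/
def sg {n : ℕ} (a : ZMod 2) : ZMod n := if a = 0 then 1 else -1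

/-- `f` is a cocycle on `P` for the sign `ψ` -/
def CocOn {Γ : Type*} [Group Γ] (P : Subgroup Γ) {n : ℕ} (ψ : Γ → ZMod 2) (f : Γ → ZMod n) : Prop :=
  ∀ x ∈ P, ∀ y ∈ P, f (x * y) = f x + sg (ψ x) * f y

/-- `H / R` is a pro-`p` group: the powers `g ^ (p ^ n)` of `g ∈ H` come close to `R` -/
def ProP {Γ : Type*} [Group Γ] [TopologicalSpace Γ] (p : ℕ) (H R : Subgroup Γ) : Prop :=
  ∀ U : Subgroup Γ, IsOpen (U : Set Γ) → ∀ g ∈ H, ∃ n : ℕ, ∃ r ∈ R, r⁻¹ * g ^ (p ^ n) ∈ U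

/-- the characters of order two of `P`, trivial on `R`, are determined by their values at `τ` -/
def Frat {Γ : Type*} [Group Γ] [TopologicalSpace Γ] (P R : Subgroup Γ) {s : ℕ} (τ : Fin s → Γ) :
    Prop :=
  ∀ χ : Γ → ZMod 2, HomOn P χ → LCOn P χ → (∀ r ∈ R, χ r = 0) → (∀ m, χ (τ m) = 0) →
    ∀ g ∈ P, χ g = 0

/-- homomorphisms from `H / R` to a discrete group -/
structure HomR {Γ : Type*} [Group Γ] [TopologicalSpace Γ] (P R : Subgroup Γ) {A : Type*} [Group A]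
    (ρ : Γ → A) : Prop where
  mul : ∀ g ∈ P, ∀ h ∈ P, ρ (g * h) = ρ g * ρ h
  lc : ∃ U : Subgroup Γ, IsOpen (U : Set Γ) ∧ ∀ g ∈ P, ∀ u ∈ U, u ∈ P → ρ (g * u) = ρ g
  triv : ∀ r ∈ R, ρ r = 1

/-- `H / R` is a free pro-`p` group with the basis `b` -/
structure FreeOn {Γ : Type*} [Group Γ] [TopologicalSpace Γ] (p : ℕ) (H R : Subgroup Γ) (X : Type)
    (b : X → Γ) : Prop where
  mem : ∀ x, b x ∈ H
  ex : ∀ (A : Type) [Group A] [Finite A], IsPGroup p A → ∀ f : X → A, {x | f x ≠ 1}.Finite →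
    ∃ ρ : Γ → A, HomR H R ρ ∧ ∀ x, ρ (b x) = f x
  un : ∀ (A : Type) [Group A] [Finite A], IsPGroup p A → ∀ ρ ρ' : Γ → A, HomR H R ρ → HomR H R ρ' →
    (∀ x, ρ (b x) = ρ' (b x)) → ∀ g ∈ H, ρ g = ρ' g

/-- `k` as in Theorem W, in terms of groups: `F₀ = k ⊓ ℚ_∞`, `χ₀` the character of `k ℚ_∞/ℚ_∞` -/
structure KData (k : IntermediateField ℚ Om) (χ₀ : GQ → ZMod 2) : Prop where
  h0 : HomOn (PQ 2) χ₀
  l0 : LCOn (PQ 2) χ₀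
  mem : ∀ g, g ∈ (cycZp 2 k).fixingSubgroup ↔ g ∈ PQ 2 ∧ χ₀ g = 0
  ne : ∃ g ∈ PQ 2, χ₀ g ≠ 0
  im : ∀ (φ : Om →+* ℂ) (c : GQ), (∀ y, φ (c y) = conj (φ y)) → χ₀ c ≠ 0

/-- the inertia groups of `P / R` and the dual characters -/
structure WData (k : IntermediateField ℚ Om) (χ₀ : GQ → ZMod 2) (B₂ : Ideal ZO) (φ : GQ) (s : ℕ)
    (Bs : Fin s → Ideal ZO) (τ : Fin s → GQ) (ψ : Fin s → GQ → ZMod 2) : Prop where
  kd : KData k χ₀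
  p2 : Prime2 B₂ φ
  bmax : ∀ m, (Bs m).IsMaximal
  tin : ∀ m, τ m ∈ (Bs m).inertia GQ
  tP : ∀ m, τ m ∈ PQ 2
  t1 : ∀ m, χ₀ (τ m) = 1
  cover : ∀ B : Ideal ZO, B.IsMaximal → ∀ t ∈ B.inertia GQ, t ∈ PQ 2 → χ₀ t ≠ 0 →
    ∃ m, ∃ g ∈ PQ 2, Mv g B (Bs m)
  phom : ∀ m, HomOn (PQ 2) (ψ m)
  plc : ∀ m, LCOn (PQ 2) (ψ m)
  pR : ∀ m, ∀ r ∈ RL 2 (cycZp 2 k), ψ m r = 0
  pt : ∀ m n, ψ m (τ n) = if m = n then 1 else 0
  odd : ∀ m, (2 : ZO) ∉ Bs m → ψ m φ = 1 ∧ ∀ t ∈ B₂.inertia GQ, t ∈ PQ 2 → ψ m t = 0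
  one2 : ∀ m n, (2 : ZO) ∈ Bs m → (2 : ZO) ∈ Bs n → m = n

end OzakiFree
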