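import Pool.Agent.Lib.MP_6e8030_nt.W.Base

open IntermediateField
open scoped ComplexConjugate

noncomputable section

namespace OzakiFree

/-! # Theorem W: definitions for the group theory -/

/-- the abstract data: `P / R` is pro-2, generated by the involutions `τ m` (`Frat`), `χ₀ (τ m) = 1`, `H = ker χ₀`, with the dual characters `ψ m` -/
structure GData {Γ : Type*} [Group Γ] [TopologicalSpace Γ] (P H R : Subgroup Γ) (χ₀ : Γ → ZMod 2)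
    (s : ℕ) (τ : Fin s → Γ) (ψ : Fin s → Γ → ZMod 2) : Prop where
  h0 : HomOn P χ₀
  l0 : LCOn P χ₀
  hH : ∀ g, g ∈ H ↔ g ∈ P ∧ χ₀ g = 0
  RH : R ≤ H
  Rn : ∀ g ∈ P, ∀ r ∈ R, g * r * g⁻¹ ∈ R
  Rc : IsClosed (R : Set Γ)
  tP : ∀ m, τ m ∈ P
  t1 : ∀ m, χ₀ (τ m) = 1
  t2 : ∀ m, τ m * τ m ∈ R
  phom : ∀ m, HomOn P (ψ m)
  plc : ∀ m, LCOn P (ψ m)
  pR : ∀ m, ∀ r ∈ R, ψ m r = 0
  pt : ∀ m n, ψ m (τ n) = if m = n then 1 else 0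
  fr : Frat P R τ
  pro : ProP 2 P R

/-- `P / R` is the free pro-2 product of the groups `{1, τ m}`: arbitrary involutions in finite 2-groups are values of a homomorphism -/
def FreeInv {Γ : Type*} [Group Γ] [TopologicalSpace Γ] (P R : Subgroup Γ) (s : ℕ) (τ : Fin s → Γ) :
    Prop :=
  ∀ (A : Type) [Group A] [Finite A], IsPGroup 2 A → ∀ t : Fin s → A, (∀ m, t m * t m = 1) →
    ∃ ρ : Γ → A, HomR P R ρ ∧ ∀ m, ρ (τ m) = t m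

/-- `f` is the cocycle of the paper: sign `ψ i + ψ j`, trivial on `R`, `f (τ j) = 1`, `f (τ m) = 0` for `m ≠ j` -/
structure FCoc {Γ : Type*} [Group Γ] [TopologicalSpace Γ] (P R : Subgroup Γ) (s : ℕ) (τ : Fin s → Γ)
    (ψ : Fin s → Γ → ZMod 2) (i j : Fin s) (t : ℕ) (f : Γ → ZMod (2 ^ t)) : Prop where
  coc : CocOn P (fun g => ψ i g + ψ j g) f
  lc : LCOn P f
  triv : ∀ r ∈ R, f r = 0
  val : ∀ m, f (τ m) = if m = j then 1 else 0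

/-- the pair of characters `χ'`, `χ''` of `Gal(Om/K)` with values in `ℤ/2^t` -/
structure PairData (B₂ B₁ : Ideal ZO) (φ : GQ) (K : IntermediateField ℚ Om) (t : ℕ)
    (χ₁ χ₂ : GQ → ZMod (2 ^ t)) : Prop where
  h1 : HomOn K.fixingSubgroup χ₁
  l1 : LCOn K.fixingSubgroup χ₁
  h2 : HomOn K.fixingSubgroup χ₂
  l2 : LCOn K.fixingSubgroup χ₂
  phi1 : χ₁ φ = 1
  phi2 : χ₂ φ = -1
  nu1 : ∀ ν ∈ B₂.inertia GQ, ν ∈ K.fixingSubgroup → χ₁ ν = 0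
  sum : ∀ x ∈ PQ 2, x ∈ K.fixingSubgroup → χ₁ x + χ₂ x = 0
  ram1 : ∀ B : Ideal ZO, B.IsMaximal → ∀ g ∈ B.inertia GQ, g ∈ K.fixingSubgroup → χ₁ g ≠ 0 →
    B.comap (iota K) = B₁.comap (iota K)
  ram2 : ∀ B : Ideal ZO, B.IsMaximal → ∀ g ∈ B.inertia GQ, g ∈ K.fixingSubgroup → χ₂ g ≠ 0 →
    B.comap (iota K) = B₂.comap (iota K)
  conj1 : ∀ (φ' : Om →+* ℂ) (c : GQ), (∀ y, φ' (c y) = conj (φ' y)) → c ∈ K.fixingSubgroup → χ₁ c = 0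
  conj2 : ∀ (φ' : Om →+* ℂ) (c : GQ), (∀ y, φ' (c y) = conj (φ' y)) → c ∈ K.fixingSubgroup → χ₂ c = 0

end OzakiFree
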