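import Pool.Agent.Lib.MP_6e8030_nt.W.Base2

open IntermediateField
open scoped ComplexConjugate

noncomputable section

namespace OzakiFree

/-! ### C0: Frattini argument -/

private theorem C0_add : (1 : ZMod 2) + 1 = 0 := by decide

private theorem C0_ne : ¬ (1 : ZMod 2) = 0 := by decide

/-- PROOF. Replace `U` by an open NORMAL subgroup `V ≤ U` of `Γ` (`Γ` is compact, so `U` has finite index; its normal core is open). `N = R ⊔ (V ⊓ P)` is normal in `P`, `N ≤ W`, of finite index in `P`. `P / N` is a 2-group: for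
`g ∈ P` we have `g ^ (2 ^ n) = r v` with `r ∈ R`, `v ∈ V` (`hpro`), `v ∈ P`. If `W ≠ P` then `W / N` is a proper subgroup of the finite 2-group `P / N`, so contained in a subgroup of index 2 (maximal subgroups of finite p-groups are
normal of index p). This gives a character `χ` of `P`, not zero, trivial on `W`, against `hfr`. -/
theorem frattini {Γ : Type*} [Group Γ] [TopologicalSpace Γ] [IsTopologicalGroup Γ] [CompactSpace Γ]
    (P R : Subgroup Γ) (hRP : R ≤ P) (hRn : ∀ g ∈ P, ∀ r ∈ R, g * r * g⁻¹ ∈ R)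
    (hpro : ProP 2 P R) {s : ℕ} (τ : Fin s → Γ) (hfr : Frat P R τ) (W : Subgroup Γ) (hWP : W ≤ P)
    (hW : ∃ U : Subgroup Γ, IsOpen (U : Set Γ) ∧ ∀ u ∈ U, u ∈ P → u ∈ W) (hRW : R ≤ W)
    (hτ : ∀ m, τ m ∈ W) : P ≤ W := by
  classical
  obtain ⟨U, hU, hUW⟩ := hW
  have hUfin : Finite (Γ ⧸ U) := Subgroup.quotient_finite_of_isOpen U hU
  have hUfi : U.FiniteIndex := Subgroup.finiteIndex_of_finite_quotient
  have hVopen : IsOpen ((U.normalCore : Subgroup Γ) : Set Γ) :=
    Subgroup.isOpen_of_isClosed_of_finiteIndex _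
      (U.normalCore_isClosed (Subgroup.isClosed_of_isOpen U hU))
  have hVU : U.normalCore ≤ U := U.normalCore_le
  -- the subgroups of `P`
  have hRn' : (R.subgroupOf P).Normal := by
    refine ⟨fun n hn g => ?_⟩
    rw [Subgroup.mem_subgroupOf] at hn ⊢
    exact hRn g g.2 n hn
  have hVn' : (U.normalCore.subgroupOf P).Normal := inferInstance
  set N : Subgroup P := R.subgroupOf P ⊔ U.normalCore.subgroupOf P with hN
  have hNn : N.Normal := Subgroup.sup_normal _ _
  have hVfi : (U.normalCore.subgroupOf P).FiniteIndex := inferInstance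
  have hNfi : N.FiniteIndex := Subgroup.finiteIndex_of_le (le_sup_right : _ ≤ N)
  have hQfin : Finite (P ⧸ N) := inferInstance
  have hQp : IsPGroup 2 (P ⧸ N) := by
    intro q
    obtain ⟨g, rfl⟩ := QuotientGroup.mk_surjective q
    obtain ⟨n, r, hr, hrg⟩ := hpro U.normalCore hVopen g g.2
    refine ⟨n, ?_⟩
    rw [← QuotientGroup.mk_pow, QuotientGroup.eq_one_iff]
    have h1 : g ^ (2 ^ n) = (⟨r, hRP hr⟩ : P) * (⟨r, hRP hr⟩⁻¹ * g ^ (2 ^ n)) := by group
    rw [h1]
    refine N.mul_mem (Subgroup.mem_sup_left ?_) (Subgroup.mem_sup_right ?_)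
    · rw [Subgroup.mem_subgroupOf]
      exact hr
    · rw [Subgroup.mem_subgroupOf]
      exact hrg
  obtain ⟨a, ha⟩ := IsPGroup.iff_card.1 hQp
  -- the image of `W`
  set M : Subgroup (P ⧸ N) := (W.subgroupOf P).map (QuotientGroup.mk' N) with hM
  have hNW : N ≤ W.subgroupOf P := by
    refine sup_le ?_ ?_
    · intro x hx
      rw [Subgroup.mem_subgroupOf] at hx ⊢
      exact hRW hx
    · intro x hx
      rw [Subgroup.mem_subgroupOf] at hx ⊢
      exact hUW _ (hVU hx) x.2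
  have hcomap : ∀ x : P, (QuotientGroup.mk' N x) ∈ M ↔ (x : Γ) ∈ W := by
    intro x
    constructor
    · rintro ⟨y, hy, hyx⟩
      have h1 : y⁻¹ * x ∈ N := QuotientGroup.eq.1 hyx
      have h2 := hNW h1
      rw [Subgroup.mem_subgroupOf] at h2
      have hy' : (y : Γ) ∈ W := hy
      have h3 := W.mul_mem hy' h2
      have h4 : (y : Γ) * ((y⁻¹ * x : P) : Γ) = x := by
        push_cast
        group
      rwa [h4] at h3
    · intro hx
      exact ⟨x, hx, rfl⟩
  by_contra hne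
  have hMtop : M ≠ ⊤ := by
    intro h
    apply hne
    intro g hg
    exact (hcomap ⟨g, hg⟩).1 (by rw [h]; exact Subgroup.mem_top _)
  -- a subgroup of index two
  obtain ⟨b, hb⟩ := IsPGroup.iff_card.1 (hQp.to_subgroup M)
  have hlt : Nat.card M < Nat.card (P ⧸ N) := by
    rcases lt_or_eq_of_le (Subgroup.card_le_card_group M) with h | h
    · exact h
    · exact absurd (Subgroup.eq_top_of_card_eq M h) hMtop
  have hba : b < a := by
    rw [hb, ha] at hlt
    exact (Nat.pow_lt_pow_iff_right (by norm_num)).1 hlt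
  have hf2 : Fact (Nat.Prime 2) := ⟨Nat.prime_two⟩
  obtain ⟨K, hK, hMK⟩ := Sylow.exists_subgroup_card_pow_prime_le (G := P ⧸ N) 2
    (n := b) (m := a - 1) (by rw [ha]; exact pow_dvd_pow 2 (Nat.sub_le a 1)) M hb (by omega)
  have hKi : K.index = 2 := by
    have h1 := K.card_mul_index
    rw [hK, ha] at h1
    have h2 : (2 : ℕ) ^ a = 2 ^ (a - 1) * 2 := by
      rw [← pow_succ, Nat.sub_add_cancel (by omega)]
    rw [h2] at h1
    exact Nat.eq_of_mul_eq_mul_left (by positivity) h1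
  -- the character
  let χ : Γ → ZMod 2 := fun g => if h : g ∈ P then (if (QuotientGroup.mk' N ⟨g, h⟩) ∈ K then 0 else 1) else 0
  have hχv : ∀ x : P, χ x = if (QuotientGroup.mk' N x) ∈ K then 0 else 1 := by
    intro x
    show (if h : (x : Γ) ∈ P then (if (QuotientGroup.mk' N ⟨x, h⟩) ∈ K then (0 : ZMod 2) else 1)
      else 0) = _
    rw [dif_pos x.2]
  have hχ0 : ∀ g ∈ P, χ g = 0 := by
    refine hfr χ ?_ ⟨U.normalCore, hVopen, ?_⟩ ?_ ?_
    · intro x hx y hy
      have h1 : χ (x * y) = χ (((⟨x, hx⟩ : P) * ⟨y, hy⟩ : P) : Γ) := rfl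
      have h2 : χ x = χ ((⟨x, hx⟩ : P) : Γ) := rfl
      have h3 : χ y = χ ((⟨y, hy⟩ : P) : Γ) := rfl
      rw [h1, h2, h3, hχv, hχv, hχv, map_mul, Subgroup.mul_mem_iff_of_index_two hKi]
      have h11 : (1 : ZMod 2) + 1 = 0 := C0_add
      by_cases hxK : (QuotientGroup.mk' N ⟨x, hx⟩) ∈ K <;>
        by_cases hyK : (QuotientGroup.mk' N ⟨y, hy⟩) ∈ K
      · rw [if_pos hxK, if_pos hyK, if_pos (by tauto), add_zero]
      · rw [if_pos hxK, if_neg hyK, if_neg (by tauto), zero_add]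
      · rw [if_neg hxK, if_pos hyK, if_neg (by tauto), add_zero]
      · rw [if_neg hxK, if_neg hyK, if_pos (by tauto), h11]
    · intro x hx u hu huP
      have h1 : χ (x * u) = χ (((⟨x, hx⟩ : P) * ⟨u, huP⟩ : P) : Γ) := rfl
      have h2 : χ x = χ ((⟨x, hx⟩ : P) : Γ) := rfl
      have h3 : QuotientGroup.mk' N (⟨u, huP⟩ : P) = 1 := by
        rw [QuotientGroup.mk'_apply, QuotientGroup.eq_one_iff]
        refine Subgroup.mem_sup_right ?_
        rw [Subgroup.mem_subgroupOf]
        exact hu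
      rw [h1, h2, hχv, hχv, map_mul, h3, mul_one]
    · intro r hr
      have h2 : χ r = χ ((⟨r, hRP hr⟩ : P) : Γ) := rfl
      rw [h2, hχv, if_pos (hMK ((hcomap ⟨r, hRP hr⟩).2 (hRW hr)))]
    · intro m
      have h2 : χ (τ m) = χ ((⟨τ m, hWP (hτ m)⟩ : P) : Γ) := rfl
      rw [h2, hχv, if_pos (hMK ((hcomap ⟨τ m, hWP (hτ m)⟩).2 (hτ m)))]
  have hKtop : K = ⊤ := by
    rw [eq_top_iff]
    intro q _
    obtain ⟨g, rfl⟩ := QuotientGroup.mk'_surjective N q
    have h1 := hχ0 g g.2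
    rw [hχv] at h1
    by_contra h2
    rw [if_neg h2] at h1
    exact C0_ne h1
  rw [hKtop, Subgroup.index_top] at hKi
  exact absurd hKi (by norm_num)

end OzakiFree
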