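import Pool.Agent.Lib.MP_6e8030_nt.W.Base2

open IntermediateField
open scoped ComplexConjugate

noncomputable section

namespace OzakiFree

/-! ### C1: descent of freeness to `Gal(Om/K)` -/

/-- descent of homomorphisms -/
theorem C1_descent {p : ℕ} (K : IntermediateField ℚ Om) {A : Type} [Group A] (ρ : GQ → A)
    (h : HomR K.fixingSubgroup (RL p K) ρ) :
    ∃ φ : (GalGroup K (maxUnram p K)) →* A, IsOpen (φ.ker : Set (GalGroup K (maxUnram p K))) ∧
      ∀ g : K.fixingSubgroup, φ (N3_pi p K g) = ρ g := by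
  let s : (GalGroup K (maxUnram p K)) → K.fixingSubgroup := Function.surjInv (N3_surj p K)
  have hs : ∀ a, N3_pi p K (s a) = a := Function.surjInv_eq (N3_surj p K)
  have h10 : ρ 1 = 1 := h.triv 1 (Subgroup.one_mem _)
  have key : ∀ g g' : K.fixingSubgroup, N3_pi p K g = N3_pi p K g' → ρ g = ρ g' := by
    intro g g' hgg
    have h4 : N3_pi p K (g'⁻¹ * g) = 1 := by
      rw [map_mul, map_inv, hgg, inv_mul_cancel]
    have h5 := h.triv _ ((N3_ker p K _).1 h4)
    have h6 := h.mul g' g'.2 (g'⁻¹ * g : K.fixingSubgroup) (g'⁻¹ * g).2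
    have h7 : ((g' : GQ) * ((g'⁻¹ * g : K.fixingSubgroup) : GQ)) = g := by
      push_cast
      group
    rw [h7, h5, mul_one] at h6
    exact h6
  have hψ : ∀ g : K.fixingSubgroup, ρ (s (N3_pi p K g)) = ρ g := fun g => key _ _ (hs _)
  have hmul : ∀ a c, ρ (s (a * c)) = ρ (s a) * ρ (s c) := by
    intro a c
    have e : ρ (s (a * c)) = ρ ((s a * s c : K.fixingSubgroup) : GQ) := by
      apply key
      rw [map_mul, hs, hs, hs]
    rw [e]
    exact h.mul _ (s a).2 _ (s c).2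
  have hone : ρ (s 1) = 1 := by
    have := hψ 1
    rw [map_one] at this
    rw [this]
    exact h10
  refine ⟨⟨⟨fun a => ρ (s a), hone⟩, hmul⟩, ?_, hψ⟩
  have hcomp := N3_compact K
  have ht2 := N3_t2 p K
  have hcl : Topology.IsQuotientMap (N3_pi p K) :=
    ((N3_cont p K).isClosedMap).isQuotientMap (N3_cont p K) (N3_surj p K)
  rw [← hcl.isOpen_preimage]
  have e : (N3_pi p K) ⁻¹' {a | ρ (s a) = 1} = {g : K.fixingSubgroup | ρ g = 1} := by
    ext g
    exact Iff.of_eq (congrArg (· = 1) (hψ g))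
  show IsOpen ((N3_pi p K) ⁻¹' {a | ρ (s a) = 1})
  rw [e]
  obtain ⟨U, hU, hUχ⟩ := h.lc
  rw [isOpen_iff_mem_nhds]
  intro g hg
  have h8 : IsOpen {x : K.fixingSubgroup | (g : GQ)⁻¹ * (x : GQ) ∈ U} :=
    hU.preimage (continuous_const.mul continuous_subtype_val)
  refine Filter.mem_of_superset (h8.mem_nhds (by
    change (g : GQ)⁻¹ * (g : GQ) ∈ U
    rw [inv_mul_cancel]
    exact U.one_mem)) fun x hx => ?_
  have h9 := hUχ g g.2 ((g : GQ)⁻¹ * x) hx (K.fixingSubgroup.mul_mem (K.fixingSubgroup.inv_mem g.2) x.2)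
  rw [mul_inv_cancel_left] at h9
  change ρ x = 1
  rw [h9]
  exact hg

/-- pull back of homomorphisms -/
theorem C1_pull {p : ℕ} (K : IntermediateField ℚ Om) {A : Type} [Group A]
    (φ : (GalGroup K (maxUnram p K)) →* A)
    (hφ : IsOpen (φ.ker : Set (GalGroup K (maxUnram p K)))) :
    ∃ ρ : GQ → A, HomR K.fixingSubgroup (RL p K) ρ ∧
      ∀ g : K.fixingSubgroup, ρ g = φ (N3_pi p K g) := by
  classical
  let ρ : GQ → A := fun g => if h : g ∈ K.fixingSubgroup then φ (N3_pi p K ⟨g, h⟩) else 1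
  have hρ : ∀ g (h : g ∈ K.fixingSubgroup), ρ g = φ (N3_pi p K ⟨g, h⟩) := fun g h => dif_pos h
  have hom : ∀ g ∈ K.fixingSubgroup, ∀ h ∈ K.fixingSubgroup, ρ (g * h) = ρ g * ρ h := by
    intro g hg h hh
    rw [hρ _ (mul_mem hg hh), hρ _ hg, hρ _ hh, ← map_mul, ← map_mul]
    rfl
  refine ⟨ρ, ⟨hom, ?_, ?_⟩, fun g => hρ g g.2⟩
  · obtain ⟨U, hU, hUs⟩ := N3_pull p K hφ (Subgroup.one_mem _)
    refine ⟨U, hU, fun g hg u hu huK => ?_⟩
    rw [hom g hg u huK, hρ u huK]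
    have : φ (N3_pi p K ⟨u, huK⟩) = 1 := hUs u hu huK
    rw [this, mul_one]
  · intro r hr
    have hrK := RL_le p K hr
    rw [hρ r hrK, (N3_ker p K ⟨r, hrK⟩).2 hr, map_one]

/-- PROOF. `N3_pi : K.fixingSubgroup →* GalGroup K (maxUnram p K)` is continuous, surjective, with kernel `RL p K`; `K.fixingSubgroup` is compact. `b` : lift the basis. A homomorphism of `Gal(L(K)/K)` with open kernel pulls back to `HomR` (extend by 1 outside
`K.fixingSubgroup`; `N3_pull`); conversely a `HomR` `ρ` descends to a homomorphism with open kernel (as `N3_descent`). The last statement is the first property of the basis in `IsFreeProP`, applied to the kernel; with it `un` follows from `∃!`. -/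
theorem free_on {p : ℕ} [Fact p.Prime] (K : IntermediateField ℚ Om) (hA : FreeGal p K) :
    ∃ (X : Type) (b : X → GQ), FreeOn p K.fixingSubgroup (RL p K) X b ∧
      ∀ (A : Type) [Group A] (ρ : GQ → A), HomR K.fixingSubgroup (RL p K) ρ →
        {x | ρ (b x) ≠ 1}.Finite := by
  obtain ⟨X, b0, hb1, hb2⟩ := hA
  let s : (GalGroup K (maxUnram p K)) → K.fixingSubgroup := Function.surjInv (N3_surj p K)
  have hs : ∀ a, N3_pi p K (s a) = a := Function.surjInv_eq (N3_surj p K)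
  have hfin : ∀ (A : Type) [Group A] (ρ : GQ → A), HomR K.fixingSubgroup (RL p K) ρ →
      {x | ρ (s (b0 x)) ≠ 1}.Finite := by
    intro A _ ρ hρ
    obtain ⟨φ, h1, h2⟩ := C1_descent K ρ hρ
    refine (hb1 φ.ker h1).subset fun x hx => ?_
    intro h3
    apply hx
    rw [← h2, hs]
    exact h3
  refine ⟨X, fun x => s (b0 x), ⟨fun x => (s (b0 x)).2, ?_, ?_⟩, hfin⟩
  · intro A _ _ hA f hf
    obtain ⟨φ, ⟨h1, h2⟩, -⟩ := hb2 A hA f hf
    obtain ⟨ρ, h3, h4⟩ := C1_pull K φ h1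
    refine ⟨ρ, h3, fun x => ?_⟩
    show ρ (s (b0 x)) = f x
    rw [h4, hs, h2]
  · intro A _ _ hA ρ ρ' hρ hρ' hbb g hg
    obtain ⟨φ, h1, h2⟩ := C1_descent K ρ hρ
    obtain ⟨φ', h1', h2'⟩ := C1_descent K ρ' hρ'
    have h3 : ∀ x, φ (b0 x) = ρ (s (b0 x)) := fun x => by rw [← h2, hs]
    have h3' : ∀ x, φ' (b0 x) = ρ (s (b0 x)) := fun x => by
      rw [hbb x, ← h2', hs]
    have h4 := (hb2 A hA (fun x => ρ (s (b0 x))) (hfin A ρ hρ)).unique ⟨h1, h3⟩ ⟨h1', h3'⟩
    have h5 := h2 ⟨g, hg⟩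
    have h6 := h2' ⟨g, hg⟩
    rw [h4] at h5
    exact h5.symm.trans h6

end OzakiFree
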