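import Pool.Agent.Lib.MP_6e8030_nt.W.Base2

open IntermediateField
open scoped ComplexConjugate

noncomputable section

namespace OzakiFree

/-! ### C1b: `Gal(L(K)/K)` is pro-`p` -/

private theorem C1b_mono {p : ℕ} (g : GQ) {n m : ℕ} (h : n ≤ m) {x : Om} (hx : (g ^ (p ^ n)) x = x) :
    (g ^ (p ^ m)) x = x := by
  obtain ⟨k, rfl⟩ := Nat.exists_eq_add_of_le h
  rw [pow_add, pow_mul]
  have h1 : g ^ (p ^ n) ∈ MulAction.stabilizer GQ x := hx
  exact pow_mem h1 (p ^ k)

/-- the elements fixed by some `g ^ (p ^ n)` -/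
private def C1b_T (p : ℕ) (g : GQ) : IntermediateField ℚ Om where
  carrier := {x | ∃ n : ℕ, (g ^ (p ^ n)) x = x}
  mul_mem' := by
    rintro a b ⟨n, hn⟩ ⟨m, hm⟩
    refine ⟨max n m, ?_⟩
    rw [map_mul, C1b_mono g (le_max_left n m) hn, C1b_mono g (le_max_right n m) hm]
  add_mem' := by
    rintro a b ⟨n, hn⟩ ⟨m, hm⟩
    refine ⟨max n m, ?_⟩
    rw [map_add, C1b_mono g (le_max_left n m) hn, C1b_mono g (le_max_right n m) hm]
  algebraMap_mem' := fun r => ⟨0, (g ^ (p ^ 0)).commutes r⟩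
  inv_mem' := by
    rintro a ⟨n, hn⟩
    exact ⟨n, by rw [map_inv₀, hn]⟩

private theorem C1b_pow {p : ℕ} (K E : IntermediateField ℚ Om) (h : UnramPExt p K E) (g : GQ)
    (hg : g ∈ K.fixingSubgroup) : ∃ m : ℕ, ∀ x ∈ E, (g ^ (p ^ m)) x = x := by
  obtain ⟨hKE, hst, ⟨m, hm⟩, _⟩ := h
  have hgalK : IsGalois K Om := inferInstance
  let res : (Om ≃ₐ[K] Om) →* GQ := AlgEquiv.restrictScalarsHom ℚ
  have hresmem : ∀ t : Om ≃ₐ[K] Om, Fixes (res t) K := fun t x hx => t.commutes ⟨x, hx⟩
  obtain ⟨g', hg'⟩ : ∃ t' : Om ≃ₐ[K] Om, res t' = g := by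
    rw [N11_fix] at hg
    refine ⟨AlgEquiv.ofRingEquiv (f := (g : Om ≃+* Om)) fun x => hg x.1 x.2, ?_⟩
    ext x
    rfl
  let E' : IntermediateField K Om := extendScalars hKE
  have hmem : ∀ x : Om, x ∈ E' ↔ x ∈ E := fun x => mem_extendScalars hKE
  have hidx : E'.fixingSubgroup.index = p ^ m := by
    rw [← finrank_eq_fixingSubgroup_index, ← hm, relfinrank_eq_finrank_of_le hKE]
  have hnorm : E'.fixingSubgroup.Normal := by
    constructor
    intro s hs t
    rw [IntermediateField.mem_fixingSubgroup_iff] at hs ⊢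
    intro x hx
    have h1 : t⁻¹ x ∈ E' := (hmem _).2 (hst (res t⁻¹) (hresmem t⁻¹) x ((hmem x).1 hx))
    show t (s (t⁻¹ x)) = x
    rw [hs _ h1]
    exact t.apply_symm_apply x
  have h1 : g' ^ (p ^ m) ∈ E'.fixingSubgroup := by
    rw [← hidx]
    exact E'.fixingSubgroup.pow_index_mem g'
  refine ⟨m, fun x hx => ?_⟩
  rw [← hg', ← map_pow]
  exact (IntermediateField.mem_fixingSubgroup_iff _ _).1 h1 x ((hmem x).2 hx)

private theorem C1b_le {p : ℕ} (K : IntermediateField ℚ Om) (g : GQ) (hg : g ∈ K.fixingSubgroup) :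
    maxUnram p K ≤ C1b_T p g := by
  refine sup_le ?_ (sSup_le fun E hE => ?_)
  · intro x hx
    refine ⟨0, ?_⟩
    rw [pow_zero, pow_one]
    exact (N11_fix K g).1 hg x hx
  · intro x hx
    obtain ⟨m, hm⟩ := C1b_pow K E hE g hg
    exact ⟨m, hm x hx⟩

/-- PROOF. Let `V ≤ U` be open and normal in `GQ`, `N` its field (finite Galois over `ℚ`), `L = maxUnram p K`. Every `x ∈ L ⊓ N` lies in a compositum `K E₁ ⋯ E_r` of fields as in `UnramPExt`; `g ∈ Gal(Om/K)` acts on `E_i` through a group of order `p ^ (m i)`, so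
`g ^ (p ^ n) x = x` for large `n` (uniform for the finitely generated `L ⊓ N`). So `g ^ (p ^ n)` fixes `L ⊓ N`, whose fixing subgroup is `RL p K ⊔ V` (the product of a closed subgroup and an open normal subgroup is an open subgroup, so closed), and it is
in `r V`. (`g ^ (p ^ n) = r v` gives `r⁻¹ g ^ (p ^ n) = v ∈ U`.) -/
theorem RL_pro {p : ℕ} (hp : p.Prime) (K : IntermediateField ℚ Om) :
    ProP p K.fixingSubgroup (RL p K) := by
  intro U hU g hg
  have hgal : IsGalois ℚ Om := N3_gal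
  have hnor : Normal ℚ Om := hgal.to_normal
  obtain ⟨N, hNfin, hNnor, hNU⟩ := (krullTopology_mem_nhds_one_iff_of_normal ℚ Om (U : Set GQ)).1
    (hU.mem_nhds U.one_mem)
  have hVn : N.fixingSubgroup.Normal := by
    rw [← N.restrictNormalHom_ker]
    infer_instance
  have hVo : IsOpen (N.fixingSubgroup : Set GQ) := N.fixingSubgroup_isOpen
  -- uniform exponent
  obtain ⟨n, hn⟩ : ∃ n : ℕ, ∀ x ∈ maxUnram p K ⊓ N, (g ^ (p ^ n)) x = x := by
    have hfin : FiniteDimensional ℚ (maxUnram p K ⊓ N : IntermediateField ℚ Om) :=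
      FiniteDimensional.of_injective
        (IntermediateField.inclusion (inf_le_right : maxUnram p K ⊓ N ≤ N)).toLinearMap
        (IntermediateField.inclusion_injective (inf_le_right : maxUnram p K ⊓ N ≤ N))
    have hess : Algebra.EssFiniteType ℚ (maxUnram p K ⊓ N : IntermediateField ℚ Om) := inferInstance
    obtain ⟨S, hS⟩ := IntermediateField.essFiniteType_iff.1 hess
    have hT : ∀ x ∈ S, ∃ n : ℕ, (g ^ (p ^ n)) x = x := by
      intro x hx
      have h1 : x ∈ maxUnram p K ⊓ N := by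
        rw [← hS]
        exact subset_adjoin ℚ (S : Set Om) hx
      exact C1b_le K g hg h1.1
    choose! f hf using hT
    refine ⟨S.sup f, ?_⟩
    have h2 : maxUnram p K ⊓ N ≤ fixedField (Subgroup.zpowers (g ^ (p ^ S.sup f))) := by
      rw [← hS, adjoin_le_iff]
      intro x hx
      show x ∈ fixedField _
      rw [IntermediateField.mem_fixedField_iff]
      intro t ht
      obtain ⟨k, rfl⟩ := Subgroup.mem_zpowers_iff.mp ht
      have h3 : g ^ (p ^ S.sup f) ∈ MulAction.stabilizer GQ x :=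
        C1b_mono g (Finset.le_sup (f := f) hx) (hf x hx)
      exact zpow_mem h3 k
    intro x hx
    have h4 := h2 hx
    rw [IntermediateField.mem_fixedField_iff] at h4
    exact h4 _ (Subgroup.mem_zpowers _)
  -- the closed subgroup
  have hopen : IsOpen ((RL p K ⊔ N.fixingSubgroup : Subgroup GQ) : Set GQ) :=
    Subgroup.isOpen_mono le_sup_right hVo
  have hclosed : IsClosed ((RL p K ⊔ N.fixingSubgroup : Subgroup GQ) : Set GQ) :=
    Subgroup.isClosed_of_isOpen _ hopen
  have h5 := InfiniteGalois.fixingSubgroup_fixedField (⟨RL p K ⊔ N.fixingSubgroup, hclosed⟩ : ClosedSubgroup GQ)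
  have h6 : g ^ (p ^ n) ∈ RL p K ⊔ N.fixingSubgroup := by
    have h7 : g ^ (p ^ n) ∈ (fixedField (RL p K ⊔ N.fixingSubgroup)).fixingSubgroup := by
      rw [IntermediateField.mem_fixingSubgroup_iff]
      intro x hx
      refine hn x ⟨?_, ?_⟩
      · have h8 : fixedField (RL p K) = maxUnram p K := InfiniteGalois.fixedField_fixingSubgroup _
        show x ∈ maxUnram p K
        rw [← h8, IntermediateField.mem_fixedField_iff]
        intro t ht
        exact (IntermediateField.mem_fixedField_iff _ x).1 hx t (Subgroup.mem_sup_left ht)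
      · have h8 : fixedField N.fixingSubgroup = N := InfiniteGalois.fixedField_fixingSubgroup _
        show x ∈ N
        rw [← h8, IntermediateField.mem_fixedField_iff]
        intro t ht
        exact (IntermediateField.mem_fixedField_iff _ x).1 hx t (Subgroup.mem_sup_right ht)
    have h9 : (fixedField (RL p K ⊔ N.fixingSubgroup)).fixingSubgroup = RL p K ⊔ N.fixingSubgroup := h5
    rwa [h9] at h7
  obtain ⟨r, hr, v, hv, hrv⟩ := Subgroup.mem_sup_of_normal_right.1 h6
  refine ⟨n, r, hr, ?_⟩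
  rw [← hrv, inv_mul_cancel_left]
  exact hNU hv

end OzakiFree
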