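import Pool.Agent.Lib.MP_6e8030_nt.W.C0

open IntermediateField
open scoped ComplexConjugate

noncomputable section

namespace OzakiFree

/-! ### C2a: `H / R` is generated by the `τ 0 * τ (j + 1)` -/

/-- the subgroup of `H` on which two homomorphisms agree -/
private def C2a_E {Γ : Type*} [Group Γ] [TopologicalSpace Γ] {H R : Subgroup Γ} {A : Type*} [Group A]
    {ρ ρ' : Γ → A} (h : HomR H R ρ) (h' : HomR H R ρ') : Subgroup Γ where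
  carrier := {g | g ∈ H ∧ ρ g = ρ' g}
  one_mem' := ⟨H.one_mem, by rw [h.triv 1 R.one_mem, h'.triv 1 R.one_mem]⟩
  mul_mem' := fun {a b} ha hb => ⟨H.mul_mem ha.1 hb.1, by
    rw [h.mul a ha.1 b hb.1, h'.mul a ha.1 b hb.1, ha.2, hb.2]⟩
  inv_mem' := fun {a} ha => ⟨H.inv_mem ha.1, by
    have h1 := h.mul a ha.1 a⁻¹ (H.inv_mem ha.1)
    have h2 := h'.mul a ha.1 a⁻¹ (H.inv_mem ha.1)
    rw [mul_inv_cancel, h.triv 1 R.one_mem] at h1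
    rw [mul_inv_cancel, h'.triv 1 R.one_mem] at h2
    rw [← inv_eq_of_mul_eq_one_right h1.symm, ← inv_eq_of_mul_eq_one_right h2.symm, ha.2]⟩

/-- the subgroup `W₀ ∪ τ W₀` -/
private def C2a_W {Γ : Type*} [Group Γ] (W₀ : Subgroup Γ) (t : Γ) (h2 : t * t ∈ W₀)
    (hc : ∀ g ∈ W₀, t * g * t⁻¹ ∈ W₀) : Subgroup Γ where
  carrier := {g | g ∈ W₀ ∨ t * g ∈ W₀}
  one_mem' := Or.inl W₀.one_mem
  mul_mem' := by
    have hc' : ∀ g ∈ W₀, t⁻¹ * g * t ∈ W₀ := by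
      intro g hg
      have e : t⁻¹ * g * t = (t * t)⁻¹ * (t * g * t⁻¹) * (t * t) := by group
      rw [e]
      exact W₀.mul_mem (W₀.mul_mem (W₀.inv_mem h2) (hc g hg)) h2
    rintro a b (ha | ha) (hb | hb)
    · exact Or.inl (W₀.mul_mem ha hb)
    · refine Or.inr ?_
      have e : t * (a * b) = t * a * t⁻¹ * (t * b) := by group
      rw [e]
      exact W₀.mul_mem (hc a ha) hb
    · refine Or.inr ?_
      rw [← mul_assoc]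
      exact W₀.mul_mem ha hb
    · refine Or.inl ?_
      have e : a * b = t⁻¹ * (t * a) * t * (t * t)⁻¹ * (t * b) := by group
      rw [e]
      exact W₀.mul_mem (W₀.mul_mem (hc' _ ha) (W₀.inv_mem h2)) hb
  inv_mem' := by
    rintro a (ha | ha)
    · exact Or.inl (W₀.inv_mem ha)
    · refine Or.inr ?_
      have e : t * a⁻¹ = t * (t * a)⁻¹ * t⁻¹ * (t * t) := by group
      rw [e]
      exact W₀.mul_mem (hc _ (W₀.inv_mem ha)) h2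

/-- PROOF. `N'` := the subgroup generated by `R` and the `σ_j = τ 0 * τ (j+1)`. `τ 0` normalises it: `τ 0 σ_j (τ 0)⁻¹ = (τ 0)² (τ (j+1) (τ 0)⁻¹)` and `τ (j+1) (τ 0)⁻¹ = (τ 0 (τ (j+1))⁻¹)⁻¹`, `τ 0 (τ (j+1))⁻¹ = σ_j (τ (j+1))⁻²`, the squares are in `R`, `R` is normal in `P`.
Let `U` be open, NORMAL in `Γ`, so small that `ρ, ρ'` are 1 on `U ⊓ H` and `χ₀ = 0` on `U ⊓ P`. `W₀ = N' (U ⊓ P) ≤ H` and `W = W₀ ∪ τ 0 W₀` is a subgroup; it contains `τ 0`, all `τ (j+1) = (τ 0)⁻¹ σ_j`, `R`, `U ⊓ P`. By `frattini` `W = P`, so `H = W₀` (elements of `τ 0 W₀` have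
`χ₀ = 1`). On `W₀` the two homomorphisms agree. -/
theorem gen_inj {Γ : Type*} [Group Γ] [TopologicalSpace Γ] [IsTopologicalGroup Γ] [CompactSpace Γ]
    {P H R : Subgroup Γ} {χ₀ : Γ → ZMod 2} {n : ℕ} {τ : Fin (n + 1) → Γ}
    {ψ : Fin (n + 1) → Γ → ZMod 2} (hG : GData P H R χ₀ (n + 1) τ ψ) {A : Type*} [Group A]
    (ρ ρ' : Γ → A) (h : HomR H R ρ) (h' : HomR H R ρ')
    (he : ∀ j : Fin n, ρ (τ 0 * τ j.succ) = ρ' (τ 0 * τ j.succ)) : ∀ g ∈ H, ρ g = ρ' g := by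
  have hHP : H ≤ P := fun g hg => ((hG.hH g).1 hg).1
  have hRP : R ≤ P := hG.RH.trans hHP
  have hRE : ∀ r ∈ R, r ∈ C2a_E h h' := fun r hr => ⟨hG.RH hr, by rw [h.triv r hr, h'.triv r hr]⟩
  have ht0 := hG.tP 0
  -- conjugation by elements of `R`
  have hconj : ∀ r ∈ R, ∀ g ∈ C2a_E h h', r * g * r⁻¹ ∈ C2a_E h h' := fun r hr g hg =>
    (C2a_E h h').mul_mem ((C2a_E h h').mul_mem (hRE r hr) hg) ((C2a_E h h').inv_mem (hRE r hr))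
  let W₀ : Subgroup Γ := C2a_E h h' ⊓ (C2a_E h h').comap (MulAut.conj (τ 0)).toMonoidHom
  have hW₀ : ∀ g, g ∈ W₀ ↔ g ∈ C2a_E h h' ∧ τ 0 * g * (τ 0)⁻¹ ∈ C2a_E h h' := fun g => Iff.rfl
  have hc : ∀ g ∈ W₀, τ 0 * g * (τ 0)⁻¹ ∈ W₀ := by
    intro g hg
    rw [hW₀] at hg ⊢
    refine ⟨hg.2, ?_⟩
    have e : τ 0 * (τ 0 * g * (τ 0)⁻¹) * (τ 0)⁻¹ = τ 0 * τ 0 * g * (τ 0 * τ 0)⁻¹ := by group
    rw [e]
    exact hconj _ (hG.t2 0) g hg.1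
  have hRW₀ : ∀ r ∈ R, r ∈ W₀ := by
    intro r hr
    rw [hW₀]
    exact ⟨hRE r hr, hRE _ (hG.Rn _ ht0 r hr)⟩
  have hσ : ∀ j : Fin n, τ 0 * τ j.succ ∈ W₀ := by
    intro j
    have h1 : τ 0 * τ j.succ ∈ C2a_E h h' := by
      refine ⟨(hG.hH _).2 ⟨P.mul_mem ht0 (hG.tP _), ?_⟩, he j⟩
      rw [hG.h0 _ ht0 _ (hG.tP _), hG.t1, hG.t1]
      rfl
    rw [hW₀]
    refine ⟨h1, ?_⟩
    have e : τ 0 * (τ 0 * τ j.succ) * (τ 0)⁻¹ =
        τ 0 * τ 0 * (τ j.succ * τ j.succ) * (τ 0 * τ j.succ)⁻¹ := by group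
    rw [e]
    exact (C2a_E h h').mul_mem ((C2a_E h h').mul_mem (hRE _ (hG.t2 0)) (hRE _ (hG.t2 _)))
      ((C2a_E h h').inv_mem h1)
  -- the open subgroup
  obtain ⟨U₁, hU₁, hU₁'⟩ := h.lc
  obtain ⟨U₂, hU₂, hU₂'⟩ := h'.lc
  obtain ⟨U₃, hU₃, hU₃'⟩ := hG.l0
  have hχ1 : χ₀ 1 = 0 := by
    have h1 := hG.h0 1 P.one_mem 1 P.one_mem
    rw [mul_one] at h1
    exact left_eq_add.1 h1
  let U : Subgroup Γ := U₁ ⊓ U₂ ⊓ U₃
  have hU : IsOpen (U : Set Γ) := (hU₁.inter hU₂).inter hU₃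
  have hUE : ∀ u ∈ U, u ∈ P → u ∈ C2a_E h h' := by
    rintro u ⟨⟨hu1, hu2⟩, hu3⟩ huP
    have h1 : χ₀ u = 0 := by
      have h2 := hU₃' 1 P.one_mem u hu3 huP
      rwa [one_mul, hχ1] at h2
    have huH : u ∈ H := (hG.hH u).2 ⟨huP, h1⟩
    refine ⟨huH, ?_⟩
    have h2 := hU₁' 1 H.one_mem u hu1 huH
    have h3 := hU₂' 1 H.one_mem u hu2 huH
    rw [one_mul] at h2 h3
    rw [h2, h3, h.triv 1 R.one_mem, h'.triv 1 R.one_mem]
  have hUo : IsOpen (((U ⊓ U.comap (MulAut.conj (τ 0)).toMonoidHom : Subgroup Γ)) : Set Γ) := by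
    refine hU.inter ?_
    have hcont : Continuous fun g : Γ => τ 0 * g * (τ 0)⁻¹ := by fun_prop
    exact hU.preimage hcont
  have key := frattini P R hRP hG.Rn hG.pro τ hG.fr (C2a_W W₀ (τ 0) (hRW₀ _ (hG.t2 0)) hc)
    (by
      rintro g (hg | hg)
      · exact hHP ((hW₀ g).1 hg).1.1
      · have h1 : τ 0 * g ∈ P := hHP ((hW₀ _).1 hg).1.1
        have h2 := P.mul_mem (P.inv_mem ht0) h1
        rwa [inv_mul_cancel_left] at h2)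
    ⟨_, hUo, fun u hu huP => Or.inl ((hW₀ u).2 ⟨hUE u hu.1 huP, hUE _ hu.2
      (P.mul_mem (P.mul_mem ht0 huP) (P.inv_mem ht0))⟩)⟩
    (fun r hr => Or.inl (hRW₀ r hr))
    (by
      intro m
      refine Fin.cases ?_ (fun j => ?_) m
      · exact Or.inr (hRW₀ _ (hG.t2 0))
      · exact Or.inr (hσ j))
  intro g hg
  rcases key (hHP hg) with h1 | h1
  · exact ((hW₀ g).1 h1).1.2
  · exfalso
    have h2 : χ₀ (τ 0 * g) = 0 := ((hG.hH _).1 ((hW₀ _).1 h1).1.1).2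
    rw [hG.h0 _ ht0 _ (hHP hg), hG.t1, ((hG.hH g).1 hg).2, add_zero] at h2
    exact one_ne_zero h2

end OzakiFree
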