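import Pool.Agent.Lib.MP_6e8030_nt.W.C2a

open IntermediateField
open scoped ComplexConjugate

noncomputable section

namespace OzakiFree

/-! ### C2b: the rank -/

private theorem C2b_map {Γ : Type*} [Group Γ] [TopologicalSpace Γ] [IsTopologicalGroup Γ]
    [CompactSpace Γ] {P H R : Subgroup Γ} {χ₀ : Γ → ZMod 2} {n : ℕ} {τ : Fin (n + 1) → Γ}
    {ψ : Fin (n + 1) → Γ → ZMod 2} (hG : GData P H R χ₀ (n + 1) τ ψ) (X : Type) (b : X → Γ)
    (hF : FreeOn 2 H R X b) (A : Type) [Group A] [Finite A] (hA : IsPGroup 2 A) {T : Type}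
    (F : T → X → A) (hfin : ∀ t, {x | F t x ≠ 1}.Finite) (hinj : Function.Injective F) :
    ∃ Φ : T → Fin n → A, Function.Injective Φ ∧
      ∀ t, ∃ ρ : Γ → A, HomR H R ρ ∧ ∀ j : Fin n, ρ (τ 0 * τ j.succ) = Φ t j := by
  choose ρ hρ hρ' using fun t => hF.ex A hA (F t) (hfin t)
  refine ⟨fun t j => ρ t (τ 0 * τ j.succ), fun t t' h => ?_, fun t => ⟨ρ t, hρ t, fun j => rfl⟩⟩
  apply hinj
  funext x
  rw [← hρ' t x, ← hρ' t' x]
  exact gen_inj hG (ρ t) (ρ t') (hρ t) (hρ t') (fun j => congrFun h j) (b x) (hF.mem x)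

private theorem C2b_pgroup : IsPGroup 2 (Multiplicative (ZMod 2)) :=
  IsPGroup.of_card (n := 1) (by
    rw [pow_one, Nat.card_congr Multiplicative.toAdd, Nat.card_zmod])

/-- PROOF. (≤) For a finite `Y ⊆ X` the functions `f : Y → Multiplicative (ZMod 2)` (extended by 1) give `HomR`s `ρ_f` (`hF.ex`) which differ at some `b y ∈ H`; by `gen_inj` `f ↦ (ρ_f (τ 0 * τ j.succ))_j` is injective, so `2 ^ |Y| ≤ 2 ^ n`. So `X` is finite with at most `n` elements.
(≥) For `J ⊆ Fin n` the character `∑_{j ∈ J} ψ j.succ` is a `HomR H R` (values in `Multiplicative (ZMod 2)`), with value `[j ∈ J]` at `τ 0 * τ j.succ ∈ H`; by `hF.un` they are determined by the values at the `b x`: `2 ^ n ≤ 2 ^ |X|`. -/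
theorem free_card {Γ : Type*} [Group Γ] [TopologicalSpace Γ] [IsTopologicalGroup Γ]
    [CompactSpace Γ] {P H R : Subgroup Γ} {χ₀ : Γ → ZMod 2} {n : ℕ} {τ : Fin (n + 1) → Γ}
    {ψ : Fin (n + 1) → Γ → ZMod 2} (hG : GData P H R χ₀ (n + 1) τ ψ) (X : Type) (b : X → Γ)
    (hF : FreeOn 2 H R X b) : Finite X ∧ Nat.card X = n := by
  classical
  have hle : ∀ Y : Finset X, Y.card ≤ n := by
    intro Y
    obtain ⟨Φ, hΦ, -⟩ := C2b_map hG X b hF (Multiplicative (ZMod 2)) C2b_pgroup
      (T := Y → Multiplicative (ZMod 2)) (fun f x => if h : x ∈ Y then f ⟨x, h⟩ else 1)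
      (fun f => Y.finite_toSet.subset fun x hx => by
        by_contra hxY
        exact hx (dif_neg hxY))
      (fun f f' h => by
        funext y
        have h1 := congrFun h y.1
        simp only [dif_pos y.2] at h1
        exact h1)
    have h1 := Nat.card_le_card_of_injective Φ hΦ
    rw [Nat.card_fun, Nat.card_fun, Nat.card_congr (Multiplicative.toAdd (α := ZMod 2)), Nat.card_zmod,
      Nat.card_eq_fintype_card, Fintype.card_coe, Nat.card_eq_fintype_card, Fintype.card_fin] at h1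
    exact (Nat.pow_le_pow_iff_right (by norm_num)).1 h1
  have hfinX : Finite X := by
    by_contra hcon
    haveI : Infinite X := not_finite_iff_infinite.1 hcon
    obtain ⟨Y, hY⟩ := Infinite.exists_subset_card_eq X (n + 1)
    have := hle Y
    omega
  refine ⟨hfinX, le_antisymm ?_ ?_⟩
  · letI : Fintype X := Fintype.ofFinite X
    rw [Nat.card_eq_fintype_card]
    exact hle Finset.univ
  · choose U hU hU' using hG.plc
    let V : Subgroup Γ := ⨅ m, U m
    have hV : IsOpen (V : Set Γ) := by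
      rw [Subgroup.coe_iInf]
      exact isOpen_iInter_of_finite hU
    have hHP : ∀ g ∈ H, g ∈ P := fun g hg => ((hG.hH g).1 hg).1
    have hhom : ∀ J : Fin n → ZMod 2, HomR H R
        (fun g => Multiplicative.ofAdd (∑ j, J j * ψ j.succ g)) := by
      intro J
      refine ⟨fun g hg h hh => ?_, ⟨V, hV, fun g hg u hu huH => ?_⟩, fun r hr => ?_⟩
      · rw [← ofAdd_add, ← Finset.sum_add_distrib]
        congr 1
        refine Finset.sum_congr rfl fun j _ => ?_
        rw [hG.phom _ g (hHP g hg) h (hHP h hh), mul_add]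
      · show Multiplicative.ofAdd (∑ j, J j * ψ j.succ (g * u)) = Multiplicative.ofAdd (∑ j, J j * ψ j.succ g)
        congr 1
        refine Finset.sum_congr rfl fun j _ => ?_
        rw [hU' j.succ g (hHP g hg) u (Subgroup.mem_iInf.1 hu _) (hHP u huH)]
      · show Multiplicative.ofAdd (∑ j, J j * ψ j.succ r) = 1
        rw [Finset.sum_eq_zero fun j _ => by rw [hG.pR _ r hr, mul_zero]]
        rfl
    have hval : ∀ (J : Fin n → ZMod 2) (k : Fin n), ∑ j, J j * ψ j.succ (τ 0 * τ k.succ) = J k := by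
      intro J k
      rw [Finset.sum_eq_single k]
      · rw [hG.phom _ _ (hG.tP _) _ (hG.tP _), hG.pt, hG.pt, if_neg (Fin.succ_ne_zero k), if_pos rfl,
          zero_add, mul_one]
      · intro j _ hj
        rw [hG.phom _ _ (hG.tP _) _ (hG.tP _), hG.pt, hG.pt, if_neg (Fin.succ_ne_zero j),
          if_neg (fun h => hj (Fin.succ_injective _ h)), zero_add, mul_zero]
      · intro h
        exact absurd (Finset.mem_univ k) h
    have hinj : Function.Injective fun (J : Fin n → ZMod 2) (x : X) =>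
        Multiplicative.ofAdd (∑ j, J j * ψ j.succ (b x)) := by
      intro J J' hJ
      funext k
      have hmem : τ 0 * τ k.succ ∈ H := by
        refine (hG.hH _).2 ⟨P.mul_mem (hG.tP _) (hG.tP _), ?_⟩
        rw [hG.h0 _ (hG.tP _) _ (hG.tP _), hG.t1, hG.t1]
        rfl
      have h1 := hF.un (Multiplicative (ZMod 2)) C2b_pgroup _ _ (hhom J) (hhom J')
        (fun x => congrFun hJ x) _ hmem
      have h2 : ∑ j, J j * ψ j.succ (τ 0 * τ k.succ) = ∑ j, J' j * ψ j.succ (τ 0 * τ k.succ) := h1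
      rwa [hval, hval] at h2
    have h1 := Nat.card_le_card_of_injective _ hinj
    rw [Nat.card_fun, Nat.card_fun, Nat.card_congr (Multiplicative.toAdd (α := ZMod 2)), Nat.card_zmod,
      Nat.card_eq_fintype_card, Fintype.card_fin] at h1
    exact (Nat.pow_le_pow_iff_right (by norm_num)).1 h1

/-- PROOF. `f ↦ (ρ_f (τ 0 * τ j.succ))_j` from `X → A` to `Fin n → A` is injective (`gen_inj`, and `f x = ρ_f (b x)`, `b x ∈ H`), both sets have `|A| ^ n` elements, so it is surjective. -/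
theorem exists_hom {Γ : Type*} [Group Γ] [TopologicalSpace Γ] [IsTopologicalGroup Γ]
    [CompactSpace Γ] {P H R : Subgroup Γ} {χ₀ : Γ → ZMod 2} {n : ℕ} {τ : Fin (n + 1) → Γ}
    {ψ : Fin (n + 1) → Γ → ZMod 2} (hG : GData P H R χ₀ (n + 1) τ ψ) (X : Type) (b : X → Γ)
    (hF : FreeOn 2 H R X b) (A : Type) [Group A] [Finite A] (hA : IsPGroup 2 A) (a : Fin n → A) :
    ∃ ρ : Γ → A, HomR H R ρ ∧ ∀ j : Fin n, ρ (τ 0 * τ j.succ) = a j := by
  classical
  obtain ⟨hfinX, hcard⟩ := free_card hG X b hF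
  obtain ⟨Φ, hΦ, hΦ'⟩ := C2b_map hG X b hF A hA (T := X → A) (fun f => f) (fun f => Set.toFinite _)
    (fun _ _ h => h)
  have hc : Nat.card (X → A) = Nat.card (Fin n → A) := by
    rw [Nat.card_fun, Nat.card_fun, hcard, Nat.card_eq_fintype_card (α := Fin n), Fintype.card_fin]
  have hsurj : Function.Surjective Φ := ((Nat.bijective_iff_injective_and_card Φ).2 ⟨hΦ, hc⟩).2
  obtain ⟨f, hf⟩ := hsurj a
  obtain ⟨ρ, hρ, hρ'⟩ := hΦ' f
  exact ⟨ρ, hρ, fun j => by rw [hρ' j, hf]⟩

end OzakiFree
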