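import Pool.Agent.Lib.MP_6e8030_nt.W.C2b

open IntermediateField
open scoped ComplexConjugate

noncomputable section

namespace OzakiFree

/-! ### C2d: `P / R` is a free product of groups of order two -/

private theorem C2d_zmod (a : ZMod 2) (h : a ≠ 0) : a = 1 := by
  revert a
  decide

private theorem C2d_one {Γ : Type*} [Group Γ] [TopologicalSpace Γ] {H R : Subgroup Γ} {A : Type*}
    [Group A] {h : Γ → A} (hh : HomR H R h) : h 1 = 1 := hh.triv 1 R.one_mem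

private theorem C2d_inv {Γ : Type*} [Group Γ] [TopologicalSpace Γ] {H R : Subgroup Γ} {A : Type*}
    [Group A] {h : Γ → A} (hh : HomR H R h) {g : Γ} (hg : g ∈ H) : h g⁻¹ = (h g)⁻¹ := by
  have h1 := hh.mul g⁻¹ (H.inv_mem hg) g hg
  rw [inv_mul_cancel, C2d_one hh] at h1
  exact eq_inv_of_mul_eq_one_left h1.symm

/-- PROOF. Let `h` be the homomorphism of `exists_hom` with `h (τ 0 * τ j.succ) = t 0 * t j.succ`. For `g ∈ H`: `h (τ 0 * g * (τ 0)⁻¹) = t 0 * h g * (t 0)⁻¹`: both sides are `HomR H R` (conjugation by `τ 0 ∈ P` preserves `H`, `R` and is continuous), and agree at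
`τ 0 * τ j.succ` (both are `t j.succ * t 0`; use `(τ m)² ∈ R`), so `gen_inj`. Define `ρ g = h g` for `χ₀ g = 0` and `ρ g = t 0 * h ((τ 0)⁻¹ * g)` for `χ₀ g ≠ 0`: it is a homomorphism on `P` (four cases), locally constant, `ρ (τ 0) = t 0`,
`ρ (τ j.succ) = t 0 * h ((τ 0)⁻¹ τ j.succ) = t 0 * h ((τ 0)⁻² (τ 0 * τ j.succ)) = t j.succ`. -/
theorem free_inv {Γ : Type*} [Group Γ] [TopologicalSpace Γ] [IsTopologicalGroup Γ]
    [CompactSpace Γ] {P H R : Subgroup Γ} {χ₀ : Γ → ZMod 2} {n : ℕ} {τ : Fin (n + 1) → Γ}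
    {ψ : Fin (n + 1) → Γ → ZMod 2} (hG : GData P H R χ₀ (n + 1) τ ψ) (X : Type) (b : X → Γ)
    (hF : FreeOn 2 H R X b) : FreeInv P R (n + 1) τ := by
  intro A _ _ hA t ht
  obtain ⟨h, hh, hj⟩ := exists_hom hG X b hF A hA (fun j => t 0 * t j.succ)
  -- the character
  have hχ1 : χ₀ 1 = 0 := by
    have h1 := hG.h0 1 P.one_mem 1 P.one_mem
    rw [mul_one] at h1
    exact left_eq_add.1 h1
  have hχinv : ∀ g ∈ P, χ₀ g⁻¹ = χ₀ g := by
    intro g hg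
    have h1 := hG.h0 g⁻¹ (P.inv_mem hg) g hg
    rw [inv_mul_cancel, hχ1] at h1
    exact (CharTwo.add_eq_zero.1 h1.symm)
  have hHP : ∀ g ∈ H, g ∈ P := fun g hg => ((hG.hH g).1 hg).1
  have hH0 : ∀ g ∈ H, χ₀ g = 0 := fun g hg => ((hG.hH g).1 hg).2
  have h11 : (1 : ZMod 2) + 1 = 0 := by decide
  have t0P := hG.tP 0
  have t01 := hG.t1 0
  have ht0 : (t 0)⁻¹ = t 0 := inv_eq_of_mul_eq_one_left (ht 0)
  -- conjugation preserves `H`
  have conjH : ∀ g ∈ H, τ 0 * g * (τ 0)⁻¹ ∈ H := by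
    intro g hg
    rw [hG.hH]
    refine ⟨P.mul_mem (P.mul_mem t0P (hHP g hg)) (P.inv_mem t0P), ?_⟩
    rw [hG.h0 _ (P.mul_mem t0P (hHP g hg)) _ (P.inv_mem t0P), hG.h0 _ t0P _ (hHP g hg),
      hχinv _ t0P, t01, hH0 g hg, add_zero, h11]
  have conjH' : ∀ g ∈ H, (τ 0)⁻¹ * g * τ 0 ∈ H := by
    intro g hg
    rw [hG.hH]
    refine ⟨P.mul_mem (P.mul_mem (P.inv_mem t0P) (hHP g hg)) t0P, ?_⟩
    rw [hG.h0 _ (P.mul_mem (P.inv_mem t0P) (hHP g hg)) _ t0P, hG.h0 _ (P.inv_mem t0P) _ (hHP g hg),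
      hχinv _ t0P, t01, hH0 g hg, add_zero, h11]
  have mulH : ∀ x ∈ P, ∀ y ∈ P, χ₀ x = 1 → χ₀ y = 1 → x * y ∈ H := by
    intro x hx y hy h1 h2
    rw [hG.hH]
    refine ⟨P.mul_mem hx hy, ?_⟩
    rw [hG.h0 _ hx _ hy, h1, h2, h11]
  have sqH : ∀ m, τ m * τ m ∈ H := fun m => hG.RH (hG.t2 m)
  -- values
  have hval : ∀ j : Fin n, h (τ j.succ * (τ 0)⁻¹) = t j.succ * t 0 := by
    intro j
    have h1 : (τ j.succ * (τ 0)⁻¹) = ((τ 0 * τ j.succ) * (τ j.succ * τ j.succ)⁻¹)⁻¹ := by group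
    have h2 : τ 0 * τ j.succ ∈ H := mulH _ t0P _ (hG.tP _) t01 (hG.t1 _)
    rw [h1, C2d_inv hh (H.mul_mem h2 (H.inv_mem (sqH _))), hh.mul _ h2 _ (H.inv_mem (sqH _)),
      hh.triv _ (R.inv_mem (hG.t2 _)), mul_one, hj j, mul_inv_rev, ht0,
      inv_eq_of_mul_eq_one_left (ht j.succ)]
  -- conjugation by `τ 0`
  have hconj : ∀ g ∈ H, h (τ 0 * g * (τ 0)⁻¹) = t 0 * h g * (t 0)⁻¹ := by
    refine gen_inj hG (fun g => h (τ 0 * g * (τ 0)⁻¹)) (fun g => t 0 * h g * (t 0)⁻¹) ?_ ?_ ?_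
    · refine ⟨fun g hg g' hg' => ?_, ?_, fun r hr => ?_⟩
      · have h1 : τ 0 * (g * g') * (τ 0)⁻¹ = (τ 0 * g * (τ 0)⁻¹) * (τ 0 * g' * (τ 0)⁻¹) := by group
        change h (τ 0 * (g * g') * (τ 0)⁻¹) = _
        rw [h1]
        exact hh.mul _ (conjH g hg) _ (conjH g' hg')
      · obtain ⟨U, hU, hU1⟩ := hh.lc
        refine ⟨U.comap (MulAut.conj (τ 0)).toMonoidHom, ?_, fun g hg u hu hu' => ?_⟩
        · have hc : Continuous fun x : Γ => τ 0 * x * (τ 0)⁻¹ := by fun_prop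
          exact hU.preimage hc
        · have h1 : τ 0 * (g * u) * (τ 0)⁻¹ = (τ 0 * g * (τ 0)⁻¹) * (τ 0 * u * (τ 0)⁻¹) := by group
          change h (τ 0 * (g * u) * (τ 0)⁻¹) = _
          rw [h1]
          exact hU1 _ (conjH g hg) _ hu (conjH u hu')
      · exact hh.triv _ (hG.Rn _ t0P r hr)
    · refine ⟨fun g hg g' hg' => ?_, ?_, fun r hr => ?_⟩
      · change t 0 * h (g * g') * (t 0)⁻¹ = (t 0 * h g * (t 0)⁻¹) * (t 0 * h g' * (t 0)⁻¹)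
        rw [hh.mul g hg g' hg']
        group
      · obtain ⟨U, hU, hU1⟩ := hh.lc
        refine ⟨U, hU, fun g hg u hu hu' => ?_⟩
        change t 0 * h (g * u) * (t 0)⁻¹ = _
        rw [hU1 g hg u hu hu']
      · change t 0 * h r * (t 0)⁻¹ = 1
        rw [hh.triv r hr]
        group
    · intro j
      change h (τ 0 * (τ 0 * τ j.succ) * (τ 0)⁻¹) = t 0 * h (τ 0 * τ j.succ) * (t 0)⁻¹
      have h1 : τ 0 * (τ 0 * τ j.succ) * (τ 0)⁻¹ = (τ 0 * τ 0) * (τ j.succ * (τ 0)⁻¹) := by group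
      have h2 : τ j.succ * (τ 0)⁻¹ ∈ H := mulH _ (hG.tP _) _ (P.inv_mem t0P) (hG.t1 _)
        (by rw [hχinv _ t0P, t01])
      rw [h1, hh.mul _ (sqH 0) _ h2, hh.triv _ (hG.t2 0), one_mul, hval j, hj j, ht0,
        ← mul_assoc (t 0), ht 0, one_mul]
  have hconj' : ∀ g ∈ H, t 0 * h ((τ 0)⁻¹ * g * τ 0) = h g * t 0 := by
    intro g hg
    have h1 := hconj _ (conjH' g hg)
    have h2 : τ 0 * ((τ 0)⁻¹ * g * τ 0) * (τ 0)⁻¹ = g := by group
    rw [h2] at h1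
    rw [h1]
    group
  have leftH : ∀ g ∈ P, χ₀ g ≠ 0 → (τ 0)⁻¹ * g ∈ H := fun g hg hg1 =>
    mulH _ (P.inv_mem t0P) _ hg (by rw [hχinv _ t0P, t01]) (C2d_zmod _ hg1)
  classical
  refine ⟨fun g => if χ₀ g = 0 then h g else t 0 * h ((τ 0)⁻¹ * g), ⟨?_, ?_, ?_⟩, ?_⟩
  · intro g hg g' hg'
    beta_reduce
    rw [hG.h0 g hg g' hg']
    by_cases h0 : χ₀ g = 0
    · have hgH : g ∈ H := (hG.hH g).2 ⟨hg, h0⟩
      by_cases h0' : χ₀ g' = 0
      · have hgH' : g' ∈ H := (hG.hH g').2 ⟨hg', h0'⟩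
        rw [h0, h0', add_zero, if_pos rfl, if_pos rfl]
        exact hh.mul g hgH g' hgH'
      · rw [h0, zero_add, if_neg h0', if_pos rfl, if_neg h0']
        have h1 : (τ 0)⁻¹ * (g * g') = ((τ 0)⁻¹ * g * τ 0) * ((τ 0)⁻¹ * g') := by group
        rw [h1, hh.mul _ (conjH' g hgH) _ (leftH g' hg' h0'), ← mul_assoc, hconj' g hgH, mul_assoc]
    · by_cases h0' : χ₀ g' = 0
      · have hgH' : g' ∈ H := (hG.hH g').2 ⟨hg', h0'⟩
        rw [h0', add_zero, if_neg h0, if_pos rfl, if_neg h0, ← mul_assoc (τ 0)⁻¹,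
          hh.mul _ (leftH g hg h0) g' hgH', mul_assoc]
      · rw [C2d_zmod _ h0, C2d_zmod _ h0', h11, if_pos rfl, if_neg one_ne_zero, if_neg one_ne_zero]
        have h1 : g * g' = (τ 0 * ((τ 0)⁻¹ * g) * (τ 0)⁻¹) * ((τ 0 * τ 0) * ((τ 0)⁻¹ * g')) := by
          group
        have ha := leftH g hg h0
        have hb := leftH g' hg' h0'
        rw [h1, hh.mul _ (conjH _ ha) _ (H.mul_mem (sqH 0) hb), hh.mul _ (sqH 0) _ hb,
          hh.triv _ (hG.t2 0), one_mul, hconj _ ha, ht0]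
        simp only [mul_assoc]
  · obtain ⟨U, hU, hU1⟩ := hh.lc
    obtain ⟨V, hV, hV1⟩ := hG.l0
    refine ⟨U ⊓ V, ?_, fun g hg u hu huP => ?_⟩
    · exact hU.inter hV
    · have h1 : χ₀ (g * u) = χ₀ g := hV1 g hg u hu.2 huP
      have h2 : χ₀ u = 0 := by
        rw [hG.h0 g hg u huP] at h1
        exact left_eq_add.1 h1.symm
      have huH : u ∈ H := (hG.hH u).2 ⟨huP, h2⟩
      beta_reduce
      rw [h1]
      by_cases h0 : χ₀ g = 0
      · rw [if_pos h0, if_pos h0]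
        exact hU1 g ((hG.hH g).2 ⟨hg, h0⟩) u hu.1 huH
      · rw [if_neg h0, if_neg h0, ← mul_assoc, hU1 _ (leftH g hg h0) u hu.1 huH]
  · intro r hr
    beta_reduce
    rw [if_pos (hH0 r (hG.RH hr))]
    exact hh.triv r hr
  · intro m
    beta_reduce
    have h1 : χ₀ (τ m) ≠ 0 := by
      rw [hG.t1 m]
      exact one_ne_zero
    rw [if_neg h1]
    refine Fin.cases ?_ (fun j => ?_) m
    · rw [inv_mul_cancel, C2d_one hh, mul_one]
    · have h2 : (τ 0)⁻¹ * τ j.succ = (τ 0 * τ 0)⁻¹ * (τ 0 * τ j.succ) := by group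
      have h3 : τ 0 * τ j.succ ∈ H := mulH _ t0P _ (hG.tP _) t01 (hG.t1 _)
      rw [h2, hh.mul _ (H.inv_mem (sqH 0)) _ h3, hh.triv _ (R.inv_mem (hG.t2 0)), one_mul, hj j,
        ← mul_assoc, ht 0, one_mul]

end OzakiFree
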