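import Pool.Agent.Lib.MP_6e8030_nt.W.C0

open IntermediateField
open scoped ComplexConjugate

noncomputable section

namespace OzakiFree

/-! ### C3: at most two involutions -/

/-- the group generated by two involutions -/
private theorem C3_dih {Q : Type*} [Group Q] (t u : Q) (ht : t * t = 1) (hu : u * u = 1)
    (hg : Subgroup.closure {t, u} = ⊤) (q : Q) : ∃ k : ℤ, q = (t * u) ^ k ∨ q = t * (t * u) ^ k := by
  have ht' : t⁻¹ = t := inv_eq_of_mul_eq_one_left ht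
  have hu' : u⁻¹ = u := inv_eq_of_mul_eq_one_left hu
  have hut : u * t = (t * u)⁻¹ := by rw [mul_inv_rev, ht', hu']
  have st : ∀ q : Q, (∃ k : ℤ, q = (t * u) ^ k ∨ q = t * (t * u) ^ k) →
      ∃ k : ℤ, t * q = (t * u) ^ k ∨ t * q = t * (t * u) ^ k := by
    rintro q ⟨k, rfl | rfl⟩
    · exact ⟨k, Or.inr rfl⟩
    · exact ⟨k, Or.inl (by rw [← mul_assoc, ht, one_mul])⟩
  have su : ∀ q : Q, (∃ k : ℤ, q = (t * u) ^ k ∨ q = t * (t * u) ^ k) →
      ∃ k : ℤ, u * q = (t * u) ^ k ∨ u * q = t * (t * u) ^ k := by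
    rintro q ⟨k, rfl | rfl⟩
    · refine ⟨1 + k, Or.inr ?_⟩
      rw [zpow_add, zpow_one, ← mul_assoc, ← mul_assoc, ht, one_mul]
    · refine ⟨-1 + k, Or.inl ?_⟩
      rw [zpow_add, zpow_neg_one, ← mul_assoc, hut]
  have hq : q ∈ Subgroup.closure {t, u} := by
    rw [hg]
    exact Subgroup.mem_top q
  refine Subgroup.closure_induction_left (p := fun q _ => ∃ k : ℤ, q = (t * u) ^ k ∨ q = t * (t * u) ^ k)
    ⟨0, Or.inl (zpow_zero _).symm⟩ ?_ ?_ hq
  · intro a ha b _ hb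
    rcases ha with rfl | ha
    · exact st b hb
    · rw [Set.mem_singleton_iff] at ha
      rw [ha]
      exact su b hb
  · intro a ha b _ hb
    rcases ha with rfl | ha
    · rw [ht']
      exact st b hb
    · rw [Set.mem_singleton_iff] at ha
      rw [ha, hu']
      exact su b hb

private theorem C3_comm {Q : Type*} [Group Q] (t u : Q) (ht : t * t = 1) (hu : u * u = 1)
    (hg : Subgroup.closure {t, u} = ⊤) (χ : Q →* Multiplicative (ZMod 2))
    (h1 : χ t = Multiplicative.ofAdd 1) (h2 : χ u = Multiplicative.ofAdd 1) (x y : Q) (hx : χ x = 1)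
    (hy : χ y = 1) : x * y * x⁻¹ * y⁻¹ = 1 := by
  have hσ : χ (t * u) = 1 := by
    rw [map_mul, h1, h2]
    decide
  have key : ∀ q : Q, χ q = 1 → ∃ k : ℤ, q = (t * u) ^ k := by
    intro q hq
    obtain ⟨k, h | h⟩ := C3_dih t u ht hu hg q
    · exact ⟨k, h⟩
    · exfalso
      rw [h, map_mul, map_zpow, hσ, one_zpow, mul_one, h1] at hq
      exact absurd hq (by decide)
  obtain ⟨k, rfl⟩ := key x hx
  obtain ⟨l, rfl⟩ := key y hy
  rw [← zpow_neg, ← zpow_neg, ← zpow_add, ← zpow_add, ← zpow_add]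
  rw [show k + l + -k + -l = 0 by ring, zpow_zero]

/-- PROOF. Let `U` be open and normal in `Γ`, `χ₀ = 0` on `U ⊓ P`, `N = R (U ⊓ P)` (normal in `P`). `s = 0`: `frattini` with `W = N` gives `P = N`. `s = 1`: `W = N ∪ τ 0 N` is a subgroup (`(τ 0)² ∈ R`), so `P = W`, `H = N`.
`s = 2`: `σ = τ 0 * τ 1`, `τ 0` maps `σ` to `σ⁻¹` modulo `R`, `W = ⟨σ⟩ N ∪ τ 0 ⟨σ⟩ N` is a subgroup containing `τ 0, τ 1`, so `P = W`, `H = ⟨σ⟩ N`. In all cases `x y x⁻¹ y⁻¹ ∈ N` for `x, y ∈ H`. Since `R` is closed, the intersection of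
all these `N` is `R`. -/
theorem comm_small {Γ : Type*} [Group Γ] [TopologicalSpace Γ] [IsTopologicalGroup Γ]
    [CompactSpace Γ] [TotallyDisconnectedSpace Γ] {P H R : Subgroup Γ} {χ₀ : Γ → ZMod 2} {s : ℕ} {τ : Fin s → Γ}
    {ψ : Fin s → Γ → ZMod 2} (hG : GData P H R χ₀ s τ ψ) (hs : s ≤ 2) :
    ∀ x ∈ H, ∀ y ∈ H, x * y * x⁻¹ * y⁻¹ ∈ R := by
  intro x hx y hy
  by_contra hc
  have hHP : H ≤ P := fun g hg => ((hG.hH g).1 hg).1
  have hRP : R ≤ P := hG.RH.trans hHP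
  obtain ⟨U₀, hU₀, hU⟩ := hG.l0
  have hχ1 : χ₀ 1 = 0 := by
    have h := hG.h0 1 P.one_mem 1 P.one_mem
    rw [mul_one] at h
    exact left_eq_add.1 h
  -- an open normal subgroup
  have hO : IsOpen ((U₀ : Set Γ) ∩ (fun g => x * y * x⁻¹ * y⁻¹ * g) ⁻¹' (R : Set Γ)ᶜ) :=
    hU₀.inter (hG.Rc.isOpen_compl.preimage (continuous_const.mul continuous_id))
  have h1 : (1 : Γ) ∈ (U₀ : Set Γ) ∩ (fun g => x * y * x⁻¹ * y⁻¹ * g) ⁻¹' (R : Set Γ)ᶜ := by
    refine ⟨U₀.one_mem, ?_⟩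
    show x * y * x⁻¹ * y⁻¹ * 1 ∉ (R : Set Γ)
    rw [mul_one]
    exact hc
  obtain ⟨V, hV⟩ := ProfiniteGrp.exist_openNormalSubgroup_sub_open_nhds_of_one hO h1
  have hVn : V.toSubgroup.Normal := V.isNormal'
  have hVo : IsOpen (V.toSubgroup : Set Γ) := V.isOpen'
  have hχV : ∀ v ∈ V.toSubgroup, v ∈ P → χ₀ v = 0 := by
    intro v hv hvP
    have h := hU 1 P.one_mem v (hV hv).1 hvP
    rw [one_mul, hχ1] at h
    exact h
  have hVR : ∀ v ∈ V.toSubgroup, x * y * x⁻¹ * y⁻¹ * v ∉ R := fun v hv => (hV hv).2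
  -- the normal subgroup `N` of `P`
  have hmem : ∀ g : Γ, g ∈ R ⊔ V.toSubgroup ↔ ∃ r ∈ R, ∃ v ∈ V.toSubgroup, r * v = g := by
    intro g
    rw [← SetLike.mem_coe, Subgroup.mul_normal, Set.mem_mul]
    rfl
  set N : Subgroup P := (R ⊔ V.toSubgroup).subgroupOf P with hN
  have hNn : N.Normal := by
    constructor
    intro n hn g
    rw [hN, Subgroup.mem_subgroupOf, hmem] at hn ⊢
    obtain ⟨r, hr, v, hv, h⟩ := hn
    refine ⟨g.1 * r * g.1⁻¹, hG.Rn g.1 g.2 r hr, g.1 * v * g.1⁻¹, hVn.conj_mem v hv g.1, ?_⟩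
    have h' : r * v = n.1 := h
    show g.1 * r * g.1⁻¹ * (g.1 * v * g.1⁻¹) = g.1 * n.1 * g.1⁻¹
    rw [← h']
    group
  have hχN : ∀ g : P, g ∈ N → χ₀ g.1 = 0 := by
    intro g hg
    rw [hN, Subgroup.mem_subgroupOf, hmem] at hg
    obtain ⟨r, hr, v, hv, h⟩ := hg
    have hvP : v ∈ P := by
      have : v = r⁻¹ * g.1 := by rw [← h]; group
      rw [this]
      exact P.mul_mem (P.inv_mem (hRP hr)) g.2
    rw [← h, hG.h0 r (hRP hr) v hvP, ((hG.hH r).1 (hG.RH hr)).2, hχV v hv hvP, add_zero]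
  let χP : P →* Multiplicative (ZMod 2) :=
    { toFun := fun g => Multiplicative.ofAdd (χ₀ g.1)
      map_one' := by
        show Multiplicative.ofAdd (χ₀ 1) = 1
        rw [hχ1]
        rfl
      map_mul' := fun g h => by
        show Multiplicative.ofAdd (χ₀ (g.1 * h.1)) = _
        rw [hG.h0 g.1 g.2 h.1 h.2]
        rfl }
  let χQ : P ⧸ N →* Multiplicative (ZMod 2) := QuotientGroup.lift N χP fun g hg => by
    show Multiplicative.ofAdd (χ₀ g.1) = 1
    rw [hχN g hg]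
    rfl
  have hχQ : ∀ g : P, χQ (QuotientGroup.mk g) = Multiplicative.ofAdd (χ₀ g.1) := fun g => rfl
  let t : Fin s → P ⧸ N := fun m => QuotientGroup.mk ⟨τ m, hG.tP m⟩
  have ht2 : ∀ m, t m * t m = 1 := by
    intro m
    show (QuotientGroup.mk (⟨τ m, hG.tP m⟩ * ⟨τ m, hG.tP m⟩) : P ⧸ N) = 1
    rw [QuotientGroup.eq_one_iff, hN, Subgroup.mem_subgroupOf]
    exact Subgroup.mem_sup_left (hG.t2 m)
  have ht1 : ∀ m, χQ (t m) = Multiplicative.ofAdd 1 := by
    intro m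
    rw [hχQ]
    exact congrArg _ (hG.t1 m)
  -- the images of the involutions generate
  have hgen : Subgroup.closure (Set.range t) = ⊤ := by
    have hW := frattini P R hRP hG.Rn hG.pro τ hG.fr
      (((Subgroup.closure (Set.range t)).comap (QuotientGroup.mk' N)).map P.subtype)
      (Subgroup.map_subtype_le _) ⟨V.toSubgroup, hVo, ?_⟩ ?_ ?_
    · rw [eq_top_iff]
      rintro q -
      induction q using QuotientGroup.induction_on with
      | H g =>
        obtain ⟨g', hg', he⟩ := hW g.2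
        have : g' = g := Subtype.ext he
        rw [this] at hg'
        exact hg'
    · intro u hu huP
      refine ⟨⟨u, huP⟩, ?_, rfl⟩
      show (QuotientGroup.mk (⟨u, huP⟩ : P) : P ⧸ N) ∈ Subgroup.closure (Set.range t)
      have : (QuotientGroup.mk (⟨u, huP⟩ : P) : P ⧸ N) = 1 := by
        rw [QuotientGroup.eq_one_iff, hN, Subgroup.mem_subgroupOf]
        exact Subgroup.mem_sup_right hu
      rw [this]
      exact Subgroup.one_mem _
    · intro r hr
      refine ⟨⟨r, hRP hr⟩, ?_, rfl⟩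
      show (QuotientGroup.mk (⟨r, hRP hr⟩ : P) : P ⧸ N) ∈ Subgroup.closure (Set.range t)
      have : (QuotientGroup.mk (⟨r, hRP hr⟩ : P) : P ⧸ N) = 1 := by
        rw [QuotientGroup.eq_one_iff, hN, Subgroup.mem_subgroupOf]
        exact Subgroup.mem_sup_left hr
      rw [this]
      exact Subgroup.one_mem _
    · intro m
      exact ⟨⟨τ m, hG.tP m⟩, Subgroup.subset_closure ⟨m, rfl⟩, rfl⟩
  -- commutators are in `N`
  have hcomm : ∀ a b : P ⧸ N, χQ a = 1 → χQ b = 1 → a * b * a⁻¹ * b⁻¹ = 1 := by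
    intro a b ha hb
    match s, hs, τ, ψ, hG, t, ht2, ht1, hgen with
    | 0, _, _, _, _, t, _, _, hgen =>
      have h0 : Set.range t = ∅ := Set.range_eq_empty t
      rw [h0, Subgroup.closure_empty] at hgen
      have h2 : ∀ q : P ⧸ N, q = 1 := fun q => by
        have : q ∈ (⊥ : Subgroup (P ⧸ N)) := by rw [hgen]; exact Subgroup.mem_top q
        exact Subgroup.mem_bot.1 this
      exact h2 _
    | 1, _, _, _, _, t, ht2, ht1, hgen =>
      refine C3_comm (t 0) (t 0) (ht2 0) (ht2 0) ?_ χQ (ht1 0) (ht1 0) a b ha hb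
      rw [← hgen]
      congr 1
      ext q
      constructor
      · rintro (rfl | h)
        · exact ⟨0, rfl⟩
        · rw [Set.mem_singleton_iff] at h
          exact ⟨0, h.symm⟩
      · rintro ⟨m, rfl⟩
        rw [Subsingleton.elim m 0]
        exact Or.inl rfl
    | 2, _, _, _, _, t, ht2, ht1, hgen =>
      refine C3_comm (t 0) (t 1) (ht2 0) (ht2 1) ?_ χQ (ht1 0) (ht1 1) a b ha hb
      rw [← hgen]
      congr 1
      ext q
      constructor
      · rintro (rfl | h)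
        · exact ⟨0, rfl⟩
        · rw [Set.mem_singleton_iff] at h
          exact ⟨1, h.symm⟩
      · rintro ⟨m, rfl⟩
        fin_cases m
        · exact Or.inl rfl
        · exact Or.inr rfl
    | n + 3, hs, _, _, _, _, _, _, _ => omega
  have hx' := (hG.hH x).1 hx
  have hy' := (hG.hH y).1 hy
  have h2 := hcomm (QuotientGroup.mk ⟨x, hx'.1⟩) (QuotientGroup.mk ⟨y, hy'.1⟩)
    (by rw [hχQ]; exact congrArg _ hx'.2) (by rw [hχQ]; exact congrArg _ hy'.2)
  have h3 : (QuotientGroup.mk (⟨x, hx'.1⟩ * ⟨y, hy'.1⟩ * ⟨x, hx'.1⟩⁻¹ * ⟨y, hy'.1⟩⁻¹ : P) : P ⧸ N) = 1 := h2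
  rw [QuotientGroup.eq_one_iff, hN, Subgroup.mem_subgroupOf, hmem] at h3
  obtain ⟨r, hr, v, hv, h4⟩ := h3
  have h5 : r * v = x * y * x⁻¹ * y⁻¹ := h4
  refine hVR v⁻¹ (Subgroup.inv_mem _ hv) ?_
  rw [← h5, mul_inv_cancel_right]
  exact hr

end OzakiFree
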