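import Pool.Agent.Lib.MP_6e8030_nt.W.L2

open IntermediateField
open scoped ComplexConjugate

noncomputable section

namespace OzakiFree

/-! ### C5: a character of `PQ 2` trivial on odd inertia and on the complex conjugations is trivial -/

private theorem C5_alg : Algebra.IsAlgebraic ℚ Om := inferInstance

private theorem C5_gal : IsGalois ℚ Om := by
  have h1 : Algebra.IsAlgebraic ℚ Om := C5_alg
  have h2 : IsAlgClosure ℚ Om := inferInstance
  have h3 : Normal ℚ Om := IsAlgClosure.normal ℚ Om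
  have h4 : Algebra.IsSeparable ℚ Om := Algebra.IsAlgebraic.isSeparable_of_perfectField
  exact ⟨⟩

attribute [local instance] C5_gal

/-! ### topology -/

private theorem C5_isOpen {G : Type*} [Group G] [TopologicalSpace G] [IsTopologicalGroup G]
    (U : Subgroup G) (hU : IsOpen (U : Set G)) (S : Set G) (h : ∀ g ∈ S, ∀ u ∈ U, g * u ∈ S) :
    IsOpen S := by
  rw [isOpen_iff_mem_nhds]
  intro g hg
  have h1 : IsOpen ((fun x => g⁻¹ * x) ⁻¹' (U : Set G)) := hU.preimage (continuous_const_mul g⁻¹)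
  refine Filter.mem_of_superset (h1.mem_nhds (by simp)) fun y hy => ?_
  have := h g hg _ hy
  simpa using this

private theorem C5_isClosed {G : Type*} [Group G] [TopologicalSpace G] [IsTopologicalGroup G]
    (U : Subgroup G) (hU : IsOpen (U : Set G)) (S : Set G) (h : ∀ g ∈ S, ∀ u ∈ U, g * u ∈ S) :
    IsClosed S := by
  rw [← isOpen_compl_iff]
  refine C5_isOpen U hU _ fun g hg u hu hgu => hg ?_
  have := h _ hgu _ (U.inv_mem hu)
  simpa using this

private theorem C5_stab (x : Om) : IsOpen (MulAction.stabilizer GQ x : Set GQ) :=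
  stabilizer_isOpen_of_isIntegral x

/-! ### the group `P2` -/

private theorem C5_mem_P2 (t : GQ) : t ∈ P2 ↔ ∀ ζ ∈ muInf 2, t (ζ + ζ⁻¹) = ζ + ζ⁻¹ := by
  have h1 := forall_mem_adjoin_smul_eq_self_iff ℚ (S := {y : Om | ∃ ζ ∈ muInf 2, y = ζ + ζ⁻¹}) t
  constructor
  · intro h ζ hζ
    have h2 : ∀ x ∈ adjoin ℚ {y : Om | ∃ ζ ∈ muInf 2, y = ζ + ζ⁻¹}, t • x = x :=
      fun x hx => h ⟨x, hx⟩
    exact (h1.1 h2) _ ⟨ζ, hζ, rfl⟩
  · intro h
    have h2 : ∀ x ∈ {y : Om | ∃ ζ ∈ muInf 2, y = ζ + ζ⁻¹}, t • x = x := by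
      rintro x ⟨ζ, hζ, rfl⟩
      exact h ζ hζ
    exact fun x => (h1.2 h2) x.1 x.2

private theorem C5_mu_smul {s : GQ} {ζ : Om} (h : ζ ∈ muInf 2) : s ζ ∈ muInf 2 := by
  obtain ⟨m, hm⟩ := h
  exact ⟨m, by rw [← map_pow, hm, map_one]⟩

private theorem C5_P2_conj (s t : GQ) (ht : t ∈ P2) : s⁻¹ * t * s ∈ P2 := by
  rw [C5_mem_P2] at ht ⊢
  intro ζ hζ
  have h1 := ht (s ζ) (C5_mu_smul hζ)
  have h2 : s (ζ + ζ⁻¹) = s ζ + (s ζ)⁻¹ := by rw [map_add, map_inv₀]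
  change s⁻¹ (t (s (ζ + ζ⁻¹))) = ζ + ζ⁻¹
  rw [h2, h1, ← h2]
  change (s⁻¹ * s) (ζ + ζ⁻¹) = ζ + ζ⁻¹
  rw [inv_mul_cancel]
  rfl

private theorem C5_P2_closed : IsClosed (P2 : Set GQ) :=
  InfiniteGalois.fixingSubgroup_isClosed _

private theorem C5_P2_of_mu (t : GQ) (h : ∀ ζ ∈ muInf 2, t ζ = ζ) : t ∈ P2 := by
  rw [C5_mem_P2]
  intro ζ hζ
  rw [map_add, map_inv₀, h ζ hζ]

/-- the power `s ^ (2 ^ m)` fixes the roots of unity of order `2 ^ m` -/
private theorem C5_pow_fix (s : GQ) (m : ℕ) : ∀ ζ : Om, ζ ^ (2 ^ m) = 1 → (s ^ (2 ^ m)) ζ = ζ := by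
  induction m with
  | zero =>
    intro ζ h
    have : ζ = 1 := by simpa using h
    rw [this, map_one]
  | succ m ih =>
    intro ζ h
    have h1 : (s ^ (2 ^ m)) (ζ ^ 2) = ζ ^ 2 := ih _ (by rw [← pow_mul, ← pow_succ', h])
    rw [map_pow] at h1
    have h2 : s ^ (2 ^ (m + 1)) = s ^ (2 ^ m) * s ^ (2 ^ m) := by rw [← pow_add, pow_succ, mul_two]
    rw [h2]
    change (s ^ (2 ^ m)) ((s ^ (2 ^ m)) ζ) = ζ
    rcases sq_eq_sq_iff_eq_or_eq_neg.1 h1 with h3 | h3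
    · rw [h3, h3]
    · rw [h3, map_neg, h3, neg_neg]

/-- every open subgroup containing `P2` contains a power `s ^ (2 ^ m)` of every `s` -/
private theorem C5_pow_mem (Q : Subgroup GQ) (hQ : IsOpen (Q : Set GQ)) (hP : P2 ≤ Q) (s : GQ) :
    ∃ m : ℕ, s ^ (2 ^ m) ∈ Q := by
  set V : ℕ → Set GQ := fun m => ⋂ ζ : {ζ : Om // ζ ^ (2 ^ m) = 1}, (MulAction.stabilizer GQ ζ.1 : Set GQ) with hV
  have hVm : ∀ m t, t ∈ V m ↔ ∀ ζ : Om, ζ ^ (2 ^ m) = 1 → t ζ = ζ := by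
    intro m t
    rw [hV]
    simp only [Set.mem_iInter]
    constructor
    · intro h ζ hζ
      exact h ⟨ζ, hζ⟩
    · intro h ζ
      exact h ζ.1 ζ.2
  have hcl : ∀ m, IsClosed (V m) := fun m => isClosed_iInter fun ζ =>
    Subgroup.isClosed_of_isOpen _ (C5_stab ζ.1)
  have hanti : Antitone V := by
    refine antitone_nat_of_succ_le fun m t ht => ?_
    rw [hVm] at ht ⊢
    intro ζ hζ
    exact ht ζ (by rw [pow_succ, pow_mul, hζ, one_pow])
  obtain ⟨m, hm⟩ := exists_subset_nhds_of_isCompact' (U := (Q : Set GQ)) (V := V)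
    (directed_of_isDirected_le fun i j hij => hanti hij) (fun m => (hcl m).isCompact) hcl
    (fun t ht => hQ.mem_nhds (hP (C5_P2_of_mu t fun ζ hζ => by
      obtain ⟨m, hm⟩ := hζ
      exact (hVm m t).1 (Set.mem_iInter.1 ht m) ζ hm)))
  exact ⟨m, hm ((hVm m _).2 (C5_pow_fix s m))⟩

/-! ### the closed normal subgroup `N` -/

private def C5_N (ψ : GQ → ZMod 2) (hψ : HomOn P2 ψ) : Subgroup GQ where
  carrier := {t | ∀ s : GQ, s⁻¹ * t * s ∈ P2 ∧ ψ (s⁻¹ * t * s) = 0}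
  mul_mem' := by
    intro a b ha hb s
    have h1 : s⁻¹ * (a * b) * s = (s⁻¹ * a * s) * (s⁻¹ * b * s) := by group
    rw [h1]
    exact ⟨P2.mul_mem (ha s).1 (hb s).1, by rw [hψ _ (ha s).1 _ (hb s).1, (ha s).2, (hb s).2, add_zero]⟩
  one_mem' := by
    intro s
    have h1 : s⁻¹ * 1 * s = 1 := by group
    rw [h1]
    refine ⟨P2.one_mem, ?_⟩
    have := hψ 1 P2.one_mem 1 P2.one_mem
    rw [one_mul] at this
    exact left_eq_add.1 this
  inv_mem' := by
    intro a ha s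
    have h1 : s⁻¹ * a⁻¹ * s = (s⁻¹ * a * s)⁻¹ := by group
    rw [h1]
    refine ⟨P2.inv_mem (ha s).1, ?_⟩
    have h2 := hψ _ (ha s).1 _ (P2.inv_mem (ha s).1)
    have h3 := hψ 1 P2.one_mem 1 P2.one_mem
    rw [one_mul] at h3
    rw [mul_inv_cancel, left_eq_add.1 h3, (ha s).2, zero_add] at h2
    exact h2.symm

private theorem C5_mem_N {ψ : GQ → ZMod 2} (hψ : HomOn P2 ψ) (t : GQ) :
    t ∈ C5_N ψ hψ ↔ ∀ s : GQ, s⁻¹ * t * s ∈ P2 ∧ ψ (s⁻¹ * t * s) = 0 := Iff.rfl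

private theorem C5_N_normal {ψ : GQ → ZMod 2} (hψ : HomOn P2 ψ) : (C5_N ψ hψ).Normal := by
  refine ⟨fun t ht g => ?_⟩
  rw [C5_mem_N] at ht ⊢
  intro s
  have h1 : s⁻¹ * (g * t * g⁻¹) * s = (g⁻¹ * s)⁻¹ * t * (g⁻¹ * s) := by group
  rw [h1]
  exact ht _

private theorem C5_N_closed {ψ : GQ → ZMod 2} (hψ : HomOn P2 ψ) (hc : LCOn P2 ψ) :
    IsClosed (C5_N ψ hψ : Set GQ) := by
  obtain ⟨U, hU, hUψ⟩ := hc
  have hK : IsClosed {t : GQ | t ∈ P2 ∧ ψ t = 0} := by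
    rw [← isOpen_compl_iff, isOpen_iff_mem_nhds]
    intro g hg
    by_cases hgP : g ∈ P2
    · have h1 : IsOpen ((fun x => g⁻¹ * x) ⁻¹' (U : Set GQ)) := hU.preimage (continuous_const_mul g⁻¹)
      refine Filter.mem_of_superset (h1.mem_nhds (by simp)) fun y hy hyK => hg ⟨hgP, ?_⟩
      have h2 := hUψ g hgP (g⁻¹ * y) hy (P2.mul_mem (P2.inv_mem hgP) hyK.1)
      rw [mul_inv_cancel_left, hyK.2] at h2
      exact h2.symm
    · exact Filter.mem_of_superset (C5_P2_closed.isOpen_compl.mem_nhds hgP) fun y hy hyK => hy hyK.1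
  have h2 : (C5_N ψ hψ : Set GQ) = ⋂ s : GQ, (fun t => s⁻¹ * t * s) ⁻¹' {t : GQ | t ∈ P2 ∧ ψ t = 0} := by
    ext t
    rw [Set.mem_iInter]
    exact Iff.rfl
  rw [h2]
  exact isClosed_iInter fun s => hK.preimage ((continuous_mul_const s).comp (continuous_const_mul s⁻¹))

private theorem C5_sq_mem {ψ : GQ → ZMod 2} (hψ : HomOn P2 ψ) {z : GQ} (hz : z ∈ P2) :
    z * z ∈ C5_N ψ hψ := by
  rw [C5_mem_N]
  intro s
  have h1 : s⁻¹ * (z * z) * s = (s⁻¹ * z * s) * (s⁻¹ * z * s) := by group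
  have h2 := C5_P2_conj s z hz
  rw [h1]
  refine ⟨P2.mul_mem h2 h2, ?_⟩
  rw [hψ _ h2 _ h2]
  exact CharTwo.add_self_eq_zero _

/-- conjugates of inertia elements -/
private theorem C5_inertia_conj (B : Ideal (integralClosure ℤ Om)) (hB : B.IsMaximal) (t s : GQ)
    (ht : t ∈ B.inertia GQ) : ∃ B' : Ideal (integralClosure ℤ Om), B'.IsMaximal ∧
      s⁻¹ * t * s ∈ B'.inertia GQ := by
  set f : integralClosure ℤ Om →+* integralClosure ℤ Om := MulSemiringAction.toRingHom GQ _ s with hf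
  have hsurj : Function.Surjective f := fun y => ⟨s⁻¹ • y, smul_inv_smul s y⟩
  refine ⟨B.comap f, Ideal.comap_isMaximal_of_surjective f hsurj, ?_⟩
  intro x
  change f ((s⁻¹ * t * s) • x - x) ∈ B
  rw [map_sub]
  change s • ((s⁻¹ * t * s) • x) - s • x ∈ B
  rw [smul_smul, show s * (s⁻¹ * t * s) = t * s by group, mul_smul]
  exact ht (s • x)

/-! ### a subgroup of index two -/

private theorem C5_index_two {M H' : Subgroup GQ} (hM : M.Normal) (hMo : IsOpen (M : Set GQ))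
    (hMH : M ≤ H') {z : GQ} (hz : z ∉ H') (hp : ∀ s : GQ, ∃ m : ℕ, s ^ (2 ^ m) ∈ M) :
    ∃ U : Subgroup GQ, U.index = 2 ∧ H' ≤ U := by
  have hfin : Finite (GQ ⧸ M) := Subgroup.quotient_finite_of_isOpen M hMo
  have hpg : IsPGroup 2 (GQ ⧸ M) := by
    intro g
    obtain ⟨s, rfl⟩ := QuotientGroup.mk'_surjective M g
    obtain ⟨m, hm⟩ := hp s
    refine ⟨m, ?_⟩
    rw [← map_pow]
    exact (QuotientGroup.eq_one_iff _).2 hm
  have hfact : Fact (Nat.Prime 2) := ⟨Nat.prime_two⟩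
  obtain ⟨a, ha⟩ := (IsPGroup.iff_card (p := 2)).1 hpg
  set f := QuotientGroup.mk' M with hf
  have hfs : Function.Surjective f := QuotientGroup.mk'_surjective M
  obtain ⟨n, hn⟩ := (IsPGroup.iff_card (p := 2)).1 (hpg.to_subgroup (H'.map f))
  have hne : H'.map f ≠ ⊤ := by
    intro h
    have h1 : f z ∈ H'.map f := by rw [h]; exact Subgroup.mem_top _
    obtain ⟨y, hy, hyz⟩ := h1
    have h2 : y⁻¹ * z ∈ M := QuotientGroup.eq.1 hyz
    exact hz (by simpa using H'.mul_mem hy (hMH h2))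
  have hlt : n < a := by
    have h1 : Nat.card (H'.map f) ≤ Nat.card (GQ ⧸ M) := Subgroup.card_le_card_group _
    have h2 : Nat.card (H'.map f) ≠ Nat.card (GQ ⧸ M) := fun h => hne ((Subgroup.card_eq_iff_eq_top _).1 h)
    have h3 := lt_of_le_of_ne h1 h2
    rw [hn, ha] at h3
    exact (Nat.pow_lt_pow_iff_right (by norm_num)).1 h3
  obtain ⟨K, hK1, hK2⟩ := Sylow.exists_subgroup_card_pow_prime_le (G := GQ ⧸ M) 2 (n := n) (m := a - 1)
    (by rw [ha]; exact pow_dvd_pow 2 (Nat.sub_le a 1)) (H'.map f) hn (by omega)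
  refine ⟨K.comap f, ?_, fun x hx => hK2 ⟨x, hx, rfl⟩⟩
  rw [Subgroup.index_comap_of_surjective _ hfs]
  have h1 := K.card_mul_index
  rw [hK1, ha, show a = (a - 1) + 1 by omega, pow_succ, Nat.add_sub_cancel] at h1
  exact Nat.eq_of_mul_eq_mul_left (pow_pos (by norm_num) _) h1

/-! ### quadratic fields -/

private theorem C5_quadratic (U : Subgroup GQ) (hU : U.index = 2) (hUo : IsOpen (U : Set GQ)) :
    ∃ (e : ℤ) (x : Om), Squarefree e.natAbs ∧ x ^ 2 = (e : Om) ∧ (∀ u ∈ U, u x = x) ∧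
      ∃ s : GQ, s x ≠ x := by
  have hcl : IsClosed (U : Set GQ) := Subgroup.isClosed_of_isOpen _ hUo
  have hfix : (fixedField U).fixingSubgroup = U :=
    InfiniteGalois.fixingSubgroup_fixedField (⟨U, hcl⟩ : ClosedSubgroup GQ)
  have hn : U.Normal := Subgroup.normal_of_index_eq_two hU
  have hne : U ≠ ⊤ := by
    intro h
    rw [h, Subgroup.index_top] at hU
    norm_num at hU
  obtain ⟨s0, hs0⟩ : ∃ s, s ∉ U := by
    by_contra hcon
    push Not at hcon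
    exact hne (eq_top_iff.2 fun x _ => hcon x)
  obtain ⟨y, hyU, hys⟩ : ∃ y : Om, (∀ u ∈ U, u y = y) ∧ s0 y ≠ y := by
    by_contra hcon
    push Not at hcon
    refine hs0 ?_
    rw [← hfix]
    intro w
    exact hcon w.1 fun u hu => w.2 ⟨u, hu⟩
  have hss : s0 * s0 ∈ U := Subgroup.mul_self_mem_of_index_two hU s0
  set x1 : Om := y - s0 y with hx1
  have hx1U : ∀ u ∈ U, u x1 = x1 := by
    intro u hu
    have h1 : s0⁻¹ * u * s0 ∈ U := by
      have := hn.conj_mem u hu s0⁻¹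
      rwa [inv_inv] at this
    have h2 : u (s0 y) = s0 y := by
      have h3 := congrArg s0 (hyU _ h1)
      have h4 : s0 ((s0⁻¹ * u * s0) y) = (s0 * (s0⁻¹ * u * s0)) y := rfl
      rw [h4, show s0 * (s0⁻¹ * u * s0) = u * s0 by group] at h3
      exact h3
    rw [hx1, map_sub, hyU u hu, h2]
  have hx1s : s0 x1 = -x1 := by
    have h1 : s0 (s0 y) = y := hyU _ hss
    rw [hx1, map_sub, h1]
    ring
  have hx10 : x1 ≠ 0 := sub_ne_zero.2 (Ne.symm hys)
  have hsq : ∀ s : GQ, s (x1 ^ 2) = x1 ^ 2 := by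
    intro s
    by_cases hs : s ∈ U
    · rw [map_pow, hx1U s hs]
    · have h1 : s * s0 ∈ U := by
        rw [Subgroup.mul_mem_iff_of_index_two hU]
        exact iff_of_false hs hs0
      have h2 : s (s0 x1) = x1 := hx1U _ h1
      rw [hx1s, map_neg] at h2
      have h3 : s x1 = -x1 := by rw [← h2, neg_neg]; rw [h2]
      rw [map_pow, h3]
      ring
  obtain ⟨r, hr⟩ := (InfiniteGalois.mem_range_algebraMap_iff_fixed (x1 ^ 2)).2 hsq
  have hr' : x1 ^ 2 = (r : Om) := by rw [← hr, eq_ratCast]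
  have hd : (r.den : Om) ≠ 0 := Nat.cast_ne_zero.2 r.den_nz
  set n : ℤ := r.num * r.den with hnd
  set x2 : Om := r.den * x1 with hx2
  have hx2sq : x2 ^ 2 = (n : Om) := by
    have h1 : (r : Om) * r.den = r.num := by
      rw [← Rat.cast_natCast, ← Rat.cast_mul, Rat.mul_den_eq_num, Rat.cast_intCast]
    rw [hx2, mul_pow, hr', hnd]
    push_cast
    rw [← h1]
    ring
  obtain ⟨a, b, hab, hasq⟩ := Nat.sq_mul_squarefree n.natAbs
  have hx20 : x2 ≠ 0 := mul_ne_zero hd hx10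
  have hn0 : n ≠ 0 := by
    intro h0
    rw [h0, Int.cast_zero] at hx2sq
    exact hx20 (pow_eq_zero_iff (by norm_num) |>.1 hx2sq)
  have hb0 : b ≠ 0 := by
    rintro rfl
    rw [zero_pow (by norm_num), zero_mul] at hab
    exact hn0 (Int.natAbs_eq_zero.1 hab.symm)
  have hb0' : (b : Om) ≠ 0 := Nat.cast_ne_zero.2 hb0
  have hne' : n = (b : ℤ) ^ 2 * (n.sign * a) := by
    have h1 : n = n.sign * n.natAbs := (Int.sign_mul_natAbs n).symm
    rw [← hab] at h1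
    push_cast at h1
    calc n = n.sign * ((b : ℤ) ^ 2 * a) := h1
      _ = _ := by ring
  refine ⟨n.sign * a, x2 / b, ?_, ?_, ?_, ⟨s0, ?_⟩⟩
  · rw [Int.natAbs_mul, Int.natAbs_sign_of_ne_zero hn0, one_mul, Int.natAbs_natCast]
    exact hasq
  · rw [div_pow, hx2sq, div_eq_iff (pow_ne_zero 2 hb0')]
    conv_lhs => rw [hne']
    push_cast
    ring
  · intro u hu
    rw [map_div₀, map_natCast, hx2, map_mul, map_natCast, hx1U u hu]
  · intro h0
    rw [map_div₀, map_natCast, div_left_inj' hb0', hx2, map_mul, map_natCast, hx1s, mul_neg,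
      neg_eq_iff_add_eq_zero, ← two_mul] at h0
    exact mul_ne_zero two_ne_zero hx20 h0

private theorem C5_sqfree {a : ℕ} (ha : Squarefree a) : a = 1 ∨ a = 2 ∨
    ∃ l : ℕ, l.Prime ∧ l ≠ 2 ∧ l ∣ a := by
  rcases Nat.eq_two_pow_or_exists_odd_prime_and_dvd a with ⟨k, rfl⟩ | ⟨l, h1, h2, h3⟩
  · rcases k with _ | _ | k
    · left; norm_num
    · right; left; norm_num
    · exfalso
      have h1 : 2 * 2 ∣ 2 ^ (k + 1 + 1) := ⟨2 ^ k, by ring⟩
      have h2 := ha 2 h1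
      norm_num at h2
  · right; right
    refine ⟨l, h1, ?_, h2⟩
    rintro rfl
    norm_num at h3

/-! ### odd inertia and complex conjugations -/

private theorem C5_PQ : PQ 2 = P2 := by
  ext σ
  have h := mem_cycZp Nat.prime_two ⊥ (by
    intro ζ hζ
    have h2 : (ζ - 1) * (ζ + 1) = 0 := by linear_combination hζ
    rcases mul_eq_zero.1 h2 with h | h
    · rw [sub_eq_zero.1 h]; exact one_mem _
    · rw [eq_neg_of_add_eq_zero_left h]; exact neg_mem (one_mem _)) σ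
  have hPP : PP 2 = P2 := if_pos rfl
  rw [hPP] at h
  unfold PQ
  rw [h]
  refine ⟨fun h => h.1, fun h => ⟨h, ?_⟩⟩
  rw [IntermediateField.fixingSubgroup_bot]
  exact Subgroup.mem_top _

private theorem C5_inertia_P2 (B : Ideal ZO) (hB : B.IsMaximal)
    (h2 : (2 : ZO) ∉ B) (t : GQ) (ht : t ∈ B.inertia GQ) : t ∈ P2 :=
  C5_P2_of_mu t fun ζ hζ => inertia_fix_mu Nat.prime_two B hB (by exact_mod_cast h2) t ht ζ hζ

private theorem C5_conj_P2 (φ : Om →+* ℂ) (c : GQ) (h : ∀ x, φ (c x) = conj (φ x)) : c ∈ P2 := by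
  rw [← C5_PQ, mem_PQ_iff Nat.prime_two]
  refine ⟨2, two_pos, ?_⟩
  intro ζ _
  rw [pow_two, AlgEquiv.mul_apply]
  apply φ.injective
  rw [h, h, Complex.conj_conj]

private theorem C5_odd_N {ψ : GQ → ZMod 2} (hψ : HomOn P2 ψ)
    (h3 : ∀ B : Ideal ZO, B.IsMaximal → (2 : ZO) ∉ B → ∀ t ∈ B.inertia GQ, ψ t = 0)
    (B : Ideal ZO) (hB : B.IsMaximal) (h2 : (2 : ZO) ∉ B) (t : GQ) (ht : t ∈ B.inertia GQ) :
    t ∈ C5_N ψ hψ := by
  rw [C5_mem_N]
  intro s
  obtain ⟨B', hB', hM⟩ := exists_Mv s B hB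
  have h4 : s⁻¹ * t * s ∈ B'.inertia GQ := hM.inertia' ht
  have h5 : (2 : ZO) ∉ B' := by
    intro h
    have h6 := (hM 2).1 h
    have h7 : s • (2 : ZO) = 2 := Subtype.ext (map_ofNat s 2)
    rw [h7] at h6
    exact h2 h6
  exact ⟨C5_P2_conj s t (C5_inertia_P2 B hB h2 t ht), h3 B' hB' h5 _ h4⟩

private theorem C5_conj_N {ψ : GQ → ZMod 2} (hψ : HomOn P2 ψ)
    (h4 : ∀ (φ : Om →+* ℂ) (c : GQ), (∀ x, φ (c x) = conj (φ x)) → ψ c = 0)
    (φ : Om →+* ℂ) (c : GQ) (h : ∀ x, φ (c x) = conj (φ x)) : c ∈ C5_N ψ hψ := by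
  rw [C5_mem_N]
  intro s
  refine ⟨C5_P2_conj s c (C5_conj_P2 φ c h), h4 (φ.comp (s : Om →+* Om)) _ fun x => ?_⟩
  show φ (s (s⁻¹ (c (s x)))) = conj (φ (s x))
  rw [← h]
  congr 1
  exact s.apply_symm_apply _

/-! ### (1) the quadratic fields -/

private theorem C5_sigma {ψ : GQ → ZMod 2} (hψ : HomOn P2 ψ)
    (h3 : ∀ B : Ideal ZO, B.IsMaximal → (2 : ZO) ∉ B → ∀ t ∈ B.inertia GQ, ψ t = 0)
    (h4 : ∀ (φ : Om →+* ℂ) (c : GQ), (∀ x, φ (c x) = conj (φ x)) → ψ c = 0)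
    (σ : GQ) (y : Om) (hy : y ^ 2 = 2) (hσ : σ y ≠ y)
    (U : Subgroup GQ) (hU : U.index = 2) (hUo : IsOpen (U : Set GQ)) (hN : C5_N ψ hψ ≤ U) :
    σ ∉ U := by
  intro hσU
  obtain ⟨e, x, hsf, hx, hxU, s, hs⟩ := C5_quadratic U hU hUo
  -- `e` is not negative
  obtain ⟨φ, c, hc⟩ := exists_conj
  have hcx : c x = x := hxU c (hN (C5_conj_N hψ h4 φ c hc))
  have he : 0 ≤ e := by
    by_contra hneg
    push Not at hneg
    have h1 : conj (φ x) = φ x := by rw [← hc, hcx]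
    obtain ⟨r, hr⟩ := Complex.conj_eq_iff_real.1 h1
    have h2 : (φ x) ^ 2 = (e : ℂ) := by rw [← map_pow, hx, map_intCast]
    rw [hr] at h2
    have h5 : r ^ 2 = (e : ℝ) := by exact_mod_cast h2
    have h6 : (e : ℝ) < 0 := by exact_mod_cast hneg
    nlinarith [sq_nonneg r]
  rcases C5_sqfree hsf with h1 | h1 | ⟨l, hl, hl2, hla⟩
  · have h2 : e = 1 := by omega
    rw [h2] at hx
    have h5 : x = 1 ∨ x = -1 := by
      have : x ^ 2 = 1 ^ 2 := by rw [hx]; norm_num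
      exact sq_eq_sq_iff_eq_or_eq_neg.1 this
    rcases h5 with rfl | rfl
    · exact hs (map_one s)
    · exact hs (by rw [map_neg, map_one])
  · have h2 : e = 2 := by omega
    rw [h2] at hx
    have h5 : x = y ∨ x = -y := by
      have : x ^ 2 = y ^ 2 := by rw [hx, hy]; norm_num
      exact sq_eq_sq_iff_eq_or_eq_neg.1 this
    have h6 := hxU σ hσU
    rcases h5 with rfl | rfl
    · exact hσ h6
    · rw [map_neg, neg_inj] at h6
      exact hσ h6
  · have hv : ¬ 2 ∣ padicValInt l e := by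
      have hlf : Fact l.Prime := ⟨hl⟩
      have h2 : padicValInt l e = 1 := by
        unfold padicValInt
        have h3 := one_le_padicValNat_of_dvd hsf.ne_zero hla
        have h4 := hsf.natFactorization_le_one l
        rw [Nat.factorization_def _ hl] at h4
        omega
      rw [h2]
      norm_num
    obtain ⟨B', hB', hlB', t, ht, htx⟩ := exists_inertia_moves Nat.prime_two hl hl2 e hv x hx
    have h2B' : (2 : ZO) ∉ B' := by
      intro h2
      have hodd : Odd l := hl.odd_of_ne_two hl2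
      obtain ⟨k, hk⟩ := hodd
      have h3 : (1 : ZO) = (l : ZO) - (2 : ZO) * k := by
        rw [hk]
        push_cast
        ring
      exact hB'.ne_top ((Ideal.eq_top_iff_one B').2 (h3 ▸ B'.sub_mem hlB' (B'.mul_mem_right _ h2)))
    exact htx (hxU t (hN (C5_odd_N hψ h3 B' hB' h2B' t ht)))

/-- an element which moves `√2` -/
private theorem C5_exists_sigma : ∃ (σ : GQ) (y : Om), y ^ 2 = 2 ∧ σ y ≠ y := by
  obtain ⟨y, hy⟩ := IsAlgClosed.exists_pow_nat_eq (2 : Om) (n := 2) (by norm_num)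
  by_contra hcon
  push Not at hcon
  obtain ⟨r, hr⟩ := (InfiniteGalois.mem_range_algebraMap_iff_fixed y).2 fun σ => hcon σ y hy
  rw [← hr] at hy
  have h3 : r ^ 2 = 2 := by
    apply (algebraMap ℚ Om).injective
    rw [map_pow, hy, map_ofNat]
  have h5 : ((r : ℝ)) ^ 2 = 2 := by exact_mod_cast h3
  have h6 : Real.sqrt 2 = |(r : ℝ)| := by rw [← h5, Real.sqrt_sq_eq_abs]
  have h7 : Irrational (Real.sqrt 2) := irrational_sqrt_two
  rw [h6] at h7
  exact h7 ⟨|r|, by push_cast; rfl⟩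

/-! ### (2) powers of two; a generator -/

private theorem C5_pow {ψ : GQ → ZMod 2} (hψ : HomOn P2 ψ) {M : Subgroup GQ} (hMn : M.Normal)
    (hMo : IsOpen (M : Set GQ)) (hN : C5_N ψ hψ ≤ M) (s : GQ) : ∃ m : ℕ, s ^ (2 ^ m) ∈ M := by
  have hQo : IsOpen ((M ⊔ P2 : Subgroup GQ) : Set GQ) := Subgroup.isOpen_mono le_sup_left hMo
  obtain ⟨m, hm⟩ := C5_pow_mem (M ⊔ P2) hQo le_sup_right s
  obtain ⟨w, hw, z', hz', hwz⟩ := Subgroup.mem_sup_of_normal_left.1 hm
  refine ⟨m + 1, ?_⟩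
  have h1 : s ^ (2 ^ (m + 1)) = w * (z' * w * z'⁻¹) * (z' * z') := by
    rw [pow_succ, mul_two, pow_add, ← hwz]
    group
  rw [h1]
  refine M.mul_mem (M.mul_mem hw (hMn.conj_mem w hw z')) ?_
  exact hN (C5_sq_mem hψ hz')

private theorem C5_gen {ψ : GQ → ZMod 2} (hψ : HomOn P2 ψ) {σ : GQ}
    (hσ : ∀ U : Subgroup GQ, U.index = 2 → IsOpen (U : Set GQ) → C5_N ψ hψ ≤ U → σ ∉ U)
    {M : Subgroup GQ} (hMn : M.Normal)
    (hMo : IsOpen (M : Set GQ)) (hN : C5_N ψ hψ ≤ M) (g : GQ) :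
    ∃ a : ℤ, (σ ^ a)⁻¹ * g ∈ M := by
  have htop : Subgroup.zpowers σ ⊔ M = ⊤ := by
    by_contra hne
    obtain ⟨z, hz⟩ : ∃ z, z ∉ Subgroup.zpowers σ ⊔ M := by
      by_contra hcon
      push Not at hcon
      exact hne (eq_top_iff.2 fun x _ => hcon x)
    obtain ⟨U, hU2, hHU⟩ := C5_index_two hMn hMo (le_sup_right : M ≤ Subgroup.zpowers σ ⊔ M) hz
      (C5_pow hψ hMn hMo hN)
    refine hσ U hU2 (Subgroup.isOpen_mono (le_sup_right.trans hHU) hMo)
      ((hN.trans le_sup_right).trans hHU) ?_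
    exact hHU ((le_sup_left : Subgroup.zpowers σ ≤ _) (Subgroup.mem_zpowers σ))
  have hg : g ∈ Subgroup.zpowers σ ⊔ M := by rw [htop]; exact Subgroup.mem_top _
  obtain ⟨y, hy, w, hw, hyw⟩ := Subgroup.mem_sup_of_normal_right.1 hg
  obtain ⟨a, rfl⟩ := Subgroup.mem_zpowers_iff.1 hy
  refine ⟨a, ?_⟩
  rw [← hyw, inv_mul_cancel_left]
  exact hw

private theorem C5_card {M : Subgroup GQ} (hMn : M.Normal) (hMo : IsOpen (M : Set GQ))
    (hp : ∀ s : GQ, ∃ m : ℕ, s ^ (2 ^ m) ∈ M) : ∃ n : ℕ, M.index = 2 ^ n := by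
  have hfin : Finite (GQ ⧸ M) := Subgroup.quotient_finite_of_isOpen M hMo
  have hpg : IsPGroup 2 (GQ ⧸ M) := by
    intro g
    obtain ⟨s, rfl⟩ := QuotientGroup.mk'_surjective M g
    obtain ⟨m, hm⟩ := hp s
    refine ⟨m, ?_⟩
    rw [← map_pow]
    exact (QuotientGroup.eq_one_iff _).2 hm
  have hfact : Fact (Nat.Prime 2) := ⟨Nat.prime_two⟩
  obtain ⟨a, ha⟩ := (IsPGroup.iff_card (p := 2)).1 hpg
  exact ⟨a, ha⟩

private theorem C5_core (ψ : GQ → ZMod 2) (hψ : HomOn P2 ψ) (hc : LCOn P2 ψ)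
    (h3 : ∀ B : Ideal ZO, B.IsMaximal → (2 : ZO) ∉ B → ∀ t ∈ B.inertia GQ, ψ t = 0)
    (h4 : ∀ (φ : Om →+* ℂ) (c : GQ), (∀ x, φ (c x) = conj (φ x)) → ψ c = 0) :
    ∀ t ∈ P2, ψ t = 0 := by
  intro z hzP
  by_contra hz
  have hNn : (C5_N ψ hψ).Normal := C5_N_normal hψ
  have hzN : z ∉ (C5_N ψ hψ : Set GQ) := by
    intro h
    have h1 := (C5_mem_N hψ z).1 h 1
    rw [inv_one, one_mul, mul_one] at h1
    exact hz h1.2
  have hopen : IsOpen ((fun v => z * v) ⁻¹' ((C5_N ψ hψ : Set GQ))ᶜ) :=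
    (C5_N_closed hψ hc).isOpen_compl.preimage (continuous_const_mul z)
  obtain ⟨V, hV⟩ := ProfiniteGrp.exist_openNormalSubgroup_sub_open_nhds_of_one hopen
    (by change z * 1 ∉ _; rwa [mul_one])
  have hVn : (V.toSubgroup).Normal := V.isNormal'
  set M : Subgroup GQ := C5_N ψ hψ ⊔ V.toSubgroup with hM
  have hMn : M.Normal := Subgroup.sup_normal _ _
  have hVM : V.toSubgroup ≤ M := le_sup_right
  have hNM : C5_N ψ hψ ≤ M := le_sup_left
  have hMo : IsOpen (M : Set GQ) := Subgroup.isOpen_mono hVM V.isOpen'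
  have hzM : z ∉ M := by
    intro h1
    obtain ⟨ν, hν, v, hv, hνv⟩ := Subgroup.mem_sup_of_normal_right.1 h1
    have h2 := hV (V.toSubgroup.inv_mem hv)
    refine h2 ?_
    change z * v⁻¹ ∈ (C5_N ψ hψ : Set GQ)
    have h5 : z * v⁻¹ = ν := by rw [← hνv]; group
    rw [h5]
    exact hν
  obtain ⟨σ, y, hy, hσy⟩ := C5_exists_sigma
  have hσ : ∀ U : Subgroup GQ, U.index = 2 → IsOpen (U : Set GQ) → C5_N ψ hψ ≤ U → σ ∉ U :=
    fun U hU hUo hN => C5_sigma hψ h3 h4 σ y hy hσy U hU hUo hN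
  obtain ⟨n, hn⟩ := C5_card hMn hMo (C5_pow hψ hMn hMo hNM)
  -- the layer of degree `2 ^ n`
  set D : Subgroup GQ := (Dl (n + 2)).fixingSubgroup with hD
  have hPD : PQ 2 ≤ D := IntermediateField.fixingSubgroup_antitone (Dl_le (n + 2))
  have hDo : IsOpen (D : Set GQ) := IntermediateField.fixingSubgroup_isOpen (Dl (n + 2))
  have hDn : D.Normal := by
    refine ⟨fun x hx g => ?_⟩
    have h1 := D.mul_mem (hPD (PQ_comm Nat.prime_two g x)) hx
    simpa [mul_assoc] using h1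
  have hDi : D.index = 2 ^ n := by
    rw [hD, ← IntermediateField.finrank_eq_fixingSubgroup_index, Dl_rank (by omega),
      Nat.add_sub_cancel]
  have hND : C5_N ψ hψ ≤ D := by
    intro t ht
    have h1 := ((C5_mem_N hψ t).1 ht 1).1
    rw [inv_one, one_mul, mul_one] at h1
    apply hPD
    rw [C5_PQ]
    exact h1
  have hMD : (M ⊓ D).Normal := inferInstance
  obtain ⟨a, ha⟩ := C5_gen hψ hσ hMD (by
    rw [Subgroup.coe_inf]
    exact hMo.inter hDo) (le_inf hNM hND) z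
  -- `σ ^ a ∈ D`
  have haD : σ ^ a ∈ D := by
    have h1 : z ∈ D := hPD (by rw [C5_PQ]; exact hzP)
    have h2 : σ ^ a = z * ((σ ^ a)⁻¹ * z)⁻¹ := by group
    rw [h2]
    exact D.mul_mem h1 (D.inv_mem ha.2)
  have hord : ((2 ^ n : ℕ) : ℤ) ∣ a := by
    set q : GQ →* GQ ⧸ D := QuotientGroup.mk' D with hq
    have hgen : ∀ x : GQ ⧸ D, x ∈ Subgroup.zpowers (q σ) := by
      intro x
      obtain ⟨g, rfl⟩ := QuotientGroup.mk'_surjective D x
      obtain ⟨b, hb⟩ := C5_gen hψ hσ hDn hDo hND g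
      refine Subgroup.mem_zpowers_iff.2 ⟨b, ?_⟩
      rw [← map_zpow]
      exact QuotientGroup.eq.2 hb
    have h1 : orderOf (q σ) = 2 ^ n := by
      rw [orderOf_eq_card_of_forall_mem_zpowers hgen]
      exact hDi
    rw [← h1, orderOf_dvd_iff_zpow_eq_one, ← map_zpow]
    exact (QuotientGroup.eq_one_iff _).2 haD
  have haM : σ ^ a ∈ M := by
    obtain ⟨b, rfl⟩ := hord
    have hfin : Finite (GQ ⧸ M) := Subgroup.quotient_finite_of_isOpen M hMo
    have h1 : (QuotientGroup.mk' M σ) ^ (2 ^ n) = 1 := by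
      rw [← hn]
      exact pow_card_eq_one'
    refine (QuotientGroup.eq_one_iff _).1 ?_
    change QuotientGroup.mk' M (σ ^ (((2 ^ n : ℕ) : ℤ) * b)) = 1
    rw [zpow_mul, zpow_natCast, map_zpow, map_pow, h1, one_zpow]
  apply hzM
  have h1 := M.mul_mem haM ha.1
  rwa [mul_inv_cancel_left] at h1

/-- PROOF. (1) A character `η : GQ → ZMod 2` (homomorphism on all of `GQ`, locally constant), trivial on odd inertia and on complex conjugations, is 0 or the character of `ℚ(√2)`: by Kummer theory (R8_quadratic, R8_sqfree in R8.lean are private, copy them) it is given by `√e`,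
`e` squarefree; odd primes dividing `e` ramify (`exists_inertia_moves`, R6); `e > 0` by the complex conjugation (`exists_conj`). So `e ∈ {1, 2}`.
(2) Let `N` be the subgroup generated by all odd inertia elements and complex conjugations: normal in `GQ`, `N ≤ PQ 2` (`inertia_mem_PQ`, and `ℚ_∞` is real), `ψ = 0` on `N`. Let `X ≤ GQ` be an open NORMAL subgroup with `N ≤ X` and `GQ/X` a 2-group; then `GQ/X` is cyclic: its
subgroups of index 2 are kernels of characters as in (1), so there is at most one; a finite 2-group with at most one subgroup of index 2 is cyclic (an element outside generates: maximal subgroups of a 2-group have index 2).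
(3) `ψ` extends to an open subgroup: let `U` be open normal in `GQ` with `ψ (x u) = ψ x`; `Q = PQ 2 * U`, `ψ' (x u) = ψ x`. `W = {g ∈ Q | ψ' (s g s⁻¹) = 0 for all s ∈ GQ}` is open (contains `U`), normal in `GQ`, contains `N`; `GQ/Q` is a 2-group (`Q ≥ PQ 2`: `exists_Dl`, `Dl_rank`), `Q/W` has
exponent 2. So `GQ/W` is a 2-group of order `2 ^ a`. Let `V = (Dl (a+2)).fixingSubgroup` (index `2 ^ a`, normal, contains `PQ 2 ≥ N`). `GQ/(W ⊓ V)` is a 2-group, so cyclic by (2), so `W = V` (same index), so `PQ 2 ≤ W` and `ψ = 0`. -/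
theorem real2 (ψ : GQ → ZMod 2) (h1 : HomOn (PQ 2) ψ) (h2 : LCOn (PQ 2) ψ)
    (h3 : ∀ B : Ideal ZO, B.IsMaximal → (2 : ZO) ∉ B → ∀ t ∈ B.inertia GQ, ψ t = 0)
    (h4 : ∀ (φ : Om →+* ℂ) (c : GQ), (∀ x, φ (c x) = conj (φ x)) → ψ c = 0) :
    ∀ t ∈ PQ 2, ψ t = 0 := by
  rw [C5_PQ] at h1 h2 ⊢
  exact C5_core ψ h1 h2 h3 h4

end OzakiFree
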