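import Pool.Agent.Lib.MP_6e8030_nt.W.C0

open IntermediateField
open scoped ComplexConjugate

noncomputable section

namespace OzakiFree

/-! ### C6: the dihedral cocycles -/

private theorem C6_hom_one {Γ : Type*} [Group Γ] {P : Subgroup Γ} {A : Type*} [AddGroup A]
    {χ : Γ → A} (h : HomOn P χ) : χ 1 = 0 := by
  have h1 := h 1 P.one_mem 1 P.one_mem
  rw [mul_one] at h1
  exact left_eq_add.1 h1

private theorem C6_coc_one {Γ : Type*} [Group Γ] {P : Subgroup Γ} {n : ℕ} {χ : Γ → ZMod 2}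
    (hχ : HomOn P χ) {f : Γ → ZMod n} (h : CocOn P χ f) : f 1 = 0 := by
  have h1 := h 1 P.one_mem 1 P.one_mem
  rw [mul_one, C6_hom_one hχ, sg, if_pos rfl, one_mul] at h1
  exact left_eq_add.1 h1

private theorem C6_sg_sq {n : ℕ} (a : ZMod 2) : (sg a : ZMod n) * sg a = 1 := by
  unfold sg
  split_ifs
  · rw [one_mul]
  · rw [neg_mul_neg, one_mul]

private theorem C6_coc_inv {Γ : Type*} [Group Γ] {P : Subgroup Γ} {n : ℕ} {χ : Γ → ZMod 2}
    (hχ : HomOn P χ) {f : Γ → ZMod n} (h : CocOn P χ f) {x : Γ} (hx : x ∈ P) :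
    f x⁻¹ = -(sg (χ x) * f x) := by
  have h1 := h x hx x⁻¹ (P.inv_mem hx)
  rw [mul_inv_cancel, C6_coc_one hχ h] at h1
  have h2 := C6_sg_sq (n := n) (χ x)
  linear_combination (-(sg (χ x) : ZMod n)) * h1 - (f x⁻¹) * h2

private theorem C6_RP {Γ : Type*} [Group Γ] [TopologicalSpace Γ] {P H R : Subgroup Γ}
    {χ₀ : Γ → ZMod 2} {s : ℕ} {τ : Fin s → Γ} {ψ : Fin s → Γ → ZMod 2}
    (hG : GData P H R χ₀ s τ ψ) : R ≤ P := fun x hx => ((hG.hH x).1 (hG.RH hx)).1

/-- PROOF. The set `{g ∈ P | f g = f' g}` is a subgroup (`CocOn`; `f 1 = 0`), contains `R`, the `τ m` and `U ⊓ P` for a small open `U`; `frattini`. -/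
theorem coc_unique {Γ : Type*} [Group Γ] [TopologicalSpace Γ] [IsTopologicalGroup Γ]
    [CompactSpace Γ] {P H R : Subgroup Γ} {χ₀ : Γ → ZMod 2} {s : ℕ} {τ : Fin s → Γ}
    {ψ : Fin s → Γ → ZMod 2} (hG : GData P H R χ₀ s τ ψ) {n : ℕ} (χ : Γ → ZMod 2)
    (hχ : HomOn P χ) (hχl : LCOn P χ) (f f' : Γ → ZMod n) (h : CocOn P χ f) (h' : CocOn P χ f')
    (l : LCOn P f) (l' : LCOn P f') (r : ∀ x ∈ R, f x = 0) (r' : ∀ x ∈ R, f' x = 0)
    (hr : ∀ x ∈ R, χ x = 0) (he : ∀ m, f (τ m) = f' (τ m)) : ∀ g ∈ P, f g = f' g := by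
  let W : Subgroup Γ :=
    { carrier := {g | g ∈ P ∧ f g = f' g}
      one_mem' := ⟨P.one_mem, by rw [C6_coc_one hχ h, C6_coc_one hχ h']⟩
      mul_mem' := by
        rintro x y ⟨hx, hx'⟩ ⟨hy, hy'⟩
        refine ⟨P.mul_mem hx hy, ?_⟩
        rw [h x hx y hy, h' x hx y hy, hx', hy']
      inv_mem' := by
        rintro x ⟨hx, hx'⟩
        refine ⟨P.inv_mem hx, ?_⟩
        rw [C6_coc_inv hχ h hx, C6_coc_inv hχ h' hx, hx'] }
  obtain ⟨U, hU, hUf⟩ := l
  obtain ⟨U', hU', hUf'⟩ := l'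
  have hPW : P ≤ W := by
    refine frattini P R (C6_RP hG) hG.Rn hG.pro τ hG.fr W (fun x hx => hx.1) ?_ ?_ ?_
    · refine ⟨U ⊓ U', hU.inter hU', fun u hu huP => ⟨huP, ?_⟩⟩
      have h1 := hUf 1 P.one_mem u hu.1 huP
      have h2 := hUf' 1 P.one_mem u hu.2 huP
      rw [one_mul, C6_coc_one hχ h] at h1
      rw [one_mul, C6_coc_one hχ h'] at h2
      rw [h1, h2]
    · exact fun x hx => ⟨C6_RP hG hx, by rw [r x hx, r' x hx]⟩
    · exact fun m => ⟨hG.tP m, he m⟩
  exact fun g hg => (hPW hg).2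

private theorem C6_fr {Γ : Type*} [Group Γ] [TopologicalSpace Γ] {P H R : Subgroup Γ}
    {χ₀ : Γ → ZMod 2} {s : ℕ} {τ : Fin s → Γ} {ψ : Fin s → Γ → ZMod 2}
    (hG : GData P H R χ₀ s τ ψ) (χ χ' : Γ → ZMod 2) (h : HomOn P χ) (h' : HomOn P χ')
    (l : LCOn P χ) (l' : LCOn P χ') (r : ∀ x ∈ R, χ x = 0) (r' : ∀ x ∈ R, χ' x = 0)
    (he : ∀ m, χ (τ m) = χ' (τ m)) : ∀ g ∈ P, χ g = χ' g := by
  intro g hg
  rw [← sub_eq_zero]
  refine hG.fr (fun g => χ g - χ' g) ?_ ?_ ?_ ?_ g hg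
  · intro x hx y hy
    show χ (x * y) - χ' (x * y) = (χ x - χ' x) + (χ y - χ' y)
    rw [h x hx y hy, h' x hx y hy]
    ring
  · obtain ⟨U, hU, hUf⟩ := l
    obtain ⟨U', hU', hUf'⟩ := l'
    refine ⟨U ⊓ U', hU.inter hU', fun x hx u hu huP => ?_⟩
    show χ (x * u) - χ' (x * u) = χ x - χ' x
    rw [hUf x hx u hu.1 huP, hUf' x hx u hu.2 huP]
  · intro x hx
    show χ x - χ' x = 0
    rw [r x hx, r' x hx, sub_zero]
  · intro m
    show χ (τ m) - χ' (τ m) = 0
    rw [he m, sub_self]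

private def C6_F {n : ℕ} : DihedralGroup n → ZMod n
  | .r a => a
  | .sr a => -a

private def C6_sign {n : ℕ} : DihedralGroup n → ZMod 2
  | .r _ => 0
  | .sr _ => 1

private theorem C6_F_mul {n : ℕ} (x y : DihedralGroup n) :
    C6_F (x * y) = C6_F x + sg (C6_sign x) * C6_F y := by
  have h1 : (1 : ZMod 2) ≠ 0 := by decide
  cases x with
  | r a =>
    cases y with
    | r b => simp [C6_F, C6_sign, sg]
    | sr b =>
      simp only [DihedralGroup.r_mul_sr, C6_F, C6_sign, sg, if_true, one_mul]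
      ring
  | sr a =>
    cases y with
    | r b =>
      simp only [DihedralGroup.sr_mul_r, C6_F, C6_sign, sg, if_neg h1]
      ring
    | sr b =>
      simp only [DihedralGroup.sr_mul_sr, C6_F, C6_sign, sg, if_neg h1]
      ring

private theorem C6_sign_mul {n : ℕ} (x y : DihedralGroup n) :
    C6_sign (x * y) = C6_sign x + C6_sign y := by
  cases x with
  | r a =>
    cases y with
    | r b => simp [C6_sign]
    | sr b => simp [C6_sign]
  | sr a =>
    cases y with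
    | r b => simp [C6_sign]
    | sr b =>
      simp only [DihedralGroup.sr_mul_sr, C6_sign]
      decide

/-- PROOF. In `DihedralGroup (2 ^ t)` put `F (r a) = a`, `F (sr a) = -a`, sign `r a ↦ 0`, `sr a ↦ 1`: `F (x y) = F x + (-1) ^ sign x F y`. It is a 2-group (order `2 ^ (t+1)`). Take `ρ` from `hI` with `τ i ↦ sr 0`, `τ j ↦ sr (-1)`, other `τ m ↦ 1`; `sign ∘ ρ` is a character of `P`
trivial on `R` with the values of `ψ i + ψ j` at the `τ m`, so equal (`hG.fr`). `f = F ∘ ρ`. -/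
theorem exists_coc {Γ : Type*} [Group Γ] [TopologicalSpace Γ] [IsTopologicalGroup Γ]
    [CompactSpace Γ] {P H R : Subgroup Γ} {χ₀ : Γ → ZMod 2} {s : ℕ} {τ : Fin s → Γ}
    {ψ : Fin s → Γ → ZMod 2} (hG : GData P H R χ₀ s τ ψ) (hI : FreeInv P R s τ) (i j : Fin s)
    (hij : i ≠ j) (t : ℕ) : ∃ f : Γ → ZMod (2 ^ t), FCoc P R s τ ψ i j t f := by
  have hne : NeZero (2 ^ t) := ⟨by positivity⟩
  have hp2 : IsPGroup 2 (DihedralGroup (2 ^ t)) := by
    apply IsPGroup.of_card (n := t + 1)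
    rw [DihedralGroup.nat_card, pow_succ']
  obtain ⟨ρ, hρ, hρτ⟩ := hI (DihedralGroup (2 ^ t)) hp2
    (fun m => if m = i then DihedralGroup.sr 0 else if m = j then DihedralGroup.sr (-1) else 1)
    (by
      intro m
      split_ifs
      · rw [DihedralGroup.sr_mul_sr, sub_self]
        rfl
      · rw [DihedralGroup.sr_mul_sr, sub_self]
        rfl
      · rw [mul_one])
  have hsign : ∀ g ∈ P, C6_sign (ρ g) = ψ i g + ψ j g := by
    refine C6_fr hG (fun g => C6_sign (ρ g)) (fun g => ψ i g + ψ j g) ?_ ?_ ?_ ?_ ?_ ?_ ?_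
    · intro x hx y hy
      show C6_sign (ρ (x * y)) = C6_sign (ρ x) + C6_sign (ρ y)
      rw [hρ.mul x hx y hy, C6_sign_mul]
    · intro x hx y hy
      show ψ i (x * y) + ψ j (x * y) = (ψ i x + ψ j x) + (ψ i y + ψ j y)
      rw [hG.phom i x hx y hy, hG.phom j x hx y hy]
      ring
    · obtain ⟨U, hU, hUf⟩ := hρ.lc
      refine ⟨U, hU, fun x hx u hu huP => ?_⟩
      show C6_sign (ρ (x * u)) = C6_sign (ρ x)
      rw [hUf x hx u hu huP]
    · obtain ⟨U, hU, hUf⟩ := hG.plc i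
      obtain ⟨U', hU', hUf'⟩ := hG.plc j
      refine ⟨U ⊓ U', hU.inter hU', fun x hx u hu huP => ?_⟩
      show ψ i (x * u) + ψ j (x * u) = ψ i x + ψ j x
      rw [hUf x hx u hu.1 huP, hUf' x hx u hu.2 huP]
    · intro x hx
      show C6_sign (ρ x) = 0
      rw [hρ.triv x hx]
      rfl
    · intro x hx
      show ψ i x + ψ j x = 0
      rw [hG.pR i x hx, hG.pR j x hx, add_zero]
    · intro m
      show C6_sign (ρ (τ m)) = ψ i (τ m) + ψ j (τ m)
      rw [hρτ m, hG.pt i m, hG.pt j m]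
      by_cases h1 : m = i
      · subst h1
        have h2' : ¬ j = m := fun h => hij h.symm
        rw [if_pos rfl, if_pos rfl, if_neg h2']
        rfl
      · have h1' : ¬ i = m := fun h => h1 h.symm
        rw [if_neg h1, if_neg h1']
        by_cases h2 : m = j
        · subst h2
          rw [if_pos rfl, if_pos rfl]
          rfl
        · have h2' : ¬ j = m := fun h => h2 h.symm
          rw [if_neg h2, if_neg h2']
          rfl
  refine ⟨fun g => C6_F (ρ g), ?_, ?_, ?_, ?_⟩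
  · intro x hx y hy
    show C6_F (ρ (x * y)) = C6_F (ρ x) + sg (ψ i x + ψ j x) * C6_F (ρ y)
    rw [hρ.mul x hx y hy, C6_F_mul, hsign x hx]
  · obtain ⟨U, hU, hUf⟩ := hρ.lc
    refine ⟨U, hU, fun x hx u hu huP => ?_⟩
    show C6_F (ρ (x * u)) = C6_F (ρ x)
    rw [hUf x hx u hu huP]
  · intro x hx
    show C6_F (ρ x) = 0
    rw [hρ.triv x hx]
    rfl
  · intro m
    show C6_F (ρ (τ m)) = _
    rw [hρτ m]
    by_cases h1 : m = i
    · subst h1
      rw [if_pos rfl, if_neg hij]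
      show -(0 : ZMod (2 ^ t)) = 0
      rw [neg_zero]
    · rw [if_neg h1]
      by_cases h2 : m = j
      · rw [if_pos h2, if_pos h2]
        show -(-1 : ZMod (2 ^ t)) = 1
        rw [neg_neg]
      · rw [if_neg h2, if_neg h2]
        rfl

/-- PROOF. Modulo 2 the cocycle is a character of `P` (the sign disappears), trivial on `R`, with values `[m = j]`, so it is `ψ j` (`hG.fr`); so if `ψ j g = 1` the value `f g` is odd, a unit (for `t = 0` everything is a unit). -/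
theorem coc_unit {Γ : Type*} [Group Γ] [TopologicalSpace Γ] [IsTopologicalGroup Γ]
    [CompactSpace Γ] {P H R : Subgroup Γ} {χ₀ : Γ → ZMod 2} {s : ℕ} {τ : Fin s → Γ}
    {ψ : Fin s → Γ → ZMod 2} (hG : GData P H R χ₀ s τ ψ) {i j : Fin s} (hij : i ≠ j) {t : ℕ}
    {f : Γ → ZMod (2 ^ t)} (hf : FCoc P R s τ ψ i j t f) (g : Γ) (hg : g ∈ P) (h1 : ψ j g = 1) :
    IsUnit (f g) := by
  rcases Nat.eq_zero_or_pos t with ht | ht
  · subst ht
    have hs : Subsingleton (ZMod (2 ^ 0)) := by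
      rw [pow_zero]
      infer_instance
    exact isUnit_of_subsingleton _
  · have hne : NeZero (2 ^ t) := ⟨by positivity⟩
    have hdvd : 2 ∣ 2 ^ t := dvd_pow_self 2 (by omega)
    let c : ZMod (2 ^ t) →+* ZMod 2 := ZMod.castHom hdvd (ZMod 2)
    have hsg : ∀ a : ZMod 2, c (sg a) = 1 := by
      intro a
      unfold sg
      split_ifs
      · exact map_one c
      · rw [map_neg, map_one]
        decide
    have hc : ∀ g ∈ P, c (f g) = ψ j g := by
      refine C6_fr hG (fun g => c (f g)) (ψ j) ?_ (hG.phom j) ?_ (hG.plc j) ?_ (hG.pR j) ?_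
      · intro x hx y hy
        show c (f (x * y)) = c (f x) + c (f y)
        rw [hf.coc x hx y hy, map_add, map_mul, hsg, one_mul]
      · obtain ⟨U, hU, hUf⟩ := hf.lc
        refine ⟨U, hU, fun x hx u hu huP => ?_⟩
        show c (f (x * u)) = c (f x)
        rw [hUf x hx u hu huP]
      · intro x hx
        show c (f x) = 0
        rw [hf.triv x hx, map_zero]
      · intro m
        show c (f (τ m)) = ψ j (τ m)
        rw [hf.val m, hG.pt j m]
        by_cases h2 : m = j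
        · rw [if_pos h2, if_pos h2.symm, map_one]
        · rw [if_neg h2, if_neg (fun h => h2 h.symm), map_zero]
    have h2 := hc g hg
    rw [h1] at h2
    have h3 : ((f g).val : ZMod (2 ^ t)) = f g := ZMod.natCast_zmod_val (f g)
    rw [← h3, ZMod.isUnit_iff_coprime]
    have h4 : (((f g).val : ℕ) : ZMod 2) = 1 := by
      rw [← h3, map_natCast] at h2
      exact h2
    have h5 : ¬ 2 ∣ (f g).val := by
      intro h6
      rw [← ZMod.natCast_eq_zero_iff] at h6
      rw [h6] at h4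
      exact absurd h4 (by decide)
    exact ((Nat.Prime.coprime_iff_not_dvd Nat.prime_two).2 h5).symm.pow_right t

end OzakiFree
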