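import Pool.Agent.Lib.MP_6e8030_nt.W.Base

open IntermediateField
open scoped ComplexConjugate

noncomputable section

namespace OzakiFree

/-! ### Cg: congruences at `B` -/

private theorem Cg_one {B : Ideal ZO} (hB : B.IsMaximal) : (1 : ZO) ∉ B :=
  (Ideal.ne_top_iff_one B).1 hB.ne_top

private theorem Cg_mul {B : Ideal ZO} (hB : B.IsMaximal) {r s : ZO} (hr : r ∉ B) (hs : s ∉ B) :
    r * s ∉ B := fun h => (hB.isPrime.mem_or_mem h).elim hr hs

theorem CongB.refl (B : Ideal ZO) (hB : B.IsMaximal) (n : ℕ) (x : ZO) : CongB B n x x :=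
  ⟨1, 0, Cg_one hB, by rw [sub_self, mul_zero, mul_zero]⟩

theorem CongB.symm {B : Ideal ZO} {n : ℕ} {x y : ZO} (h : CongB B n x y) : CongB B n y x := by
  obtain ⟨r, z, hr, h⟩ := h
  exact ⟨r, -z, hr, by linear_combination -h⟩

theorem CongB.trans {B : Ideal ZO} (hB : B.IsMaximal) {n : ℕ} {x y z : ZO} (h : CongB B n x y)
    (h' : CongB B n y z) : CongB B n x z := by
  obtain ⟨r, w, hr, h⟩ := h
  obtain ⟨r', w', hr', h'⟩ := h'
  exact ⟨r * r', r' * w + r * w', Cg_mul hB hr hr', by linear_combination r' * h + r * h'⟩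

theorem CongB.mul {B : Ideal ZO} (hB : B.IsMaximal) {n : ℕ} {x y x' y' : ZO} (h : CongB B n x y)
    (h' : CongB B n x' y') : CongB B n (x * x') (y * y') := by
  obtain ⟨r, w, hr, h⟩ := h
  obtain ⟨r', w', hr', h'⟩ := h'
  exact ⟨r * r', r' * x' * w + r * y * w', Cg_mul hB hr hr',
    by linear_combination (r' * x') * h + (r * y) * h'⟩

theorem CongB.add {B : Ideal ZO} (hB : B.IsMaximal) {n : ℕ} {x y x' y' : ZO} (h : CongB B n x y)
    (h' : CongB B n x' y') : CongB B n (x + x') (y + y') := by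
  obtain ⟨r, w, hr, h⟩ := h
  obtain ⟨r', w', hr', h'⟩ := h'
  exact ⟨r * r', r' * w + r * w', Cg_mul hB hr hr', by linear_combination r' * h + r * h'⟩

theorem CongB.pow {B : Ideal ZO} (hB : B.IsMaximal) {n : ℕ} {x y : ZO} (h : CongB B n x y)
    (k : ℕ) : CongB B n (x ^ k) (y ^ k) := by
  induction k with
  | zero =>
    rw [pow_zero, pow_zero]
    exact CongB.refl B hB n 1
  | succ k ih =>
    rw [pow_succ, pow_succ]
    exact CongB.mul hB ih h

theorem CongB.prod {B : Ideal ZO} (hB : B.IsMaximal) {n : ℕ} {ι : Type*} (s : Finset ι)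
    (f g : ι → ZO) (h : ∀ i ∈ s, CongB B n (f i) (g i)) : CongB B n (∏ i ∈ s, f i) (∏ i ∈ s, g i) := by
  classical
  induction s using Finset.induction_on with
  | empty =>
    rw [Finset.prod_empty, Finset.prod_empty]
    exact CongB.refl B hB n 1
  | insert i s hi ih =>
    rw [Finset.prod_insert hi, Finset.prod_insert hi]
    exact CongB.mul hB (h i (Finset.mem_insert_self i s))
      (ih fun j hj => h j (Finset.mem_insert_of_mem hj))

theorem CongB.mono {B : Ideal ZO} {m n : ℕ} (hmn : m ≤ n) {x y : ZO} (h : CongB B n x y) :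
    CongB B m x y := by
  obtain ⟨r, z, hr, h⟩ := h
  refine ⟨r, 2 ^ (n - m) * z, hr, ?_⟩
  rw [h, ← mul_assoc, ← pow_add, Nat.add_sub_cancel' hmn]

/-- `g ∈ D_B` preserves the congruences -/
theorem CongB.smul {B : Ideal ZO} {g : GQ} (hg : g ∈ DB B) {n : ℕ} {x y : ZO}
    (h : CongB B n x y) : CongB B n (g • x) (g • y) := by
  obtain ⟨r, z, hr, h⟩ := h
  refine ⟨g • r, g • z, fun h1 => hr ((mem_DB.1 hg r).2 h1), ?_⟩
  have h2 : g • (2 : ZO) = 2 := map_ofNat (MulSemiringAction.toRingHom GQ ZO g) 2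
  rw [← smul_sub, ← smul_mul', h, smul_mul', smul_pow', h2]

/-- cancel a factor which is not in `B` -/
theorem CongB.cancel {B : Ideal ZO} (hB : B.IsMaximal) {n : ℕ} {x y z : ZO} (hz : z ∉ B)
    (h : CongB B n (z * x) (z * y)) : CongB B n x y := by
  obtain ⟨r, w, hr, h⟩ := h
  exact ⟨r * z, w, Cg_mul hB hr hz, by linear_combination h⟩

private theorem Cg_odd {B : Ideal ZO} (hB : B.IsMaximal) (h2 : (2 : ZO) ∈ B) (m : ℤ)
    (hm : ¬ (2 : ℤ) ∣ m) : (m : ZO) ∉ B := by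
  intro h
  apply Cg_one hB
  have h3 : m = 2 * (m / 2) + 1 := by omega
  have h4 : (m : ZO) = 2 * ((m / 2 : ℤ) : ZO) + 1 := by
    conv_lhs => rw [h3]
    push_cast
    ring
  have h5 : (1 : ZO) = (m : ZO) - 2 * ((m / 2 : ℤ) : ZO) := by
    linear_combination -h4
  rw [h5]
  exact B.sub_mem h (B.mul_mem_right _ h2)

/-- integers: `B ∩ ℤ = 2 ℤ` -/
theorem CongB.int {B : Ideal ZO} (hB : B.IsMaximal) (h2 : (2 : ZO) ∈ B) {n : ℕ} {a b : ℤ}
    (h : CongB B n (a : ZO) (b : ZO)) : (2 ^ n : ℤ) ∣ a - b := by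
  obtain ⟨r, z, hr, h⟩ := h
  by_cases h0 : a - b = 0
  · rw [h0]
    exact dvd_zero _
  obtain ⟨k, m, hm, hk⟩ : ∃ (k : ℕ) (m : ℤ), ¬ (2 : ℤ) ∣ m ∧ a - b = 2 ^ k * m := by
    have hfin : FiniteMultiplicity (2 : ℤ) (a - b) :=
      Int.finiteMultiplicity_iff.2 ⟨by norm_num, h0⟩
    obtain ⟨m, h1, h3⟩ := hfin.exists_eq_pow_mul_and_not_dvd
    exact ⟨_, m, h3, h1⟩
  by_cases hkn : n ≤ k
  · rw [hk, ← Nat.add_sub_cancel' hkn, pow_add, mul_assoc]
    exact dvd_mul_right _ _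
  exfalso
  have h3 : ((a : ZO) - (b : ZO)) = 2 ^ k * (m : ZO) := by
    have := congrArg (fun t : ℤ => (t : ZO)) hk
    simpa using this
  have h4 : (2 : ZO) ^ k * (r * (m : ZO)) = 2 ^ k * (2 ^ (n - k) * z) := by
    rw [← mul_assoc (2 ^ k : ZO) (2 ^ (n - k)) z, ← pow_add, Nat.add_sub_cancel' (by omega), ← h, h3]
    ring
  have h5 : (2 : ZO) ^ k ≠ 0 := pow_ne_zero _ two_ne_zero
  have h6 := mul_left_cancel₀ h5 h4
  have h7 : r * (m : ZO) ∈ B := by
    rw [h6]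
    obtain ⟨j, hj⟩ : ∃ j, n - k = j + 1 := ⟨n - k - 1, by omega⟩
    rw [hj, pow_succ]
    exact B.mul_mem_right _ (B.mul_mem_left _ h2)
  exact Cg_mul hB hr (Cg_odd hB h2 m hm) h7

/-- PROOF. Suppose `v ≠ 1`, `x = v - 1`; a norm gives `x x' = N ≠ 0`, `x' ∈ ZO`, `N` an integer, `N = 2 ^ a b`, `b` odd. From `r x = 2 ^ n z`: `r N = 2 ^ n z x'`, so
`r b = 2 ^ (n - a) z x' ∈ B` for `n > a`, but `r ∉ B`, `b ∉ B`. -/
theorem cong_sep {B : Ideal ZO} (hB : B.IsMaximal) (h2 : (2 : ZO) ∈ B) (v : ZO)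
    (h : ∀ n, CongB B n v 1) : v = 1 := by
  by_contra hv
  have hx : v - 1 ≠ 0 := sub_ne_zero.2 hv
  have hint : IsIntegral ℤ (v - 1) := integralClosure.isIntegral _
  obtain ⟨N, hN, x', hx'⟩ := hint.isAlgebraic.exists_nonzero_dvd (mem_nonZeroDivisors_of_ne_zero hx)
  have hN' : (N : ZO) = (v - 1) * x' := by
    rw [← hx']
    exact (eq_intCast (algebraMap ℤ ZO) N).symm
  have h1 : ∀ n : ℕ, (2 ^ n : ℤ) ∣ N := by
    intro n
    obtain ⟨r, z, hr, hrz⟩ := h n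
    have h3 : CongB B n (N : ZO) ((0 : ℤ) : ZO) := by
      refine ⟨r, z * x', hr, ?_⟩
      rw [Int.cast_zero, sub_zero, hN']
      linear_combination x' * hrz
    have h4 := CongB.int hB h2 h3
    rwa [sub_zero] at h4
  have h5 := Int.le_of_dvd (abs_pos.2 hN) ((dvd_abs _ _).2 (h1 N.natAbs))
  have h6 : N.natAbs < 2 ^ N.natAbs := Nat.lt_two_pow_self
  have h7 : (N.natAbs : ℤ) = |N| := Int.natCast_natAbs N
  have h8 : ((N.natAbs : ℕ) : ℤ) < ((2 ^ N.natAbs : ℕ) : ℤ) := Int.ofNat_lt.2 h6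
  push_cast at h8
  rw [← h7] at h5
  push_cast at h5
  omega

end OzakiFree
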