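import Pool.Agent.Lib.MP_6e8030_nt.W.Base2

open IntermediateField
open scoped ComplexConjugate

noncomputable section

namespace OzakiFree

/-! ### D0: the data of `GQ` -/

private theorem D0_conj {k : IntermediateField ℚ Om} {χ₀ : GQ → ZMod 2} (hkd : KData k χ₀)
    (g : GQ) (hg : g ∈ PQ 2) : ∀ x ∈ cycZp 2 k, g x ∈ cycZp 2 k := by
  apply stable_of_conj
  intro σ hσ
  rw [hkd.mem] at hσ ⊢
  refine ⟨mul_mem (mul_mem (inv_mem hg) hσ.1) hg, ?_⟩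
  rw [EM_conj hkd.h0 g σ hg hσ.1]
  exact hσ.2

/-- PROOF. `H = (cycZp 2 k).fixingSubgroup`, `R = RL 2 (cycZp 2 k)`. `RH`: `RL_le`. `Rn`: `RL_conj` (`cycZp 2 k` is stable under `PQ 2`: it is the field of the index 2 subgroup `H` of `PQ 2`, `stable_of_conj`). `Rc`: fixing subgroups are closed. `t2`: `τ m ^ 2 ∈ I_{Bs m} ⊓ H`, `inertia_mem_RL`. `fr`: let
`χ` vanish on `R` and at all `τ m`. By `no_unram_all` it suffices that `χ t = 0` for `t ∈ I_B ⊓ PQ 2`. If `χ₀ t = 0` then `t ∈ H`, so `t ∈ R` (`inertia_mem_RL`). Otherwise `B = g (Bs m)` (`cover`), `t' = g⁻¹ t g ∈ I_{Bs m}`, `χ₀ t' = 1`, `t' (τ m)⁻¹ ∈ I_{Bs m} ⊓ H ≤ R`, `χ t = χ t' = χ (τ m) = 0`.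
`pro`: `RL_pro` for `g ^ 2 ∈ H` (`g ∈ PQ 2`). -/
theorem gdata_of_wdata {k : IntermediateField ℚ Om} {χ₀ : GQ → ZMod 2} {B₂ : Ideal ZO} {φ : GQ}
    {s : ℕ} {Bs : Fin s → Ideal ZO} {τ : Fin s → GQ} {ψ : Fin s → GQ → ZMod 2}
    (hW : WData k χ₀ B₂ φ s Bs τ ψ) (hpro : ProP 2 (cycZp 2 k).fixingSubgroup (RL 2 (cycZp 2 k))) :
    GData (PQ 2) (cycZp 2 k).fixingSubgroup (RL 2 (cycZp 2 k)) χ₀ s τ ψ := by
  have hkd := hW.kd
  have two : ∀ a : ZMod 2, a ≠ 0 → a = 1 := by decide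
  refine ⟨hkd.h0, hkd.l0, hkd.mem, RL_le 2 _, ?_, ?_, hW.tP, hW.t1, ?_, hW.phom, hW.plc, hW.pR,
    hW.pt, ?_, ?_⟩
  · intro g hg r hr
    exact RL_conj 2 _ g (D0_conj hkd g hg) (D0_conj hkd g⁻¹ (inv_mem hg)) r hr
  · exact InfiniteGalois.fixingSubgroup_isClosed _
  · intro m
    refine inertia_mem_RL 2 _ (Bs m) (hW.bmax m) _ (mul_mem (hW.tin m) (hW.tin m)) ?_
    rw [hkd.mem]
    refine ⟨mul_mem (hW.tP m) (hW.tP m), ?_⟩
    rw [hkd.h0 _ (hW.tP m) _ (hW.tP m), hW.t1]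
    decide
  · intro χ hχ hχl hχR hχτ
    refine no_unram_all Nat.prime_two χ hχ hχl fun B hB t ht htP => ?_
    by_cases h : χ₀ t = 0
    · exact hχR t (inertia_mem_RL 2 _ B hB t ht ((hkd.mem t).2 ⟨htP, h⟩))
    · obtain ⟨m, g, hg, hmv⟩ := hW.cover B hB t ht htP h
      have ht' := hmv.inertia' ht
      have htP' : g⁻¹ * t * g ∈ PQ 2 := mul_mem (mul_mem (inv_mem hg) htP) hg
      have hτ' : (τ m)⁻¹ ∈ PQ 2 := inv_mem (hW.tP m)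
      have h1 : g⁻¹ * t * g * (τ m)⁻¹ ∈ RL 2 (cycZp 2 k) := by
        refine inertia_mem_RL 2 _ (Bs m) (hW.bmax m) _ (mul_mem ht' (inv_mem (hW.tin m))) ?_
        rw [hkd.mem]
        refine ⟨mul_mem htP' hτ', ?_⟩
        rw [hkd.h0 _ htP' _ hτ', EM_conj hkd.h0 g t hg htP, EM_inv hkd.h0 _ (hW.tP m), hW.t1,
          two _ h]
        decide
      have h2 := hχR _ h1
      rw [hχ _ htP' _ hτ', EM_conj hχ g t hg htP, EM_inv hχ _ (hW.tP m), hχτ, neg_zero,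
        add_zero] at h2
      exact h2
  · intro U hU g hg
    have h1 : g ^ 2 ∈ (cycZp 2 k).fixingSubgroup := by
      rw [hkd.mem]
      refine ⟨pow_mem hg 2, ?_⟩
      rw [EM_pow hkd.h0 g hg, show ((2 : ℕ) : ZMod 2) = 0 by decide, zero_mul]
    obtain ⟨n, r, hr, hn⟩ := hpro U hU (g ^ 2) h1
    refine ⟨n + 1, r, hr, ?_⟩
    rwa [← pow_mul, ← pow_succ'] at hn

end OzakiFree
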