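import Pool.Agent.Lib.MP_6e8030_nt.W.C6

open IntermediateField
open scoped ComplexConjugate

noncomputable section

namespace OzakiFree

/-! ### D1: the cocycle on inertia groups and complex conjugations -/

private theorem D1_hom_one {Γ : Type*} [Group Γ] {P : Subgroup Γ} {A : Type*} [AddGroup A]
    {χ : Γ → A} (h : HomOn P χ) : χ 1 = 0 := by
  have h1 := h 1 P.one_mem 1 P.one_mem
  rw [mul_one] at h1
  exact left_eq_add.1 h1

private theorem D1_hom_conj {Γ : Type*} [Group Γ] {P : Subgroup Γ} {A : Type*} [AddCommGroup A]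
    {χ : Γ → A} (h : HomOn P χ) {g x : Γ} (hg : g ∈ P) (hx : x ∈ P) : χ (g⁻¹ * x * g) = χ x := by
  have h1 := h g⁻¹ (P.inv_mem hg) g hg
  rw [inv_mul_cancel, D1_hom_one h] at h1
  rw [h _ (P.mul_mem (P.inv_mem hg) hx) g hg, h _ (P.inv_mem hg) x hx]
  have h2 : χ g⁻¹ + χ x + χ g = χ x + (χ g⁻¹ + χ g) := by abel
  rw [h2, ← h1, add_zero]

private theorem D1_sg_zero {n : ℕ} : sg (n := n) 0 = 1 := if_pos rfl

private theorem D1_sum_hom {Γ : Type*} [Group Γ] {P : Subgroup Γ} {χ ψ : Γ → ZMod 2}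
    (h : HomOn P χ) (h' : HomOn P ψ) : HomOn P (fun g => χ g + ψ g) := by
  intro g hg x hx
  show χ (g * x) + ψ (g * x) = _
  rw [h g hg x hx, h' g hg x hx]
  ring

private theorem D1_coc_one {Γ : Type*} [Group Γ] {P : Subgroup Γ} {n : ℕ} {χ : Γ → ZMod 2}
    (h : HomOn P χ) {f : Γ → ZMod n} (hf : CocOn P χ f) : f 1 = 0 := by
  have h1 := hf 1 P.one_mem 1 P.one_mem
  rw [mul_one, D1_hom_one h, D1_sg_zero, one_mul] at h1
  exact left_eq_add.1 h1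

private theorem D1_coc_conj {Γ : Type*} [Group Γ] {P : Subgroup Γ} {n : ℕ} {χ : Γ → ZMod 2}
    (h : HomOn P χ) {f : Γ → ZMod n} (hf : CocOn P χ f) {g x : Γ} (hg : g ∈ P) (hx : x ∈ P)
    (h0 : χ x = 0) (h1 : f x = 0) : f (g * x * g⁻¹) = 0 := by
  rw [hf _ (P.mul_mem hg hx) _ (P.inv_mem hg), hf g hg x hx, h g hg x hx, h0, h1, mul_zero,
    add_zero, add_zero, ← hf g hg _ (P.inv_mem hg), mul_inv_cancel, D1_coc_one h hf]

private theorem D1_zmod2 {a : ZMod 2} (h : a ≠ 0) : a = 1 := by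
  revert h
  revert a
  decide

/-- PROOF. If `χ₀ x = 0` then `x ∈ (cycZp 2 k).fixingSubgroup`, so `x ∈ RL` (`inertia_mem_RL`), `f x = 0`. Otherwise `B = g (Bs m)`, `g ∈ PQ 2` (`cover`), `x' = g⁻¹ x g ∈ I_{Bs m}`, `r = x' (τ m)⁻¹ ∈ I_{Bs m}`, `χ₀ r = 0`, so `r ∈ RL`. `ψ i + ψ j` is 0 at `x`, so at `x'` and at `τ m`, so
`m ≠ i, j` (`pt`; `i ≠ j`), `f x' = f r + f (τ m) = 0`, and `f (g x' g⁻¹) = f g + sg(ψ g) f x' + sg(ψ (g x')) f g⁻¹ = f (g g⁻¹) = 0`. -/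
theorem coc_inertia {k : IntermediateField ℚ Om} {χ₀ : GQ → ZMod 2} {B₂ : Ideal ZO} {φ : GQ}
    {s : ℕ} {Bs : Fin s → Ideal ZO} {τ : Fin s → GQ} {ψ : Fin s → GQ → ZMod 2}
    (hW : WData k χ₀ B₂ φ s Bs τ ψ) {i j : Fin s} (hij : i ≠ j) {t : ℕ} {f : GQ → ZMod (2 ^ t)}
    (hf : FCoc (PQ 2) (RL 2 (cycZp 2 k)) s τ ψ i j t f) (B : Ideal ZO) (hB : B.IsMaximal) (x : GQ)
    (hx : x ∈ B.inertia GQ) (hxP : x ∈ PQ 2) (h0 : ψ i x + ψ j x = 0) : f x = 0 := by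
  have hΨ : HomOn (PQ 2) (fun g => ψ i g + ψ j g) := D1_sum_hom (hW.phom i) (hW.phom j)
  by_cases hx0 : χ₀ x = 0
  · exact hf.triv x (inertia_mem_RL 2 (cycZp 2 k) B hB x hx ((hW.kd.mem x).2 ⟨hxP, hx0⟩))
  · obtain ⟨m, g, hg, hgB⟩ := hW.cover B hB x hx hxP hx0
    have hx' : g⁻¹ * x * g ∈ (Bs m).inertia GQ := hgB.inertia' hx
    have hx'P : g⁻¹ * x * g ∈ PQ 2 :=
      (PQ 2).mul_mem ((PQ 2).mul_mem ((PQ 2).inv_mem hg) hxP) hg
    have hr : g⁻¹ * x * g * (τ m)⁻¹ ∈ (Bs m).inertia GQ :=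
      ((Bs m).inertia GQ).mul_mem hx' (((Bs m).inertia GQ).inv_mem (hW.tin m))
    have hrP : g⁻¹ * x * g * (τ m)⁻¹ ∈ PQ 2 :=
      (PQ 2).mul_mem hx'P ((PQ 2).inv_mem (hW.tP m))
    have hsplit : g⁻¹ * x * g * (τ m)⁻¹ * τ m = g⁻¹ * x * g := inv_mul_cancel_right _ _
    have hr0 : χ₀ (g⁻¹ * x * g * (τ m)⁻¹) = 0 := by
      have h1 := hW.kd.h0 _ hrP _ (hW.tP m)
      rw [hsplit, hW.t1 m, D1_hom_conj hW.kd.h0 hg hxP, D1_zmod2 hx0] at h1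
      exact right_eq_add.1 h1
    have hrR : g⁻¹ * x * g * (τ m)⁻¹ ∈ RL 2 (cycZp 2 k) :=
      inertia_mem_RL 2 (cycZp 2 k) (Bs m) (hW.bmax m) _ hr ((hW.kd.mem _).2 ⟨hrP, hr0⟩)
    have hψ : ∀ l, ψ l x = ψ l (τ m) := by
      intro l
      have h1 := hW.phom l _ hrP _ (hW.tP m)
      rw [hsplit, D1_hom_conj (hW.phom l) hg hxP, hW.pR l _ hrR, zero_add] at h1
      exact h1
    have h2 : ψ i (τ m) + ψ j (τ m) = 0 := by rw [← hψ i, ← hψ j]; exact h0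
    rw [hW.pt i m, hW.pt j m] at h2
    have hmj : m ≠ j := by
      rintro rfl
      rw [if_neg hij, if_pos rfl, zero_add] at h2
      exact one_ne_zero h2
    have hfx' : f (g⁻¹ * x * g) = 0 := by
      rw [← hsplit, hf.coc _ hrP _ (hW.tP m), hf.triv _ hrR, hf.val m, if_neg hmj, mul_zero,
        add_zero]
    have hΨx' : (fun g => ψ i g + ψ j g) (g⁻¹ * x * g) = 0 :=
      (D1_hom_conj hΨ hg hxP).trans h0
    have h3 := D1_coc_conj hΨ hf.coc hg hx'P hΨx' hfx'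
    have h4 : g * (g⁻¹ * x * g) * g⁻¹ = x := by group
    rwa [h4] at h3

/-- PROOF. `f` is the reduction of `f'` modulo `2 ^ t` (`coc_unique`; `ZMod.castHom`). `c * c = 1`, `ψ c = 0`: `2 f' c = 0` in `ZMod (2 ^ (t+1))`, so `f' c` is a multiple of `2 ^ t` and `f c = 0`. (`c ∈ PQ 2`: `ℚ_∞` is real, `TotReal`; here given.) -/
theorem coc_conj {Γ : Type*} [Group Γ] [TopologicalSpace Γ] [IsTopologicalGroup Γ]
    [CompactSpace Γ] {P H R : Subgroup Γ} {χ₀ : Γ → ZMod 2} {s : ℕ} {τ : Fin s → Γ}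
    {ψ : Fin s → Γ → ZMod 2} (hG : GData P H R χ₀ s τ ψ) {i j : Fin s} {t : ℕ}
    {f : Γ → ZMod (2 ^ t)} (hf : FCoc P R s τ ψ i j t f) {f' : Γ → ZMod (2 ^ (t + 1))}
    (hf' : FCoc P R s τ ψ i j (t + 1) f') (c : Γ) (hc : c ∈ P) (hc2 : c * c = 1)
    (h0 : ψ i c + ψ j c = 0) : f c = 0 := by
  have hΨ : HomOn P (fun g => ψ i g + ψ j g) := D1_sum_hom (hG.phom i) (hG.phom j)
  have hΨl : LCOn P (fun g => ψ i g + ψ j g) := by
    obtain ⟨U, hU, h1⟩ := hG.plc i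
    obtain ⟨V, hV, h2⟩ := hG.plc j
    refine ⟨U ⊓ V, hU.inter hV, fun g hg u hu huP => ?_⟩
    show ψ i (g * u) + ψ j (g * u) = ψ i g + ψ j g
    rw [h1 g hg u hu.1 huP, h2 g hg u hu.2 huP]
  have hdvd : 2 ^ t ∣ 2 ^ (t + 1) := pow_dvd_pow 2 (Nat.le_succ t)
  have hsg : ∀ a : ZMod 2, ZMod.castHom hdvd (ZMod (2 ^ t)) (sg a) = sg a := by
    intro a
    unfold sg
    by_cases ha : a = 0
    · rw [if_pos ha, if_pos ha, map_one]
    · rw [if_neg ha, if_neg ha, map_neg, map_one]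
  have key := coc_unique hG (fun g => ψ i g + ψ j g) hΨ hΨl f
    (fun g => ZMod.castHom hdvd (ZMod (2 ^ t)) (f' g)) hf.coc
    (fun x hx y hy => by
      show ZMod.castHom hdvd (ZMod (2 ^ t)) (f' (x * y)) = _
      rw [hf'.coc x hx y hy, map_add, map_mul, hsg]) hf.lc
    (by
      obtain ⟨U, hU, h1⟩ := hf'.lc
      exact ⟨U, hU, fun g hg u hu huP => by
        show ZMod.castHom hdvd (ZMod (2 ^ t)) (f' (g * u)) = _
        rw [h1 g hg u hu huP]⟩) hf.triv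
    (fun x hx => by
      show ZMod.castHom hdvd (ZMod (2 ^ t)) (f' x) = 0
      rw [hf'.triv x hx, map_zero])
    (fun x hx => by
      show ψ i x + ψ j x = 0
      rw [hG.pR i x hx, hG.pR j x hx, add_zero])
    (fun m => by
      show f (τ m) = ZMod.castHom hdvd (ZMod (2 ^ t)) (f' (τ m))
      rw [hf.val m, hf'.val m]
      by_cases hm : m = j
      · rw [if_pos hm, if_pos hm, map_one]
      · rw [if_neg hm, if_neg hm, map_zero]) c hc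
  rw [key]
  have h1 := hf'.coc c hc c hc
  rw [hc2, D1_coc_one hΨ hf'.coc] at h1
  have h2 : (fun g => ψ i g + ψ j g) c = 0 := h0
  rw [h2, D1_sg_zero, one_mul, ← two_mul] at h1
  have hne : NeZero (2 ^ (t + 1)) := ⟨pow_ne_zero _ two_ne_zero⟩
  have h3 : ((2 * (f' c).val : ℕ) : ZMod (2 ^ (t + 1))) = 0 := by
    rw [Nat.cast_mul, ZMod.natCast_zmod_val, Nat.cast_ofNat]
    exact h1.symm
  rw [ZMod.natCast_eq_zero_iff] at h3
  have h5 : 2 * 2 ^ t ∣ 2 * (f' c).val := by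
    have e : 2 * 2 ^ t = 2 ^ (t + 1) := by ring
    rw [e]
    exact h3
  have h4 : 2 ^ t ∣ (f' c).val := Nat.dvd_of_mul_dvd_mul_left two_pos h5
  show ZMod.castHom hdvd (ZMod (2 ^ t)) (f' c) = 0
  rw [← ZMod.natCast_zmod_val (f' c), map_natCast, ZMod.natCast_eq_zero_iff]
  exact h4

end OzakiFree
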