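import Pool.Agent.Lib.MP_6e8030_nt.W.Base2

open IntermediateField
open scoped ComplexConjugate

noncomputable section

namespace OzakiFree

/-! ### D2: extension of homomorphisms (pure topological group theory) -/

private theorem D2_closed {Γ : Type*} [Group Γ] [TopologicalSpace Γ] [IsTopologicalGroup Γ]
    (Q : Subgroup Γ) (hQ : IsClosed (Q : Set Γ)) {M : Type*} (f : Γ → M) (hlc : LCOn Q f) (m : M) :
    IsClosed {x | x ∈ Q ∧ f x = m} := by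
  obtain ⟨U, hU, hf⟩ := hlc
  refine isClosed_of_closure_subset fun y hy => ?_
  have hyQ : y ∈ Q := by
    have h1 : closure {x | x ∈ Q ∧ f x = m} ⊆ (Q : Set Γ) := closure_minimal (fun x hx => hx.1) hQ
    exact h1 hy
  have hUc : Continuous fun z : Γ => y⁻¹ * z := continuous_const.mul continuous_id
  obtain ⟨z, hz1, hz2⟩ := mem_closure_iff.1 hy ((fun z : Γ => y⁻¹ * z) ⁻¹' (U : Set Γ)) (hU.preimage hUc)
    (by
      change y⁻¹ * y ∈ U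
      rw [inv_mul_cancel]
      exact U.one_mem)
  have hz3 : y⁻¹ * z ∈ U := hz1
  have h2 := hf y hyQ (y⁻¹ * z) hz3 (Q.mul_mem (Q.inv_mem hyQ) hz2.1)
  rw [mul_inv_cancel_left] at h2
  exact ⟨hyQ, h2 ▸ hz2.2⟩

/-- PROOF. `χ (ν x) := f x` for `ν ∈ N ⊓ G`, `x ∈ P ⊓ G`. Well defined: `ν x = ν' x'` gives `x' x⁻¹ = ν'⁻¹ ν ∈ N ⊓ P ⊓ G`, so `f x' = f (x' x⁻¹) + f x = f x`. Homomorphism: `ν x ν' x' = (ν ν') ((ν'⁻¹ x ν') x')`. Locally constant: `ker = {g ∈ G | χ g = 0}` is the image of the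
compact set of all `(ν, x)` with `f x = 0` (closed since `f` is locally constant on `P ⊓ G`, `G` is open, so closed) under multiplication, so closed, and of finite index in `G`, so open. -/
theorem extend_N {Γ : Type*} [Group Γ] [TopologicalSpace Γ] [IsTopologicalGroup Γ] [CompactSpace Γ]
    [T2Space Γ] (P N G : Subgroup Γ) (hPn : P.Normal) (hPc : IsClosed (P : Set Γ))
    (hNc : IsClosed (N : Set Γ)) (hGo : IsOpen (G : Set Γ))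
    (hdec : ∀ g ∈ G, ∃ ν ∈ N, ν ∈ G ∧ ν⁻¹ * g ∈ P) {M : Type*} [AddCommGroup M] [Finite M]
    (f : Γ → M) (hf : HomOn (P ⊓ G) f) (hlc : LCOn (P ⊓ G) f)
    (hinv : ∀ ν ∈ N, ν ∈ G → ∀ x ∈ P, x ∈ G → f (ν⁻¹ * x * ν) = f x)
    (h0 : ∀ x ∈ N, x ∈ P → x ∈ G → f x = 0) :
    ∃ χ : Γ → M, HomOn G χ ∧ LCOn G χ ∧ (∀ x ∈ P, x ∈ G → χ x = f x) ∧
      ∀ ν ∈ N, ν ∈ G → χ ν = 0 := by
  choose! ν hN hG hP using hdec
  have hwd : ∀ g ∈ G, ∀ μ ∈ N, μ ∈ G → μ⁻¹ * g ∈ P → f ((ν g)⁻¹ * g) = f (μ⁻¹ * g) := by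
    intro g hg μ hμN hμG hμP
    have e1 : μ⁻¹ * g = (μ⁻¹ * ν g) * ((ν g)⁻¹ * g) := by group
    have h1 : (ν g)⁻¹ * g ∈ P ⊓ G := ⟨hP g hg, G.mul_mem (G.inv_mem (hG g hg)) hg⟩
    have h2 : μ⁻¹ * ν g ∈ P ⊓ G := by
      refine ⟨?_, G.mul_mem (G.inv_mem hμG) (hG g hg)⟩
      have e2 : μ⁻¹ * ν g = (μ⁻¹ * g) * ((ν g)⁻¹ * g)⁻¹ := by group
      rw [e2]
      exact P.mul_mem hμP (P.inv_mem (hP g hg))
    rw [e1, hf _ h2 _ h1, h0 _ (N.mul_mem (N.inv_mem hμN) (hN g hg)) h2.1 h2.2, zero_add]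
  have hhom : HomOn G fun g => f ((ν g)⁻¹ * g) := by
    intro g hg h hh
    have hx : (ν g)⁻¹ * g ∈ P ⊓ G := ⟨hP g hg, G.mul_mem (G.inv_mem (hG g hg)) hg⟩
    have hx' : (ν h)⁻¹ * h ∈ P ⊓ G := ⟨hP h hh, G.mul_mem (G.inv_mem (hG h hh)) hh⟩
    have hc : (ν h)⁻¹ * ((ν g)⁻¹ * g) * ν h ∈ P ⊓ G := by
      refine ⟨?_, G.mul_mem (G.mul_mem (G.inv_mem (hG h hh)) hx.2) (hG h hh)⟩
      have := hPn.conj_mem _ hx.1 (ν h)⁻¹
      rwa [inv_inv] at this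
    have e : (ν g * ν h)⁻¹ * (g * h) = ((ν h)⁻¹ * ((ν g)⁻¹ * g) * ν h) * ((ν h)⁻¹ * h) := by group
    have h1 := hwd (g * h) (G.mul_mem hg hh) (ν g * ν h) (N.mul_mem (hN g hg) (hN h hh))
      (G.mul_mem (hG g hg) (hG h hh)) (by rw [e]; exact P.mul_mem hc.1 hx'.1)
    change f ((ν (g * h))⁻¹ * (g * h)) = f ((ν g)⁻¹ * g) + f ((ν h)⁻¹ * h)
    rw [h1, e, hf _ hc _ hx', hinv _ (hN h hh) (hG h hh) _ hx.1 hx.2]
  have hGc : IsClosed (G : Set Γ) := G.isClosed_of_isOpen hGo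
  have hcl : ∀ m : M, IsClosed {g | g ∈ G ∧ f ((ν g)⁻¹ * g) = m} := by
    intro m
    have hZ : IsClosed {x | x ∈ P ⊓ G ∧ f x = m} := D2_closed (P ⊓ G) (hPc.inter hGc) f hlc m
    have hNG : IsClosed ((N : Set Γ) ∩ (G : Set Γ)) := hNc.inter hGc
    have hcomp : IsCompact (((N : Set Γ) ∩ (G : Set Γ)) ×ˢ {x | x ∈ P ⊓ G ∧ f x = m}) :=
      (hNG.prod hZ).isCompact
    have himg : {g | g ∈ G ∧ f ((ν g)⁻¹ * g) = m} =
        (fun p : Γ × Γ => p.1 * p.2) '' (((N : Set Γ) ∩ (G : Set Γ)) ×ˢ {x | x ∈ P ⊓ G ∧ f x = m}) := by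
      ext g
      constructor
      · rintro ⟨hg, hgm⟩
        exact ⟨(ν g, (ν g)⁻¹ * g), ⟨⟨hN g hg, hG g hg⟩,
          ⟨hP g hg, G.mul_mem (G.inv_mem (hG g hg)) hg⟩, hgm⟩, mul_inv_cancel_left _ _⟩
      · rintro ⟨⟨μ, x⟩, ⟨⟨hμN, hμG⟩, ⟨hxP, hxG⟩, hxm⟩, rfl⟩
        have hμx : μ * x ∈ G := G.mul_mem hμG hxG
        refine ⟨hμx, ?_⟩
        change f ((ν (μ * x))⁻¹ * (μ * x)) = m
        rw [hwd (μ * x) hμx μ hμN hμG (by rw [inv_mul_cancel_left]; exact hxP), inv_mul_cancel_left]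
        exact hxm
    rw [himg]
    exact (hcomp.image (continuous_fst.mul continuous_snd)).isClosed
  have h1 : f 1 = 0 := h0 1 N.one_mem P.one_mem G.one_mem
  have hχ1 : ∀ μ ∈ N, μ ∈ G → f ((ν μ)⁻¹ * μ) = 0 := by
    intro μ hμN hμG
    rw [hwd μ hμG μ hμN hμG (by rw [inv_mul_cancel]; exact P.one_mem), inv_mul_cancel, h1]
  have hone : f ((ν 1)⁻¹ * 1) = 0 := hχ1 1 N.one_mem G.one_mem
  refine ⟨fun g => f ((ν g)⁻¹ * g), hhom, ?_, ?_, hχ1⟩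
  · let K : Subgroup Γ :=
      { carrier := {g | g ∈ G ∧ f ((ν g)⁻¹ * g) = 0}
        mul_mem' := by
          rintro a b ⟨ha, ha0⟩ ⟨hb, hb0⟩
          have h2 : f ((ν (a * b))⁻¹ * (a * b)) = f ((ν a)⁻¹ * a) + f ((ν b)⁻¹ * b) := hhom a ha b hb
          refine ⟨G.mul_mem ha hb, ?_⟩
          rw [h2, ha0, hb0, add_zero]
        one_mem' := ⟨G.one_mem, hone⟩
        inv_mem' := by
          rintro a ⟨ha, ha0⟩
          have h2 : f ((ν (a * a⁻¹))⁻¹ * (a * a⁻¹)) = f ((ν a)⁻¹ * a) + f ((ν a⁻¹)⁻¹ * a⁻¹) :=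
            hhom a ha a⁻¹ (G.inv_mem ha)
          rw [mul_inv_cancel, hone, ha0, zero_add] at h2
          exact ⟨G.inv_mem ha, h2.symm⟩ }
    have hKo : IsOpen (K : Set Γ) := by
      have e : (K : Set Γ) = (G : Set Γ) ∩ (⋃ m ∈ {m : M | m ≠ 0}, {g | g ∈ G ∧ f ((ν g)⁻¹ * g) = m})ᶜ := by
        ext g
        constructor
        · rintro ⟨hg, hg0⟩
          refine ⟨hg, ?_⟩
          intro h
          obtain ⟨m, hm, hgm⟩ := Set.mem_iUnion₂.1 h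
          exact hm (hgm.2.symm.trans hg0)
        · rintro ⟨hg, hg0⟩
          refine ⟨hg, ?_⟩
          by_contra h
          exact hg0 (Set.mem_iUnion₂.2 ⟨_, h, hg, rfl⟩)
      rw [e]
      exact hGo.inter ((Set.toFinite {m : M | m ≠ 0}).isClosed_biUnion fun m _ => hcl m).isOpen_compl
    refine ⟨K, hKo, ?_⟩
    intro g hg u hu huG
    have h2 : f ((ν (g * u))⁻¹ * (g * u)) = f ((ν g)⁻¹ * g) + f ((ν u)⁻¹ * u) := hhom g hg u huG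
    change f ((ν (g * u))⁻¹ * (g * u)) = f ((ν g)⁻¹ * g)
    have hu0 : f ((ν u)⁻¹ * u) = 0 := hu.2
    rw [h2, hu0, add_zero]
  · intro x hxP hxG
    change f ((ν x)⁻¹ * x) = f x
    rw [hwd x hxG 1 N.one_mem G.one_mem (by rw [inv_one, one_mul]; exact hxP), inv_one, one_mul]

end OzakiFree
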