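import Pool.Agent.Lib.MP_6e8030_nt.W.D1

open IntermediateField
open scoped ComplexConjugate

noncomputable section

namespace OzakiFree

/-! ### D3: invariance under inertia at 2 -/

private theorem D3_cases (a : ZMod 2) : a = 0 ∨ a = 1 := by
  revert a
  decide

/-- the sign as a cocycle -/
private theorem D3_e {Γ : Type*} [Group Γ] {P : Subgroup Γ} {n : ℕ} {χ : Γ → ZMod 2}
    (hχ : HomOn P χ) : CocOn P χ (fun x => if χ x = 1 then (1 : ZMod n) else 0) := by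
  intro x hx y hy
  show (if χ (x * y) = 1 then (1 : ZMod n) else 0) =
    (if χ x = 1 then (1 : ZMod n) else 0) + sg (χ x) * (if χ y = 1 then (1 : ZMod n) else 0)
  rw [hχ x hx y hy]
  have h10 : ¬ (1 : ZMod 2) = 0 := by decide
  have h01 : ¬ (0 : ZMod 2) = 1 := by decide
  have h11 : (1 : ZMod 2) + 1 = 0 := by decide
  unfold sg
  rcases D3_cases (χ x) with h1 | h1 <;> rcases D3_cases (χ y) with h2 | h2 <;> rw [h1, h2]
  · simp
  · simp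
  · simp
  · rw [h11, if_neg h01, if_pos rfl, if_neg h10]
    ring

/-- PROOF. `f' x := f (ν⁻¹ x ν)` is again a cocycle for the sign `ψ = ψ i + ψ j` (`hν0`), locally constant, trivial on `RL` (`hνR`). At `τ m`, `m ≠ i, j`: `ν⁻¹ (τ m) ν` is in the inertia group of `ν⁻¹ (Bs m)` (`exists_Mv`, `Mv.inertia'`) with `ψ = 0`, so `f' (τ m) = 0` (`coc_inertia`). `e x = [ψ x = 1]` is a cocycle,
trivial on `RL`, `e (τ i) = e (τ j) = 1`. So with `α = f' (τ i)`, `β = f' (τ j)`: `f' = (β - α) f + α e` (`coc_unique`). On `ψ x = 0`: `f' x = (β - α) f x`. At `φ` (`ψ φ = 1 + 1 = 0` by `hW.odd`): `ν⁻¹ φ ν = φ ι` with `ι = φ⁻¹ ν⁻¹ φ ν ∈ I_{B₂} ⊓ PQ 2` (`φ ∈ DB B₂` normalises the inertia group,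
`PQ_comm`), `ψ ι = 0` (`hW.odd`), so `f ι = 0`, `f' φ = f φ`. `f φ` is a unit (`coc_unit`), so `β - α = 1`. -/
theorem kappa_one {k : IntermediateField ℚ Om} {χ₀ : GQ → ZMod 2} {B₂ : Ideal ZO} {φ : GQ}
    {s : ℕ} {Bs : Fin s → Ideal ZO} {τ : Fin s → GQ} {ψ : Fin s → GQ → ZMod 2}
    (hW : WData k χ₀ B₂ φ s Bs τ ψ)
    (hG : GData (PQ 2) (cycZp 2 k).fixingSubgroup (RL 2 (cycZp 2 k)) χ₀ s τ ψ)
    {i j : Fin s} (hij : i ≠ j) (hi : (2 : ZO) ∉ Bs i) (hj : (2 : ZO) ∉ Bs j) {t : ℕ}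
    {f : GQ → ZMod (2 ^ t)} (hf : FCoc (PQ 2) (RL 2 (cycZp 2 k)) s τ ψ i j t f) (ν : GQ)
    (hν : ν ∈ B₂.inertia GQ)
    (hν0 : ∀ x ∈ PQ 2, ψ i (ν⁻¹ * x * ν) + ψ j (ν⁻¹ * x * ν) = ψ i x + ψ j x)
    (hνR : ∀ r ∈ RL 2 (cycZp 2 k), ν⁻¹ * r * ν ∈ RL 2 (cycZp 2 k)) :
    ∀ x ∈ PQ 2, ψ i x + ψ j x = 0 → f (ν⁻¹ * x * ν) = f x := by
  have hgal : IsGalois ℚ Om := N3_gal
  have hcomp : CompactSpace GQ := inferInstance
  have hn := E10_PQ_normal Nat.prime_two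
  have hPc : ∀ x ∈ PQ 2, ν⁻¹ * x * ν ∈ PQ 2 := by
    intro x hx
    have h1 := hn.conj_mem x hx ν⁻¹
    rwa [inv_inv] at h1
  have hψ : HomOn (PQ 2) (fun g => ψ i g + ψ j g) := by
    intro x hx y hy
    show ψ i (x * y) + ψ j (x * y) = (ψ i x + ψ j x) + (ψ i y + ψ j y)
    rw [hG.phom i x hx y hy, hG.phom j x hx y hy]
    ring
  have hψl : LCOn (PQ 2) (fun g => ψ i g + ψ j g) := by
    obtain ⟨U, hU, hUf⟩ := hG.plc i
    obtain ⟨U', hU', hUf'⟩ := hG.plc j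
    refine ⟨U ⊓ U', hU.inter hU', fun x hx u hu huP => ?_⟩
    show ψ i (x * u) + ψ j (x * u) = ψ i x + ψ j x
    rw [hUf x hx u hu.1 huP, hUf' x hx u hu.2 huP]
  have hψR : ∀ x ∈ RL 2 (cycZp 2 k), ψ i x + ψ j x = 0 := by
    intro x hx
    rw [hG.pR i x hx, hG.pR j x hx, add_zero]
  have h11 : (1 : ZMod 2) + 1 = 0 := by decide
  have hψτ : ∀ m, m ≠ i → m ≠ j → ψ i (τ m) + ψ j (τ m) = 0 := by
    intro m h1 h2
    rw [hG.pt i m, hG.pt j m, if_neg (Ne.symm h1), if_neg (Ne.symm h2), add_zero]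
  have hψi : ψ i (τ i) + ψ j (τ i) = 1 := by
    rw [hG.pt i i, hG.pt j i, if_pos rfl, if_neg (Ne.symm hij), add_zero]
  have hψj : ψ i (τ j) + ψ j (τ j) = 1 := by
    rw [hG.pt i j, hG.pt j j, if_pos rfl, if_neg hij, zero_add]
  -- the three cocycles
  have hf'c : CocOn (PQ 2) (fun g => ψ i g + ψ j g) (fun x => f (ν⁻¹ * x * ν)) := by
    intro x hx y hy
    show f (ν⁻¹ * (x * y) * ν) = f (ν⁻¹ * x * ν) + sg (ψ i x + ψ j x) * f (ν⁻¹ * y * ν)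
    have h1 : ν⁻¹ * (x * y) * ν = (ν⁻¹ * x * ν) * (ν⁻¹ * y * ν) := by group
    rw [h1, hf.coc _ (hPc x hx) _ (hPc y hy)]
    dsimp only
    rw [hν0 x hx]
  have hf'l : LCOn (PQ 2) (fun x => f (ν⁻¹ * x * ν)) := by
    obtain ⟨U, hU, hUf⟩ := hf.lc
    refine ⟨U.comap (MulAut.conj ν⁻¹).toMonoidHom, ?_, fun x hx u hu huP => ?_⟩
    · have hcont : Continuous (fun x : GQ => ν⁻¹ * x * (ν⁻¹)⁻¹) := by fun_prop
      exact hU.preimage hcont
    · show f (ν⁻¹ * (x * u) * ν) = f (ν⁻¹ * x * ν)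
      have h1 : ν⁻¹ * (x * u) * ν = (ν⁻¹ * x * ν) * (ν⁻¹ * u * ν) := by group
      have h2 : ν⁻¹ * u * ν ∈ U := by
        have h3 : ν⁻¹ * u * (ν⁻¹)⁻¹ ∈ U := hu
        rwa [inv_inv] at h3
      rw [h1]
      exact hUf _ (hPc x hx) _ h2 (hPc u huP)
  have hel : LCOn (PQ 2) (fun x => if ψ i x + ψ j x = 1 then (1 : ZMod (2 ^ t)) else 0) := by
    obtain ⟨U, hU, hUf⟩ := hψl
    refine ⟨U, hU, fun x hx u hu huP => ?_⟩
    have h1 : ψ i (x * u) + ψ j (x * u) = ψ i x + ψ j x := hUf x hx u hu huP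
    show (if ψ i (x * u) + ψ j (x * u) = 1 then (1 : ZMod (2 ^ t)) else 0) = _
    rw [h1]
  have hec := D3_e (n := 2 ^ t) hψ
  set α := f (ν⁻¹ * τ i * ν) with hα
  set β := f (ν⁻¹ * τ j * ν) with hβ
  have key : ∀ x ∈ PQ 2, f (ν⁻¹ * x * ν) =
      (β - α) * f x + α * (if ψ i x + ψ j x = 1 then (1 : ZMod (2 ^ t)) else 0) := by
    refine coc_unique hG (fun g => ψ i g + ψ j g) hψ hψl (fun x => f (ν⁻¹ * x * ν))
      (fun x => (β - α) * f x + α * (if ψ i x + ψ j x = 1 then (1 : ZMod (2 ^ t)) else 0))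
      hf'c ?_ hf'l ?_ ?_ ?_ hψR ?_
    · intro x hx y hy
      have h1 := hf.coc x hx y hy
      have h2 := hec x hx y hy
      dsimp only at h1 h2 ⊢
      rw [h1, h2]
      ring
    · obtain ⟨U, hU, hUf⟩ := hf.lc
      obtain ⟨U', hU', hUf'⟩ := hel
      refine ⟨U ⊓ U', hU.inter hU', fun x hx u hu huP => ?_⟩
      have h1 := hUf x hx u hu.1 huP
      have h2 := hUf' x hx u hu.2 huP
      dsimp only at h1 h2 ⊢
      rw [h1, h2]
    · intro x hx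
      exact hf.triv _ (hνR x hx)
    · intro x hx
      show (β - α) * f x + α * (if ψ i x + ψ j x = 1 then (1 : ZMod (2 ^ t)) else 0) = 0
      rw [hf.triv x hx, hψR x hx, if_neg (by decide)]
      ring
    · intro m
      show f (ν⁻¹ * τ m * ν) =
        (β - α) * f (τ m) + α * (if ψ i (τ m) + ψ j (τ m) = 1 then (1 : ZMod (2 ^ t)) else 0)
      by_cases h1 : m = i
      · subst h1
        rw [hψi, if_pos rfl, hf.val m, if_neg hij]
        ring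
      · by_cases h2 : m = j
        · subst h2
          rw [hψj, if_pos rfl, hf.val m, if_pos rfl]
          ring
        · rw [hψτ m h1 h2, if_neg (by decide), hf.val m, if_neg h2]
          obtain ⟨B', hB', hM⟩ := exists_Mv ν (Bs m) (hW.bmax m)
          rw [coc_inertia hW hij hf B' hB' (ν⁻¹ * τ m * ν) (hM.inertia' (hW.tin m))
            (hPc _ (hW.tP m)) (by rw [hν0 _ (hW.tP m), hψτ m h1 h2])]
          ring
  have hφP := hW.p2.memP
  obtain ⟨hφi, hIi⟩ := hW.odd i hi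
  obtain ⟨hφj, hIj⟩ := hW.odd j hj
  have hψφ : ψ i φ + ψ j φ = 0 := by rw [hφi, hφj, h11]
  have hone : β - α = 1 := by
    have h1 := key φ hφP
    rw [hψφ, if_neg (by decide), mul_zero, add_zero] at h1
    have hι1 : φ⁻¹ * ν⁻¹ * φ * ν ∈ B₂.inertia GQ := by
      refine Subgroup.mul_mem _ ?_ hν
      exact Mv.inertia' (mem_DB.1 hW.p2.memD) (Subgroup.inv_mem _ hν)
    have hι2 : φ⁻¹ * ν⁻¹ * φ * ν ∈ PQ 2 := by
      have h2 := PQ_comm Nat.prime_two φ⁻¹ ν⁻¹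
      rwa [inv_inv, inv_inv] at h2
    have hfι : f (φ⁻¹ * ν⁻¹ * φ * ν) = 0 :=
      coc_inertia hW hij hf B₂ hW.p2.max _ hι1 hι2 (by rw [hIi _ hι1 hι2, hIj _ hι1 hι2, add_zero])
    have h2 : ν⁻¹ * φ * ν = φ * (φ⁻¹ * ν⁻¹ * φ * ν) := by group
    rw [h2, hf.coc φ hφP _ hι2, hfι, mul_zero, add_zero] at h1
    have hu := coc_unit hG hij hf φ hφP hφj
    have h3 : 1 * f φ = (β - α) * f φ := by rw [one_mul]; exact h1
    exact (hu.mul_right_cancel h3).symm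
  intro x hx hx0
  rw [key x hx, hone, hx0, if_neg (by decide)]
  ring

end OzakiFree
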