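import Pool.Agent.Lib.MP_6e8030_nt.W.D2
import Pool.Agent.Lib.MP_6e8030_nt.W.L2

open IntermediateField
open scoped ComplexConjugate

noncomputable section

namespace OzakiFree

/-! ### D4: the extension of `ψ` and the stabilizer `S` -/

private theorem D4_isOpen {G : Type*} [Group G] [TopologicalSpace G] [IsTopologicalGroup G]
    (U : Subgroup G) (hU : IsOpen (U : Set G)) (S : Set G) (h : ∀ g ∈ S, ∀ u ∈ U, g * u ∈ S) :
    IsOpen S := by
  rw [isOpen_iff_mem_nhds]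
  intro g hg
  have h1 : IsOpen ((fun x => g⁻¹ * x) ⁻¹' (U : Set G)) := hU.preimage (continuous_const_mul g⁻¹)
  refine Filter.mem_of_superset (h1.mem_nhds (by simp)) fun y hy => ?_
  have := h g hg _ hy
  simpa using this

private theorem D4_isClosed {G : Type*} [Group G] [TopologicalSpace G] [IsTopologicalGroup G]
    (U : Subgroup G) (hU : IsOpen (U : Set G)) (S : Set G) (h : ∀ g ∈ S, ∀ u ∈ U, g * u ∈ S) :
    IsClosed S := by
  rw [← isOpen_compl_iff]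
  refine D4_isOpen U hU _ fun g hg u hu hgu => hg ?_
  have := h _ hgu _ (U.inv_mem hu)
  simpa using this

private theorem D4_DB_closed (B : Ideal (integralClosure ℤ Om)) : IsClosed (DB B : Set GQ) := by
  have h1 : (DB B : Set GQ) = ⋂ x : integralClosure ℤ Om, {σ : GQ | x ∈ B ↔ σ • x ∈ B} := by
    ext σ
    rw [Set.mem_iInter]
    exact Iff.rfl
  rw [h1]
  refine isClosed_iInter fun x => ?_
  refine D4_isClosed _ (stabilizer_isOpen_of_isIntegral (x : Om) :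
    IsOpen (MulAction.stabilizer GQ (x : Om) : Set GQ)) _ fun g hg u hu => ?_
  have h2 : u • x = x := by
    apply Subtype.ext
    rw [integralClosure.coe_smul]
    exact hu
  change x ∈ B ↔ (g * u) • x ∈ B
  rw [mul_smul, h2]
  exact hg

private theorem D4_one {P : Subgroup GQ} {ψ : GQ → ZMod 2} (hψ : HomOn P ψ) : ψ 1 = 0 := by
  have e0 := hψ 1 P.one_mem 1 P.one_mem
  rw [mul_one] at e0
  generalize ψ 1 = a at e0 ⊢
  revert e0; revert a; decide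

private theorem D4_conj {P : Subgroup GQ} {ψ : GQ → ZMod 2} (hψ : HomOn P ψ) {g x : GQ} (hg : g ∈ P)
    (hx : x ∈ P) : ψ (g * x * g⁻¹) = ψ x := by
  have e1 := hψ (g * x) (P.mul_mem hg hx) g⁻¹ (P.inv_mem hg)
  have e2 := hψ g hg x hx
  have e3 := hψ g hg g⁻¹ (P.inv_mem hg)
  rw [mul_inv_cancel, D4_one hψ] at e3
  rw [e1, e2]
  linear_combination -e3

private theorem D4_pow {P : Subgroup GQ} {ψ : GQ → ZMod 2} (hψ : HomOn P ψ) {g : GQ} (hg : g ∈ P)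
    (h0 : ψ g = 0) (n : ℕ) : ψ (g ^ n) = 0 := by
  induction n with
  | zero => rw [pow_zero, D4_one hψ]
  | succ n ih => rw [pow_succ, hψ _ (P.pow_mem hg n) g hg, ih, h0, add_zero]

/-- the stabilizer -/
private def D4_S (ψ : GQ → ZMod 2) : Subgroup GQ where
  carrier := {g | ∀ x ∈ PQ 2, ψ (g * x * g⁻¹) = ψ x}
  one_mem' := fun x _ => by rw [one_mul, inv_one, mul_one]
  mul_mem' := fun {g h} hg hh x hx => by
    have h1 : g * h * x * (g * h)⁻¹ = g * (h * x * h⁻¹) * g⁻¹ := by group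
    rw [h1, hg _ ((E10_PQ_normal Nat.prime_two).conj_mem x hx h), hh x hx]
  inv_mem' := fun {g} hg x hx => by
    have h1 := hg (g⁻¹ * x * g⁻¹⁻¹) ((E10_PQ_normal Nat.prime_two).conj_mem x hx g⁻¹)
    rw [← h1]
    congr 1
    group

/-- PROOF. `S = {g | ∀ x ∈ PQ 2, ψ (g x g⁻¹) = ψ x}` is a subgroup containing `PQ 2`, and open: if `U` is open normal in `GQ` with `ψ (x u) = ψ x` on `PQ 2`, then for `g ∈ U`, `g x g⁻¹ = x (x⁻¹ g x g⁻¹)`, `x⁻¹ g x g⁻¹ ∈ U ⊓ PQ 2`. By `exists_Dl` `S = (Dl m).fixingSubgroup`. `ψ = 0` on `DB B ⊓ PQ 2`: `hP.gen` with `U`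
as in `LCOn`, and `hφ`, `hI`. `extend_N` with `P = PQ 2`, `N = DB B` (closed), `G = S`, `hdec`: `hP.surj` (`ν = g x⁻¹ ∈ S`), `hinv`: for `ν ∈ S`. -/
theorem extend_psi {B : Ideal ZO} {φ : GQ} (hP : Prime2 B φ) (ψ : GQ → ZMod 2)
    (h1 : HomOn (PQ 2) ψ) (h2 : LCOn (PQ 2) ψ) (hφ : ψ φ = 0)
    (hI : ∀ t ∈ B.inertia GQ, t ∈ PQ 2 → ψ t = 0) :
    ∃ (m : ℕ) (ψ' : GQ → ZMod 2), 2 ≤ m ∧
      (∀ g, g ∈ (Dl m).fixingSubgroup ↔ ∀ x ∈ PQ 2, ψ (g * x * g⁻¹) = ψ x) ∧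
      HomOn (Dl m).fixingSubgroup ψ' ∧ LCOn (Dl m).fixingSubgroup ψ' ∧ (∀ x ∈ PQ 2, ψ' x = ψ x) ∧
      ∀ d ∈ DB B, d ∈ (Dl m).fixingSubgroup → ψ' d = 0 := by
  have hPn := E10_PQ_normal Nat.prime_two
  have hPS : PQ 2 ≤ D4_S ψ := fun g hg x hx => D4_conj h1 hg hx
  have hopen : IsOpen (D4_S ψ : Set GQ) := by
    obtain ⟨U, hU, h3⟩ := h2
    have hc : CompactSpace GQ := inferInstance
    have hq : Finite (GQ ⧸ U) := Subgroup.quotient_finite_of_isOpen U hU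
    have hfin : U.FiniteIndex := Subgroup.finiteIndex_of_finite_quotient
    have hVo : IsOpen (U.normalCore : Set GQ) := by
      have h4 : IsClosed (U.normalCore : Set GQ) :=
        Subgroup.normalCore_isClosed U (Subgroup.isClosed_of_isOpen U hU)
      exact Subgroup.isOpen_of_isClosed_of_finiteIndex _ h4
    refine Subgroup.isOpen_mono ?_ hVo
    intro g hg x hx
    have h5 : g * x * g⁻¹ = x * (x⁻¹ * (g * x * g⁻¹)) := by group
    have h6 : x⁻¹ * (g * x * g⁻¹) ∈ U.normalCore := by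
      have h7 : x⁻¹ * (g * x * g⁻¹) = (x⁻¹ * g * x⁻¹⁻¹) * g⁻¹ := by group
      rw [h7]
      exact Subgroup.mul_mem _ ((Subgroup.normalCore_normal U).conj_mem g hg x⁻¹) (Subgroup.inv_mem _ hg)
    rw [h5]
    exact h3 x hx _ (Subgroup.normalCore_le U h6)
      ((PQ 2).mul_mem ((PQ 2).inv_mem hx) (hPn.conj_mem x hx g))
  obtain ⟨m, hm, hSm⟩ := exists_Dl (D4_S ψ) hopen hPS
  have hD : ∀ d ∈ DB B, d ∈ PQ 2 → ψ d = 0 := by
    intro d hd hdP
    obtain ⟨U, hU, h3⟩ := h2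
    obtain ⟨n, ν, hν, hνP, h4⟩ := hP.gen d hd hdP U hU
    have hφn : φ ^ n ∈ PQ 2 := (PQ 2).pow_mem hP.memP n
    have h5 : φ ^ n * ν ∈ PQ 2 := (PQ 2).mul_mem hφn hνP
    have h6 := h3 (φ ^ n * ν) h5 _ h4 ((PQ 2).mul_mem ((PQ 2).inv_mem h5) hdP)
    rw [mul_inv_cancel_left] at h6
    rw [h6, h1 _ hφn _ hνP, D4_pow h1 hP.memP hφ, hI ν hν hνP, add_zero]
  obtain ⟨χ, c1, c2, c3, c4⟩ := extend_N (PQ 2) (DB B) (D4_S ψ) hPn
    (InfiniteGalois.fixingSubgroup_isClosed (cycZp 2 ⊥)) (D4_DB_closed B) hopen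
    (by
      intro g hg
      obtain ⟨ν, hν, hνP⟩ := hP.surj g
      have hνm : ν ∈ D4_S ψ := by
        have h1 : ν = g * (ν⁻¹ * g)⁻¹ := by group
        rw [h1]
        exact Subgroup.mul_mem _ hg (Subgroup.inv_mem _ (hPS hνP))
      exact ⟨ν, inertia_le_DB B hν, hνm, hνP⟩)
    ψ
    (fun x hx y hy => h1 x (Subgroup.mem_inf.1 hx).1 y (Subgroup.mem_inf.1 hy).1)
    (by
      obtain ⟨U, hU, h⟩ := h2
      exact ⟨U, hU, fun g hg u hu huP => h g (Subgroup.mem_inf.1 hg).1 u hu (Subgroup.mem_inf.1 huP).1⟩)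
    (by
      intro ν _ hνS x hx _
      have h3 : ν⁻¹ ∈ D4_S ψ := Subgroup.inv_mem _ hνS
      have h4 := h3 x hx
      rwa [inv_inv] at h4)
    (fun x hx hxP _ => hD x hx hxP)
  refine ⟨m, χ, hm, fun g => ?_, ?_, ?_, fun x hx => c3 x hx (hPS hx), fun d hd hdm => ?_⟩
  · rw [← hSm]
    exact Iff.rfl
  · rw [← hSm]
    exact c1
  · rw [← hSm]
    exact c2
  · rw [← hSm] at hdm
    exact c4 d hd hdm

end OzakiFree
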