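import Pool.Agent.Lib.MP_6e8030_nt.W.D3
import Pool.Agent.Lib.MP_6e8030_nt.W.D2
import Pool.Agent.Lib.MP_6e8030_nt.W.Rp

open IntermediateField
open scoped ComplexConjugate

noncomputable section

namespace OzakiFree

/-! ### D5: the character `χ'` -/

private theorem D5_le (m : ℕ) : PQ 2 ≤ (Dl m).fixingSubgroup := by
  intro t ht
  have h2 := PQ_two t ht
  unfold P2 at h2
  rw [mem_fix_adjoin] at h2
  unfold Dl
  rw [mem_fix_adjoin]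
  rintro y ⟨ζ, hζ, rfl⟩
  exact h2 _ ⟨ζ, ⟨m, hζ⟩, rfl⟩

private theorem D5_isOpen {G : Type*} [Group G] [TopologicalSpace G] [IsTopologicalGroup G]
    (U : Subgroup G) (hU : IsOpen (U : Set G)) (S : Set G) (h : ∀ g ∈ S, ∀ u ∈ U, g * u ∈ S) :
    IsOpen S := by
  rw [isOpen_iff_mem_nhds]
  intro g hg
  have h1 : IsOpen ((fun x => g⁻¹ * x) ⁻¹' (U : Set G)) := hU.preimage (continuous_const_mul g⁻¹)
  refine Filter.mem_of_superset (h1.mem_nhds (by simp)) fun y hy => ?_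
  have := h g hg _ hy
  simpa using this

private theorem D5_isClosed {G : Type*} [Group G] [TopologicalSpace G] [IsTopologicalGroup G]
    (U : Subgroup G) (hU : IsOpen (U : Set G)) (S : Set G) (h : ∀ g ∈ S, ∀ u ∈ U, g * u ∈ S) :
    IsClosed S := by
  rw [← isOpen_compl_iff]
  refine D5_isOpen U hU _ fun g hg u hu hgu => hg ?_
  have := h _ hgu _ (U.inv_mem hu)
  simpa using this

private theorem D5_inertia_closed (B : Ideal (integralClosure ℤ Om)) :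
    IsClosed (B.inertia GQ : Set GQ) := by
  have h1 : (B.inertia GQ : Set GQ) = ⋂ x : integralClosure ℤ Om, {σ : GQ | σ • x - x ∈ B} := by
    ext σ
    rw [Set.mem_iInter]
    exact Iff.rfl
  rw [h1]
  refine isClosed_iInter fun x => ?_
  refine D5_isClosed _ (stabilizer_isOpen_of_isIntegral (x : Om) :
    IsOpen (MulAction.stabilizer GQ (x : Om) : Set GQ)) _ fun g hg u hu => ?_
  have h2 : u • x = x := by
    apply Subtype.ext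
    rw [integralClosure.coe_smul]
    exact hu
  change (g * u) • x - x ∈ B
  rw [mul_smul, h2]
  exact hg

private theorem D5_conj {P : Subgroup GQ} {n : ℕ} {χ : GQ → ZMod n} (h : HomOn P χ) {g t : GQ}
    (hg : g ∈ P) (ht : t ∈ P) : χ (g * t * g⁻¹) = χ t := by
  have h0 : χ 1 = 0 := by
    have := h 1 (one_mem _) 1 (one_mem _)
    rw [mul_one] at this
    exact left_eq_add.1 this
  rw [h _ (P.mul_mem hg ht) _ (P.inv_mem hg), h _ hg _ ht]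
  have h1 : χ g + χ g⁻¹ = 0 := by
    rw [← h _ hg _ (P.inv_mem hg), mul_inv_cancel, h0]
  calc χ g + χ t + χ g⁻¹ = (χ g + χ g⁻¹) + χ t := by ring
    _ = χ t := by rw [h1, zero_add]

/-- PROOF. `G = K.fixingSubgroup`, open. (1) `extend_N` with `P = PQ 2`, `N = I_{B₂}` (closed), `G`, `f`: `f` is a homomorphism on `PQ 2 ⊓ G` (there `ψ i + ψ j = ψ' = 0`, sign 1); `hdec`: `g ∈ G`, `g = ν x` (`hP.surj`), `ν = g x⁻¹ ∈ (Dl m).fixingSubgroup`, in `DB B₂`, so `ψ' ν = 0`, so `ν ∈ G`; `hinv`: `kappa_one`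
(`ν ∈ (Dl m).fixingSubgroup ≤ (k ⊓ ℚ_∞).fixingSubgroup`: hypotheses `hRL`, and `hst`); `h0`: `coc_inertia` (`ψ i + ψ j = 0` on `I_{B₂} ⊓ PQ 2` by `hW.odd`).
(2) ramification: let `g ∈ I_B ⊓ G`, `χ g ≠ 0`. `2 ∈ B`: otherwise `g ∈ PQ 2` (`inertia_mem_PQ`) and `χ g = f g = 0` by `coc_inertia`. So `B = y B₂`, `y ∈ PQ 2` (`conj2`), `g = y ν y⁻¹`, `ν ∈ I_{B₂}`, `ν ∈ (Dl m).fixingSubgroup`, `ψ' ν = 0`, `ν ∈ G`. If `ψ' y = 0` then `y ∈ G` and `χ g = χ ν = 0`, contradiction. So `ψ' y ≠ 0`,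
`y⁻¹ σ ∈ G`... precisely `z = y σ⁻¹ ∈ PQ 2`, `ψ' z = 0`, so `z ∈ G` and `B = z B₁` (`Mv σ B₁ B₂`), so `B ∩ K = B₁ ∩ K` (`comap_F_conj`).
(3) complex conjugations `c ∈ G`: `c ∈ PQ 2` (`hc`), `ψ i c + ψ j c = 0`, `coc_conj`. -/
theorem exists_chi1 {k : IntermediateField ℚ Om} {χ₀ : GQ → ZMod 2} {B₂ : Ideal ZO} {φ : GQ}
    {s : ℕ} {Bs : Fin s → Ideal ZO} {τ : Fin s → GQ} {ψ : Fin s → GQ → ZMod 2}
    (hW : WData k χ₀ B₂ φ s Bs τ ψ)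
    (hG : GData (PQ 2) (cycZp 2 k).fixingSubgroup (RL 2 (cycZp 2 k)) χ₀ s τ ψ)
    (hRL : ∀ g ∈ (k ⊓ cycZp 2 ⊥).fixingSubgroup, ∀ r ∈ RL 2 (cycZp 2 k),
      g * r * g⁻¹ ∈ RL 2 (cycZp 2 k))
    (hc : ∀ (φ' : Om →+* ℂ) (c : GQ), (∀ y, φ' (c y) = conj (φ' y)) → c ∈ PQ 2)
    {i j : Fin s} (hij : i ≠ j) (hi : (2 : ZO) ∉ Bs i) (hj : (2 : ZO) ∉ Bs j)
    (m : ℕ) (hm : (Dl m).fixingSubgroup ≤ (k ⊓ cycZp 2 ⊥).fixingSubgroup) (ψ' : GQ → ZMod 2)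
    (hst : ∀ g ∈ (Dl m).fixingSubgroup, ∀ x ∈ PQ 2,
      ψ i (g * x * g⁻¹) + ψ j (g * x * g⁻¹) = ψ i x + ψ j x)
    (hψ1 : HomOn (Dl m).fixingSubgroup ψ') (hψ3 : ∀ x ∈ PQ 2, ψ' x = ψ i x + ψ j x)
    (hψ4 : ∀ d ∈ DB B₂, d ∈ (Dl m).fixingSubgroup → ψ' d = 0)
    (K : IntermediateField ℚ Om) [FiniteDimensional ℚ K]
    (hK : ∀ g, g ∈ K.fixingSubgroup ↔ g ∈ (Dl m).fixingSubgroup ∧ ψ' g = 0)
    (σ : GQ) (hσ : σ ∈ PQ 2) (hσ1 : ψ' σ ≠ 0) (B₁ : Ideal ZO) (hB₁ : Mv σ B₁ B₂) {t : ℕ}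
    {f : GQ → ZMod (2 ^ t)} (hf : FCoc (PQ 2) (RL 2 (cycZp 2 k)) s τ ψ i j t f)
    {f' : GQ → ZMod (2 ^ (t + 1))}
    (hf' : FCoc (PQ 2) (RL 2 (cycZp 2 k)) s τ ψ i j (t + 1) f') :
    ∃ χ : GQ → ZMod (2 ^ t), HomOn K.fixingSubgroup χ ∧ LCOn K.fixingSubgroup χ ∧
      (∀ x ∈ PQ 2, x ∈ K.fixingSubgroup → χ x = f x) ∧
      (∀ ν ∈ B₂.inertia GQ, ν ∈ K.fixingSubgroup → χ ν = 0) ∧
      (∀ B : Ideal ZO, B.IsMaximal → ∀ g ∈ B.inertia GQ, g ∈ K.fixingSubgroup → χ g ≠ 0 →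
        B.comap (iota K) = B₁.comap (iota K)) ∧
      ∀ (φ' : Om →+* ℂ) (c : GQ), (∀ y, φ' (c y) = conj (φ' y)) → c ∈ K.fixingSubgroup → χ c = 0 := by
  have hPm : PQ 2 ≤ (Dl m).fixingSubgroup := D5_le m
  have hKP : K.fixingSubgroup ≤ (Dl m).fixingSubgroup := fun g hg => ((hK g).1 hg).1
  have hK0 : ∀ x ∈ PQ 2, x ∈ K.fixingSubgroup → ψ i x + ψ j x = 0 := fun x hx hxK => by
    rw [← hψ3 x hx]
    exact ((hK x).1 hxK).2
  -- part 1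
  obtain ⟨χ, c1, c2, c3, c4⟩ := extend_N (PQ 2) (B₂.inertia GQ) K.fixingSubgroup
    (E10_PQ_normal Nat.prime_two) (InfiniteGalois.fixingSubgroup_isClosed (cycZp 2 ⊥))
    (D5_inertia_closed B₂) (IntermediateField.fixingSubgroup_isOpen K)
    (by
      intro g hg
      obtain ⟨ν, hν, hνP⟩ := hW.p2.surj g
      have hνm : ν ∈ (Dl m).fixingSubgroup := by
        have h1 : ν = g * (ν⁻¹ * g)⁻¹ := by group
        rw [h1]
        exact Subgroup.mul_mem _ (hKP hg) (Subgroup.inv_mem _ (hPm hνP))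
      exact ⟨ν, hν, (hK ν).2 ⟨hνm, hψ4 ν (inertia_le_DB B₂ hν) hνm⟩, hνP⟩)
    f
    (by
      intro x hx y hy
      have h1 := hf.coc x (Subgroup.mem_inf.1 hx).1 y (Subgroup.mem_inf.1 hy).1
      have h2 := hK0 x (Subgroup.mem_inf.1 hx).1 (Subgroup.mem_inf.1 hx).2
      rw [h1]
      simp only [h2, sg, if_true, one_mul])
    (by
      obtain ⟨U, hU, h⟩ := hf.lc
      exact ⟨U, hU, fun g hg u hu huP => h g (Subgroup.mem_inf.1 hg).1 u hu (Subgroup.mem_inf.1 huP).1⟩)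
    (by
      intro ν hν hνK x hx hxK
      refine kappa_one hW hG hij hi hj hf ν hν ?_ ?_ x hx (hK0 x hx hxK)
      · intro y hy
        have h1 := hst ν⁻¹ (Subgroup.inv_mem _ (hKP hνK)) y hy
        rwa [inv_inv] at h1
      · intro r hr
        have h1 := hRL ν⁻¹ (Subgroup.inv_mem _ (hm (hKP hνK))) r hr
        rwa [inv_inv] at h1)
    (fun x hx hxP hxK => coc_inertia hW hij hf B₂ hW.p2.max x hx hxP (hK0 x hxP hxK))
  refine ⟨χ, c1, c2, c3, c4, ?_, ?_⟩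
  · -- part 2
    intro B hB g hg hgK hχ
    have h2 : (2 : ZO) ∈ B := by
      by_contra h2
      have hgP : g ∈ PQ 2 := inertia_mem_PQ Nat.prime_two B hB (by simpa using h2) g hg
      apply hχ
      rw [c3 g hgP hgK]
      exact coc_inertia hW hij hf B hB g hg hgP (hK0 g hgP hgK)
    obtain ⟨y, hy, hyM⟩ := conj2 hW.p2 B hB h2
    have hν := hyM.inertia' hg
    have hνm : y⁻¹ * g * y ∈ (Dl m).fixingSubgroup :=
      Subgroup.mul_mem _ (Subgroup.mul_mem _ (Subgroup.inv_mem _ (hPm hy)) (hKP hgK)) (hPm hy)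
    have hνK : y⁻¹ * g * y ∈ K.fixingSubgroup :=
      (hK _).2 ⟨hνm, hψ4 _ (inertia_le_DB B₂ hν) hνm⟩
    have hψy : ψ' y ≠ 0 := by
      intro h0
      have hyK : y ∈ K.fixingSubgroup := (hK y).2 ⟨hPm hy, h0⟩
      apply hχ
      have h3 : g = y * (y⁻¹ * g * y) * y⁻¹ := by group
      rw [h3, D5_conj c1 hyK hνK]
      exact c4 _ hν hνK
    have hsq : ψ' (y * σ⁻¹) = 0 := by
      have e1 := hψ1 (y * σ⁻¹) (Subgroup.mul_mem _ (hPm hy) (Subgroup.inv_mem _ (hPm hσ))) σ (hPm hσ)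
      rw [inv_mul_cancel_right] at e1
      have e2 : ∀ a b c : ZMod 2, a ≠ 0 → b ≠ 0 → a = c + b → c = 0 := by decide
      exact e2 _ _ _ hψy hσ1 e1
    have hz : y * σ⁻¹ ∈ K.fixingSubgroup :=
      (hK _).2 ⟨Subgroup.mul_mem _ (hPm hy) (Subgroup.inv_mem _ (hPm hσ)), hsq⟩
    exact (comap_F_conj _ hz B B₁ (hyM.mul hB₁.inv)).symm
  · -- part 3
    intro φ' c hφ' hcK
    have hcP := hc φ' c hφ'
    have hcc : c * c = 1 := by
      ext x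
      apply φ'.injective
      show φ' (c (c x)) = φ' x
      rw [hφ', hφ', Complex.conj_conj]
    rw [c3 c hcP hcK]
    exact coc_conj hG hf hf' c hcP hcc (hK0 c hcP hcK)

end OzakiFree
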