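import Pool.Agent.Lib.MP_6e8030_nt.W.D5

open IntermediateField
open scoped ComplexConjugate

noncomputable section

namespace OzakiFree

/-! ### D6: the pair `χ'`, `χ''` -/

private theorem D6_adj (S : Set Om) (σ : GQ) :
    σ ∈ (adjoin ℚ S).fixingSubgroup ↔ ∀ x ∈ S, σ x = x := by
  constructor
  · intro h x hx
    exact (IntermediateField.mem_fixingSubgroup_iff _ _).1 h x (subset_adjoin ℚ S hx)
  · intro h
    have h1 : adjoin ℚ S ≤ IntermediateField.fixedField (Subgroup.zpowers σ) := by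
      rw [adjoin_le_iff]
      intro x hx
      refine (IntermediateField.mem_fixedField_iff _ _).2 fun τ hτ => ?_
      have h2 : Subgroup.zpowers σ ≤ MulAction.stabilizer GQ x := by
        rw [Subgroup.zpowers_le]
        exact h x hx
      exact h2 hτ
    rw [IntermediateField.le_iff_le] at h1
    exact h1 (Subgroup.mem_zpowers σ)

private theorem D6_PD (m : ℕ) : PQ 2 ≤ (Dl m).fixingSubgroup := by
  intro t ht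
  have h2 := PQ_two t ht
  unfold P2 at h2
  rw [D6_adj] at h2
  unfold Dl
  rw [D6_adj]
  rintro y ⟨ζ, hζ, rfl⟩
  exact h2 _ ⟨ζ, ⟨m, hζ⟩, rfl⟩

private theorem D6_neg {P : Subgroup GQ} {n : ℕ} {ψ : GQ → ZMod 2} {f : GQ → ZMod n} (h : CocOn P ψ f)
    (hψ : HomOn P ψ) (h1 : f 1 = 0) {σ : GQ} (hσ : σ ∈ P) (hσ1 : ψ σ ≠ 0) {x : GQ} (hx : x ∈ P)
    (hx0 : ψ x = 0) : f (σ⁻¹ * x * σ) = -f x := by
  have hσ' : σ⁻¹ ∈ P := P.inv_mem hσ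
  have hinv : ψ σ⁻¹ = ψ σ := by
    have e1 := hψ σ⁻¹ hσ' σ hσ
    have e2 := hψ 1 P.one_mem 1 P.one_mem
    rw [mul_one] at e2
    have e3 : ψ 1 = 0 := by
      generalize ψ 1 = a at e2
      revert e2; revert a; decide
    rw [inv_mul_cancel, e3] at e1
    generalize ψ σ⁻¹ = a at e1 ⊢
    generalize ψ σ = b at e1 ⊢
    revert e1; revert a b; decide
  have hs1 : (sg (ψ σ⁻¹) : ZMod n) = -1 := by
    rw [hinv]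
    unfold sg
    rw [if_neg hσ1]
  have hs0 : (sg (ψ x) : ZMod n) = 1 := by
    unfold sg
    rw [if_pos hx0]
  have e1 := h σ⁻¹ hσ' (x * σ) (P.mul_mem hx hσ)
  have e2 := h x hx σ hσ
  have e3 := h σ⁻¹ hσ' σ hσ
  rw [inv_mul_cancel, h1, hs1] at e3
  rw [hs1] at e1
  rw [hs0] at e2
  rw [mul_assoc, e1, e2]
  linear_combination (-1 : ZMod n) * e3

private theorem D6_add {P : Subgroup GQ} {ψ : GQ → ZMod 2} (hψ : HomOn P ψ) {σ x : GQ} (hσ : σ ∈ P)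
    (hx : x ∈ P) (hx0 : ψ x = 0) : ψ (σ * x * σ) = 0 ∧ ψ (σ⁻¹ * x * σ) = 0 := by
  have e0 := hψ 1 P.one_mem 1 P.one_mem
  rw [mul_one] at e0
  have e1 := hψ (σ * x) (P.mul_mem hσ hx) σ hσ
  have e2 := hψ σ hσ x hx
  have e3 := hψ (σ⁻¹ * x) (P.mul_mem (P.inv_mem hσ) hx) σ hσ
  have e4 := hψ σ⁻¹ (P.inv_mem hσ) x hx
  have e5 := hψ σ⁻¹ (P.inv_mem hσ) σ hσ
  rw [inv_mul_cancel] at e5
  rw [e1, e2, e3, e4, hx0]
  generalize ψ 1 = a at e0 e5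
  generalize ψ σ = b at e5 ⊢
  generalize ψ σ⁻¹ = c at e5 ⊢
  revert e5; revert e0; revert a b c; decide

private theorem D6_lc {G : Subgroup GQ} {M : Type*} {χ : GQ → M} (h : LCOn G χ) (σ : GQ)
    (hσ : ∀ g ∈ G, σ⁻¹ * g * σ ∈ G) : LCOn G fun g => χ (σ⁻¹ * g * σ) := by
  obtain ⟨U, hU, h2⟩ := h
  refine ⟨U.comap (MulAut.conj σ⁻¹).toMonoidHom, ?_, fun g hg u hu huG => ?_⟩
  · have hc : Continuous fun g : GQ => σ⁻¹ * g * σ := by fun_prop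
    have h3 := hU.preimage hc
    have h4 : ((U.comap (MulAut.conj σ⁻¹).toMonoidHom : Subgroup GQ) : Set GQ) =
        (fun g : GQ => σ⁻¹ * g * σ) ⁻¹' (U : Set GQ) := by
      ext g
      simp
    rw [h4]
    exact h3
  · have h3 : σ⁻¹ * u * σ ∈ U := by
      have := Subgroup.mem_comap.1 hu
      simpa [MulAut.conj_apply] using this
    have h4 : σ⁻¹ * (g * u) * σ = (σ⁻¹ * g * σ) * (σ⁻¹ * u * σ) := by group
    show χ (σ⁻¹ * (g * u) * σ) = χ (σ⁻¹ * g * σ)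
    rw [h4]
    exact h2 _ (hσ g hg) _ h3 (hσ u huG)

/-- PROOF. `χ` from `exists_chi1`; `u = f φ` is a unit (`coc_unit`, `ψ j φ = 1`), `φ ∈ PQ 2`, `ψ' φ = ψ i φ + ψ j φ = 0`, so `φ ∈ K.fixingSubgroup`. `χ₁ g = u⁻¹ χ g`, `χ₂ g = χ₁ (σ⁻¹ g σ)` (`σ` normalises `K.fixingSubgroup`, the kernel of `ψ'` on `(Dl m).fixingSubgroup ∋ σ`). For `x ∈ PQ 2 ⊓ K.fixingSubgroup`:
`f (σ⁻¹ x σ) = - f x`: from `CocOn` (`ψ σ = 1`, `ψ x = 0`): `f (σ⁻¹ x σ) = f σ⁻¹ - f (x σ) = f σ⁻¹ - f x - f σ` and `0 = f (σ⁻¹ σ) = f σ⁻¹ - f σ`. `ram2`: `χ₂ g ≠ 0`, `g ∈ I_B`: `σ⁻¹ g σ ∈ I_{B'}`, `B = σ B'` (`exists_Mv`), `B' ∩ K = B₁ ∩ K`, `B₁ = σ B₂`, so `B' = h B₁` with `h ∈ K.fixingSubgroup` (`trans_F`) and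
`B = σ h σ B₂`, `σ h σ ∈ K.fixingSubgroup` (`σ h σ = (σ h σ⁻¹) σ²`, `ψ' (σ²) = 0`), `comap_F_conj`. Complex conjugations: `σ⁻¹ c σ` is a complex conjugation. -/
theorem exists_pair {k : IntermediateField ℚ Om} {χ₀ : GQ → ZMod 2} {B₂ : Ideal ZO} {φ : GQ}
    {s : ℕ} {Bs : Fin s → Ideal ZO} {τ : Fin s → GQ} {ψ : Fin s → GQ → ZMod 2}
    (hW : WData k χ₀ B₂ φ s Bs τ ψ)
    (hG : GData (PQ 2) (cycZp 2 k).fixingSubgroup (RL 2 (cycZp 2 k)) χ₀ s τ ψ)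
    (hRL : ∀ g ∈ (k ⊓ cycZp 2 ⊥).fixingSubgroup, ∀ r ∈ RL 2 (cycZp 2 k),
      g * r * g⁻¹ ∈ RL 2 (cycZp 2 k))
    (hc : ∀ (φ' : Om →+* ℂ) (c : GQ), (∀ y, φ' (c y) = conj (φ' y)) → c ∈ PQ 2)
    {i j : Fin s} (hij : i ≠ j) (hi : (2 : ZO) ∉ Bs i) (hj : (2 : ZO) ∉ Bs j)
    (m : ℕ) (hm : (Dl m).fixingSubgroup ≤ (k ⊓ cycZp 2 ⊥).fixingSubgroup) (ψ' : GQ → ZMod 2)
    (hst : ∀ g ∈ (Dl m).fixingSubgroup, ∀ x ∈ PQ 2,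
      ψ i (g * x * g⁻¹) + ψ j (g * x * g⁻¹) = ψ i x + ψ j x)
    (hψ1 : HomOn (Dl m).fixingSubgroup ψ') (hψ3 : ∀ x ∈ PQ 2, ψ' x = ψ i x + ψ j x)
    (hψ4 : ∀ d ∈ DB B₂, d ∈ (Dl m).fixingSubgroup → ψ' d = 0)
    (K : IntermediateField ℚ Om) [FiniteDimensional ℚ K]
    (hK : ∀ g, g ∈ K.fixingSubgroup ↔ g ∈ (Dl m).fixingSubgroup ∧ ψ' g = 0)
    (σ : GQ) (hσ : σ ∈ PQ 2) (hσ1 : ψ' σ ≠ 0) (B₁ : Ideal ZO) (hB₁ : Mv σ B₁ B₂) {t : ℕ}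
    {f : GQ → ZMod (2 ^ t)} (hf : FCoc (PQ 2) (RL 2 (cycZp 2 k)) s τ ψ i j t f)
    {f' : GQ → ZMod (2 ^ (t + 1))}
    (hf' : FCoc (PQ 2) (RL 2 (cycZp 2 k)) s τ ψ i j (t + 1) f') :
    ∃ χ₁ χ₂ : GQ → ZMod (2 ^ t), PairData B₂ B₁ φ K t χ₁ χ₂ := by
  obtain ⟨χ, c1, c2, c3, c4, c5, c6⟩ := exists_chi1 hW hG hRL hc hij hi hj m hm ψ' hst hψ1 hψ3 hψ4 K hK σ hσ
    hσ1 B₁ hB₁ hf hf'
  have hPD : PQ 2 ≤ (Dl m).fixingSubgroup := D6_PD m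
  have hφP : φ ∈ PQ 2 := hW.p2.memP
  have hφK : φ ∈ K.fixingSubgroup := by
    rw [hK]
    refine ⟨hPD hφP, ?_⟩
    rw [hψ3 φ hφP, (hW.odd i hi).1, (hW.odd j hj).1]
    decide
  have hu : IsUnit (f φ) := coc_unit hG hij hf φ hφP (hW.odd j hj).1
  have hσD : σ ∈ (Dl m).fixingSubgroup := hPD hσ
  have hcK : ∀ g ∈ K.fixingSubgroup, σ⁻¹ * g * σ ∈ K.fixingSubgroup := by
    intro g hg
    rw [hK] at hg ⊢
    exact ⟨Subgroup.mul_mem _ (Subgroup.mul_mem _ (Subgroup.inv_mem _ hσD) hg.1) hσD,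
      (D6_add hψ1 hσD hg.1 hg.2).2⟩
  have hcP : ∀ g ∈ PQ 2, σ⁻¹ * g * σ ∈ PQ 2 := fun g hg =>
    Subgroup.mul_mem _ (Subgroup.mul_mem _ (Subgroup.inv_mem _ hσ) hg) hσ
  have hψP : HomOn (PQ 2) fun g => ψ i g + ψ j g := by
    intro x hx y hy
    show ψ i (x * y) + ψ j (x * y) = ψ i x + ψ j x + (ψ i y + ψ j y)
    rw [hW.phom i x hx y hy, hW.phom j x hx y hy]
    ring
  have hneg : ∀ x ∈ PQ 2, x ∈ K.fixingSubgroup → χ (σ⁻¹ * x * σ) = -χ x := by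
    intro x hx hxK
    rw [c3 x hx hxK, c3 _ (hcP x hx) (hcK x hxK)]
    refine D6_neg hf.coc hψP (hf.triv 1 (Subgroup.one_mem _)) hσ ?_ hx ?_
    · show ψ i σ + ψ j σ ≠ 0
      rwa [← hψ3 σ hσ]
    · show ψ i x + ψ j x = 0
      rw [← hψ3 x hx]
      exact ((hK x).1 hxK).2
  have hB₁m : B₁.IsMaximal := by
    obtain ⟨B'', hB'', h2⟩ := exists_Mv σ⁻¹ B₂ hW.p2.max
    have h3 := hB₁.mul h2
    rw [mul_inv_cancel] at h3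
    rw [h3.eq]
    exact hB''
  refine ⟨fun g => (f φ)⁻¹ * χ g, fun g => (f φ)⁻¹ * χ (σ⁻¹ * g * σ), ?_⟩
  refine
    { h1 := ?_, l1 := ?_, h2 := ?_, l2 := ?_, phi1 := ?_, phi2 := ?_, nu1 := ?_, sum := ?_, ram1 := ?_
      ram2 := ?_, conj1 := ?_, conj2 := ?_ }
  · intro g hg h hh
    show (f φ)⁻¹ * χ (g * h) = (f φ)⁻¹ * χ g + (f φ)⁻¹ * χ h
    rw [c1 g hg h hh, mul_add]
  · obtain ⟨U, hU, h2⟩ := c2
    refine ⟨U, hU, fun g hg u hu huG => ?_⟩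
    show (f φ)⁻¹ * χ (g * u) = (f φ)⁻¹ * χ g
    rw [h2 g hg u hu huG]
  · intro g hg h hh
    show (f φ)⁻¹ * χ (σ⁻¹ * (g * h) * σ) = (f φ)⁻¹ * χ (σ⁻¹ * g * σ) + (f φ)⁻¹ * χ (σ⁻¹ * h * σ)
    have h4 : σ⁻¹ * (g * h) * σ = (σ⁻¹ * g * σ) * (σ⁻¹ * h * σ) := by group
    rw [h4, c1 _ (hcK g hg) _ (hcK h hh), mul_add]
  · obtain ⟨U, hU, h2⟩ := D6_lc c2 σ hcK
    refine ⟨U, hU, fun g hg u hu huG => ?_⟩
    exact congrArg (fun z => (f φ)⁻¹ * z) (h2 g hg u hu huG)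
  · show (f φ)⁻¹ * χ φ = 1
    rw [c3 φ hφP hφK]
    exact ZMod.inv_mul_of_unit _ hu
  · show (f φ)⁻¹ * χ (σ⁻¹ * φ * σ) = -1
    rw [hneg φ hφP hφK, c3 φ hφP hφK, mul_neg, ZMod.inv_mul_of_unit _ hu]
  · intro ν hν hνK
    show (f φ)⁻¹ * χ ν = 0
    rw [c4 ν hν hνK, mul_zero]
  · intro x hx hxK
    show (f φ)⁻¹ * χ x + (f φ)⁻¹ * χ (σ⁻¹ * x * σ) = 0
    rw [hneg x hx hxK]
    ring
  · intro B hB g hg hgK h0
    refine c5 B hB g hg hgK fun h => h0 ?_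
    show (f φ)⁻¹ * χ g = 0
    rw [h, mul_zero]
  · intro B hB g hg hgK h0
    obtain ⟨B', hB', h1⟩ := exists_Mv σ B hB
    have h2 : B'.comap (iota K) = B₁.comap (iota K) := by
      refine c5 B' hB' _ (h1.inertia' hg) (hcK g hgK) fun h => h0 ?_
      show (f φ)⁻¹ * χ (σ⁻¹ * g * σ) = 0
      rw [h, mul_zero]
    obtain ⟨h, hhK, hh⟩ := trans_F K B' B₁ hB' hB₁m h2
    have h3 : Mv (σ * h * σ) B B₂ := (h1.mul (show Mv h B' B₁ from hh)).mul hB₁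
    have h4 : σ * h * σ ∈ K.fixingSubgroup := by
      rw [hK] at hhK ⊢
      exact ⟨Subgroup.mul_mem _ (Subgroup.mul_mem _ hσD hhK.1) hσD, (D6_add hψ1 hσD hhK.1 hhK.2).1⟩
    exact (comap_F_conj (σ * h * σ) h4 B B₂ h3).symm
  · intro φ' c hcc hcK'
    show (f φ)⁻¹ * χ c = 0
    rw [c6 φ' c hcc hcK', mul_zero]
  · intro φ' c hcc hcK'
    show (f φ)⁻¹ * χ (σ⁻¹ * c * σ) = 0
    rw [c6 (φ'.comp (σ : Om →+* Om)) (σ⁻¹ * c * σ) ?_ (hcK c hcK'), mul_zero]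
    intro y
    show φ' (σ (σ⁻¹ (c (σ y)))) = conj (φ' (σ y))
    rw [← hcc (σ y)]
    congr 1
    exact σ.apply_symm_apply (c (σ y))

end OzakiFree
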