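import Pool.Agent.Lib.MP_6e8030_nt.W.Base2

open IntermediateField
open scoped ComplexConjugate

noncomputable section

namespace OzakiFree

/-! ### E0: the field of a character with values in `ℤ/n` -/

/-- an automorphism over `K` as an element of `GQ` -/
private def E0_res (K : IntermediateField ℚ Om) : (Om ≃ₐ[K] Om) →* GQ :=
  AlgEquiv.restrictScalarsHom ℚ

private theorem E0_fix (K : IntermediateField ℚ Om) (t : GQ) :
    t ∈ K.fixingSubgroup ↔ ∀ x ∈ K, t x = x :=
  IntermediateField.mem_fixingSubgroup_iff K t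

private theorem E0_res_mem (K : IntermediateField ℚ Om) (t : Om ≃ₐ[K] Om) :
    E0_res K t ∈ K.fixingSubgroup := by
  rw [E0_fix]
  intro x hx
  exact t.commutes ⟨x, hx⟩

private theorem E0_res_surj (K : IntermediateField ℚ Om) (t : GQ) (ht : t ∈ K.fixingSubgroup) :
    ∃ t' : Om ≃ₐ[K] Om, E0_res K t' = t := by
  rw [E0_fix] at ht
  refine ⟨AlgEquiv.ofRingEquiv (f := (t : Om ≃+* Om)) fun x => ht x.1 x.2, ?_⟩
  ext x
  rfl

/-- a neighbourhood of `1` in `GQ` contains the image of one in `Gal(Om/K)` -/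
private theorem E0_nhds (K : IntermediateField ℚ Om) (V : Subgroup GQ)
    (hV : IsOpen (V : Set GQ)) :
    ∃ F1 : IntermediateField K Om, FiniteDimensional K F1 ∧
      ∀ t ∈ F1.fixingSubgroup, E0_res K t ∈ V := by
  obtain ⟨F0, hF0, hsub⟩ := (krullTopology_mem_nhds_one_iff ℚ Om (V : Set GQ)).1
    (hV.mem_nhds V.one_mem)
  have hess : Algebra.EssFiniteType ℚ F0 := inferInstance
  obtain ⟨S, hS⟩ := IntermediateField.essFiniteType_iff.1 hess
  refine ⟨adjoin K (S : Set Om), ?_, ?_⟩
  · exact finiteDimensional_adjoin fun x _ =>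
      ((Algebra.IsAlgebraic.isAlgebraic (R := ℚ) x).isIntegral).tower_top
  · intro t ht
    refine hsub ?_
    have h1 : F0 ≤ (adjoin K (S : Set Om)).restrictScalars ℚ := by
      rw [← hS, adjoin_le_iff]
      exact subset_adjoin K (S : Set Om)
    refine (E0_fix F0 _).2 fun x hx => ?_
    exact (IntermediateField.mem_fixingSubgroup_iff _ t).1 ht x (h1 hx)

/-- PROOF. As `field_of_char` (U14): `M` = fixed field of the open subgroup `V = {g ∈ K.fixingSubgroup | χ g = 0}`, normal in `K.fixingSubgroup`. If `χ g₀` is a unit then `χ` is surjective and the index of `V` is `n`. -/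
theorem field_of_chi {n : ℕ} [NeZero n] (K : IntermediateField ℚ Om) [FiniteDimensional ℚ K]
    (χ : GQ → ZMod n) (h1 : HomOn K.fixingSubgroup χ) (h2 : LCOn K.fixingSubgroup χ) :
    ∃ (M : IntermediateField ℚ Om) (_ : FiniteDimensional ℚ M), K ≤ M ∧
      (∀ g ∈ K.fixingSubgroup, ∀ x ∈ M, g x ∈ M) ∧
      (∀ g, g ∈ M.fixingSubgroup ↔ g ∈ K.fixingSubgroup ∧ χ g = 0) ∧
      ∀ g₀ ∈ K.fixingSubgroup, IsUnit (χ g₀) → relfinrank K M = n := by
  have hone : χ 1 = 0 := by
    have := h1 1 (one_mem _) 1 (one_mem _)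
    rw [mul_one] at this
    exact left_eq_add.1 this
  have hχ : ∀ a b : Om ≃ₐ[K] Om, χ (E0_res K (a * b)) = χ (E0_res K a) + χ (E0_res K b) := by
    intro a b
    rw [map_mul]
    exact h1 _ (E0_res_mem K a) _ (E0_res_mem K b)
  let f : (Om ≃ₐ[K] Om) →* Multiplicative (ZMod n) :=
    { toFun := fun t => Multiplicative.ofAdd (χ (E0_res K t))
      map_one' := by rw [map_one, hone]; rfl
      map_mul' := fun a b => by rw [hχ, ofAdd_add] }
  have hf : ∀ t, f t = 1 ↔ χ (E0_res K t) = 0 := fun t => Iff.rfl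
  have hopen : IsOpen (f.ker : Set (Om ≃ₐ[K] Om)) := by
    obtain ⟨V, hV, hV2⟩ := h2
    obtain ⟨F1, hF1, hF1V⟩ := E0_nhds K V hV
    refine Subgroup.isOpen_mono (H₁ := F1.fixingSubgroup) ?_
      (IntermediateField.fixingSubgroup_isOpen F1)
    intro t ht
    have h5 := hV2 1 (one_mem _) _ (hF1V t ht) (E0_res_mem K t)
    rw [one_mul, hone] at h5
    exact (hf t).2 h5
  have hclosed : IsClosed (f.ker : Set (Om ≃ₐ[K] Om)) := Subgroup.isClosed_of_isOpen _ hopen
  have : IsGalois K Om := inferInstance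
  set E0 : IntermediateField K Om := fixedField f.ker with hE0
  have hfix : E0.fixingSubgroup = f.ker :=
    InfiniteGalois.fixingSubgroup_fixedField (⟨f.ker, hclosed⟩ : ClosedSubgroup (Om ≃ₐ[K] Om))
  have hfd : FiniteDimensional K E0 := by
    rw [← InfiniteGalois.isOpen_iff_finite, hfix]
    exact hopen
  have hcard : ∀ g₀ ∈ K.fixingSubgroup, IsUnit (χ g₀) → Module.finrank K E0 = n := by
    intro g₀ hg₀ hu
    have : (⟨f.ker, hclosed⟩ : ClosedSubgroup (Om ≃ₐ[K] Om)).Normal := f.normal_ker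
    have hgal : IsGalois K E0 := by
      rw [← InfiniteGalois.normal_iff_isGalois, hfix]
      exact f.normal_ker
    have h5 := InfiniteGalois.normalAutEquivQuotient
      (⟨f.ker, hclosed⟩ : ClosedSubgroup (Om ≃ₐ[K] Om))
    have h6 : Nat.card (E0 ≃ₐ[K] E0) = Module.finrank K E0 := IsGalois.card_aut_eq_finrank K E0
    have h7 : Nat.card ((Om ≃ₐ[K] Om) ⧸ f.ker) = Nat.card (E0 ≃ₐ[K] E0) := Nat.card_congr h5.toEquiv
    have h8 : Nat.card ((Om ≃ₐ[K] Om) ⧸ f.ker) = Nat.card f.range :=
      Nat.card_congr (QuotientGroup.quotientKerEquivRange f).toEquiv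
    have hsurj : Function.Surjective f := by
      obtain ⟨t', ht'⟩ := E0_res_surj K g₀ hg₀
      obtain ⟨c, hc⟩ := hu.exists_left_inv
      intro y
      refine ⟨t' ^ ((Multiplicative.toAdd y) * c).val, ?_⟩
      rw [map_pow]
      have h10 : f t' = Multiplicative.ofAdd (χ g₀) := by rw [← ht']; rfl
      rw [h10, ← ofAdd_nsmul, nsmul_eq_mul, ZMod.natCast_val, ZMod.cast_id', id, mul_assoc, hc,
        mul_one, ofAdd_toAdd]
    have h9 : Nat.card f.range = n := by
      rw [MonoidHom.range_eq_top.2 hsurj, Subgroup.card_top,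
        Nat.card_congr (Multiplicative.toAdd (α := ZMod n)), Nat.card_zmod]
    rw [← h6, ← h7, h8, h9]
  have hDE : K ≤ E0.restrictScalars ℚ := fun y hy => E0.algebraMap_mem ⟨y, hy⟩
  have hker : ∀ t : GQ, t ∈ K.fixingSubgroup → χ t = 0 →
      t ∈ (E0.restrictScalars ℚ).fixingSubgroup := by
    intro t ht h0
    rw [E0_fix]
    intro x hx
    obtain ⟨t', rfl⟩ := E0_res_surj K t ht
    exact (IntermediateField.mem_fixedField_iff _ x).1 hx t' ((hf t').2 h0)
  have hfin : FiniteDimensional ℚ (E0.restrictScalars ℚ) := by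
    have h4 : FiniteDimensional ℚ E0 := Module.Finite.trans K E0
    exact h4
  refine ⟨E0.restrictScalars ℚ, hfin, hDE, ?_, ?_, ?_⟩
  · intro t ht x hx
    obtain ⟨t', rfl⟩ := E0_res_surj K t ht
    refine (IntermediateField.mem_fixedField_iff _ (t' x)).2 fun s hs => ?_
    have h5 : t'⁻¹ * s * t' ∈ f.ker := by
      have := f.normal_ker.conj_mem s hs t'⁻¹
      rwa [inv_inv] at this
    have h6 := (IntermediateField.mem_fixedField_iff _ x).1 hx _ h5
    have h7 := congrArg t' h6
    have h8 : t' ((t'⁻¹ * s * t') x) = s (t' x) := by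
      show t' (t'⁻¹ (s (t' x))) = s (t' x)
      exact t'.apply_symm_apply _
    rwa [h8] at h7
  · intro g
    constructor
    · intro hg
      have hgD : g ∈ K.fixingSubgroup := by
        rw [E0_fix] at hg ⊢
        exact fun x hx => hg x (hDE hx)
      refine ⟨hgD, ?_⟩
      obtain ⟨g', rfl⟩ := E0_res_surj K g hgD
      have h6 : g' ∈ E0.fixingSubgroup := by
        refine (IntermediateField.mem_fixingSubgroup_iff _ g').2 fun x hx => ?_
        exact (E0_fix _ _).1 hg x hx
      rw [hfix] at h6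
      exact (hf g').1 h6
    · rintro ⟨hg, h0⟩
      exact hker g hg h0
  · intro g₀ hg₀ hu
    rw [IntermediateField.relfinrank_eq_finrank_of_le hDE]
    exact hcard g₀ hg₀ hu

end OzakiFree
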