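import Pool.Agent.Lib.MP_6e8030_nt.W.Base2

open IntermediateField
open scoped ComplexConjugate

noncomputable section

namespace OzakiFree

/-- image of an endomorphism -/
private def E1a_R {C : Type*} [AddCommGroup C] (u : AddMonoid.End C) : AddSubgroup C :=
  AddMonoidHom.range (u : C →+ C)

private theorem E1a_range_le {C : Type*} [AddCommGroup C] {u v w : AddMonoid.End C}
    (h : u = v * w) : E1a_R u ≤ E1a_R v := by
  rintro x ⟨y, rfl⟩
  exact ⟨w y, by rw [h]; rfl⟩

private theorem E1a_mul {C : Type*} [AddCommGroup C] {f g : AddMonoid.End C}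
    (hf : Function.Injective f) : (E1a_R (f * g)).index = (E1a_R g).index * (E1a_R f).index := by
  have h1 : E1a_R (f * g) = (E1a_R g).map (f : C →+ C) := by
    ext x
    constructor
    · rintro ⟨y, rfl⟩
      exact ⟨g y, ⟨y, rfl⟩, rfl⟩
    · rintro ⟨_, ⟨y, rfl⟩, rfl⟩
      exact ⟨y, rfl⟩
  rw [h1]
  exact AddSubgroup.index_map_of_injective _ hf

private theorem E1a_two {C : Type*} [AddCommGroup C] [Module.Finite ℤ C]
    (htf : ∀ (n : ℤ) (x : C), n • x = 0 → n = 0 ∨ x = 0) :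
    (E1a_R (-1 - 1 : AddMonoid.End C)).index = 2 ^ Module.finrank ℤ C := by
  have : Module.IsTorsionFree ℤ C := by
    refine ⟨fun n hn x y hxy => ?_⟩
    have h1 : n • (x - y) = 0 := by
      rw [smul_sub]
      exact sub_eq_zero.2 hxy
    rcases htf n _ h1 with h | h
    · exact absurd h (IsRegular.ne_zero hn)
    · exact sub_eq_zero.1 h
  have h1 : E1a_R (-1 - 1 : AddMonoid.End C) = (nsmulAddMonoidHom (α := C) 2).range := by
    ext x
    constructor
    · rintro ⟨y, rfl⟩
      refine ⟨-y, ?_⟩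
      show 2 • (-y) = -y - y
      rw [two_nsmul]
      abel
    · rintro ⟨y, rfl⟩
      refine ⟨-y, ?_⟩
      show - (-y) - (-y) = 2 • y
      rw [two_nsmul]
      abel
  rw [h1]
  exact AddSubgroup.index_range_nsmul C 2

private theorem E1a_main {C : Type*} [AddCommGroup C] [Module.Finite ℤ C]
    (htf : ∀ (n : ℤ) (x : C), n • x = 0 → n = 0 ∨ x = 0)
    (j : ℕ) (σ : AddMonoid.End C) (hσ : σ ^ (2 ^ j) = -1) :
    (E1a_R (σ - 1)).index ^ (2 ^ j) = 2 ^ Module.finrank ℤ C := by
  induction j generalizing σ with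
  | zero =>
    rw [pow_zero, pow_one] at hσ
    rw [hσ, pow_zero, pow_one]
    exact E1a_two htf
  | succ j ih =>
    have h1 : (σ ^ 2) ^ (2 ^ j) = -1 := by rw [← pow_mul, ← pow_succ', hσ]
    have h2 := ih (σ ^ 2) h1
    -- `σ - 1` is injective
    have hinj : Function.Injective (σ - 1 : AddMonoid.End C) := by
      refine (injective_iff_map_eq_zero (σ - 1 : AddMonoid.End C)).2 fun x hx => ?_
      have h3 : σ x = x := sub_eq_zero.1 hx
      have h4 : ∀ n : ℕ, (σ ^ n) x = x := by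
        intro n
        induction n with
        | zero => rfl
        | succ n ihn =>
          rw [pow_succ]
          show (σ ^ n) (σ x) = x
          rw [h3, ihn]
      have h5 := h4 (2 ^ (j + 1))
      rw [hσ] at h5
      have h6 : -x = x := h5
      have h7 : (2 : ℤ) • x = 0 := by
        rw [two_zsmul]
        nth_rewrite 1 [← h6]
        exact neg_add_cancel x
      exact (htf 2 x h7).resolve_left (by norm_num)
    -- `range (σ + 1) = range (σ - 1)`
    have hr : E1a_R (σ + 1) = E1a_R (σ - 1) := by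
      set τ : AddMonoid.End C := -σ with hτ
      have e1 : τ = σ ^ (1 + 2 ^ (j + 1)) := by
        rw [pow_add, hσ, pow_one, hτ]
        simp
      have e2 : τ ^ (1 + 2 ^ (j + 1)) = σ := by
        rw [e1, ← pow_mul]
        have e3 : (1 + 2 ^ (j + 1)) * (1 + 2 ^ (j + 1)) = 1 + 2 ^ (j + 1) * (2 * (1 + 2 ^ j)) := by
          ring
        rw [e3, pow_add, pow_one, pow_mul, hσ, pow_mul, neg_one_sq, one_pow, mul_one]
      have e4 : σ + 1 = -(τ - 1) := by
        rw [hτ]
        abel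
      apply le_antisymm
      · refine E1a_range_le (w := -∑ k ∈ Finset.range (1 + 2 ^ (j + 1)), σ ^ k) ?_
        rw [mul_neg, mul_geom_sum, ← e1, e4]
      · refine E1a_range_le (w := -∑ k ∈ Finset.range (1 + 2 ^ (j + 1)), τ ^ k) ?_
        rw [e4, neg_mul_neg, mul_geom_sum, e2]
    have h3 : σ ^ 2 - 1 = (σ - 1) * (σ + 1) := by
      rw [mul_add, sub_mul, mul_one, one_mul, pow_two]
      abel
    rw [h3, E1a_mul hinj, hr] at h2
    rw [pow_succ', pow_mul, pow_two]
    exact h2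

/-! ### E1a: the index of `σ - 1` when `σ ^ (2 ^ j) = -1` (pure algebra) -/

/-- PROOF. For an injective endomorphism `f` of the free group `C` of rank `m` let `ind f = (range f).index` (finite, positive); `ind (f g) = ind f * ind g` and `ind (n) = n ^ m`. All `σ ^ i - 1` with `2 ^ (j+1) ∤ i` are injective (if `σ ^ i x = x`, write `i = 2 ^ a b`, `b` odd, `a ≤ j`:
then `σ ^ (2 ^ j b) x = x` but it is `(-1) ^ b x = -x`, so `2 x = 0`). For `b` odd: `σ ^ (i b) - 1 = (σ ^ i - 1) * (1 + σ ^ i + ... )`, so `ind (σ ^ i - 1) ∣ ind (σ ^ (i b) - 1)`, and also conversely since `σ ^ i = (σ ^ (i b)) ^ b'` with `b b' ≡ 1 mod 2 ^ (j+1)` (`σ ^ (2 ^ (j+1)) = 1`): so they are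
equal. For `a < j`, `i = 2 ^ a`: `σ ^ i + 1 = -(σ ^ (i + 2 ^ j) - 1)` and `i + 2 ^ j = i (1 + 2 ^ (j - a))`, an odd multiple, so `ind (σ ^ (2 i) - 1) = ind (σ ^ i - 1) * ind (σ ^ i + 1) = ind (σ ^ i - 1) ^ 2`. So `ind (σ - 1) ^ (2 ^ j) = ind (σ ^ (2 ^ j) - 1) = ind (-2) = 2 ^ m`. -/
theorem idx_cyclo {C : Type*} [AddCommGroup C] [Module.Finite ℤ C] (htf : ∀ (n : ℤ) (x : C), n • x = 0 → n = 0 ∨ x = 0)
    (j : ℕ) (σ : AddMonoid.End C) (hσ : σ ^ (2 ^ j) = -1) :
    (AddMonoidHom.range (σ - 1)).index ^ (2 ^ j) = 2 ^ Module.finrank ℤ C :=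
  E1a_main htf j σ hσ

end OzakiFree
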