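import Pool.Agent.Lib.MP_6e8030_nt.W.E1a

open IntermediateField
open scoped ComplexConjugate

noncomputable section

namespace OzakiFree

/-! ### E1b: the index of `σ - 1` on the kernel of the norm (pure algebra) -/

/-- the index of `f` on an extension is the product of the indices -/
private theorem E1b_mul {C : Type*} [AddCommGroup C] (f N : C →+ C) (hcomm : ∀ x, f (N x) = N (f x))
    (B : AddSubgroup C) (hB : ∀ x ∈ B, f x ∈ B) (hN : N.ker ≤ B)
    (hinj : ∀ x : C, f x = 0 → x = 0) :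
    (B.map f).relIndex B = (N.ker.map f).relIndex N.ker * ((B.map N).map f).relIndex (B.map N) := by
  have h1 : (B.map N).map f = (B.map f).map N := by
    ext y
    simp only [AddSubgroup.mem_map]
    constructor
    · rintro ⟨_, ⟨x, hx, rfl⟩, rfl⟩
      exact ⟨_, ⟨x, hx, rfl⟩, (hcomm x).symm⟩
    · rintro ⟨_, ⟨x, hx, rfl⟩, rfl⟩
      exact ⟨_, ⟨x, hx, rfl⟩, hcomm x⟩
  have hfB : B.map f ≤ B := by
    rintro _ ⟨x, hx, rfl⟩
    exact hB x hx
  have h2 : (B.map f ⊔ N.ker) ≤ B := sup_le hfB hN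
  have h3 : (B.map f) ⊓ N.ker = N.ker.map f := by
    ext y
    constructor
    · rintro ⟨⟨x, hx, rfl⟩, hy⟩
      refine ⟨x, ?_, rfl⟩
      have h4 : N (f x) = 0 := hy
      rw [← hcomm] at h4
      exact hinj _ h4
    · rintro ⟨x, hx, rfl⟩
      have hx' : N x = 0 := hx
      refine ⟨⟨x, hN hx, rfl⟩, ?_⟩
      change N (f x) = 0
      rw [← hcomm, hx', map_zero]
  have h5 : (B.map f).relIndex (B.map f ⊔ N.ker) * (B.map f ⊔ N.ker).relIndex B = (B.map f).relIndex B :=
    AddSubgroup.relIndex_mul_relIndex _ _ _ le_sup_left h2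
  have h6 : (B.map f).relIndex (B.map f ⊔ N.ker) = (N.ker.map f).relIndex N.ker := by
    rw [AddSubgroup.relIndex_sup_left, ← AddSubgroup.inf_relIndex_right, h3]
  have h7 : ((B.map N).map f).relIndex (B.map N) = (B.map f ⊔ N.ker).relIndex B := by
    rw [h1, AddSubgroup.relIndex_map_map, sup_eq_left.2 hN]
  rw [← h5, h6, h7]

/-- rank of the image -/
private theorem E1b_rank {C : Type*} [AddCommGroup C] [Module.Finite ℤ C] (N : C →+ C)
    (B : AddSubgroup C) (hN : N.ker ≤ B) :
    Module.finrank ℤ (B.map N) + Module.finrank ℤ N.ker = Module.finrank ℤ B := by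
  let φ : B →ₗ[ℤ] C := (N.comp B.subtype).toIntLinearMap
  have hfB : Module.Finite ℤ B := inferInstanceAs (Module.Finite ℤ (AddSubgroup.toIntSubmodule B))
  have h1 := (LinearMap.ker φ).finrank_quotient_add_finrank
  have h2 := LinearEquiv.finrank_eq φ.quotKerEquivRange
  let e1 : LinearMap.range φ ≃ₗ[ℤ] B.map N :=
    { toFun := fun x => ⟨x.1, by obtain ⟨y, hy⟩ := x.2; exact ⟨y.1, y.2, hy⟩⟩
      invFun := fun x => ⟨x.1, by obtain ⟨y, hy, hyx⟩ := x.2; exact ⟨⟨y, hy⟩, hyx⟩⟩
      left_inv := fun _ => rfl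
      right_inv := fun _ => rfl
      map_add' := fun _ _ => rfl
      map_smul' := fun _ _ => rfl }
  let e2 : LinearMap.ker φ ≃ₗ[ℤ] N.ker :=
    { toFun := fun x => ⟨x.1.1, x.2⟩
      invFun := fun x => ⟨⟨x.1, hN x.2⟩, x.2⟩
      left_inv := fun _ => rfl
      right_inv := fun _ => rfl
      map_add' := fun _ _ => rfl
      map_smul' := fun _ _ => rfl }
  rw [← LinearEquiv.finrank_eq e1, ← LinearEquiv.finrank_eq e2, ← h2]
  exact h1

/-- PROOF. `N_j = ∑_{i < 2 ^ j} σ ^ i`, `N_{j+1} = N_j (1 + σ ^ (2 ^ j))`, `N_t = 0`, `N_0 = 1`. `σ - 1` is injective (`σ x = x` gives `N_t x = 2 ^ t x = 0`). Claim `[A_j : (σ - 1) A_j] = 2 ^ (j r)` for `A_j = ker N_j`, by induction on `j`: `N_j` maps `A_{j+1}` onto a subgroup `C ≤ ker (1 + σ ^ (2 ^ j))` of rank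
`(2 ^ (j+1) - 1) r - (2 ^ j - 1) r = 2 ^ j r` with kernel `A_j`; `σ` acts on `C` with `σ ^ (2 ^ j) = -1`, so `ind (σ - 1 | C) ^ (2 ^ j) = 2 ^ (2 ^ j r)` (`idx_cyclo`), `ind (σ - 1 | C) = 2 ^ r`. And for `0 → A_j → A_{j+1} → C → 0` with `σ - 1` injective on `C` the index is multiplicative. -/
theorem idx_norm {C : Type*} [AddCommGroup C] [Module.Finite ℤ C] (htf : ∀ (n : ℤ) (x : C), n • x = 0 → n = 0 ∨ x = 0)
    (t r : ℕ) (σ : AddMonoid.End C) (hN : ∑ i ∈ Finset.range (2 ^ t), σ ^ i = 0)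
    (hrank : ∀ j ≤ t, Module.finrank ℤ (AddMonoidHom.ker (∑ i ∈ Finset.range (2 ^ j), σ ^ i)) =
      (2 ^ j - 1) * r) : (AddMonoidHom.range (σ - 1)).index = 2 ^ (t * r) := by
  have happ : ∀ (n : ℕ) (x : C), σ x = x → (σ ^ n) x = x := by
    intro n x hx
    induction n with
    | zero => rw [pow_zero]; rfl
    | succ n ih =>
      rw [pow_succ]
      change (σ ^ n) (σ x) = x
      rw [hx, ih]
  have hinj : ∀ x : C, (σ - 1) x = 0 → x = 0 := by
    intro x hx
    have h1 : σ x = x := by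
      have h2 : σ x - x = 0 := hx
      exact sub_eq_zero.1 h2
    have h3 := DFunLike.congr_fun hN x
    have h4 : (∑ i ∈ Finset.range (2 ^ t), σ ^ i) x = ∑ i ∈ Finset.range (2 ^ t), (σ ^ i) x :=
      AddMonoidHom.finsetSum_apply _ _ _
    rw [h4, Finset.sum_congr rfl fun i _ => happ i x h1, Finset.sum_const, Finset.card_range] at h3
    have h5 : ((2 ^ t : ℕ) : ℤ) • x = 0 := by
      rw [natCast_zsmul]
      exact h3
    rcases htf _ _ h5 with h6 | h6
    · exact absurd h6 (by positivity)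
    · exact h6
  have hNs : ∀ j : ℕ, ∑ i ∈ Finset.range (2 ^ (j + 1)), σ ^ i =
      (1 + σ ^ (2 ^ j)) * ∑ i ∈ Finset.range (2 ^ j), σ ^ i := by
    intro j
    rw [pow_succ, mul_two, Finset.sum_range_add, add_mul, one_mul, Finset.mul_sum]
    congr 1
    exact Finset.sum_congr rfl fun i _ => pow_add _ _ _
  have hcomm : ∀ j : ℕ, Commute σ (∑ i ∈ Finset.range (2 ^ j), σ ^ i) := fun j =>
    Commute.sum_right _ _ _ fun i _ => Commute.self_pow σ i
  -- the claim
  obtain ⟨Nn, hNn⟩ : ∃ Nn : ℕ → (C →+ C), ∀ j,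
      Nn j = ((∑ i ∈ Finset.range (2 ^ j), σ ^ i : AddMonoid.End C) : C →+ C) := ⟨_, fun _ => rfl⟩
  obtain ⟨f, hf⟩ : ∃ f : C →+ C, f = ((σ - 1 : AddMonoid.End C) : C →+ C) := ⟨_, rfl⟩
  have hfx : ∀ x, f x = σ x - x := fun x => by rw [hf]; rfl
  have hNs' : ∀ (j : ℕ) (x : C), Nn (j + 1) x = Nn j x + (σ ^ (2 ^ j)) (Nn j x) := by
    intro j x
    rw [hNn, hNn]
    exact DFunLike.congr_fun (hNs j) x
  have hcomm' : ∀ (j : ℕ) (x : C), σ (Nn j x) = Nn j (σ x) := by
    intro j x
    rw [hNn]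
    exact DFunLike.congr_fun (hcomm j).eq x
  have hrank' : ∀ j ≤ t, Module.finrank ℤ (Nn j).ker = (2 ^ j - 1) * r := by
    intro j hj
    rw [hNn]
    exact hrank j hj
  have hfinj : ∀ x : C, f x = 0 → x = 0 := by
    intro x hx
    apply hinj
    rw [hf] at hx
    exact hx
  have key : ∀ j ≤ t, ((Nn j).ker.map f).relIndex (Nn j).ker = 2 ^ (j * r) := by
    intro j
    induction j with
    | zero =>
      intro _
      have h1 : (Nn 0).ker = ⊥ := by
        ext x
        rw [AddMonoidHom.mem_ker, hNn, AddSubgroup.mem_bot, pow_zero, Finset.sum_range_one, pow_zero]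
        exact Iff.rfl
      rw [h1, AddSubgroup.relIndex_bot_right, Nat.zero_mul, pow_zero]
    | succ j ih =>
      intro hj
      have hj' : j ≤ t := (Nat.le_succ j).trans hj
      obtain ⟨Nj, hNj⟩ : ∃ Nj : C →+ C, Nj = Nn j := ⟨_, rfl⟩
      obtain ⟨Nj', hNj'⟩ : ∃ Nj' : C →+ C, Nj' = Nn (j + 1) := ⟨_, rfl⟩
      have ih' := ih hj'
      have r0 := hrank' j hj'
      have r1 := hrank' (j + 1) hj
      have c0 := hcomm' j
      have c1 := hcomm' (j + 1)
      have hs := hNs' j
      rw [← hNj] at ih' r0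
      rw [← hNj'] at r1 ⊢
      have c0 : ∀ x, σ (Nj x) = Nj (σ x) := by rw [hNj]; exact c0
      have c1 : ∀ x, σ (Nj' x) = Nj' (σ x) := by rw [hNj']; exact c1
      have hs : ∀ x, Nj' x = Nj x + (σ ^ (2 ^ j)) (Nj x) := by rw [hNj, hNj']; exact hs
      have hle : Nj.ker ≤ Nj'.ker := by
        intro x hx
        have hx' : Nj x = 0 := hx
        change Nj' x = 0
        rw [hs, hx', map_zero, add_zero]
      have hσ : ∀ x ∈ Nj'.ker, σ x ∈ Nj'.ker := by
        intro x hx
        have hx' : Nj' x = 0 := hx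
        change Nj' (σ x) = 0
        rw [← c1, hx', map_zero]
      have hB : ∀ x ∈ Nj'.ker, f x ∈ Nj'.ker := by
        intro x hx
        rw [hfx]
        exact AddSubgroup.sub_mem _ (hσ x hx) hx
      have hc : ∀ x, f (Nj x) = Nj (f x) := by
        intro x
        rw [hfx, hfx, map_sub, c0]
      rw [E1b_mul f Nj hc Nj'.ker hB hle hfinj, ih']
      have hrk := E1b_rank Nj Nj'.ker hle
      rw [r0, r1] at hrk
      obtain ⟨D, hD⟩ : ∃ D : AddSubgroup C, D = Nj'.ker.map Nj := ⟨_, rfl⟩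
      rw [← hD] at hrk ⊢
      have hrD : Module.finrank ℤ D = 2 ^ j * r := by
        have h5 : (2 ^ (j + 1) - 1) * r = 2 ^ j * r + (2 ^ j - 1) * r := by
          rw [← add_mul]
          congr 1
          have : 0 < 2 ^ j := by positivity
          rw [pow_succ]
          omega
        omega
      have hσD : ∀ x ∈ D, σ x ∈ D := by
        rw [hD]
        rintro _ ⟨x, hx, rfl⟩
        exact ⟨σ x, hσ x hx, (c0 x).symm⟩
      let σD : AddMonoid.End D :=
        { toFun := fun x => ⟨σ x.1, hσD x.1 x.2⟩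
          map_zero' := Subtype.ext (map_zero σ)
          map_add' := fun x y => Subtype.ext (map_add σ _ _) }
      have hpow : ∀ (n : ℕ) (x : D), (((σD ^ n) x : D) : C) = (σ ^ n) (x : C) := by
        intro n
        induction n with
        | zero => intro x; rw [pow_zero, pow_zero]; rfl
        | succ n ihn =>
          intro x
          rw [pow_succ, pow_succ]
          change (((σD ^ n) (σD x) : D) : C) = (σ ^ n) (σ x)
          rw [ihn]
          rfl
      have hneg : σD ^ (2 ^ j) = -1 := by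
        apply AddMonoidHom.ext
        rintro ⟨x, hx⟩
        apply Subtype.ext
        refine (hpow _ _).trans ?_
        change (σ ^ (2 ^ j)) x = -x
        rw [hD] at hx
        obtain ⟨y, hy, rfl⟩ := hx
        have hy' : Nj' y = 0 := hy
        rw [hs] at hy'
        exact eq_neg_of_add_eq_zero_right hy'
      have hfinD : Module.Finite ℤ D :=
        inferInstanceAs (Module.Finite ℤ (AddSubgroup.toIntSubmodule D))
      have htfD : ∀ (n : ℤ) (x : D), n • x = 0 → n = 0 ∨ x = 0 := by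
        intro n x hnx
        rcases htf n x (congrArg Subtype.val hnx) with h7 | h7
        · exact Or.inl h7
        · exact Or.inr (Subtype.ext h7)
      have h8 := idx_cyclo htfD j σD hneg
      have h9 : (AddMonoidHom.range (σD - 1)).index = (D.map f).relIndex D := by
        unfold AddSubgroup.relIndex
        congr 1
        ext x
        rw [AddSubgroup.mem_addSubgroupOf]
        constructor
        · rintro ⟨y, rfl⟩
          refine ⟨y.1, y.2, ?_⟩
          rw [hf]
          rfl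
        · rintro ⟨y, hy, hyx⟩
          refine ⟨⟨y, hy⟩, Subtype.ext ?_⟩
          rw [hf] at hyx
          exact hyx
      rw [h9, hrD, mul_comm (2 ^ j) r, pow_mul] at h8
      have h10 : (D.map f).relIndex D = 2 ^ r :=
        Nat.pow_left_injective (by positivity : (2 : ℕ) ^ j ≠ 0) h8
      rw [h10, ← pow_add]
      congr 1
      ring
  have h := key t le_rfl
  have h1 : (Nn t).ker = ⊤ := by
    ext x
    rw [AddMonoidHom.mem_ker, hNn, hN]
    exact iff_of_true rfl (AddSubgroup.mem_top x)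
  rw [h1, AddSubgroup.relIndex_top_right] at h
  rw [← h]
  congr 1
  rw [hf]
  exact AddMonoidHom.range_eq_map _

end OzakiFree
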