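import Pool.Agent.Lib.MP_6e8030_nt.W.E1b

open IntermediateField
open scoped ComplexConjugate

noncomputable section

namespace OzakiFree

/-! ### E1c: Herbrand quotient for a cyclic group of order `2 ^ t` (pure algebra) -/

private theorem E1c_rn {M M' : Type*} [AddCommGroup M] [AddCommGroup M'] [Module.Finite ℤ M] (f : M →ₗ[ℤ] M') :
    Module.finrank ℤ (LinearMap.range f) + Module.finrank ℤ (LinearMap.ker f) = Module.finrank ℤ M := by
  have hq := (LinearMap.ker f).finrank_quotient_add_finrank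
  rwa [(f.quotKerEquivRange).finrank_eq] at hq

private theorem E1c_rank {M M' : Type*} [AddCommGroup M] [AddCommGroup M'] (f : M →ₗ[ℤ] M')
    (h : LinearMap.ker f ≤ Submodule.torsion ℤ M) :
    Module.finrank ℤ (LinearMap.range f) = Module.finrank ℤ M := by
  rw [← (f.quotKerEquivRange).finrank_eq]
  exact finrank_quotient_eq_of_le_torsion h

private theorem E1c_tors {B : Type*} [AddCommGroup B] (n : ℕ) (hn : n ≠ 0) {x : B}
    (hx : n • x ∈ Submodule.torsion ℤ B) : x ∈ Submodule.torsion ℤ B := by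
  rw [Submodule.mem_torsion_iff] at hx ⊢
  obtain ⟨a, ha⟩ := hx
  refine ⟨a * ⟨(n : ℤ), by simpa [mem_nonZeroDivisors_iff_ne_zero] using hn⟩, ?_⟩
  rw [mul_smul]
  have e : ((⟨(n : ℤ), by simpa [mem_nonZeroDivisors_iff_ne_zero] using hn⟩ : nonZeroDivisors ℤ)
    • x) = n • x := by
    change (n : ℤ) • x = n • x
    rw [natCast_zsmul]
  rw [e, ha]

/-- the index of an endomorphism which is injective modulo torsion -/
private theorem E1c_tor {B : Type*} [AddCommGroup B] [Module.Finite ℤ B] (f : B →+ B)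
    (hmemT : ∀ x, f x ∈ Submodule.torsion ℤ B → x ∈ Submodule.torsion ℤ B) :
    f.range.index = (f.range ⊔ (Submodule.torsion ℤ B).toAddSubgroup).index * Nat.card f.ker ∧
      Nat.card f.ker ≠ 0 := by
  set T : Submodule ℤ B := Submodule.torsion ℤ B with hT
  have hTf : Finite T := Module.finite_of_fg_torsion T (Submodule.torsion_isTorsion)
  have hkT : f.ker ≤ T.toAddSubgroup := by
    intro x hx
    have hx' : f x = 0 := hx
    exact hmemT x (by rw [hx']; exact zero_mem _)
  have hfT : ∀ x ∈ T, f x ∈ T := by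
    intro x hx
    rw [hT, Submodule.mem_torsion_iff] at hx ⊢
    obtain ⟨a, ha⟩ := hx
    refine ⟨a, ?_⟩
    have h1 : f ((a : ℤ) • x) = (a : ℤ) • f x := map_zsmul f _ _
    change (a : ℤ) • f x = 0
    rw [← h1]
    have h2 : (a : ℤ) • x = 0 := ha
    rw [h2, map_zero]
  have hfin : Finite f.ker := by
    have : Finite T.toAddSubgroup := hTf
    exact Finite.of_injective (AddSubgroup.inclusion hkT) (AddSubgroup.inclusion_injective hkT)
  refine ⟨?_, Nat.card_pos.ne'⟩
  have h2 : f.range.relIndex T.toAddSubgroup = Nat.card f.ker := by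
    let fT : T.toAddSubgroup →+ T.toAddSubgroup :=
      { toFun := fun x => ⟨f x, hfT x x.2⟩
        map_zero' := Subtype.ext (map_zero f)
        map_add' := fun x y => Subtype.ext (map_add f _ _) }
    have hTf' : Finite T.toAddSubgroup := hTf
    have e1 : fT.range.index = Nat.card fT.ker := AddSubgroup.index_range
    have e2 : f.range.addSubgroupOf T.toAddSubgroup = fT.range := by
      ext x
      constructor
      · intro hx
        rw [AddSubgroup.mem_addSubgroupOf] at hx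
        obtain ⟨y, hy⟩ := hx
        have hyT : y ∈ T := hmemT y (by rw [hy]; exact x.2)
        exact ⟨⟨y, hyT⟩, Subtype.ext hy⟩
      · rintro ⟨y, rfl⟩
        rw [AddSubgroup.mem_addSubgroupOf]
        exact ⟨(y : B), rfl⟩
    have e3 : Nat.card fT.ker = Nat.card f.ker := by
      refine Nat.card_congr ⟨fun x => ⟨(x : T.toAddSubgroup), ?_⟩, fun x => ⟨⟨(x : B), hkT x.2⟩, ?_⟩,
        fun x => rfl, fun x => rfl⟩
      · exact congrArg Subtype.val x.2
      · exact Subtype.ext x.2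
    rw [AddSubgroup.relIndex, e2, e1, e3]
  have h3 : f.range.relIndex T.toAddSubgroup * (f.range ⊔ T.toAddSubgroup).index =
      f.range.index := by
    rw [← AddSubgroup.relIndex_sup_left (H := T.toAddSubgroup) (K := f.range)]
    exact AddSubgroup.relIndex_mul_index le_sup_left
  rw [← h3, h2, mul_comm]

/-- the index modulo torsion -/
private theorem E1c_quot {B : Type*} [AddCommGroup B] (f : B →+ B)
    (g : (B ⧸ Submodule.torsion ℤ B) →+ (B ⧸ Submodule.torsion ℤ B))
    (h : ∀ x, g ((Submodule.torsion ℤ B).mkQ x) = (Submodule.torsion ℤ B).mkQ (f x)) :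
    (f.range ⊔ (Submodule.torsion ℤ B).toAddSubgroup).index = g.range.index := by
  set T : Submodule ℤ B := Submodule.torsion ℤ B with hT
  set q : B →+ B ⧸ T := T.mkQ.toAddMonoidHom with hq
  have hqs : Function.Surjective q := T.mkQ_surjective
  have hqk : q.ker = T.toAddSubgroup := by
    ext x
    simp [hq, AddMonoidHom.mem_ker]
  have hqr : q.range = ⊤ := AddMonoidHom.range_eq_top.2 hqs
  have e1 := AddSubgroup.index_map (H := f.range) q
  rw [hqk, hqr, AddSubgroup.index_top, mul_one] at e1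
  rw [← e1]
  congr 1
  ext x
  constructor
  · rintro ⟨y, ⟨z, rfl⟩, rfl⟩
    exact ⟨q z, h z⟩
  · rintro ⟨y, rfl⟩
    obtain ⟨z, rfl⟩ := hqs y
    exact ⟨f z, ⟨z, rfl⟩, (h z).symm⟩

private theorem E1c_nsmul (B : Type*) [AddCommGroup B] [Module.Finite ℤ B] (p : ℕ) (hp : p ≠ 0) :
    (nsmulAddMonoidHom (α := B) p).range.index =
      p ^ Module.finrank ℤ B * Nat.card (nsmulAddMonoidHom (α := B) p).ker ∧
    Nat.card (nsmulAddMonoidHom (α := B) p).ker ≠ 0 := by
  have h1 := E1c_tor (nsmulAddMonoidHom (α := B) p) (fun x hx => E1c_tors p hp hx)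
  refine ⟨?_, h1.2⟩
  rw [h1.1, E1c_quot (nsmulAddMonoidHom (α := B) p)
    (nsmulAddMonoidHom (α := B ⧸ Submodule.torsion ℤ B) p) (fun x => by
      change p • (Submodule.torsion ℤ B).mkQ x = (Submodule.torsion ℤ B).mkQ (p • x)
      rw [map_nsmul])]
  have hfree : Module.Free ℤ (B ⧸ Submodule.torsion ℤ B) := by
    have : Module.IsTorsionFree ℤ (B ⧸ Submodule.torsion ℤ B) := inferInstance
    infer_instance
  have hrk : Module.finrank ℤ (B ⧸ Submodule.torsion ℤ B) = Module.finrank ℤ B :=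
    finrank_quotient_eq_of_le_torsion le_rfl
  rw [AddSubgroup.index_range_nsmul (B ⧸ Submodule.torsion ℤ B) p, hrk]

private theorem E1c_geom {B : Type*} [AddCommGroup B] (σ : AddMonoid.End B) (n : ℕ) :
    ∃ w : AddMonoid.End B, ∑ i ∈ Finset.range n, σ ^ i = (n : AddMonoid.End B) + w * (σ - 1) := by
  refine ⟨∑ i ∈ Finset.range n, ∑ j ∈ Finset.range i, σ ^ j, ?_⟩
  rw [Finset.sum_mul]
  simp only [geom_sum_mul]
  rw [Finset.sum_sub_distrib]
  simp

private theorem E1c_geom_apply {B : Type*} [AddCommGroup B] (σ : AddMonoid.End B) (n : ℕ) {x : B}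
    (hx : (σ - 1) x = 0) : (∑ i ∈ Finset.range n, σ ^ i) x = n • x := by
  obtain ⟨w, hw⟩ := E1c_geom σ n
  rw [hw]
  change (n : AddMonoid.End B) x + w ((σ - 1) x) = n • x
  rw [hx, map_zero, add_zero]
  simp

private theorem E1c_sum_apply {B : Type*} [AddCommGroup B] (σ : AddMonoid.End B) (n : ℕ) (x : B) :
    (∑ i ∈ Finset.range n, σ ^ i) x = ∑ i ∈ Finset.range n, (σ ^ i) x :=
  AddMonoidHom.finsetSum_apply _ _ _

/-- the index of `τ - 1`, if the norm is zero -/
private theorem E1c_tau {B : Type*} [AddCommGroup B] [Module.Finite ℤ B] (t r : ℕ) (τ : AddMonoid.End B)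
    (hN : ∑ i ∈ Finset.range (2 ^ t), τ ^ i = 0)
    (hrank : ∀ j ≤ t, Module.finrank ℤ
      (AddMonoidHom.ker (∑ i ∈ Finset.range (2 ^ j), τ ^ i : AddMonoid.End B)) = (2 ^ j - 1) * r) :
    (AddMonoidHom.range (τ - 1 : AddMonoid.End B)).index =
      2 ^ (t * r) * Nat.card (AddMonoidHom.ker (τ - 1 : AddMonoid.End B)) ∧
      Nat.card (AddMonoidHom.ker (τ - 1 : AddMonoid.End B)) ≠ 0 := by
  set T : Submodule ℤ B := Submodule.torsion ℤ B with hT
  have hτT : ∀ (f : B →+ B), ∀ x ∈ T, f x ∈ T := by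
    intro f x hx
    rw [hT, Submodule.mem_torsion_iff] at hx ⊢
    obtain ⟨a, ha⟩ := hx
    refine ⟨a, ?_⟩
    have h1 : f ((a : ℤ) • x) = (a : ℤ) • f x := map_zsmul f _ _
    change (a : ℤ) • f x = 0
    rw [← h1]
    have h2 : (a : ℤ) • x = 0 := ha
    rw [h2, map_zero]
  have h1 := E1c_tor (B := B) (τ - 1 : AddMonoid.End B) (by
    intro x hx
    rw [Submodule.mem_torsion_iff] at hx
    obtain ⟨a, ha⟩ := hx
    have ha' : (a : ℤ) • ((τ - 1 : AddMonoid.End B) x) = 0 := ha
    have h2 : (τ - 1 : AddMonoid.End B) ((a : ℤ) • x) = 0 := by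
      have h3 : (τ - 1 : AddMonoid.End B) ((a : ℤ) • x) = (a : ℤ) • ((τ - 1 : AddMonoid.End B) x) :=
        map_zsmul (τ - 1 : AddMonoid.End B) _ _
      rw [h3, ha']
    have h3 := E1c_geom_apply τ (2 ^ t) h2
    rw [hN] at h3
    have h4 : (2 ^ t) • ((a : ℤ) • x) = 0 := h3.symm
    rw [Submodule.mem_torsion_iff]
    have ha0 : (a : ℤ) ≠ 0 := nonZeroDivisors.ne_zero a.2
    refine ⟨⟨(2 : ℤ) ^ t * a, mem_nonZeroDivisors_iff_ne_zero.2 (mul_ne_zero (pow_ne_zero _ two_ne_zero) ha0)⟩, ?_⟩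
    change ((2 : ℤ) ^ t * a) • x = 0
    rw [mul_smul, ← h4, ← natCast_zsmul]
    push_cast
    rfl)
  refine ⟨?_, h1.2⟩
  rw [h1.1]
  congr 1
  -- the quotient
  let τC : AddMonoid.End (B ⧸ T) :=
    (T.mapQ T (AddMonoidHom.toIntLinearMap (τ : B →+ B)) (fun x hx => hτT τ x hx)).toAddMonoidHom
  have hτC : ∀ x, τC (T.mkQ x) = T.mkQ (τ x) := fun x => rfl
  have hpow : ∀ (i : ℕ) (x : B), (τC ^ i) (T.mkQ x) = T.mkQ ((τ ^ i) x) := by
    intro i
    induction i with
    | zero => intro x; rfl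
    | succ i ih =>
      intro x
      rw [pow_succ, pow_succ]
      exact ih (τ x)
  have hsum : ∀ (n : ℕ) (x : B), (∑ i ∈ Finset.range n, τC ^ i) (T.mkQ x) =
      T.mkQ ((∑ i ∈ Finset.range n, τ ^ i) x) := by
    intro n x
    rw [E1c_sum_apply, E1c_sum_apply, map_sum]
    exact Finset.sum_congr rfl fun i _ => hpow i x
  have hquot := E1c_quot (B := B) (τ - 1 : AddMonoid.End B) (τC - 1 : AddMonoid.End (B ⧸ T)) (by
    intro x
    change τC (T.mkQ x) - T.mkQ x = T.mkQ (τ x - x)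
    rw [hτC, map_sub])
  refine hquot.trans ?_
  have hrk : Module.finrank ℤ (B ⧸ T) = Module.finrank ℤ B :=
    finrank_quotient_eq_of_le_torsion le_rfl
  refine idx_norm (C := B ⧸ T) ?_ t r τC ?_ ?_
  · intro n x hx
    have : Module.IsTorsionFree ℤ (B ⧸ T) := inferInstance
    exact smul_eq_zero.1 hx
  · ext x
    obtain ⟨x, rfl⟩ := T.mkQ_surjective x
    rw [hsum, hN]
    rfl
  · intro j hj
    rw [← hrank j hj]
    -- ranks
    set g : AddMonoid.End B := ∑ i ∈ Finset.range (2 ^ j), τ ^ i with hg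
    set gC : AddMonoid.End (B ⧸ T) := ∑ i ∈ Finset.range (2 ^ j), τC ^ i with hgC
    have hggC : ∀ x, gC (T.mkQ x) = T.mkQ (g x) := hsum (2 ^ j)
    let gL : B →ₗ[ℤ] B := AddMonoidHom.toIntLinearMap (g : B →+ B)
    let gCL : (B ⧸ T) →ₗ[ℤ] (B ⧸ T) := AddMonoidHom.toIntLinearMap (gC : (B ⧸ T) →+ (B ⧸ T))
    have e1 := E1c_rn gL
    have e2 := E1c_rn gCL
    have e3 : Module.finrank ℤ (LinearMap.range gCL) = Module.finrank ℤ (LinearMap.range gL) := by
      let q' : LinearMap.range gL →ₗ[ℤ] (B ⧸ T) := T.mkQ.comp (LinearMap.range gL).subtype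
      have h5 : LinearMap.ker q' ≤ Submodule.torsion ℤ (LinearMap.range gL) := by
        intro x hx
        have hx' : (x : B) ∈ T := by
          have h6 : T.mkQ (x : B) = 0 := hx
          rwa [Submodule.mkQ_apply, Submodule.Quotient.mk_eq_zero] at h6
        rw [hT, Submodule.mem_torsion_iff] at hx'
        obtain ⟨a, ha⟩ := hx'
        rw [Submodule.mem_torsion_iff]
        exact ⟨a, Subtype.ext ha⟩
      have h6 : LinearMap.range q' = LinearMap.range gCL := by
        ext y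
        constructor
        · rintro ⟨⟨_, ⟨x, rfl⟩⟩, rfl⟩
          exact ⟨T.mkQ x, hggC x⟩
        · rintro ⟨x, rfl⟩
          obtain ⟨x, rfl⟩ := T.mkQ_surjective x
          exact ⟨⟨gL x, ⟨x, rfl⟩⟩, (hggC x).symm⟩
      rw [← h6]
      exact E1c_rank q' h5
    have e4 : Module.finrank ℤ (LinearMap.ker gCL) = Module.finrank ℤ (LinearMap.ker gL) := by
      omega
    exact e4

private theorem E1c_relmap {A : Type*} [AddCommGroup A] (f : A →+ A) (F : AddSubgroup A) :
    (F.map f).relIndex f.range = (F ⊔ f.ker).index := by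
  have h := AddSubgroup.relIndex_map_map f F ⊤
  rwa [← AddMonoidHom.range_eq_map, top_sup_eq, AddSubgroup.relIndex_top_right] at h

private theorem E1c_ker_mono {A : Type*} [AddCommGroup A] (σ : AddMonoid.End A) {j t : ℕ} (h : j ≤ t) {x : A}
    (hx : (∑ i ∈ Finset.range (2 ^ j), σ ^ i) x = 0) : (∑ i ∈ Finset.range (2 ^ t), σ ^ i) x = 0 := by
  induction t, h using Nat.le_induction with
  | base => exact hx
  | succ t _ ih =>
    have e : ∑ i ∈ Finset.range (2 ^ (t + 1)), σ ^ i =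
        (1 + σ ^ (2 ^ t)) * ∑ i ∈ Finset.range (2 ^ t), σ ^ i := by
      rw [pow_succ, mul_two, Finset.sum_range_add, add_mul, one_mul, Finset.mul_sum]
      congr 1
      exact Finset.sum_congr rfl fun i _ => pow_add _ _ _
    rw [e]
    change (1 + σ ^ (2 ^ t) : AddMonoid.End A) ((∑ i ∈ Finset.range (2 ^ t), σ ^ i) x) = 0
    rw [ih, map_zero]

/-- PROOF. `N = ∑_{i < n} σ ^ i`, `n = 2 ^ t`, `A^σ = ker (σ - 1)`, `B = ker N`. (1) Counting: `(σ - 1)` maps `A` onto `(σ - 1) A` with kernel `A^σ`, and `A^σ + B` onto `(σ - 1) B`, so `[A : A^σ + B] = [(σ - 1) A : (σ - 1) B]`; `N` maps `A` onto `N A` with kernel `B` and `A^σ + B` onto `N A^σ = n A^σ`, so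
`[A : A^σ + B] = [N A : n A^σ]`. So `[B : (σ - 1) A] [A : A^σ + B] = [B : (σ - 1) B]` and `[A^σ : N A] [A : A^σ + B] = [A^σ : n A^σ]`. (2) `[A^σ : n A^σ] = n ^ (r - 1) |A^σ[n]|` (rank of `A^σ` is `r - 1`). (3) `[B : (σ - 1) B] = |A^σ[n]| 2 ^ (t r)`: the kernel of `σ - 1` on `B` is `A^σ ⊓ B = A^σ[n]`;
let `T` be the torsion subgroup of `B` (finite): on `T` `[T : (σ - 1) T]` = order of the kernel `= |A^σ[n]|`; on `C = B / T` `σ - 1` is injective and `idx_norm` gives `2 ^ (t r)`; the indices multiply. The rank hypothesis of `idx_norm`: `ker N_j` has rank `rank ker (σ ^ (2 ^ j) - 1) - rank ker (σ - 1) = (2 ^ j - 1) r` since `N_j` maps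
`ker (σ ^ (2 ^ j) - 1)` into `ker (σ - 1)` with finite index (it is `2 ^ j` on `ker (σ - 1)`) and kernel `ker N_j`. So `[B : (σ - 1) A] / [A^σ : N A] = 2 ^ (t r) / n ^ (r - 1) = n`. (The proof of `herbrand` in U1.lean, for prime order, may help.) -/
theorem herbrand2 {A : Type*} [AddCommGroup A] [Module.Finite ℤ A] {t : ℕ} (σ : AddMonoid.End A)
    (hσ : σ ^ (2 ^ t) = 1) (r : ℕ)
    (hrank : ∀ j ≤ t, Module.finrank ℤ (AddMonoidHom.ker (σ ^ (2 ^ j) - 1)) + 1 = 2 ^ j * r) :
    (AddMonoidHom.range (∑ i ∈ Finset.range (2 ^ t), σ ^ i)).relIndex (AddMonoidHom.ker (σ - 1)) ≠ 0 ∧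
    2 ^ t * (AddMonoidHom.range (∑ i ∈ Finset.range (2 ^ t), σ ^ i)).relIndex
      (AddMonoidHom.ker (σ - 1)) =
      (AddMonoidHom.range (σ - 1)).relIndex
        (AddMonoidHom.ker (∑ i ∈ Finset.range (2 ^ t), σ ^ i)) := by
  have hn0 : 2 ^ t ≠ 0 := pow_ne_zero _ two_ne_zero
  set s : AddMonoid.End A := σ - 1 with hs
  set N : AddMonoid.End A := ∑ i ∈ Finset.range (2 ^ t), σ ^ i with hN
  set F : AddSubgroup A := AddMonoidHom.ker (s : A →+ A) with hF
  set K : AddSubgroup A := AddMonoidHom.ker (N : A →+ A) with hK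
  set RN : AddSubgroup A := AddMonoidHom.range (N : A →+ A) with hRN
  set RS : AddSubgroup A := AddMonoidHom.range (s : A →+ A) with hRS
  change RN.relIndex F ≠ 0 ∧ 2 ^ t * RN.relIndex F = RS.relIndex K
  have hsN : s * N = 0 := by rw [hs, hN, mul_geom_sum, hσ, sub_self]
  have hNs : N * s = 0 := by rw [hs, hN, geom_sum_mul, hσ, sub_self]
  have hNF : ∀ x ∈ F, N x = (2 ^ t) • x := fun x hx => E1c_geom_apply σ (2 ^ t) hx
  have hRF : RN ≤ F := by
    rintro x ⟨y, rfl⟩
    change (s * N) y = 0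
    rw [hsN]; rfl
  have hRK : RS ≤ K := by
    rintro x ⟨y, rfl⟩
    change (N * s) y = 0
    rw [hNs]; rfl
  have hFmap : F.map (nsmulAddMonoidHom (α := A) (2 ^ t)) = F.map (N : A →+ A) := by
    ext x
    constructor
    · rintro ⟨y, hy, rfl⟩
      exact ⟨y, hy, hNF y hy⟩
    · rintro ⟨y, hy, rfl⟩
      exact ⟨y, hy, (hNF y hy).symm⟩
  have hm1 : (F.map (N : A →+ A)).relIndex RN = (F ⊔ K).index :=
    E1c_relmap (N : A →+ A) F
  have hm2 : (K.map (s : A →+ A)).relIndex RS = (F ⊔ K).index := by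
    rw [sup_comm]
    exact E1c_relmap (s : A →+ A) K
  have h3 : (F.map (N : A →+ A)).relIndex RN * RN.relIndex F =
      (F.map (N : A →+ A)).relIndex F :=
    AddSubgroup.relIndex_mul_relIndex _ _ _ (AddSubgroup.map_le_range _ _) hRF
  have h4 : (K.map (s : A →+ A)).relIndex RS * RS.relIndex K =
      (K.map (s : A →+ A)).relIndex K :=
    AddSubgroup.relIndex_mul_relIndex _ _ _ (AddSubgroup.map_le_range _ _) hRK
  have hFfin : Module.Finite ℤ F :=
    inferInstanceAs (Module.Finite ℤ (AddSubgroup.toIntSubmodule F))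
  have hKfin : Module.Finite ℤ K :=
    inferInstanceAs (Module.Finite ℤ (AddSubgroup.toIntSubmodule K))
  set a := Module.finrank ℤ F with ha
  set kk := Nat.card (nsmulAddMonoidHom (α := F) (2 ^ t)).ker with hkk
  have h5 : (F.map (N : A →+ A)).relIndex F = (2 ^ t) ^ a * kk ∧ kk ≠ 0 := by
    have h := E1c_nsmul F (2 ^ t) hn0
    refine ⟨?_, h.2⟩
    rw [← hFmap, AddSubgroup.relIndex,
      AddSubgroup.addSubgroupOf_map_nsmulAddMonoidHom_eq_range, h.1]
  have har : a + 1 = r := by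
    have h := hrank 0 (Nat.zero_le _)
    rw [pow_zero, pow_one, one_mul] at h
    exact h
  -- the action on K
  have hσK : ∀ x : K, σ (x : A) ∈ K := by
    intro x
    have hx : N (x : A) = 0 := x.2
    have hc : N * σ = σ * N := by
      rw [hN, Finset.sum_mul, Finset.mul_sum]
      refine Finset.sum_congr rfl fun i _ => ?_
      rw [← pow_succ, ← pow_succ']
    change (N * σ) (x : A) = 0
    rw [hc]
    change σ (N (x : A)) = 0
    rw [hx, map_zero]
  let τ : AddMonoid.End K :=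
    { toFun := fun x => ⟨σ x, hσK x⟩
      map_zero' := Subtype.ext (map_zero σ)
      map_add' := fun x y => Subtype.ext (map_add σ _ _) }
  have hτpow : ∀ (i : ℕ) (x : K), (((τ ^ i) x : K) : A) = (σ ^ i) (x : A) := by
    intro i
    induction i with
    | zero => intro x; rfl
    | succ i ih =>
      intro x
      rw [pow_succ, pow_succ]
      exact ih (τ x)
  have hτsum : ∀ (n : ℕ) (x : K), (((∑ i ∈ Finset.range n, τ ^ i) x : K) : A) =
      (∑ i ∈ Finset.range n, σ ^ i) (x : A) := by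
    intro n x
    rw [E1c_sum_apply, E1c_sum_apply, AddSubgroup.val_finsetSum]
    simp only [hτpow]
  have hτ0 : ∑ i ∈ Finset.range (2 ^ t), τ ^ i = 0 := by
    ext x
    rw [hτsum]
    exact x.2
  have hrN : ∀ j ≤ t, Module.finrank ℤ
      (AddMonoidHom.ker (∑ i ∈ Finset.range (2 ^ j), σ ^ i : AddMonoid.End A)) = (2 ^ j - 1) * r := by
    intro j hj
    set Nj : AddMonoid.End A := ∑ i ∈ Finset.range (2 ^ j), σ ^ i with hNj
    set E : AddSubgroup A := AddMonoidHom.ker (σ ^ (2 ^ j) - 1 : AddMonoid.End A) with hE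
    have hEfin : Module.Finite ℤ E :=
      inferInstanceAs (Module.Finite ℤ (AddSubgroup.toIntSubmodule E))
    have hsNj : s * Nj = σ ^ (2 ^ j) - 1 := by rw [hs, hNj, mul_geom_sum]
    let NL : (AddSubgroup.toIntSubmodule E) →ₗ[ℤ] A :=
      (AddMonoidHom.toIntLinearMap (Nj : A →+ A)).comp (AddSubgroup.toIntSubmodule E).subtype
    have hq := E1c_rn NL
    have hNjF : ∀ x ∈ F, Nj x = (2 ^ j) • x := fun x hx => E1c_geom_apply σ (2 ^ j) hx
    have hle : Module.finrank ℤ (LinearMap.range NL) ≤ a := by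
      have h1 : LinearMap.range NL ≤ AddSubgroup.toIntSubmodule F := by
        rintro x ⟨y, rfl⟩
        change (s * Nj) (y : A) = 0
        rw [hsNj]
        exact y.2
      exact Submodule.finrank_mono h1
    have hge : a ≤ Module.finrank ℤ (LinearMap.range NL) := by
      let g : (AddSubgroup.toIntSubmodule F) →ₗ[ℤ] A :=
        ((2 ^ j : ℕ) : ℤ) • (AddSubgroup.toIntSubmodule F).subtype
      have hgk : LinearMap.ker g ≤ Submodule.torsion ℤ (AddSubgroup.toIntSubmodule F) := by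
        intro x hx
        have hx' : ((2 ^ j : ℕ) : ℤ) • (x : A) = 0 := hx
        rw [Submodule.mem_torsion_iff]
        refine ⟨⟨((2 ^ j : ℕ) : ℤ), by simp [mem_nonZeroDivisors_iff_ne_zero]⟩, ?_⟩
        exact Subtype.ext hx'
      have h1 : LinearMap.range g ≤ LinearMap.range NL := by
        rintro x ⟨y, rfl⟩
        have hyE : (y : A) ∈ E := by
          change (σ ^ (2 ^ j) - 1 : AddMonoid.End A) (y : A) = 0
          rw [← hsNj]
          change s (Nj (y : A)) = 0
          rw [hNjF _ y.2]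
          have : s ((2 ^ j) • (y : A)) = (2 ^ j) • s (y : A) := map_nsmul s _ _
          rw [this]
          have h0 : s (y : A) = 0 := y.2
          rw [h0, smul_zero]
        refine ⟨⟨(y : A), hyE⟩, ?_⟩
        change Nj (y : A) = ((2 ^ j : ℕ) : ℤ) • (y : A)
        rw [hNjF (y : A) y.2, natCast_zsmul]
      have h2 : Module.finrank ℤ (LinearMap.range g) = a := E1c_rank g hgk
      rw [← h2]
      exact Submodule.finrank_mono h1
    have heq : Module.finrank ℤ (LinearMap.range NL) = a := le_antisymm hle hge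
    have hkk : Module.finrank ℤ (LinearMap.ker NL) =
        Module.finrank ℤ (AddMonoidHom.ker (Nj : A →+ A)) := by
      have hin : ∀ x : A, Nj x = 0 → x ∈ E := by
        intro x hx
        change (σ ^ (2 ^ j) - 1 : AddMonoid.End A) x = 0
        rw [← hsNj]
        change s (Nj x) = 0
        rw [hx, map_zero]
      let eq : (LinearMap.ker NL) ≃+ (AddMonoidHom.ker (Nj : A →+ A)) :=
        { toFun := fun x => ⟨((x : AddSubgroup.toIntSubmodule E) : A), x.2⟩
          invFun := fun x => ⟨⟨(x : A), hin x x.2⟩, x.2⟩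
          left_inv := fun x => rfl
          right_inv := fun x => rfl
          map_add' := fun x y => rfl }
      exact eq.toIntLinearEquiv.finrank_eq
    have hfE := hrank j hj
    have hfE' : Module.finrank ℤ (AddSubgroup.toIntSubmodule E) + 1 = 2 ^ j * r := hfE
    refine hkk.symm.trans ?_
    have hpj : 1 ≤ 2 ^ j := Nat.one_le_two_pow
    have h7 : (2 ^ j - 1) * r + r = 2 ^ j * r := by
      rw [Nat.sub_mul, one_mul, Nat.sub_add_cancel (Nat.le_mul_of_pos_left r (by omega))]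
    omega
  have hrK : ∀ j ≤ t, Module.finrank ℤ
      (AddMonoidHom.ker (∑ i ∈ Finset.range (2 ^ j), τ ^ i : AddMonoid.End K)) = (2 ^ j - 1) * r := by
    intro j hj
    rw [← hrN j hj]
    let eq : (AddMonoidHom.ker (∑ i ∈ Finset.range (2 ^ j), τ ^ i : AddMonoid.End K)) ≃+
        (AddMonoidHom.ker (∑ i ∈ Finset.range (2 ^ j), σ ^ i : AddMonoid.End A)) :=
      { toFun := fun x => ⟨((x : K) : A), by
          have h : (∑ i ∈ Finset.range (2 ^ j), τ ^ i : AddMonoid.End K) (x : K) = 0 := x.2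
          change (∑ i ∈ Finset.range (2 ^ j), σ ^ i : AddMonoid.End A) ((x : K) : A) = 0
          rw [← hτsum, h]
          rfl⟩
        invFun := fun x => ⟨⟨(x : A), E1c_ker_mono σ hj x.2⟩, by
          change (∑ i ∈ Finset.range (2 ^ j), τ ^ i : AddMonoid.End K) _ = 0
          refine Subtype.ext ?_
          rw [hτsum]
          exact x.2⟩
        left_inv := fun x => rfl
        right_inv := fun x => rfl
        map_add' := fun x y => rfl }
    exact eq.toIntLinearEquiv.finrank_eq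
  have h6 := E1c_tau t r τ hτ0 hrK
  have h7 : (K.map (s : A →+ A)).relIndex K = (AddMonoidHom.range (τ - 1 : AddMonoid.End K)).index := by
    rw [AddSubgroup.relIndex]
    congr 1
    ext x
    rw [AddSubgroup.mem_addSubgroupOf]
    constructor
    · rintro ⟨y, hy, hyx⟩
      exact ⟨⟨y, hy⟩, Subtype.ext hyx⟩
    · rintro ⟨y, hyx⟩
      exact ⟨(y : A), y.2, congrArg Subtype.val hyx⟩
  have h8 : Nat.card (AddMonoidHom.ker (τ - 1 : AddMonoid.End K)) = kk := by
    have e1 : ∀ x : (AddMonoidHom.ker (τ - 1 : AddMonoid.End K)), ((x : K) : A) ∈ F := fun x =>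
      congrArg Subtype.val x.2
    have e2 : ∀ x : (nsmulAddMonoidHom (α := F) (2 ^ t)).ker, ((x : F) : A) ∈ K := by
      intro x
      have hx : (2 ^ t) • ((x : F) : A) = 0 := congrArg Subtype.val x.2
      change N ((x : F) : A) = 0
      rw [hNF _ (x : F).2, hx]
    refine Nat.card_congr ⟨fun x => ⟨⟨((x : K) : A), e1 x⟩, ?_⟩,
      fun x => ⟨⟨((x : F) : A), e2 x⟩, ?_⟩, fun x => rfl, fun x => rfl⟩
    · refine Subtype.ext ?_
      change (2 ^ t) • ((x : K) : A) = 0
      rw [← hNF _ (e1 x)]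
      exact (x : K).2
    · exact Subtype.ext (x : F).2
  -- the common index
  have hm0 : (F ⊔ K).index ≠ 0 := by
    have h := (E1c_nsmul A (2 ^ t) hn0)
    have hpa : (nsmulAddMonoidHom (α := A) (2 ^ t)).range.index ≠ 0 := by
      rw [h.1]
      exact mul_ne_zero (pow_ne_zero _ hn0) h.2
    have hle : (nsmulAddMonoidHom (α := A) (2 ^ t)).range ≤ F ⊔ K := by
      rintro x ⟨y, rfl⟩
      have e : (nsmulAddMonoidHom (α := A) (2 ^ t)) y = N y + ((2 ^ t) • y - N y) := by
        change (2 ^ t) • y = _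
        abel
      rw [e]
      refine AddSubgroup.add_mem_sup (hRF ⟨y, rfl⟩) ?_
      change N ((2 ^ t) • y - N y) = 0
      rw [map_sub, map_nsmul, hNF (N y) (hRF ⟨y, rfl⟩), sub_self]
    intro h0
    exact hpa (Nat.eq_zero_of_zero_dvd (h0 ▸ AddSubgroup.index_dvd_of_le hle))
  rw [hm1, h5.1] at h3
  rw [hm2, h7, h6.1, h8] at h4
  constructor
  · intro h0
    rw [h0, mul_zero] at h3
    exact mul_ne_zero (pow_ne_zero _ hn0) h5.2 h3.symm
  · apply mul_left_cancel₀ hm0
    rw [h4, mul_left_comm, h3, ← har, pow_mul, pow_succ]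
    ring

end OzakiFree
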