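import Pool.Agent.Lib.MP_6e8030_nt.W.Base2

open IntermediateField
open scoped ComplexConjugate

noncomputable section

namespace OzakiFree

/-! ### E2: ranks of unit groups -/

private theorem E2_rank (M : IntermediateField ℚ Om) [FiniteDimensional ℚ M] :
    Module.finrank ℤ (UA M) + 1 = Fintype.card (NumberField.InfinitePlace (FL M)) := by
  have h1 : Module.finrank ℤ (Additive (NumberField.RingOfIntegers (FL M))ˣ) =
      NumberField.Units.rank (FL M) := NumberField.Units.finrank_eq (FL M)
  have h0 : Module.finrank ℤ (UA M) = NumberField.Units.rank (FL M) := h1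
  have h6 : 0 < Fintype.card (NumberField.InfinitePlace (FL M)) := Fintype.card_pos
  rw [h0, NumberField.Units.rank]
  omega

private theorem E2_conj (K M : IntermediateField ℚ Om)
    (hconj : ∀ (φ : Om →+* ℂ) (c : GQ), (∀ x, φ (c x) = conj (φ x)) → c ∈ K.fixingSubgroup →
      c ∈ M.fixingSubgroup) (φ : FL M →+* ℂ)
    (hreal : ∀ x : FL M, x.val ∈ K → conj (φ x) = φ x) (hKM : K ≤ M) (x : FL M) :
    conj (φ x) = φ x := by
  let _ : Algebra (FL M) ℂ := φ.toAlgebra
  let _ : Algebra (FL M) Om := (FLhom M).toAlgebra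
  have _ : Algebra.IsAlgebraic (FL M) Om := by
    have h1 : Algebra.IsAlgebraic M Om := Algebra.IsAlgebraic.tower_top (K := ℚ) M
    exact h1
  let Ψ : Om →ₐ[FL M] ℂ := IsAlgClosed.lift
  have hΨ : ∀ y : FL M, Ψ (FLhom M y) = φ y := fun y => Ψ.commutes y
  obtain ⟨c, hc⟩ := U2a_exists_conj (Ψ : Om →+* ℂ)
  have h1 : c ∈ K.fixingSubgroup := by
    rw [IntermediateField.mem_fixingSubgroup_iff]
    intro y hy
    have h2 := hreal ⟨y, hKM hy⟩ hy
    have h3 := hΨ ⟨y, hKM hy⟩
    have h4 : (Ψ : Om →+* ℂ) (c y) = (Ψ : Om →+* ℂ) y := by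
      rw [hc y]
      have h5 : (Ψ : Om →+* ℂ) y = φ ⟨y, hKM hy⟩ := h3
      rw [h5]
      exact h2
    exact (Ψ : Om →+* ℂ).injective h4
  have h2 : c ∈ M.fixingSubgroup := hconj (Ψ : Om →+* ℂ) c hc h1
  have h3 : c (FLhom M x) = FLhom M x := (mem_fixingSubgroup_iff M c).1 h2 _ x.2
  have h4 := hc (FLhom M x)
  rw [h3] at h4
  have h5 : (Ψ : Om →+* ℂ) (FLhom M x) = φ x := hΨ x
  rw [h5] at h4
  exact h4.symm

/-- PROOF. `rank + 1` is the number of infinite places (`NumberField.Units.rank`); `M/K` is Galois and unramified at the infinite places because of `hconj`, so the number of infinite places of `M` is `[M:K]` times that of `K` (`NumberField.InfinitePlace` ramification files: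
`IsUnramifiedAtInfinitePlaces.card_infinitePlace`). See `rank_real` in U2a/U2b for the passage from `UA` to Mathlib. -/
theorem rank_unram (K M : IntermediateField ℚ Om) [FiniteDimensional ℚ K] [FiniteDimensional ℚ M]
    (hKM : K ≤ M) (hst : ∀ g ∈ K.fixingSubgroup, ∀ x ∈ M, g x ∈ M)
    (hconj : ∀ (φ : Om →+* ℂ) (c : GQ), (∀ x, φ (c x) = conj (φ x)) → c ∈ K.fixingSubgroup →
      c ∈ M.fixingSubgroup) :
    Module.finrank ℤ (UA M) + 1 = relfinrank K M * (Module.finrank ℤ (UA K) + 1) := by
  have hcyc : CycDM (relfinrank K M) K M := ⟨hKM, rfl, hst⟩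
  obtain ⟨alg, hval, hgal, hfin⟩ := U3_galois K M hcyc
  have hun : IsUnramifiedAtInfinitePlaces (FL K) (FL M) := by
    refine ⟨fun w => ?_⟩
    rw [NumberField.InfinitePlace.isUnramified_iff]
    by_cases hw : NumberField.InfinitePlace.IsReal (w.comap (algebraMap (FL K) (FL M)))
    · left
      rw [NumberField.InfinitePlace.isReal_iff, NumberField.ComplexEmbedding.isReal_iff]
      ext x
      refine E2_conj K M hconj w.embedding (fun y hy => ?_) hKM x
      have h1 : w.comap (algebraMap (FL K) (FL M)) =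
          NumberField.InfinitePlace.mk (w.embedding.comp (algebraMap (FL K) (FL M))) := by
        conv_lhs => rw [← NumberField.InfinitePlace.mk_embedding w]
        exact NumberField.InfinitePlace.comap_mk _ _
      rw [h1, NumberField.InfinitePlace.isReal_mk_iff, NumberField.ComplexEmbedding.isReal_iff] at hw
      have h2 := DFunLike.congr_fun hw (⟨y.val, hy⟩ : FL K)
      have h3 : algebraMap (FL K) (FL M) (⟨y.val, hy⟩ : FL K) = y := Subtype.ext (hval _)
      have h4 : conj (w.embedding (algebraMap (FL K) (FL M) (⟨y.val, hy⟩ : FL K))) =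
          w.embedding (algebraMap (FL K) (FL M) (⟨y.val, hy⟩ : FL K)) := h2
      rwa [h3] at h4
    · right
      exact NumberField.InfinitePlace.not_isReal_iff_isComplex.1 hw
  have hcard := IsUnramifiedAtInfinitePlaces.card_infinitePlace (FL K) (FL M)
  rw [E2_rank M, E2_rank K, hcard, hfin, mul_comm]

end OzakiFree
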