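import Pool.Agent.Lib.MP_6e8030_nt.W.Base2

open IntermediateField
open scoped ComplexConjugate

noncomputable section

namespace OzakiFree

/-- the values of the powers of the action -/
theorem E2b_pow (M : IntermediateField ℚ Om) (τ : GQ) (hst : ∀ x ∈ M, τ x ∈ M) (i : ℕ) (u : UA M) :
    ((Additive.toMul (((actU M τ hst) ^ i) u) : (ZF M)ˣ) : ZF M).val =
      (τ ^ i) ((Additive.toMul u : (ZF M)ˣ) : ZF M).val := by
  induction i generalizing u with
  | zero => rfl
  | succ i ih =>
    rw [pow_succ, pow_succ]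
    change ((Additive.toMul (((actU M τ hst) ^ i) (actU M τ hst u)) : (ZF M)ˣ) : ZF M).val =
      (τ ^ i) (τ ((Additive.toMul u : (ZF M)ˣ) : ZF M).val)
    rw [ih]
    rfl

/-! ### E2b: units fixed by an automorphism -/

/-- the units of `M` fixed by `τ ^ i` are the units of `D` (as `rank_fixed` in U2b; `(actU M τ hst) ^ i` is the action of `τ ^ i`) -/
theorem rank_ker (D M : IntermediateField ℚ Om) [FiniteDimensional ℚ D] [FiniteDimensional ℚ M]
    (hDM : D ≤ M) (τ : GQ) (hst : ∀ x ∈ M, τ x ∈ M) (i : ℕ) (hfix : ∀ x ∈ M, (τ ^ i) x = x ↔ x ∈ D) :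
    Module.finrank ℤ (AddMonoidHom.ker ((actU M τ hst) ^ i - 1)) = Module.finrank ℤ (UA D) := by
  have hfix' : ∀ u : UA M, u ∈ AddMonoidHom.ker ((actU M τ hst) ^ i - 1) ↔
      ((Additive.toMul u : (ZF M)ˣ) : ZF M).val ∈ D := by
    intro u
    have h1 : u ∈ AddMonoidHom.ker ((actU M τ hst) ^ i - 1) ↔
        ((actU M τ hst) ^ i) u - u = 0 := Iff.rfl
    rw [h1, sub_eq_zero, ← hfix _ (ZF_val_mem _), ← E2b_pow M τ hst i u]
    constructor
    · intro h2
      rw [h2]
    · intro h2
      apply Additive.toMul.injective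
      apply Units.ext
      apply ZF_val_inj
      exact h2
  let f : UA D →+ UA M := MonoidHom.toAdditive (Units.map (U2b_inc hDM : ZF D →* ZF M))
  have hfval : ∀ u : UA D, ((Additive.toMul (f u) : (ZF M)ˣ) : ZF M).val =
      ((Additive.toMul u : (ZF D)ˣ) : ZF D).val := fun u => rfl
  let g : UA D →+ AddMonoidHom.ker ((actU M τ hst) ^ i - 1) :=
    f.codRestrict _ (by
      intro u
      rw [hfix', hfval]
      exact ZF_val_mem _)
  have hg : Function.Bijective g := by
    constructor
    · intro u v huv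
      have h1 : f u = f v := congrArg Subtype.val huv
      apply Additive.toMul.injective
      apply Units.ext
      apply ZF_val_inj
      rw [← hfval, ← hfval, h1]
    · rintro ⟨u, hu⟩
      have h1 : ((Additive.toMul u : (ZF M)ˣ) : ZF M).val ∈ D := (hfix' u).1 hu
      have h0 : ((Additive.toMul u : (ZF M)ˣ) : ZF M).val *
          (((Additive.toMul u : (ZF M)ˣ)⁻¹ : (ZF M)ˣ) : ZF M).val = 1 :=
        congrArg ZF.val (Units.mul_inv (Additive.toMul u : (ZF M)ˣ))
      have h2 : (((Additive.toMul u : (ZF M)ˣ)⁻¹ : (ZF M)ˣ) : ZF M).val ∈ D := by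
        rw [← inv_eq_of_mul_eq_one_right h0]
        exact D.inv_mem h1
      obtain ⟨w, hw⟩ := U2b_lift _ h1
      obtain ⟨w', hw'⟩ := U2b_lift _ h2
      have h3 : w * w' = 1 := by
        apply ZF_val_inj
        change w.val * w'.val = 1
        rw [hw, hw']
        exact h0
      have h4 : w' * w = 1 := by rw [mul_comm]; exact h3
      refine ⟨Additive.ofMul (⟨w, w', h3, h4⟩ : (ZF D)ˣ), ?_⟩
      apply Subtype.ext
      apply Additive.toMul.injective
      apply Units.ext
      apply ZF_val_inj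
      exact hw
  exact (LinearEquiv.finrank_eq (AddEquiv.ofBijective g hg).toIntLinearEquiv).symm

end OzakiFree
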