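import Pool.Agent.Lib.MP_6e8030_nt.W.Base2

open IntermediateField
open scoped ComplexConjugate

noncomputable section

namespace OzakiFree

/-! ### E3: Hilbert 90 for a cyclic group -/

/-- PROOF. The automorphisms `1, φ, .., φ ^ (n-1)` restricted to `M` are different, so independent (Dedekind; `R9_indep` in R9.lean is private, copy it): there is `w ∈ M` with `b = ∑_{i < n} (∏_{k < i} φ ^ k z) φ ^ i w ≠ 0`. Then `z * φ b = b` (`∏_{k < n} φ ^ k z = 1`), `y = b⁻¹`. -/
theorem hilbert90n (M : IntermediateField ℚ Om) (φ : GQ) (hst : ∀ x ∈ M, φ x ∈ M) (n : ℕ)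
    (hn : 0 < n) (hφn : ∀ x ∈ M, (φ ^ n) x = x) (hφi : ∀ i, 0 < i → i < n → ∃ x ∈ M, (φ ^ i) x ≠ x)
    (z : Om) (hz : z ∈ M) (hN : ∏ i ∈ Finset.range n, (φ ^ i) z = 1) :
    ∃ y ∈ M, y ≠ 0 ∧ φ y = z * y := by
  classical
  have hstp : ∀ (k : ℕ) (x : Om), x ∈ M → (φ ^ k) x ∈ M := by
    intro k
    induction k with
    | zero => intro x hx; simpa using hx
    | succ k ih =>
      intro x hx
      rw [pow_succ, AlgEquiv.mul_apply]
      exact ih _ (hst x hx)
  let f : Fin n → (M →* Om) := fun i =>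
    ((φ ^ (i : ℕ) : GQ) : Om →+* Om).toMonoidHom.comp (M.val : M →+* Om).toMonoidHom
  have hf : ∀ (i : Fin n) (x : M), f i x = (φ ^ (i : ℕ)) (x : Om) := fun i x => rfl
  have hinj : Function.Injective f := by
    intro i j hij
    by_contra hne
    wlog hlt : (i : ℕ) < (j : ℕ) generalizing i j with H
    · refine H hij.symm (Ne.symm hne) ?_
      have : (i : ℕ) ≠ (j : ℕ) := fun h => hne (Fin.ext h)
      omega
    obtain ⟨x, hx, hxne⟩ := hφi ((j : ℕ) - i) (by omega) (by have := j.2; omega)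
    have h1 : f i ⟨x, hx⟩ = f j ⟨x, hx⟩ := by rw [hij]
    rw [hf, hf] at h1
    have h2 : (φ ^ (j : ℕ)) x = (φ ^ (i : ℕ)) ((φ ^ ((j : ℕ) - i)) x) := by
      rw [← AlgEquiv.mul_apply, ← pow_add]
      congr 2
      omega
    change (φ ^ (i : ℕ)) x = (φ ^ (j : ℕ)) x at h1
    rw [h2] at h1
    exact hxne ((φ ^ (i : ℕ)).injective h1).symm
  have hli : LinearIndependent Om (fun i : Fin n => (f i : M → Om)) :=
    (linearIndependent_monoidHom M Om).comp f hinj
  let c : ℕ → Om := fun i => ∏ k ∈ Finset.range i, (φ ^ k) z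
  have hc0 : c 0 = 1 := by simp [c]
  have hcn : c n = 1 := hN
  have hex : ∃ w : M, ∑ i : Fin n, c i * f i w ≠ 0 := by
    by_contra hcon
    push Not at hcon
    have h0 : ∑ i : Fin n, c i • (f i : M → Om) = 0 := by
      funext w
      rw [Finset.sum_apply]
      exact hcon w
    have := Fintype.linearIndependent_iff.1 hli (fun i => c i) h0 ⟨0, hn⟩
    change c 0 = 0 at this
    rw [hc0] at this
    exact one_ne_zero this
  obtain ⟨w, hw⟩ := hex
  have hsum : ∑ i : Fin n, c i * f i w = ∑ i ∈ Finset.range n, c i * (φ ^ i) (w : Om) := by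
    rw [Finset.sum_range]
    rfl
  rw [hsum] at hw
  set b : Om := ∑ i ∈ Finset.range n, c i * (φ ^ i) (w : Om) with hb
  have hcM : ∀ i, c i ∈ M := by
    intro i
    exact prod_mem fun k _ => hstp k z hz
  have hbM : b ∈ M := sum_mem fun i _ => M.mul_mem (hcM i) (hstp i _ w.2)
  have hcs : ∀ i, z * φ (c i) = c (i + 1) := by
    intro i
    have h1 : φ (c i) = ∏ k ∈ Finset.range i, (φ ^ (k + 1)) z := by
      simp only [c, map_prod]
      refine Finset.prod_congr rfl fun k _ => ?_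
      rw [pow_succ', AlgEquiv.mul_apply]
    have h2 : c (i + 1) = (∏ k ∈ Finset.range i, (φ ^ (k + 1)) z) * (φ ^ 0) z := by
      simp only [c]
      rw [Finset.prod_range_succ']
    rw [h1, h2, pow_zero, AlgEquiv.one_apply, mul_comm]
  have hzb : z * φ b = b := by
    have h1 : z * φ b = ∑ i ∈ Finset.range n, c (i + 1) * (φ ^ (i + 1)) (w : Om) := by
      rw [hb, map_sum, Finset.mul_sum]
      refine Finset.sum_congr rfl fun i _ => ?_
      rw [map_mul, ← mul_assoc, hcs, pow_succ' φ i, AlgEquiv.mul_apply]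
    have h2 : ∑ i ∈ Finset.range n, c (i + 1) * (φ ^ (i + 1)) (w : Om) + c 0 * (φ ^ 0) (w : Om)
        = b + c n * (φ ^ n) (w : Om) := by
      rw [← Finset.sum_range_succ' (fun i => c i * (φ ^ i) (w : Om)), Finset.sum_range_succ]
    rw [hc0, hcn, hφn _ w.2, pow_zero, AlgEquiv.one_apply] at h2
    rw [h1]
    exact add_right_cancel h2
  have hb0 : b ≠ 0 := hw
  refine ⟨b⁻¹, M.inv_mem hbM, inv_ne_zero hb0, ?_⟩
  rw [map_inv₀]
  have hφb : φ b ≠ 0 := by
    intro h0
    rw [h0, mul_zero] at hzb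
    exact hb0 hzb.symm
  have : z * b⁻¹ = z * (z * φ b)⁻¹ := by rw [hzb]
  rw [this]
  have hz0 : z ≠ 0 := by
    intro h0
    rw [h0, zero_mul] at hzb
    exact hb0 hzb.symm
  field_simp

end OzakiFree
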