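import Pool.Agent.Lib.MP_6e8030_nt.W.Base2

open IntermediateField
open scoped ComplexConjugate

noncomputable section

namespace OzakiFree

/-! ### E4: ramification index = order of inertia -/

open NumberField in
theorem E4_abstract (K L : Type) [Field K] [Field L] [NumberField K] [NumberField L] [Algebra K L]
    [IsGalois K L] (Q : Ideal (𝓞 L)) (hQ : Q.IsPrime) (hQ0 : Q ≠ ⊥) (b : 𝓞 K) (hb : b ≠ 0) :
    multiplicity Q (Ideal.span {algebraMap (𝓞 K) (𝓞 L) b}) =
      Nat.card (Q.inertia (L ≃ₐ[K] L)) * multiplicity (Q.under (𝓞 K)) (Ideal.span {b}) := by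
  classical
  have hinst : IsGaloisGroup (L ≃ₐ[K] L) (𝓞 K) (𝓞 L) :=
    IsGaloisGroup.of_isFractionRing _ (𝓞 K) (𝓞 L) K L
  have hover : Q.LiesOver (Q.under (𝓞 K)) := ⟨rfl⟩
  have hq0 : Q.under (𝓞 K) ≠ ⊥ := by
    intro h
    exact hQ0 (Ideal.eq_bot_of_comap_eq_bot h)
  have hqp : (Q.under (𝓞 K)).IsPrime := inferInstance
  have hqmax : (Q.under (𝓞 K)).IsMaximal := hqp.isMaximal hq0
  rw [Ideal.card_inertia_eq_ramificationIdxIn (G := L ≃ₐ[K] L) (Q.under (𝓞 K)) Q,
    Ideal.ramificationIdxIn_eq_ramificationIdx (Q.under (𝓞 K)) Q (L ≃ₐ[K] L),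
    ← Ideal.ramificationIdx'_eq_ramificationIdx (Q.under (𝓞 K)) Q hq0]
  have hbI : Ideal.span {b} ≠ ⊥ := by
    rw [Ne, Ideal.span_singleton_eq_bot]
    exact hb
  have hqi : Irreducible (Q.under (𝓞 K)) := (Ideal.prime_of_isPrime hq0 hqp).irreducible
  have hQi : Irreducible Q := (Ideal.prime_of_isPrime hQ0 hQ).irreducible
  have h1 := Ideal.IsDedekindDomain.emultiplicity_map_eq_ramificationIdx'_mul hbI hqi hQi hQ0
  rw [Ideal.map_span, Set.image_singleton] at h1
  have hf : FiniteMultiplicity (Q.under (𝓞 K)) (Ideal.span {b}) :=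
    FiniteMultiplicity.of_prime_left (Ideal.prime_of_isPrime hq0 hqp) hbI
  rw [hf.emultiplicity_eq_multiplicity] at h1
  have h2 : emultiplicity Q (Ideal.span {algebraMap (𝓞 K) (𝓞 L) b}) =
    (((Q.under (𝓞 K)).ramificationIdx' Q * multiplicity (Q.under (𝓞 K)) (Ideal.span {b}) : ℕ) : ℕ∞) := by
    rw [h1]
    push_cast
    rfl
  exact multiplicity_eq_of_emultiplicity_eq_some h2

theorem E4_cyclic (n : ℕ) (H : AddSubgroup (ZMod n)) : ∃ a ∈ H, Nat.card H = addOrderOf a := by
  obtain ⟨g, hg⟩ := IsAddCyclic.exists_generator (α := H)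
  refine ⟨g, g.2, ?_⟩
  rw [AddSubgroup.addOrderOf_coe]
  exact (addOrderOf_eq_card_of_forall_mem_zmultiples hg).symm

/-- PROOF. The ramification index `e` of `B ∩ M` over `B ∩ K` in the Galois extension `M/K` is the order of the inertia subgroup of `Gal(M/K)` (Mathlib `Ideal.card_inertia_eq_ramificationIdxIn` or as in `mult_ram`, U3.lean), which is the image of `I_B ⊓ K.fixingSubgroup` (`inertia_surj` is over `ℚ`; over `K` :
see U3.lean, or use compactness), so isomorphic to the subgroup `χ (I_B ⊓ K.fixingSubgroup)` of `ZMod (2 ^ t)`, which is cyclic: generated by some `χ ν`. Multiplicities: `(b) M = ∏ ...`, `multiplicity` is multiplied by `e` (U3.lean). -/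
theorem ram_index {t : ℕ} (K M : IntermediateField ℚ Om) [FiniteDimensional ℚ K]
    [FiniteDimensional ℚ M] (hKM : K ≤ M) (hst : ∀ g ∈ K.fixingSubgroup, ∀ x ∈ M, g x ∈ M)
    (χ : GQ → ZMod (2 ^ t)) (h1 : HomOn K.fixingSubgroup χ)
    (hM : ∀ g, g ∈ M.fixingSubgroup ↔ g ∈ K.fixingSubgroup ∧ χ g = 0) (B : Ideal ZO)
    (hB : B.IsMaximal) :
    ∃ ν ∈ B.inertia GQ, ν ∈ K.fixingSubgroup ∧ ∀ (b : ZF K) (b' : ZF M), b ≠ 0 → b'.val = b.val →
      multiplicity (B.comap (iota M)) (Ideal.span {b'}) =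
        addOrderOf (χ ν) * multiplicity (B.comap (iota K)) (Ideal.span {b}) := by
  classical
  have hcyc : CycDM (relfinrank K M) K M := ⟨hKM, rfl, hst⟩
  obtain ⟨alg, hval, hgal, -⟩ := U3_galois K M hcyc
  obtain ⟨hQ, hQ0⟩ := U3_comap_maximal M B hB
  have hone : χ 1 = 0 := by
    have := h1 1 (one_mem _) 1 (one_mem _)
    rw [mul_one] at this
    exact left_eq_add.1 this
  have hinv : ∀ g ∈ K.fixingSubgroup, χ g⁻¹ = - χ g := by
    intro g hg
    have := h1 g hg g⁻¹ (inv_mem hg)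
    rw [mul_inv_cancel, hone] at this
    exact (neg_eq_of_add_eq_zero_right this.symm).symm
  let H : AddSubgroup (ZMod (2 ^ t)) :=
    { carrier := {c | ∃ g ∈ B.inertia GQ, g ∈ K.fixingSubgroup ∧ χ g = c}
      zero_mem' := ⟨1, one_mem _, one_mem _, hone⟩
      add_mem' := by
        rintro _ _ ⟨g, hg, hgK, rfl⟩ ⟨g', hg', hgK', rfl⟩
        exact ⟨g * g', mul_mem hg hg', mul_mem hgK hgK', h1 g hgK g' hgK'⟩
      neg_mem' := by
        rintro _ ⟨g, hg, hgK, rfl⟩
        exact ⟨g⁻¹, inv_mem hg, inv_mem hgK, hinv g hgK⟩ }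
  obtain ⟨c, hcH, hcard⟩ := E4_cyclic _ H
  obtain ⟨ν, hν, hνK, hνc⟩ := hcH
  -- lifts
  have hlift : ∀ σ : (B.comap (iota M) : Ideal (NumberField.RingOfIntegers (FL M))).inertia
      (FL M ≃ₐ[FL K] FL M), ∃ g ∈ B.inertia GQ, g ∈ K.fixingSubgroup ∧
        ∀ x : FL M, g x.val = (σ.1 x).val := by
    rintro ⟨σ, hσ⟩
    let σ' : M ≃ₐ[ℚ] M := AlgEquiv.ofRingEquiv (f := (σ : FL M ≃+* FL M)) (fun r => by
      exact map_ratCast (σ : FL M ≃+* FL M) r)
    obtain ⟨g, hg, hg'⟩ := U3_surj M B hB σ' (by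
      intro z hz
      have hzi : IsIntegral ℤ (⟨(z : Om), hz⟩ : FL M) := by
        refine (isIntegral_algHom_iff (FLhom M).toIntAlgHom (FLhom M).injective).1 ?_
        exact z.2
      let y : ZF M := ⟨⟨(z : Om), hz⟩, hzi⟩
      refine ⟨_, hσ y, ?_⟩
      rfl)
    refine ⟨g, hg, ?_, fun x => hg' x⟩
    rw [IntermediateField.mem_fixingSubgroup_iff]
    intro x hx
    have h1 := hg' ⟨x, hKM hx⟩
    have h2 : σ (algebraMap (FL K) (FL M) ⟨x, hx⟩) = algebraMap (FL K) (FL M) ⟨x, hx⟩ :=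
      σ.commutes _
    have h3 : (algebraMap (FL K) (FL M) ⟨x, hx⟩) = (⟨x, hKM hx⟩ : M) := Subtype.ext (hval ⟨x, hx⟩)
    rw [h3] at h2
    have h4 := congrArg (fun y : FL M => y.val) h2
    exact h1.trans h4
  choose L hL1 hL2 hL3 using hlift
  have hinj : Function.Injective fun σ => χ (L σ) := by
    intro σ τ h
    have h5 : (L σ)⁻¹ * L τ ∈ M.fixingSubgroup := by
      rw [hM]
      refine ⟨mul_mem (inv_mem (hL2 σ)) (hL2 τ), ?_⟩
      rw [h1 _ (inv_mem (hL2 σ)) _ (hL2 τ), hinv _ (hL2 σ)]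
      have h' : χ (L σ) = χ (L τ) := h
      rw [h', neg_add_cancel]
    rw [IntermediateField.mem_fixingSubgroup_iff] at h5
    apply Subtype.ext
    apply AlgEquiv.ext
    intro x
    apply Subtype.ext
    have h6 := h5 x.val x.2
    have h7 : L τ x.val = L σ x.val := by
      have h8 := congrArg (L σ) h6
      have h9 : L σ (((L σ)⁻¹ * L τ) x.val) = L τ x.val := by
        rw [← AlgEquiv.mul_apply, mul_inv_cancel_left]
      rw [h9] at h8
      exact h8
    exact ((hL3 σ x).symm.trans h7.symm).trans (hL3 τ x)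
  have hrange : Set.range (fun σ => χ (L σ)) = (H : Set (ZMod (2 ^ t))) := by
    ext c'
    constructor
    · rintro ⟨σ, rfl⟩
      exact ⟨L σ, hL1 σ, hL2 σ, rfl⟩
    · rintro ⟨g, hg, hgK, rfl⟩
      let σ0 : FL M ≃ₐ[FL K] FL M :=
        { toFun := fun x => ⟨g x.val, hst g hgK _ x.2⟩
          invFun := fun x => ⟨g⁻¹ x.val, hst g⁻¹ (inv_mem hgK) _ x.2⟩
          left_inv := fun x => Subtype.ext (AlgEquiv.symm_apply_apply g x.val)
          right_inv := fun x => Subtype.ext (AlgEquiv.apply_symm_apply g x.val)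
          map_mul' := fun x y => Subtype.ext (map_mul g x.val y.val)
          map_add' := fun x y => Subtype.ext (map_add g x.val y.val)
          commutes' := fun x => by
            apply Subtype.ext
            change g (algebraMap (FL K) (FL M) x).val = (algebraMap (FL K) (FL M) x).val
            rw [hval x]
            exact fix_F hgK _ x.2 }
      have hσ0 : σ0 ∈ (B.comap (iota M) : Ideal (NumberField.RingOfIntegers (FL M))).inertia
          (FL M ≃ₐ[FL K] FL M) := by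
        intro z
        exact mem_inertia.1 hg (iota M z)
      refine ⟨⟨σ0, hσ0⟩, ?_⟩
      have h5 : (L ⟨σ0, hσ0⟩)⁻¹ * g ∈ M.fixingSubgroup := by
        rw [IntermediateField.mem_fixingSubgroup_iff]
        intro x hx
        have h6 : L ⟨σ0, hσ0⟩ x = g x := hL3 ⟨σ0, hσ0⟩ ⟨x, hx⟩
        rw [AlgEquiv.mul_apply, ← h6]
        exact AlgEquiv.symm_apply_apply _ x
      have h6 := ((hM _).1 h5).2
      rw [h1 _ (inv_mem (hL2 _)) _ hgK, hinv _ (hL2 _), neg_add_eq_zero] at h6
      exact h6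
  have hcard2 : Nat.card ((B.comap (iota M) : Ideal (NumberField.RingOfIntegers (FL M))).inertia
      (FL M ≃ₐ[FL K] FL M)) = addOrderOf (χ ν) := by
    rw [hνc, ← hcard]
    have h5 := Nat.card_congr (Equiv.ofInjective _ hinj)
    rw [h5, hrange]
    rfl
  refine ⟨ν, hν, hνK, ?_⟩
  intro b b' hb hbb
  have h5 := E4_abstract (FL K) (FL M) (B.comap (iota M)) hQ hQ0 b hb
  have h2 : b' = (algebraMap (NumberField.RingOfIntegers (FL K))
      (NumberField.RingOfIntegers (FL M)) b : NumberField.RingOfIntegers (FL M)) := by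
    apply ZF_val_inj
    rw [hbb]
    exact (hval b.1).symm
  have h3 : Ideal.under (NumberField.RingOfIntegers (FL K))
      (B.comap (iota M) : Ideal (NumberField.RingOfIntegers (FL M))) = B.comap (iota K) := by
    ext x
    have h4 : iota M (algebraMap (NumberField.RingOfIntegers (FL K))
      (NumberField.RingOfIntegers (FL M)) x) = iota K x := by
      apply Subtype.ext
      exact hval x.1
    change iota M (algebraMap (NumberField.RingOfIntegers (FL K))
      (NumberField.RingOfIntegers (FL M)) x) ∈ B ↔ iota K x ∈ B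
    rw [h4]
  rw [h3, hcard2] at h5
  rw [h2]
  exact h5

end OzakiFree
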