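import Pool.Agent.Lib.MP_6e8030_nt.W.Base2

open IntermediateField
open scoped ComplexConjugate

noncomputable section

namespace OzakiFree

/-! ### E5a: ideals with given multiplicities (pure commutative algebra) -/

private theorem E5a_prime {R : Type*} [CommRing R] [IsDedekindDomain R] (q : Ideal R)
    (hq : q.IsMaximal) (hq0 : q ≠ ⊥) : Prime q :=
  Ideal.prime_of_isPrime hq0 hq.isPrime

/-- the product of the powers `q ^ n q` -/
theorem exists_ideal {R : Type*} [CommRing R] [IsDedekindDomain R] (n : Ideal R → ℕ)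
    (hfin : {q : Ideal R | q.IsMaximal ∧ q ≠ ⊥ ∧ n q ≠ 0}.Finite) :
    ∃ I : Ideal R, I ≠ ⊥ ∧ ∀ q : Ideal R, q.IsMaximal → q ≠ ⊥ → multiplicity q I = n q := by
  classical
  have hmem : ∀ q, q ∈ hfin.toFinset ↔ (q.IsMaximal ∧ q ≠ ⊥ ∧ n q ≠ 0) := by
    intro q
    rw [Set.Finite.mem_toFinset]
    exact Iff.rfl
  have hne : (∏ q ∈ hfin.toFinset, q ^ n q) ≠ ⊥ := by
    refine Finset.prod_ne_zero_iff.2 ?_
    intro q hq
    have h := (hmem q).1 hq
    exact pow_ne_zero _ h.2.1
  refine ⟨∏ q ∈ hfin.toFinset, q ^ n q, hne, ?_⟩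
  intro q hq hq0
  have hp := E5a_prime q hq hq0
  have he : emultiplicity q (∏ p ∈ hfin.toFinset, p ^ n p) = (n q : ℕ∞) := by
    rw [Finset.emultiplicity_prod hp]
    have hterm : ∀ p ∈ hfin.toFinset, p ≠ q → emultiplicity q (p ^ n p) = 0 := by
      intro p hpm hpq
      rw [emultiplicity_eq_zero]
      intro hdvd
      have h1 : q ∣ p := hp.dvd_of_dvd_pow hdvd
      have h2 : p ≤ q := Ideal.le_of_dvd h1
      have h3 := ((hmem p).1 hpm).1.eq_of_le hq.ne_top h2
      exact hpq h3
    by_cases hqm : q ∈ hfin.toFinset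
    · rw [Finset.sum_eq_single q]
      · rw [(FiniteMultiplicity.of_prime_left hp (pow_ne_zero _ hp.ne_zero)).emultiplicity_eq_multiplicity,
          multiplicity_pow_self_of_prime hp]
      · intro p hpm hpq
        exact hterm p hpm hpq
      · intro h
        exact absurd hqm h
    · rw [Finset.sum_eq_zero]
      · have : n q = 0 := by
          by_contra h0
          exact hqm ((hmem q).2 ⟨hq, hq0, h0⟩)
        rw [this]
        rfl
      · intro p hpm
        refine hterm p hpm ?_
        intro hpq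
        rw [hpq] at hpm
        exact hqm hpm
  exact multiplicity_eq_of_emultiplicity_eq_some he

/-- two elements with the same multiplicities differ by a unit -/
theorem exists_unit_of_mult {R : Type*} [CommRing R] [IsDedekindDomain R] (x y : R) (hx : x ≠ 0)
    (hy : y ≠ 0) (h : ∀ q : Ideal R, q.IsMaximal → q ≠ ⊥ →
      multiplicity q (Ideal.span {x}) = multiplicity q (Ideal.span {y})) :
    ∃ η : Rˣ, x = η * y := by
  have hX : Ideal.span {x} ≠ (⊥ : Ideal R) := by
    rw [Ne, Ideal.span_singleton_eq_bot]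
    exact hx
  have hY : Ideal.span {y} ≠ (⊥ : Ideal R) := by
    rw [Ne, Ideal.span_singleton_eq_bot]
    exact hy
  have hall : ∀ p : Ideal R, Prime p → emultiplicity p (Ideal.span {x}) = emultiplicity p (Ideal.span {y}) := by
    intro p hp
    have hpm : p.IsMaximal := (Ideal.isPrime_of_prime hp).isMaximal hp.ne_zero
    have h1 := h p hpm hp.ne_zero
    rw [(FiniteMultiplicity.of_prime_left hp hX).emultiplicity_eq_multiplicity,
      (FiniteMultiplicity.of_prime_left hp hY).emultiplicity_eq_multiplicity, h1]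
  have hEq : Ideal.span {x} = Ideal.span {y} := by
    refine dvd_antisymm ?_ ?_
    · rw [UniqueFactorizationMonoid.dvd_iff_emultiplicity_le hX]
      intro p hp
      exact (hall p hp).le
    · rw [UniqueFactorizationMonoid.dvd_iff_emultiplicity_le hY]
      intro p hp
      exact (hall p hp).ge
  rw [Ideal.span_singleton_eq_span_singleton] at hEq
  obtain ⟨u, hu⟩ := hEq.symm
  exact ⟨u, by rw [← hu, mul_comm]⟩

/-- multiplicities add up -/
theorem mult_mul {R : Type*} [CommRing R] [IsDedekindDomain R] (q I J : Ideal R)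
    (hq : q.IsMaximal) (hq0 : q ≠ ⊥) (hI : I ≠ ⊥) (hJ : J ≠ ⊥) :
    multiplicity q (I * J) = multiplicity q I + multiplicity q J := by
  have hp := E5a_prime q hq hq0
  refine multiplicity_mul hp (FiniteMultiplicity.of_prime_left hp ?_)
  exact mul_ne_zero hI hJ

end OzakiFree
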