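import Pool.Agent.Lib.MP_6e8030_nt.W.E4
import Pool.Agent.Lib.MP_6e8030_nt.W.E5a

open IntermediateField
open scoped ComplexConjugate

noncomputable section

namespace OzakiFree

/-! ### E5: pigeonhole in the class group -/

private theorem E5_ded (F : IntermediateField ℚ Om) [FiniteDimensional ℚ F] :
    IsDedekindDomain (ZF F) :=
  inferInstanceAs (IsDedekindDomain (NumberField.RingOfIntegers (FL F)))

/-- a ring automorphism moves the multiplicities -/
private theorem E5_mult_equiv {M : IntermediateField ℚ Om} [FiniteDimensional ℚ M] (g : GQ) (hg : ∀ x ∈ M, g x ∈ M)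
    (hg' : ∀ x ∈ M, g⁻¹ x ∈ M) (B B' : Ideal ZO) (hmem : ∀ x : ZO, x ∈ B' ↔ g • x ∈ B)
    (α : ZF M) : multiplicity (B.comap (iota M)) (Ideal.span {actZ M g hg α}) =
      multiplicity (B'.comap (iota M)) (Ideal.span {α}) := by
  let e : ZF M ≃+* ZF M :=
    { actZ M g hg with
      invFun := actZ M g⁻¹ hg'
      left_inv := fun z => ZF_val_inj _ _ (g.symm_apply_apply z.val)
      right_inv := fun z => ZF_val_inj _ _ (g.apply_symm_apply z.val) }
  have he : ∀ z, e z = actZ M g hg z := fun z => rfl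
  have hcomap : B'.comap (iota M) = (B.comap (iota M)).comap (e : ZF M →+* ZF M) := by
    ext z
    exact hmem (iota M z)
  have hdM : IsDedekindDomain (ZF M) := E5_ded M
  refine multiplicity_eq_of_emultiplicity_eq ?_
  rw [emultiplicity_eq_emultiplicity_iff]
  intro n
  rw [Ideal.dvd_span_singleton, Ideal.dvd_span_singleton, hcomap]
  have h1 : ((B.comap (iota M)).comap (e : ZF M →+* ZF M)) ^ n =
      ((B.comap (iota M)) ^ n).comap (e : ZF M →+* ZF M) := by
    have h2 : ∀ I : Ideal (ZF M), I.comap (e : ZF M →+* ZF M) = I.map (e.symm : ZF M →+* ZF M) :=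
      fun I => (Ideal.map_symm e).symm
    rw [h2, h2, Ideal.map_pow]
  rw [h1]
  exact Iff.rfl

/-- `α` is associated to its conjugates over `K` -/
private def E5_SI (K M : IntermediateField ℚ Om) (α : ZF M) : Prop :=
  ∀ g ∈ K.fixingSubgroup, ∃ y : (ZF M)ˣ, g α.val = (y : ZF M).val * α.val

private theorem E5_semi {t : ℕ} (K M : IntermediateField ℚ Om)
    (hst : ∀ g ∈ K.fixingSubgroup, ∀ x ∈ M, g x ∈ M)
    (χ : GQ → ZMod (2 ^ t)) (h1 : HomOn K.fixingSubgroup χ)
    (hM : ∀ g, g ∈ M.fixingSubgroup ↔ g ∈ K.fixingSubgroup ∧ χ g = 0) (g₀ : GQ)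
    (hg₀ : g₀ ∈ K.fixingSubgroup) (hu : IsUnit (χ g₀)) (α : ZF M) (x : (ZF M)ˣ)
    (hx : g₀ α.val = (x : ZF M).val * α.val) : E5_SI K M α := by
  intro g hg
  have hne : NeZero (2 ^ t) := ⟨pow_ne_zero _ two_ne_zero⟩
  obtain ⟨c, hc⟩ := hu.exists_left_inv
  have hpow : ∀ i : ℕ, χ (g₀ ^ i) = i * χ g₀ := by
    intro i
    induction i with
    | zero =>
      have := h1 1 (one_mem _) 1 (one_mem _)
      rw [mul_one] at this
      rw [pow_zero, Nat.cast_zero, zero_mul]
      exact left_eq_add.1 this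
    | succ i ih =>
      rw [pow_succ, h1 _ (pow_mem hg₀ i) _ hg₀, ih]
      push_cast
      ring
  set i : ℕ := (χ g * c).val with hi
  have hχi : χ (g₀ ^ i) = χ g := by
    rw [hpow, hi, ZMod.natCast_zmod_val, mul_assoc, hc, mul_one]
  have hh : (g₀ ^ i)⁻¹ * g ∈ M.fixingSubgroup := by
    rw [hM]
    refine ⟨mul_mem (inv_mem (pow_mem hg₀ i)) hg, ?_⟩
    have h2 := h1 (g₀ ^ i) (pow_mem hg₀ i) ((g₀ ^ i)⁻¹ * g) (mul_mem (inv_mem (pow_mem hg₀ i)) hg)
    rw [mul_inv_cancel_left, hχi] at h2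
    exact left_eq_add.1 h2
  obtain ⟨y, hy⟩ := U6a_pow_assoc g₀ (hst g₀ hg₀) α x hx i
  refine ⟨y, ?_⟩
  rw [← hy]
  have h3 : ((g₀ ^ i)⁻¹ * g) α.val = α.val := fix_F hh _ (ZF_val_mem α)
  conv_rhs => rw [← h3]
  rw [← AlgEquiv.mul_apply, mul_inv_cancel_left]

private theorem E5_same {K M : IntermediateField ℚ Om} [FiniteDimensional ℚ K]
    [FiniteDimensional ℚ M]
    (hst : ∀ g ∈ K.fixingSubgroup, ∀ x ∈ M, g x ∈ M) (α : ZF M) (hα : E5_SI K M α)
    (B B' : Ideal ZO) (hB : B.IsMaximal) (hB' : B'.IsMaximal)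
    (h : B.comap (iota K) = B'.comap (iota K)) :
    multiplicity (B.comap (iota M)) (Ideal.span {α}) =
      multiplicity (B'.comap (iota M)) (Ideal.span {α}) := by
  obtain ⟨g, hg, hgB⟩ := trans_F K B B' hB hB' h
  obtain ⟨y, hy⟩ := hα g hg
  rw [← E5_mult_equiv g (hst g hg) (hst g⁻¹ (inv_mem hg)) B B' hgB α]
  have h1 : actZ M g (hst g hg) α = α * (y : ZF M) := by
    apply ZF_val_inj
    rw [actZ_val, hy, mul_comm]
    rfl
  have h2 : (Ideal.span {α * (y : ZF M)} : Ideal (ZF M)) = Ideal.span {α} :=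
    Ideal.span_singleton_mul_right_unit y.isUnit α
  rw [h1, h2]

private theorem E5_SI_mul {K M : IntermediateField ℚ Om} (hKM : K ≤ M) (a : ZF K) (α : ZF M)
    (hα : E5_SI K M α) : E5_SI K M (U6a_incl hKM a * α) := by
  intro g hg
  obtain ⟨y, hy⟩ := hα g hg
  refine ⟨y, ?_⟩
  show g (a.val * α.val) = (y : ZF M).val * (a.val * α.val)
  rw [map_mul, hy, fix_F hg _ (ZF_val_mem a)]
  ring

private theorem E5_incl_ne {K M : IntermediateField ℚ Om} (hKM : K ≤ M) {a : ZF K} (ha : a ≠ 0) :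
    U6a_incl hKM a ≠ 0 := by
  intro h
  apply ha
  apply ZF_val_inj
  exact congrArg (fun z : ZF M => z.val) h

/-- finitely many maximal ideals contain `α ≠ 0` -/
private theorem E5_fin {R : Type*} [CommRing R] [IsDedekindDomain R] (α : R)
    (hα : α ≠ 0) : {Q : Ideal R | Q.IsMaximal ∧ α ∈ Q}.Finite := by
  have hI : Ideal.span {α} ≠ 0 := by
    rw [Ne, Ideal.zero_eq_bot, Ideal.span_singleton_eq_bot]
    exact hα
  refine (((Ideal.finite_factors hI).image fun v => v.asIdeal)).subset ?_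
  rintro q ⟨hq, hDq⟩
  have hq0 : q ≠ ⊥ := by
    intro h
    rw [h, Ideal.mem_bot] at hDq
    exact hα hDq
  refine ⟨⟨q, hq.isPrime, hq0⟩, ?_, rfl⟩
  show q ∣ Ideal.span {α}
  rw [Ideal.dvd_iff_le, Ideal.span_singleton_le_iff_mem]
  exact hDq

/-- PROOF. `O = ZF M`, `σ` = action of `g₀` on `M`; the powers of `g₀` represent `K.fixingSubgroup / M.fixingSubgroup`. Let `α ≠ 0`, `g₀ α = x α` with a unit `x`. For a maximal ideal `q ≠ ⊥` of `ZF K` choose `B` over `q`; `n_q := multiplicity (B ∩ M) (α)` does not depend on `B` (the `B` over `q` are conjugate under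
`K.fixingSubgroup`, and `g (α) = (α)`), `e_q` := the number of `ram_index` (1 if `q ≠ q₀ = B₀ ∩ K` by `hram`; for `q₀` it is `e = addOrderOf (χ ν)`). Let `I(α)` be the ideal of `ZF K` with multiplicities `⌊n_q / e_q⌋` (`exists_ideal`; `n_q ≠ 0` for finitely many `q`) and `j(α) = n_{q₀} mod e`. If more than `h e` such
`α`'s are given (`h` class number), two of them, `α, α'`, have the same `j` and `I(α), I(α')` in the same ideal class: `(a) I(α) = (a') I(α')`, `a, a' ∈ ZF K` nonzero. Then `a α` and `a' α'` have the same multiplicities at all maximal ideals of `O` (`ram_index`, `mult_mul`), so `a α = η a' α'` with a unit `η`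
(`exists_unit_of_mult`), and dividing `g₀ (..)`: `x = (σ η / η) x'`. Apply this to representatives `x` of `ker N / (σ - 1)`: each is `σ α / α` by `hilb`. (If the index is infinite, `relIndex = 0` and there is nothing to prove.) -/
theorem h1_bound {t : ℕ} (K M : IntermediateField ℚ Om) [FiniteDimensional ℚ K]
    [FiniteDimensional ℚ M] (hKM : K ≤ M) (hst : ∀ g ∈ K.fixingSubgroup, ∀ x ∈ M, g x ∈ M)
    (χ : GQ → ZMod (2 ^ t)) (h1 : HomOn K.fixingSubgroup χ)
    (hM : ∀ g, g ∈ M.fixingSubgroup ↔ g ∈ K.fixingSubgroup ∧ χ g = 0) (g₀ : GQ)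
    (hg₀ : g₀ ∈ K.fixingSubgroup) (hu : IsUnit (χ g₀)) (B₀ : Ideal ZO) (hB₀ : B₀.IsMaximal)
    (hram : ∀ B : Ideal ZO, B.IsMaximal → ∀ g ∈ B.inertia GQ, g ∈ K.fixingSubgroup → χ g ≠ 0 →
      B.comap (iota K) = B₀.comap (iota K))
    (hilb : ∀ x : ZF M, (∏ i ∈ Finset.range (2 ^ t), (g₀ ^ i) x.val = 1) →
      ∃ α : ZF M, α ≠ 0 ∧ g₀ α.val = x.val * α.val) :
    ∃ ν ∈ B₀.inertia GQ, ν ∈ K.fixingSubgroup ∧
      (AddMonoidHom.range (actU M g₀ (hst g₀ hg₀) - 1)).relIndex
        (AddMonoidHom.ker (∑ i ∈ Finset.range (2 ^ t), (actU M g₀ (hst g₀ hg₀)) ^ i)) ≤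
        NumberField.classNumber (FL K) * addOrderOf (χ ν) := by
  classical
  have hdK : IsDedekindDomain (ZF K) := E5_ded K
  have hdM : IsDedekindDomain (ZF M) := E5_ded M
  have hne : NeZero (2 ^ t) := ⟨pow_ne_zero _ two_ne_zero⟩
  -- the choice of a maximal ideal above `q`
  have hB : ∀ q : Ideal (ZF K), ∃ B : Ideal ZO, B.IsMaximal ∧
      (q.IsMaximal → B.comap (iota K) = q) ∧ (q = B₀.comap (iota K) → B = B₀) := by
    intro q
    by_cases h : q = B₀.comap (iota K)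
    · exact ⟨B₀, hB₀, fun _ => h.symm, fun _ => rfl⟩
    by_cases hq : q.IsMaximal
    · obtain ⟨B, hB, hBq⟩ := exists_over K q hq
      exact ⟨B, hB, fun _ => hBq, fun h' => absurd h' h⟩
    · exact ⟨B₀, hB₀, fun h' => absurd h' hq, fun h' => absurd h' h⟩
  choose Bq hBq1 hBq2 hBq3 using hB
  choose ν hν1 hν2 hν3 using fun q => ram_index K M hKM hst χ h1 hM (Bq q) (hBq1 q)
  obtain ⟨e, he⟩ : ∃ e : Ideal (ZF K) → ℕ, ∀ q, e q = addOrderOf (χ (ν q)) := ⟨_, fun _ => rfl⟩
  have hepos : ∀ q, 0 < e q := fun q => by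
    rw [he]
    exact addOrderOf_pos _
  have he1 : ∀ q, q.IsMaximal → q ≠ B₀.comap (iota K) → e q = 1 := by
    intro q hq hq0
    rw [he]
    have h2 : χ (ν q) = 0 := by
      by_contra hχ
      exact hq0 ((hBq2 q hq).symm.trans (hram (Bq q) (hBq1 q) (ν q) (hν1 q) (hν2 q) hχ))
    rw [h2, addOrderOf_zero]
  refine ⟨ν (B₀.comap (iota K)), by
    have h2 := hν1 (B₀.comap (iota K))
    rw [hBq3 _ rfl] at h2
    exact h2, hν2 _, ?_⟩
  rw [← he]
  obtain ⟨v, hv⟩ : ∃ v : Ideal (ZF K) → ZF M → ℕ, ∀ q α, v q α =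
    multiplicity ((Bq q).comap (iota M)) (Ideal.span {α}) := ⟨_, fun _ _ => rfl⟩
  -- the ideal of `α`
  have hI : ∀ α : ZF M, α ≠ 0 → ∃ I : Ideal (ZF K), I ≠ ⊥ ∧ ∀ q : Ideal (ZF K), q.IsMaximal →
      q ≠ ⊥ → multiplicity q I = v q α / e q := by
    intro α hα
    refine exists_ideal (fun q => v q α / e q) ?_
    refine Set.Finite.of_injOn (f := fun q => (Bq q).comap (iota M))
      (t := {Q : Ideal (ZF M) | Q.IsMaximal ∧ α ∈ Q}) ?_ ?_ (E5_fin α hα)
    · rintro q ⟨hq, -, hq1⟩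
      refine ⟨comap_max M (Bq q) (hBq1 q), ?_⟩
      have h2 : v q α ≠ 0 := by
        intro h0
        exact hq1 (by show v q α / e q = 0; rw [h0, Nat.zero_div])
      rw [hv] at h2
      by_contra h3
      apply h2
      rw [multiplicity_eq_zero, Ideal.dvd_span_singleton]
      exact h3
    · rintro q ⟨hq, -, -⟩ q' ⟨hq', -, -⟩ hqq
      have h2 := comap_lower hKM (Bq q) (Bq q') hqq
      rw [hBq2 q hq, hBq2 q' hq'] at h2
      exact h2
  -- the comparison
  have key : ∀ (α α' : ZF M) (x x' : (ZF M)ˣ) (hα : α ≠ 0) (hα' : α' ≠ 0)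
      (I I' : Ideal (ZF K)) (hI0 : I ≠ ⊥) (hI0' : I' ≠ ⊥),
      (∀ q : Ideal (ZF K), q.IsMaximal → q ≠ ⊥ → multiplicity q I = v q α / e q) →
      (∀ q : Ideal (ZF K), q.IsMaximal → q ≠ ⊥ → multiplicity q I' = v q α' / e q) →
      g₀ α.val = (x : ZF M).val * α.val → g₀ α'.val = (x' : ZF M).val * α'.val →
      (∃ (a a' : ZF K) (_ : a ≠ 0) (_ : a' ≠ 0), Ideal.span {a} * I = Ideal.span {a'} * I') →
      v (B₀.comap (iota K)) α % e (B₀.comap (iota K)) =
        v (B₀.comap (iota K)) α' % e (B₀.comap (iota K)) →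
      Additive.ofMul x - Additive.ofMul x' ∈
        AddMonoidHom.range (actU M g₀ (hst g₀ hg₀) - 1) := by
    intro α α' x x' hα hα' I I' hI0 hI0' hIm hIm' hx hx' hcl hj
    obtain ⟨a, a', ha, ha', haa⟩ := hcl
    have hSI := E5_semi K M hst χ h1 hM g₀ hg₀ hu α x hx
    have hSI' := E5_semi K M hst χ h1 hM g₀ hg₀ hu α' x' hx'
    have hgen : ∀ (β : ZF M) (b : ZF K) (J : Ideal (ZF K)), β ≠ 0 → b ≠ 0 → J ≠ ⊥ →
        E5_SI K M β →
        (∀ q : Ideal (ZF K), q.IsMaximal → q ≠ ⊥ → multiplicity q J = v q β / e q) →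
        ∀ B : Ideal ZO, B.IsMaximal →
          multiplicity (B.comap (iota M)) (Ideal.span {U6a_incl hKM b * β}) =
            e (B.comap (iota K)) * multiplicity (B.comap (iota K)) (Ideal.span {b} * J) +
              v (B.comap (iota K)) β % e (B.comap (iota K)) := by
      intro β b J hβ hb hJ0 hβS hJ B hB
      have hq := comap_max K B hB
      have hq0 := (U3_comap_maximal K B hB).2
      have h2 := E5_same hst _ (E5_SI_mul hKM b β hβS) B (Bq (B.comap (iota K))) hB (hBq1 _)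
        (hBq2 _ hq).symm
      rw [h2, U6a_mult_mul _ (comap_max M _ (hBq1 _)) _ _ (E5_incl_ne hKM hb) hβ,
        ← hv (B.comap (iota K)) β,
        hν3 (B.comap (iota K)) b (U6a_incl hKM b) hb rfl, ← he, hBq2 _ hq,
        mult_mul _ _ _ hq hq0 (by rwa [Ne, Ideal.span_singleton_eq_bot]) hJ0, hJ _ hq hq0]
      have h3 := Nat.div_add_mod (v (B.comap (iota K)) β) (e (B.comap (iota K)))
      rw [mul_add, add_assoc, h3]
    have hunit := exists_unit_of_mult (U6a_incl hKM a * α) (U6a_incl hKM a' * α')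
      (mul_ne_zero (E5_incl_ne hKM ha) hα) (mul_ne_zero (E5_incl_ne hKM ha') hα') (by
        intro Q hQ _
        obtain ⟨B, hB, rfl⟩ := exists_over M Q hQ
        rw [hgen α a I hα ha hI0 hSI hIm B hB, hgen α' a' I' hα' ha' hI0' hSI' hIm' B hB, haa]
        congr 1
        by_cases hq : B.comap (iota K) = B₀.comap (iota K)
        · rw [hq]
          exact hj
        · rw [he1 _ (comap_max K B hB) hq, Nat.mod_one, Nat.mod_one])
    obtain ⟨η, hη⟩ := hunit
    have e1 : a.val * α.val = (η : ZF M).val * (a'.val * α'.val) :=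
      congrArg (fun z : ZF M => z.val) hη
    have e2 := congrArg g₀ e1
    rw [map_mul, map_mul, map_mul, hx, hx', fix_F hg₀ _ (ZF_val_mem a),
      fix_F hg₀ _ (ZF_val_mem a')] at e2
    have hne' : a'.val * α'.val ≠ 0 := by
      refine mul_ne_zero (fun h => ha' (ZF_val_inj _ _ h)) (fun h => hα' (ZF_val_inj _ _ h))
    have e3 : (x : ZF M).val * (η : ZF M).val = g₀ (η : ZF M).val * (x' : ZF M).val := by
      apply mul_right_cancel₀ hne'
      calc (x : ZF M).val * (η : ZF M).val * (a'.val * α'.val)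
          = (x : ZF M).val * ((η : ZF M).val * (a'.val * α'.val)) := by ring
        _ = a.val * ((x : ZF M).val * α.val) := by rw [← e1]; ring
        _ = _ := by rw [e2]; ring
    refine ⟨Additive.ofMul η, ?_⟩
    show actU M g₀ (hst g₀ hg₀) (Additive.ofMul η) - Additive.ofMul η = _
    rw [sub_eq_sub_iff_add_eq_add]
    apply U6a_units_ext
    show g₀ (η : ZF M).val * (x' : ZF M).val = (x : ZF M).val * (η : ZF M).val
    exact e3.symm
  -- the pigeonhole
  have hx : ∀ u : AddMonoidHom.ker (∑ i ∈ Finset.range (2 ^ t), (actU M g₀ (hst g₀ hg₀)) ^ i),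
      ∃ α : ZF M, α ≠ 0 ∧ g₀ α.val = (((u : UA M).toMul : (ZF M)ˣ) : ZF M).val * α.val := by
    intro u
    refine hilb _ ?_
    have h2 := U6a_norm_val M g₀ (hst g₀ hg₀) (2 ^ t) (u : UA M)
    have h3 := AddMonoidHom.mem_ker.1 u.2
    exact h2.symm.trans (congrArg (fun w : UA M => ((w.toMul : (ZF M)ˣ) : ZF M).val) h3)
  choose α hα hαx using hx
  choose I hI0 hIm using fun u => hI (α u) (hα u)
  let J : AddMonoidHom.ker (∑ i ∈ Finset.range (2 ^ t), (actU M g₀ (hst g₀ hg₀)) ^ i) →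
      ClassGroup (ZF K) × Fin (e (B₀.comap (iota K))) := fun u =>
    (ClassGroup.mk0 ⟨I u, mem_nonZeroDivisors_iff_ne_zero.2 (hI0 u)⟩,
      ⟨v (B₀.comap (iota K)) (α u) % e (B₀.comap (iota K)), Nat.mod_lt _ (hepos _)⟩)
  have hfinC : Finite (ClassGroup (ZF K)) :=
    inferInstanceAs (Finite (ClassGroup (NumberField.RingOfIntegers (FL K))))
  have hcardC : Nat.card (ClassGroup (ZF K)) = NumberField.classNumber (FL K) := by
    show Nat.card (ClassGroup (NumberField.RingOfIntegers (FL K))) = _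
    rw [Nat.card_eq_fintype_card]
    rfl
  have hinj : Function.Injective (fun q : AddMonoidHom.ker
      (∑ i ∈ Finset.range (2 ^ t), (actU M g₀ (hst g₀ hg₀)) ^ i) ⧸
      (AddMonoidHom.range (actU M g₀ (hst g₀ hg₀) - 1)).addSubgroupOf _ => J q.out) := by
    intro q q' hqq
    have hqq' : J q.out = J q'.out := hqq
    have h2 : ClassGroup.mk0 ⟨I q.out, mem_nonZeroDivisors_iff_ne_zero.2 (hI0 q.out)⟩ =
        ClassGroup.mk0 ⟨I q'.out, mem_nonZeroDivisors_iff_ne_zero.2 (hI0 q'.out)⟩ :=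
      (Prod.ext_iff.1 hqq').1
    have h3 : v (B₀.comap (iota K)) (α q.out) % e (B₀.comap (iota K)) =
        v (B₀.comap (iota K)) (α q'.out) % e (B₀.comap (iota K)) :=
      congrArg Fin.val (Prod.ext_iff.1 hqq').2
    obtain ⟨a, b, ha, hb, hab⟩ := ClassGroup.mk0_eq_mk0_iff.1 h2.symm
    have h4 := key (α q'.out) (α q.out) (q'.out : UA M).toMul (q.out : UA M).toMul (hα q'.out)
      (hα q.out) (I q'.out) (I q.out) (hI0 q'.out) (hI0 q.out) (hIm q'.out) (hIm q.out)
      (hαx q'.out) (hαx q.out) ⟨a, b, ha, hb, hab⟩ h3.symm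
    rw [← QuotientAddGroup.out_eq' q, ← QuotientAddGroup.out_eq' q', QuotientAddGroup.eq,
      AddSubgroup.mem_addSubgroupOf]
    rw [sub_eq_neg_add] at h4
    exact h4
  have h2 := Nat.card_le_card_of_injective _ hinj
  rw [Nat.card_prod, Nat.card_fin, hcardC] at h2
  exact h2

end OzakiFree
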