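import Pool.Agent.Lib.MP_6e8030_nt.W.E0
import Pool.Agent.Lib.MP_6e8030_nt.W.E1c
import Pool.Agent.Lib.MP_6e8030_nt.W.E2
import Pool.Agent.Lib.MP_6e8030_nt.W.E2b
import Pool.Agent.Lib.MP_6e8030_nt.W.E3
import Pool.Agent.Lib.MP_6e8030_nt.W.E5

open IntermediateField
open scoped ComplexConjugate

noncomputable section

namespace OzakiFree

/-! ### E6: units are almost norms -/

private theorem E6_one {P : Subgroup GQ} {n : ℕ} {χ : GQ → ZMod n} (h : HomOn P χ) : χ 1 = 0 := by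
  have h1 := h 1 (one_mem _) 1 (one_mem _)
  rw [mul_one] at h1
  exact left_eq_add.1 h1

private theorem E6_pow {P : Subgroup GQ} {n : ℕ} {χ : GQ → ZMod n} (h : HomOn P χ) {g : GQ}
    (hg : g ∈ P) (i : ℕ) : χ (g ^ i) = (i : ZMod n) * χ g := by
  induction i with
  | zero => rw [pow_zero, E6_one h, Nat.cast_zero, zero_mul]
  | succ i ih =>
    rw [pow_succ, h _ (pow_mem hg i) _ hg, ih, Nat.cast_succ]
    ring

private theorem E6_inv {P : Subgroup GQ} {n : ℕ} {χ : GQ → ZMod n} (h : HomOn P χ) {g : GQ}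
    (hg : g ∈ P) : χ g⁻¹ = -χ g := by
  have h1 := h g⁻¹ (inv_mem hg) g hg
  rw [inv_mul_cancel, E6_one h] at h1
  exact eq_neg_of_add_eq_zero_left h1.symm

private theorem E6_fix (τ : GQ) (x : Om) (h : τ x = x) (c : ℕ) : (τ ^ c) x = x := by
  induction c with
  | zero => rfl
  | succ c ih => rw [pow_succ, AlgEquiv.mul_apply, h, ih]

/-- the ranks of the layers -/
private theorem E6_layer {t : ℕ} (K M : IntermediateField ℚ Om) [FiniteDimensional ℚ K]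
    [FiniteDimensional ℚ M] (hst : ∀ g ∈ K.fixingSubgroup, ∀ x ∈ M, g x ∈ M)
    (χ : GQ → ZMod (2 ^ t)) (h1 : HomOn K.fixingSubgroup χ) (h2 : LCOn K.fixingSubgroup χ)
    (hM : ∀ g, g ∈ M.fixingSubgroup ↔ g ∈ K.fixingSubgroup ∧ χ g = 0) (g₀ : GQ)
    (hg₀ : g₀ ∈ K.fixingSubgroup) (hu : IsUnit (χ g₀))
    (hconj : ∀ (φ : Om →+* ℂ) (c : GQ), (∀ x, φ (c x) = conj (φ x)) → c ∈ K.fixingSubgroup →
      χ c = 0) (j : ℕ) (hj : j ≤ t) :
    Module.finrank ℤ (AddMonoidHom.ker ((actU M g₀ (hst g₀ hg₀)) ^ (2 ^ j) - 1)) + 1 =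
      2 ^ j * (Module.finrank ℤ (UA K) + 1) := by
  have hnt : NeZero (2 ^ t : ℕ) := ⟨by positivity⟩
  have hnj : NeZero (2 ^ j : ℕ) := ⟨by positivity⟩
  let f : ZMod (2 ^ t) →+* ZMod (2 ^ j) := ZMod.castHom (pow_dvd_pow 2 hj) (ZMod (2 ^ j))
  let χ' : GQ → ZMod (2 ^ j) := fun g => f (χ g)
  have h1' : HomOn K.fixingSubgroup χ' := fun g hg h hh => by
    show f (χ (g * h)) = f (χ g) + f (χ h)
    rw [h1 g hg h hh, map_add]
  have h2' : LCOn K.fixingSubgroup χ' := by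
    obtain ⟨U, hU, hUχ⟩ := h2
    refine ⟨U, hU, fun g hg u hu huK => ?_⟩
    show f (χ (g * u)) = f (χ g)
    rw [hUχ g hg u hu huK]
  obtain ⟨D, hDfin, hKD, hDst, hDfix, hDdeg⟩ := field_of_chi K χ' h1' h2'
  have hdeg : relfinrank K D = 2 ^ j := hDdeg g₀ hg₀ (hu.map f)
  have hMfix : ∀ g ∈ M.fixingSubgroup, g ∈ D.fixingSubgroup := by
    intro g hg
    rw [hDfix]
    obtain ⟨h3, h4⟩ := (hM g).1 hg
    refine ⟨h3, ?_⟩
    show f (χ g) = 0
    rw [h4, map_zero]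
  have hDM : D ≤ M := by
    intro x hx
    rw [← InfiniteGalois.fixedField_fixingSubgroup M, IntermediateField.mem_fixedField_iff]
    intro g hg
    exact (IntermediateField.mem_fixingSubgroup_iff D g).1 (hMfix g hg) x hx
  have hfix : ∀ x ∈ M, (g₀ ^ (2 ^ j)) x = x ↔ x ∈ D := by
    intro x hx
    constructor
    · intro h3
      rw [← InfiniteGalois.fixedField_fixingSubgroup D, IntermediateField.mem_fixedField_iff]
      intro g hg
      obtain ⟨h4, h5⟩ := (hDfix g).1 hg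
      have h6 : ∃ c : ℕ, χ g = ((2 ^ j * c : ℕ) : ZMod (2 ^ t)) * χ g₀ := by
        obtain ⟨v, hv⟩ := hu
        have h7 : f (χ g * ((v⁻¹ : (ZMod (2 ^ t))ˣ) : ZMod (2 ^ t))) = 0 := by
          have h8 : f (χ g) = 0 := h5
          rw [map_mul, h8, zero_mul]
        rw [← ZMod.natCast_zmod_val (χ g * ((v⁻¹ : (ZMod (2 ^ t))ˣ) : ZMod (2 ^ t))), map_natCast,
          ZMod.natCast_eq_zero_iff] at h7
        obtain ⟨c, hc⟩ := h7
        refine ⟨c, ?_⟩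
        rw [← hc, ZMod.natCast_zmod_val, ← hv, mul_assoc, Units.inv_mul, mul_one]
      obtain ⟨c, hc⟩ := h6
      have h7 : (g₀ ^ (2 ^ j * c))⁻¹ * g ∈ M.fixingSubgroup := by
        rw [hM]
        refine ⟨mul_mem (inv_mem (pow_mem hg₀ _)) h4, ?_⟩
        rw [h1 _ (inv_mem (pow_mem hg₀ _)) _ h4, E6_inv h1 (pow_mem hg₀ _), E6_pow h1 hg₀, hc,
          neg_add_cancel]
      have h8 : g = g₀ ^ (2 ^ j * c) * ((g₀ ^ (2 ^ j * c))⁻¹ * g) := by group
      rw [h8, AlgEquiv.mul_apply, (IntermediateField.mem_fixingSubgroup_iff M _).1 h7 x hx, pow_mul]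
      exact E6_fix _ x h3 c
    · intro h3
      have h4 : g₀ ^ (2 ^ j) ∈ D.fixingSubgroup := by
        rw [hDfix]
        refine ⟨pow_mem hg₀ _, ?_⟩
        rw [E6_pow h1' hg₀, ZMod.natCast_self, zero_mul]
      exact (IntermediateField.mem_fixingSubgroup_iff D _).1 h4 x h3
  rw [rank_ker D M hDM g₀ (hst g₀ hg₀) (2 ^ j) hfix, rank_unram K D hKD hDst, hdeg]
  intro φ c hc hcK
  rw [hDfix]
  refine ⟨hcK, ?_⟩
  show f (χ c) = 0
  rw [hconj φ c hc hcK, map_zero]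

/-- PROOF. `M` from `field_of_chi`, `n = 2 ^ t = [M:K]`, `σ = actU M g₀`. For `j ≤ t` the field `M_j` of `{g | 2 ^ (t-j) χ g = 0}`: (`field_of_chi` for `2 ^ (t-j) χ`) `K ≤ M_j ≤ M`, `[M_j : K] = 2 ^ j`, and it is the fixed field of `g₀ ^ (2 ^ j)` in `M`. So `rank ker (σ ^ (2 ^ j) - 1) + 1 = 2 ^ j (rank UA K + 1)`
(`rank_ker`, `rank_unram`, `hconj`), `herbrand2` with `r = rank UA K + 1`. `hilbert90n` for `M`, `g₀` gives the hypothesis `hilb` of `h1_bound` (clear denominators with an element of `ℤ`). So with `h0 = [ker (σ-1) : N UA]`, `h` class number, `e = addOrderOf (χ ν)`: `2 ^ t h0 ≤ h e`, `0 < h0`, `e ≤ 2 ^ t`, so `h0 ≤ h` and `2 ^ t ≤ h e ≤ h! e`.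
A unit `u` of `K` is in `ker (σ - 1)`, and `h0 ∣ h!`, so `u ^ (h!) = N β`. -/
theorem units_norm {t : ℕ} (K : IntermediateField ℚ Om) [FiniteDimensional ℚ K]
    (χ : GQ → ZMod (2 ^ t)) (h1 : HomOn K.fixingSubgroup χ) (h2 : LCOn K.fixingSubgroup χ) (g₀ : GQ)
    (hg₀ : g₀ ∈ K.fixingSubgroup) (hu : IsUnit (χ g₀)) (B₀ : Ideal ZO) (hB₀ : B₀.IsMaximal)
    (hram : ∀ B : Ideal ZO, B.IsMaximal → ∀ g ∈ B.inertia GQ, g ∈ K.fixingSubgroup → χ g ≠ 0 →
      B.comap (iota K) = B₀.comap (iota K))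
    (hconj : ∀ (φ : Om →+* ℂ) (c : GQ), (∀ x, φ (c x) = conj (φ x)) → c ∈ K.fixingSubgroup →
      χ c = 0) :
    (∀ u : (ZF K)ˣ, ∃ β : Om, β ≠ 0 ∧ (∀ g ∈ K.fixingSubgroup, χ g = 0 → g β = β) ∧
      ∏ i ∈ Finset.range (2 ^ t), (g₀ ^ i) β =
        (u : ZF K).val ^ (NumberField.classNumber (FL K)).factorial) ∧
    ∃ ν ∈ B₀.inertia GQ, ν ∈ K.fixingSubgroup ∧
      2 ^ t ≤ (NumberField.classNumber (FL K)).factorial * addOrderOf (χ ν) := by
  have hnt : NeZero (2 ^ t : ℕ) := ⟨by positivity⟩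
  have h2t : 0 < 2 ^ t := by positivity
  obtain ⟨M, hMfin, hKM, hst, hM, -⟩ := field_of_chi K χ h1 h2
  have hfin := units_finite M
  have hg₀n : ∀ x ∈ M, (g₀ ^ (2 ^ t)) x = x := by
    have h3 : g₀ ^ (2 ^ t) ∈ M.fixingSubgroup := by
      rw [hM]
      refine ⟨pow_mem hg₀ _, ?_⟩
      rw [E6_pow h1 hg₀, ZMod.natCast_self, zero_mul]
    exact (IntermediateField.mem_fixingSubgroup_iff M _).1 h3
  have hσ : (actU M g₀ (hst g₀ hg₀)) ^ (2 ^ t) = 1 := by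
    refine AddMonoidHom.ext fun u => U6a_units_ext ?_
    refine (U6a_pow_val M g₀ (hst g₀ hg₀) (2 ^ t) u).trans ?_
    exact hg₀n _ (ZF_val_mem _)
  obtain ⟨hr0, hr⟩ := herbrand2 (actU M g₀ (hst g₀ hg₀)) hσ (Module.finrank ℤ (UA K) + 1)
    fun j hj => E6_layer K M hst χ h1 h2 hM g₀ hg₀ hu hconj j hj
  have hilb : ∀ x : ZF M, (∏ i ∈ Finset.range (2 ^ t), (g₀ ^ i) x.val = 1) →
      ∃ α : ZF M, α ≠ 0 ∧ g₀ α.val = x.val * α.val := by
    intro x hx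
    have hne : ∀ i, 0 < i → i < 2 ^ t → ∃ x ∈ M, (g₀ ^ i) x ≠ x := by
      intro i hi0 hin
      by_contra hno
      push Not at hno
      have h3 : g₀ ^ i ∈ M.fixingSubgroup := (IntermediateField.mem_fixingSubgroup_iff M _).2 hno
      have h4 := ((hM _).1 h3).2
      rw [E6_pow h1 hg₀, hu.mul_left_eq_zero, ZMod.natCast_eq_zero_iff] at h4
      exact absurd (Nat.le_of_dvd hi0 h4) (by omega)
    obtain ⟨y, hyM, hy0, hy⟩ := hilbert90n M g₀ (hst g₀ hg₀) (2 ^ t) h2t hg₀n hne x.val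
      (ZF_val_mem x) hx
    have halg : IsAlgebraic ℤ y := by
      have h3 : IsAlgebraic ℚ y := Algebra.IsAlgebraic.isAlgebraic y
      exact (IsFractionRing.isAlgebraic_iff ℤ ℚ Om).2 h3
    obtain ⟨n, hn0, hn⟩ := halg.exists_integral_multiple
    have hmem : n • y ∈ M := zsmul_mem hyM n
    refine ⟨⟨(⟨n • y, hmem⟩ : FL M), ?_⟩, ?_, ?_⟩
    · refine (isIntegral_algHom_iff (FLhom M).toIntAlgHom (FLhom M).injective).1 ?_
      exact hn
    · intro h0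
      have h3 : n • y = 0 := congrArg ZF.val h0
      rcases smul_eq_zero.1 h3 with h4 | h4
      · exact hn0 h4
      · exact hy0 h4
    · show g₀ (n • y) = x.val * (n • y)
      rw [map_zsmul, hy, mul_smul_comm]
  obtain ⟨ν, hν, hνK, hle⟩ := h1_bound K M hKM hst χ h1 hM g₀ hg₀ hu B₀ hB₀ hram hilb
  rw [← hr] at hle
  set h0 := (AddMonoidHom.range (∑ i ∈ Finset.range (2 ^ t),
    (actU M g₀ (hst g₀ hg₀)) ^ i)).relIndex (AddMonoidHom.ker (actU M g₀ (hst g₀ hg₀) - 1)) with hh0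
  set h := NumberField.classNumber (FL K) with hh
  have he : addOrderOf (χ ν) ≤ 2 ^ t := by
    refine Nat.le_of_dvd h2t ?_
    have h3 := addOrderOf_dvd_card (x := χ ν)
    rwa [ZMod.card] at h3
  have h0h : h0 ≤ h := by
    have h3 : 2 ^ t * h0 ≤ 2 ^ t * h := by
      refine hle.trans ?_
      rw [mul_comm (2 ^ t) h]
      exact Nat.mul_le_mul_left h he
    exact Nat.le_of_mul_le_mul_left h3 h2t
  refine ⟨fun u => ?_, ν, hν, hνK, ?_⟩
  · have hu' : Additive.ofMul (Units.map (U6a_incl hKM : ZF K →* ZF M) u) ∈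
        AddMonoidHom.ker (actU M g₀ (hst g₀ hg₀) - 1) := by
      rw [AddMonoidHom.mem_ker]
      show actU M g₀ (hst g₀ hg₀) _ - _ = 0
      rw [sub_eq_zero]
      apply U6a_units_ext
      show g₀ (u : ZF K).val = (u : ZF K).val
      exact (IntermediateField.mem_fixingSubgroup_iff K g₀).1 hg₀ _ (ZF_val_mem _)
    obtain ⟨⟨b, hb⟩, -⟩ := AddSubgroup.nsmul_mem_of_relIndex_ne_zero_of_dvd hr0 hu'
      (n := h.factorial) fun m hm hm' => Nat.dvd_factorial hm (hm'.trans h0h)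
    refine ⟨((b.toMul : (ZF M)ˣ) : ZF M).val, ?_, fun g hg hgχ => ?_, ?_⟩
    · intro hb0
      have h3 : ((b.toMul : (ZF M)ˣ) : ZF M) = 0 := ZF_val_inj _ 0 hb0
      exact (b.toMul : (ZF M)ˣ).ne_zero h3
    · have h3 : g ∈ M.fixingSubgroup := (hM g).2 ⟨hg, hgχ⟩
      exact (IntermediateField.mem_fixingSubgroup_iff M g).1 h3 _ (ZF_val_mem _)
    · have h3 := (U6a_norm_val M g₀ (hst g₀ hg₀) (2 ^ t) b).symm.trans
        (congrArg (fun w : UA M => ((w.toMul : (ZF M)ˣ) : ZF M).val) hb)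
      rw [h3]
      have h4 := (U6a_val M).map_pow (U6a_incl hKM (u : ZF K)) h.factorial
      exact h4
  · calc 2 ^ t ≤ 2 ^ t * h0 := Nat.le_mul_of_pos_right _ (Nat.pos_of_ne_zero hr0)
      _ ≤ h * addOrderOf (χ ν) := hle
      _ ≤ h.factorial * addOrderOf (χ ν) := Nat.mul_le_mul_right _ (Nat.self_le_factorial h)

end OzakiFree
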