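import Pool.Agent.Lib.MP_6e8030_nt.W.E3

open IntermediateField
open scoped ComplexConjugate

noncomputable section

namespace OzakiFree

private theorem F1_one {Γ A : Type*} [Group Γ] [AddGroup A] {P : Subgroup Γ} {χ : Γ → A}
    (h : HomOn P χ) : χ 1 = 0 := by
  have h1 := h 1 P.one_mem 1 P.one_mem
  rw [mul_one] at h1
  exact left_eq_add.1 h1

private theorem F1_pow {Γ A : Type*} [Group Γ] [AddGroup A] {P : Subgroup Γ} {χ : Γ → A}
    (h : HomOn P χ) {g : Γ} (hg : g ∈ P) (n : ℕ) : χ (g ^ n) = n • χ g := by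
  induction n with
  | zero => rw [pow_zero, F1_one h, zero_smul]
  | succ n ih => rw [pow_succ, h _ (P.pow_mem hg n) _ hg, ih, succ_nsmul]

private theorem F1_inv {Γ A : Type*} [Group Γ] [AddGroup A] {P : Subgroup Γ} {χ : Γ → A}
    (h : HomOn P χ) {g : Γ} (hg : g ∈ P) : χ g⁻¹ = -χ g := by
  have h1 := h g⁻¹ (P.inv_mem hg) g hg
  rw [inv_mul_cancel, F1_one h] at h1
  exact eq_neg_of_add_eq_zero_left h1.symm

private theorem F1_prod {R : Type*} [CommMonoid R] (F : ℕ → R) (n : ℕ) (hF : ∀ m, F (m + n) = F m)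
    (q : ℕ) : ∏ m ∈ Finset.range (n * q), F m = (∏ m ∈ Finset.range n, F m) ^ q := by
  have hF2 : ∀ q m, F (n * q + m) = F m := by
    intro q
    induction q with
    | zero => intro m; rw [mul_zero, zero_add]
    | succ q ih =>
      intro m
      rw [mul_add, mul_one, add_assoc, ih, add_comm, hF]
  induction q with
  | zero => rw [mul_zero, Finset.range_zero, Finset.prod_empty, pow_zero]
  | succ q ih =>
    rw [mul_add, mul_one, Finset.prod_range_add, ih, pow_succ]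
    congr 1
    exact Finset.prod_congr rfl fun m _ => hF2 q m

private theorem F1_prod2 {R : Type*} [CommMonoid R] (F : ℕ → R) (δ o : ℕ) :
    ∏ i ∈ Finset.range o, ∏ k ∈ Finset.range δ, F (i * δ + k) =
      ∏ m ∈ Finset.range (o * δ), F m := by
  induction o with
  | zero => rw [zero_mul, Finset.range_zero, Finset.prod_empty, Finset.prod_empty]
  | succ o ih => rw [Finset.prod_range_succ, ih, add_mul, one_mul, Finset.prod_range_add]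

private theorem F1_odd (t δ : ℕ) (h0 : 0 < δ) (h1 : δ ≤ 2 ^ t) :
    ∃ q, Odd q ∧ addOrderOf ((δ : ℕ) : ZMod (2 ^ t)) * δ = 2 ^ t * q := by
  have h2 : 0 < 2 ^ t := pow_pos (by norm_num) t
  have hg : 0 < (2 ^ t).gcd δ := Nat.gcd_pos_of_pos_left _ h2
  have hc := Nat.coprime_div_gcd_div_gcd hg
  have hd1 : (2 ^ t).gcd δ ∣ 2 ^ t := Nat.gcd_dvd_left _ _
  have hd2 : (2 ^ t).gcd δ ∣ δ := Nat.gcd_dvd_right _ _
  refine ⟨δ / (2 ^ t).gcd δ, ?_, ?_⟩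
  · by_contra hodd
    rw [Nat.not_odd_iff_even, even_iff_two_dvd] at hodd
    have h3 : ¬ 2 ∣ 2 ^ t / (2 ^ t).gcd δ := by
      intro h4
      have := Nat.dvd_gcd h4 hodd
      rw [hc] at this
      omega
    obtain ⟨m, hm, hm2⟩ := (Nat.dvd_prime_pow Nat.prime_two).1 (Nat.div_dvd_of_dvd hd1)
    have h5 : m = 0 := by
      by_contra hm0
      exact h3 (hm2 ▸ dvd_pow_self 2 hm0)
    rw [h5, pow_zero] at hm2
    have h6 : 2 ^ t = (2 ^ t).gcd δ := by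
      have := Nat.div_mul_cancel hd1
      rw [hm2, one_mul] at this
      exact this.symm
    have h7 : 2 ^ t ∣ δ := h6 ▸ hd2
    have h8 : δ = 2 ^ t := le_antisymm h1 (Nat.le_of_dvd h0 h7)
    rw [← h6, h8, Nat.div_self h2] at hodd
    omega
  · rw [ZMod.addOrderOf_coe _ h2.ne']
    rw [← Nat.mul_div_assoc _ hd2, Nat.div_mul_right_comm hd1]

/-! ### F1: the cup product step -/

/-- PROOF. `G = K.fixingSubgroup`, `V = {g ∈ G | χ₁ g = 0 ∧ χ₂ g = 0}` (open, normal in `G`), `M` its field; `β₁, β₂ ∈ M`. `φ ^ i ∈ V` iff `2 ^ t ∣ i` (`χ₁ (φ ^ i) = i`). `z = β₁ / β₂`: `∏_{i < 2 ^ t} φ ^ i z = v / v = 1`, so `z y = φ y` with `y ∈ M` (`hilbert90n`). `δ := (χ₂ ν).val` if this is not 0, else `2 ^ t`, so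
`0 < δ ≤ 2 ^ t`, `χ₂ ν = δ`. `c = ν y / y`. Modulo `V`, `ν` and `φ` commute, and `ν ≡ φ ^ (-δ)` on elements fixed by `ker χ₂` (`χ₂ (φ ^ δ ν) = -δ + δ = 0`): `ν β₂ = φ ^ (-δ) β₂`; `ν β₁ = β₁`. So `φ c / c = ν z / z = β₂ / φ ^ (-δ) β₂`. `b = ∏_{k=1}^{δ} φ ^ (-k) β₂`: `φ b / b = β₂ / φ ^ (-δ) β₂` too. So `k₀ = c / b` is
fixed by `φ` and in `M`; if `g ∈ G` and `χ₁ g + χ₂ g = 0` then `φ ^ (-a) g ∈ V` for `a = (χ₁ g).val`, so `g k₀ = k₀`. Let `o = addOrderOf (χ₂ ν)`; `o δ = 2 ^ t q` with `q` odd (`o = 2 ^ t / gcd(2 ^ t, δ)`). `∏_{i < o} ν ^ i c = ν ^ o y / y = 1` (`ν ^ o ∈ V`). `∏_{i < o} ν ^ i b = ∏_{i<o} ∏_{k=1}^{δ} φ ^ (-iδ-k) β₂ =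
∏_{m=1}^{oδ} φ ^ (-m) β₂ = (∏_{m < 2 ^ t} φ ^ m β₂) ^ q = v ^ q` (periodic modulo `2 ^ t`). `κ = 1 / k₀`. -/
theorem cup {t : ℕ} (K : IntermediateField ℚ Om) [FiniteDimensional ℚ K] (χ₁ χ₂ : GQ → ZMod (2 ^ t))
    (h1 : HomOn K.fixingSubgroup χ₁) (l1 : LCOn K.fixingSubgroup χ₁)
    (h2 : HomOn K.fixingSubgroup χ₂) (l2 : LCOn K.fixingSubgroup χ₂) (φ ν : GQ)
    (hφ : φ ∈ K.fixingSubgroup) (hν : ν ∈ K.fixingSubgroup) (hφ1 : χ₁ φ = 1) (hφ2 : χ₂ φ = -1)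
    (hν1 : χ₁ ν = 0) (β₁ β₂ v : Om) (hβ1 : β₁ ≠ 0) (hβ2 : β₂ ≠ 0)
    (hM1 : ∀ g ∈ K.fixingSubgroup, χ₁ g = 0 → g β₁ = β₁)
    (hM2 : ∀ g ∈ K.fixingSubgroup, χ₂ g = 0 → g β₂ = β₂)
    (hN1 : ∏ i ∈ Finset.range (2 ^ t), (φ ^ i) β₁ = v)
    (hN2 : ∏ i ∈ Finset.range (2 ^ t), (φ ^ i) β₂ = v) :
    ∃ κ : Om, κ ≠ 0 ∧ (∀ g ∈ K.fixingSubgroup, χ₁ g + χ₂ g = 0 → g κ = κ) ∧
      ∃ q : ℕ, Odd q ∧ ∏ i ∈ Finset.range (addOrderOf (χ₂ ν)), (ν ^ i) κ = v ^ q := by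
  have hpos : 0 < 2 ^ t := pow_pos (by norm_num) t
  haveI : NeZero (2 ^ t) := ⟨hpos.ne'⟩
  obtain ⟨G, hG⟩ : ∃ G : Subgroup GQ, G = K.fixingSubgroup := ⟨_, rfl⟩
  have hGo : IsOpen (G : Set GQ) := by rw [hG]; exact IntermediateField.fixingSubgroup_isOpen K
  rw [← hG] at h1 l1 h2 l2 hφ hν hM1 hM2
  rw [← hG]
  -- the subgroup `V`
  let V : Subgroup GQ :=
    { carrier := {g | g ∈ G ∧ χ₁ g = 0 ∧ χ₂ g = 0}
      one_mem' := ⟨G.one_mem, F1_one h1, F1_one h2⟩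
      mul_mem' := by
        rintro a b ⟨ha, ha1, ha2⟩ ⟨hb, hb1, hb2⟩
        exact ⟨G.mul_mem ha hb, by rw [h1 a ha b hb, ha1, hb1, add_zero],
          by rw [h2 a ha b hb, ha2, hb2, add_zero]⟩
      inv_mem' := by
        rintro a ⟨ha, ha1, ha2⟩
        exact ⟨G.inv_mem ha, by rw [F1_inv h1 ha, ha1, neg_zero],
          by rw [F1_inv h2 ha, ha2, neg_zero]⟩ }
  have hVmem : ∀ g, g ∈ V ↔ g ∈ G ∧ χ₁ g = 0 ∧ χ₂ g = 0 := fun g => Iff.rfl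
  have hVo : IsOpen (V : Set GQ) := by
    obtain ⟨U1, hU1, hU1'⟩ := l1
    obtain ⟨U2, hU2, hU2'⟩ := l2
    have hle : G ⊓ U1 ⊓ U2 ≤ V := by
      rintro g ⟨⟨hg, hg1⟩, hg2⟩
      refine (hVmem g).2 ⟨hg, ?_, ?_⟩
      · have := hU1' 1 G.one_mem g hg1 hg
        rwa [one_mul, F1_one h1] at this
      · have := hU2' 1 G.one_mem g hg2 hg
        rwa [one_mul, F1_one h2] at this
    refine Subgroup.isOpen_mono hle ?_
    exact (hGo.inter hU1).inter hU2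
  have hVc : IsClosed (V : Set GQ) := Subgroup.isClosed_of_isOpen V hVo
  have hfix : (IntermediateField.fixedField V).fixingSubgroup = V :=
    InfiniteGalois.fixingSubgroup_fixedField ⟨V, hVc⟩
  have hMmem : ∀ x : Om, x ∈ IntermediateField.fixedField V ↔ ∀ g ∈ V, g x = x := fun x =>
    IntermediateField.mem_fixedField_iff V x
  generalize IntermediateField.fixedField V = M at hfix hMmem
  -- stability and commutation
  have hst : ∀ h ∈ G, ∀ x ∈ M, h x ∈ M := by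
    intro h hh x hx
    refine (hMmem _).2 fun g hg => ?_
    have hg' := (hVmem g).1 hg
    have e1 : h⁻¹ * g * h ∈ V := by
      refine (hVmem _).2 ⟨G.mul_mem (G.mul_mem (G.inv_mem hh) hg'.1) hh, ?_, ?_⟩
      · rw [h1 _ (G.mul_mem (G.inv_mem hh) hg'.1) _ hh, h1 _ (G.inv_mem hh) _ hg'.1, F1_inv h1 hh,
          hg'.2.1]
        ring
      · rw [h2 _ (G.mul_mem (G.inv_mem hh) hg'.1) _ hh, h2 _ (G.inv_mem hh) _ hg'.1, F1_inv h2 hh,
          hg'.2.2]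
        ring
    have e2 := (hMmem x).1 hx _ e1
    have e3 : h ((h⁻¹ * g * h) x) = h x := by rw [e2]
    rw [← AlgEquiv.mul_apply, ← mul_assoc, ← mul_assoc, mul_inv_cancel, one_mul,
      AlgEquiv.mul_apply] at e3
    exact e3
  have hcomm : ∀ g ∈ G, ∀ h ∈ G, ∀ x ∈ M, g (h x) = h (g x) := by
    intro g hg h hh x hx
    have e1 : (h * g)⁻¹ * (g * h) ∈ V := by
      have hgh := G.mul_mem hg hh
      have hhg := G.mul_mem hh hg
      refine (hVmem _).2 ⟨G.mul_mem (G.inv_mem hhg) hgh, ?_, ?_⟩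
      · rw [h1 _ (G.inv_mem hhg) _ hgh, F1_inv h1 hhg, h1 _ hg _ hh, h1 _ hh _ hg]
        ring
      · rw [h2 _ (G.inv_mem hhg) _ hgh, F1_inv h2 hhg, h2 _ hg _ hh, h2 _ hh _ hg]
        ring
    have e2 := (hMmem x).1 hx _ e1
    have e3 : (h * g) (((h * g)⁻¹ * (g * h)) x) = (h * g) x := by rw [e2]
    rw [← AlgEquiv.mul_apply, ← mul_assoc, mul_inv_cancel, one_mul] at e3
    exact e3
  have hβ1M : β₁ ∈ M := (hMmem _).2 fun g hg => hM1 g ((hVmem g).1 hg).1 ((hVmem g).1 hg).2.1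
  have hβ2M : β₂ ∈ M := (hMmem _).2 fun g hg => hM2 g ((hVmem g).1 hg).1 ((hVmem g).1 hg).2.2
  have hφV : φ ^ (2 ^ t) ∈ V := by
    refine (hVmem _).2 ⟨G.pow_mem hφ _, ?_, ?_⟩
    · rw [F1_pow h1 hφ, hφ1, nsmul_eq_mul, mul_one, ZMod.natCast_self]
    · rw [F1_pow h2 hφ, nsmul_eq_mul, ZMod.natCast_self, zero_mul]
  have hφM : ∀ x ∈ M, (φ ^ (2 ^ t)) x = x := fun x hx => (hMmem x).1 hx _ hφV
  have hφi : ∀ i, 0 < i → i < 2 ^ t → ∃ x ∈ M, (φ ^ i) x ≠ x := by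
    intro i hi0 hi1
    by_contra hcon
    push Not at hcon
    have e1 : φ ^ i ∈ V := by
      rw [← hfix]
      exact (IntermediateField.mem_fixingSubgroup_iff _ _).2 hcon
    have e2 := ((hVmem _).1 e1).2.1
    rw [F1_pow h1 hφ, hφ1, nsmul_eq_mul, mul_one, ZMod.natCast_eq_zero_iff] at e2
    exact absurd (Nat.le_of_dvd hi0 e2) (by omega)
  have hz : β₁ / β₂ ∈ M := M.div_mem hβ1M hβ2M
  have hinj : ∀ (g : GQ) (x : Om), x ≠ 0 → g x ≠ 0 := fun g x hx =>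
    (map_ne_zero_iff g g.injective).2 hx
  have hv : v ≠ 0 := by
    rw [← hN2]
    exact Finset.prod_ne_zero_iff.2 fun i _ => hinj _ _ hβ2
  have hNz : ∏ i ∈ Finset.range (2 ^ t), (φ ^ i) (β₁ / β₂) = 1 := by
    simp only [map_div₀]
    rw [Finset.prod_div_distrib, hN1, hN2, div_self hv]
  obtain ⟨y, hyM, hy0, hy⟩ := hilbert90n M φ (hst φ hφ) (2 ^ t) hpos hφM hφi _ hz hNz
  -- the number `δ`
  obtain ⟨δ, hδ0, hδ1, hδ⟩ : ∃ δ : ℕ, 0 < δ ∧ δ ≤ 2 ^ t ∧ χ₂ ν = (δ : ZMod (2 ^ t)) := by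
    by_cases hc : (χ₂ ν).val = 0
    · refine ⟨2 ^ t, hpos, le_refl _, ?_⟩
      rw [ZMod.natCast_self, (ZMod.val_eq_zero _).1 hc]
    · exact ⟨(χ₂ ν).val, Nat.pos_of_ne_zero hc, (ZMod.val_lt _).le, (ZMod.natCast_zmod_val _).symm⟩
  have hφi' : φ⁻¹ ∈ G := G.inv_mem hφ
  obtain ⟨F, hF⟩ : ∃ F : ℕ → Om, ∀ m, F m = (φ⁻¹ ^ m) β₂ := ⟨_, fun _ => rfl⟩
  have hF0 : F 0 = β₂ := by rw [hF, pow_zero]; rfl
  have hFM : ∀ m, F m ∈ M := fun m => by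
    rw [hF]; exact hst _ (G.pow_mem hφi' m) _ hβ2M
  have hFne : ∀ m, F m ≠ 0 := fun m => by rw [hF]; exact hinj _ _ hβ2
  have hFs : ∀ m, φ (F (m + 1)) = F m := by
    intro m
    rw [hF, hF, pow_succ', ← AlgEquiv.mul_apply, ← mul_assoc, mul_inv_cancel, one_mul]
  have hφinvV : φ⁻¹ ^ (2 ^ t) ∈ V := by
    rw [inv_pow]
    exact V.inv_mem hφV
  have hFper : ∀ m, F (m + 2 ^ t) = F m := by
    intro m
    rw [hF, hF, pow_add, AlgEquiv.mul_apply, (hMmem _).1 hβ2M _ hφinvV]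
  have hνβ2 : ν β₂ = F δ := by
    have e1 : (φ ^ δ * ν) β₂ = β₂ := by
      refine hM2 _ (G.mul_mem (G.pow_mem hφ _) hν) ?_
      rw [h2 _ (G.pow_mem hφ _) _ hν, F1_pow h2 hφ, hφ2, hδ, nsmul_eq_mul]
      ring
    have e2 : (φ ^ δ)⁻¹ ((φ ^ δ * ν) β₂) = (φ ^ δ)⁻¹ β₂ := by rw [e1]
    rw [← AlgEquiv.mul_apply, inv_mul_cancel_left] at e2
    rw [e2, hF, inv_pow]
  have hνF : ∀ m, ν (F m) = F (m + δ) := by
    intro m
    rw [hF m, hcomm ν hν _ (G.pow_mem hφi' m) _ hβ2M, hνβ2, hF, hF, pow_add, AlgEquiv.mul_apply]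
  have hνiF : ∀ i m, (ν ^ i) (F m) = F (i * δ + m) := by
    intro i
    induction i with
    | zero => intro m; rw [pow_zero, zero_mul, zero_add]; rfl
    | succ i ih =>
      intro m
      rw [pow_succ, AlgEquiv.mul_apply, hνF, ih]
      congr 1
      ring
  obtain ⟨b, hb⟩ : ∃ b : Om, b = ∏ k ∈ Finset.range δ, F (k + 1) := ⟨_, rfl⟩
  have hbM : b ∈ M := by
    rw [hb]
    exact M.prod_mem fun k _ => hFM _
  have hb0 : b ≠ 0 := by
    rw [hb]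
    exact Finset.prod_ne_zero_iff.2 fun i _ => hFne _
  have hφb : φ b * F δ = b * β₂ := by
    have e1 : φ b = ∏ k ∈ Finset.range δ, F k := by
      rw [hb, map_prod]
      exact Finset.prod_congr rfl fun k _ => hFs k
    rw [e1, ← Finset.prod_range_succ, Finset.prod_range_succ', ← hb, hF0]
  obtain ⟨c, hc⟩ : ∃ c : Om, c = ν y / y := ⟨_, rfl⟩
  have hcM : c ∈ M := by rw [hc]; exact M.div_mem (hst ν hν y hyM) hyM
  have hc0 : c ≠ 0 := by rw [hc]; exact div_ne_zero (hinj _ _ hy0) hy0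
  have hφc : φ c * F δ = c * β₂ := by
    have e1 : φ (ν y) = ν (β₁ / β₂) * ν y := by
      rw [hcomm φ hφ ν hν y hyM, hy, map_mul]
    have e2 : ν (β₁ / β₂) = β₁ / F δ := by
      rw [map_div₀, hνβ2, hM1 ν hν hν1]
    rw [hc, map_div₀, e1, e2, hy]
    have := hFne δ
    field_simp
  -- the element `k₀ = c / b`
  have hkφ : φ (c / b) = c / b := by
    rw [map_div₀, div_eq_div_iff (hinj _ _ hb0) hb0]
    refine mul_right_cancel₀ (hFne δ) (mul_right_cancel₀ hβ2 ?_)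
    calc φ c * b * F δ * β₂ = (φ c * F δ) * (b * β₂) := by ring
      _ = (c * β₂) * (φ b * F δ) := by rw [hφc, hφb]
      _ = c * φ b * F δ * β₂ := by ring
  have hkM : c / b ∈ M := M.div_mem hcM hbM
  have hkφi : ∀ i : ℕ, (φ ^ i) (c / b) = c / b := by
    intro i
    induction i with
    | zero => rw [pow_zero]; rfl
    | succ i ih => rw [pow_succ, AlgEquiv.mul_apply, hkφ, ih]
  have hkfix : ∀ g ∈ G, χ₁ g + χ₂ g = 0 → g (c / b) = c / b := by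
    intro g hg hsum
    obtain ⟨a, ha⟩ : ∃ a : ℕ, (a : ZMod (2 ^ t)) = χ₁ g := ⟨(χ₁ g).val, ZMod.natCast_zmod_val _⟩
    have e1 : (φ ^ a)⁻¹ * g ∈ V := by
      refine (hVmem _).2 ⟨G.mul_mem (G.inv_mem (G.pow_mem hφ _)) hg, ?_, ?_⟩
      · rw [h1 _ (G.inv_mem (G.pow_mem hφ _)) _ hg, F1_inv h1 (G.pow_mem hφ _), F1_pow h1 hφ, hφ1,
          nsmul_eq_mul, ha]
        ring
      · rw [h2 _ (G.inv_mem (G.pow_mem hφ _)) _ hg, F1_inv h2 (G.pow_mem hφ _), F1_pow h2 hφ, hφ2,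
          nsmul_eq_mul, ha, ← hsum]
        ring
    have e2 := (hMmem _).1 hkM _ e1
    have e3 : (φ ^ a) (((φ ^ a)⁻¹ * g) (c / b)) = (φ ^ a) (c / b) := by rw [e2]
    rw [← AlgEquiv.mul_apply, mul_inv_cancel_left, hkφi] at e3
    exact e3
  -- norms
  obtain ⟨q, hq, hoq⟩ := F1_odd t δ hδ0 hδ1
  rw [← hδ] at hoq
  have hνo : ν ^ (addOrderOf (χ₂ ν)) ∈ V := by
    refine (hVmem _).2 ⟨G.pow_mem hν _, ?_, ?_⟩
    · rw [F1_pow h1 hν, hν1, smul_zero]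
    · rw [F1_pow h2 hν, addOrderOf_nsmul_eq_zero]
  have hNc : ∀ m : ℕ, (∏ i ∈ Finset.range m, (ν ^ i) c) * y = (ν ^ m) y := by
    intro m
    induction m with
    | zero => rw [Finset.range_zero, Finset.prod_empty, one_mul, pow_zero]; rfl
    | succ m ih =>
      rw [Finset.prod_range_succ, mul_right_comm, ih, hc, map_div₀, pow_succ, AlgEquiv.mul_apply]
      exact mul_div_cancel₀ _ (hinj _ _ hy0)
  have hNc1 : ∏ i ∈ Finset.range (addOrderOf (χ₂ ν)), (ν ^ i) c = 1 := by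
    have e1 := hNc (addOrderOf (χ₂ ν))
    rw [(hMmem _).1 hyM _ hνo] at e1
    exact (mul_eq_right₀ hy0).1 e1
  have hNF : ∏ m ∈ Finset.range (2 ^ t), F (m + 1) = v := by
    rw [← hN2, ← Finset.prod_range_reflect]
    refine Finset.prod_congr rfl fun j hj => ?_
    have hj' : j < 2 ^ t := Finset.mem_range.1 hj
    have e1 : 2 ^ t - 1 - j + 1 + j = 2 ^ t := by omega
    have e2 : (φ ^ j) β₂ = (φ⁻¹ ^ (2 ^ t - 1 - j + 1)) β₂ := by
      have e3 : (φ⁻¹ ^ (2 ^ t - 1 - j + 1) * φ⁻¹ ^ j) * φ ^ j = φ⁻¹ ^ (2 ^ t - 1 - j + 1) := by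
        rw [mul_assoc, inv_pow φ j, inv_mul_cancel, mul_one]
      rw [← pow_add, e1] at e3
      rw [← e3, AlgEquiv.mul_apply]
      exact ((hMmem _).1 (hst _ (G.pow_mem hφ j) _ hβ2M) _ hφinvV).symm
    rw [hF, e2]
  have hNb : ∏ i ∈ Finset.range (addOrderOf (χ₂ ν)), (ν ^ i) b = v ^ q := by
    have e1 : ∀ i ∈ Finset.range (addOrderOf (χ₂ ν)),
        (ν ^ i) b = ∏ k ∈ Finset.range δ, F (i * δ + k + 1) := by
      intro i _
      rw [hb, map_prod]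
      refine Finset.prod_congr rfl fun k _ => ?_
      rw [hνiF, add_assoc]
    rw [Finset.prod_congr rfl e1, F1_prod2 (fun m => F (m + 1)) δ, hoq,
      F1_prod (fun m => F (m + 1)) (2 ^ t), hNF]
    intro m
    have : m + 2 ^ t + 1 = m + 1 + 2 ^ t := by ring
    rw [this, hFper]
  refine ⟨(c / b)⁻¹, inv_ne_zero (div_ne_zero hc0 hb0), ?_, q, hq, ?_⟩
  · intro g hg hsum
    rw [map_inv₀, hkfix g hg hsum]
  · simp only [map_inv₀, map_div₀, inv_div]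
    rw [Finset.prod_div_distrib, hNc1, hNb, div_one]

end OzakiFree
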