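import Pool.Agent.Lib.MP_6e8030_nt.W.Base2

open IntermediateField
open scoped ComplexConjugate

noncomputable section

namespace OzakiFree

/-! ### H2: independence of the conjugates (pure) -/

/-- the exponent of `g` -/
theorem H2_act (P : Subgroup GQ) (hPn : P.Normal) (ψ : GQ → ZMod 2) (ε : Om)
    (hg : ∀ g ∈ P, g ε = if ψ g = 0 then ε else ε⁻¹) {g : GQ} (hgP : g ∈ P) (s : GQ) :
    g (s ε) = (s ε) ^ (if ψ (s⁻¹ * g * s) = 0 then (1 : ℤ) else -1) := by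
  have hm : s⁻¹ * g * s ∈ P := by
    have := hPn.conj_mem g hgP s⁻¹
    rwa [inv_inv] at this
  have h1 : g (s ε) = s ((s⁻¹ * g * s) ε) := by
    show (g * s) ε = (s * (s⁻¹ * g * s)) ε
    congr 1
    group
  rw [h1, hg _ hm]
  split_ifs
  · rw [zpow_one]
  · rw [map_inv₀, zpow_neg, zpow_one]

theorem H2_step (P S : Subgroup GQ) (hPn : P.Normal) (ψ : GQ → ZMod 2) (ε : Om)
    (hε : ε ≠ 0) (hg : ∀ g ∈ P, g ε = if ψ g = 0 then ε else ε⁻¹) (T : Finset GQ)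
    (hTS : ∀ s ∈ T, s ∈ S → ∀ g ∈ P, ψ (s⁻¹ * g * s) = ψ g)
    (hTN : ∀ s ∈ T, s ∉ S → ∃ g ∈ P, ψ (s⁻¹ * g * s) ≠ ψ g) (W : ℕ)
    (hW : 0 < W) (hrel : ∏ s ∈ T, (s ε) ^ W = 1) (T' : Finset GQ) :
    (∀ s ∈ T', s ∈ T ∧ s ∉ S) → ∃ (a : GQ → ℤ) (n : ℤ), n ≠ 0 ∧ (∀ s ∈ T, s ∈ S → a s = n) ∧
      (∀ s ∈ T', a s = 0) ∧ ∏ s ∈ T, (s ε) ^ (a s) = 1 := by
  classical
  have hsε : ∀ s : GQ, s ε ≠ 0 := fun s => (map_ne_zero s).2 hε
  induction T' using Finset.induction_on with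
  | empty =>
    intro _
    refine ⟨fun _ => (W : ℤ), (W : ℤ), by exact_mod_cast hW.ne', fun _ _ _ => rfl, fun s hs => absurd hs (by simp), ?_⟩
    simpa using hrel
  | insert s' T' hs' ih =>
    intro hsub
    obtain ⟨a, n, hn, ha1, ha2, ha3⟩ := ih fun s hs => hsub s (Finset.mem_insert_of_mem hs)
    obtain ⟨hsT, hsS⟩ := hsub s' (Finset.mem_insert_self _ _)
    obtain ⟨g, hgP, hgne⟩ := hTN s' hsT hsS
    obtain ⟨d, hd⟩ : ∃ d : ℤ, d = if ψ g = 0 then 1 else -1 := ⟨_, rfl⟩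
    have hd0 : d ≠ 0 := by
      rw [hd]
      split_ifs <;> norm_num
    refine ⟨fun s => ((if ψ (s⁻¹ * g * s) = 0 then (1 : ℤ) else -1) + d) * a s, 2 * d * n,
      mul_ne_zero (mul_ne_zero two_ne_zero hd0) hn, ?_, ?_, ?_⟩
    · intro s hs hsS
      show ((if ψ (s⁻¹ * g * s) = 0 then (1 : ℤ) else -1) + d) * a s = 2 * d * n
      rw [hTS s hs hsS g hgP, ← hd, ha1 s hs hsS]
      ring
    · intro s hs
      show ((if ψ (s⁻¹ * g * s) = 0 then (1 : ℤ) else -1) + d) * a s = 0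
      rcases Finset.mem_insert.1 hs with rfl | hs
      · have key : ∀ x y : ZMod 2, x ≠ y → (if x = 0 then (1 : ℤ) else -1) + (if y = 0 then 1 else -1) = 0 := by
          decide
        rw [hd, key _ _ hgne, zero_mul]
      · rw [ha2 s hs, mul_zero]
    · have h1 : ∏ s ∈ T, (s ε) ^ ((if ψ (s⁻¹ * g * s) = 0 then (1 : ℤ) else -1) * a s) = 1 := by
        have h2 := congrArg g ha3
        rw [map_prod, map_one] at h2
        rw [← h2]
        refine Finset.prod_congr rfl fun s _ => ?_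
        rw [map_zpow₀, H2_act P hPn ψ ε hg hgP s, zpow_mul]
      have h3 : ∏ s ∈ T, (s ε) ^ (d * a s) = 1 := by
        have h4 : ∏ s ∈ T, (s ε) ^ (d * a s) = (∏ s ∈ T, (s ε) ^ (a s)) ^ d := by
          rw [← Finset.prod_zpow]
          refine Finset.prod_congr rfl fun s _ => ?_
          rw [← zpow_mul, mul_comm]
        rw [h4, ha3, one_zpow]
      calc ∏ s ∈ T, (s ε) ^ (((if ψ (s⁻¹ * g * s) = 0 then (1 : ℤ) else -1) + d) * a s)
          = (∏ s ∈ T, (s ε) ^ ((if ψ (s⁻¹ * g * s) = 0 then (1 : ℤ) else -1) * a s)) *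
            ∏ s ∈ T, (s ε) ^ (d * a s) := by
            rw [← Finset.prod_mul_distrib]
            refine Finset.prod_congr rfl fun s _ => ?_
            rw [add_mul, zpow_add₀ (hsε s)]
        _ = 1 := by rw [h1, h3, one_mul]

/-- PROOF. For `g ∈ P`, `s ∈ T`: `g (s ε) = s (s⁻¹ g s ε)` is `s ε` if `ψ (s⁻¹ g s) = 0` and `(s ε)⁻¹` otherwise. Claim: for every subset `T'` of `T \ S` there are an integer `n > 0` and exponents `a_s` (`s ∈ T`) with `∏_{s ∈ T} (s ε) ^ a_s = 1`, `a_s = n` for `s ∈ T ⊓ S` and `a_s = 0` for `s ∈ T'`. Induction on `T'`: (start: `a_s = W`). Given `s' ∈ T \ S` choose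
`g ∈ P` with `ψ (s'⁻¹ g s') ≠ ψ g`; apply `g` to the relation and multiply by the relation to the power `±1`, the sign being `+` if `ψ g = 0` and `-` otherwise: the exponent `a_s` becomes `a_s (± 1 ± 1)`: `0` for `s'`, `0` for the earlier ones, `± 2 n` for all `s ∈ T ⊓ S` (same sign). At the end `∏_{s ∈ T ⊓ S} (s ε) ^ n = ε ^ (n |T ⊓ S|) = 1`. -/
theorem indep (P S : Subgroup GQ) (hPn : P.Normal) (hPS : P ≤ S) (ψ : GQ → ZMod 2) (ε : Om)
    (hε : ε ≠ 0) (hg : ∀ g ∈ P, g ε = if ψ g = 0 then ε else ε⁻¹) (T : Finset GQ)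
    (hTfix : ∀ s ∈ T, s ∈ S → s ε = ε) (hTS : ∀ s ∈ T, s ∈ S → ∀ g ∈ P, ψ (s⁻¹ * g * s) = ψ g)
    (hTN : ∀ s ∈ T, s ∉ S → ∃ g ∈ P, ψ (s⁻¹ * g * s) ≠ ψ g) (hT1 : ∃ s ∈ T, s ∈ S) (W : ℕ)
    (hW : 0 < W) (hrel : ∏ s ∈ T, (s ε) ^ W = 1) : ∃ n : ℕ, 0 < n ∧ ε ^ n = 1 := by
  classical
  obtain ⟨a, n, hn, h1, h2, h3⟩ := H2_step P S hPn ψ ε hε hg T hTS hTN W hW hrel
    (T.filter fun s => s ∉ S) fun s hs => Finset.mem_filter.1 hs
  have h4 : ∏ s ∈ T.filter (fun s => s ∈ S), (s ε) ^ (a s) = 1 := by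
    rw [← h3]
    refine Finset.prod_subset (Finset.filter_subset _ _) fun s hs hs' => ?_
    have hsS : s ∉ S := fun h => hs' (Finset.mem_filter.2 ⟨hs, h⟩)
    rw [h2 s (Finset.mem_filter.2 ⟨hs, hsS⟩), zpow_zero]
  have h5 : ∏ s ∈ T.filter (fun s => s ∈ S), (s ε) ^ (a s) =
      ε ^ (n * ((T.filter fun s => s ∈ S).card : ℤ)) := by
    rw [zpow_mul, zpow_natCast, ← Finset.prod_const]
    refine Finset.prod_congr rfl fun s hs => ?_
    obtain ⟨hsT, hsS⟩ := Finset.mem_filter.1 hs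
    rw [hTfix s hsT hsS, h1 s hsT hsS]
  rw [h4] at h5
  obtain ⟨s, hsT, hsS⟩ := hT1
  have hc : 0 < (T.filter fun s => s ∈ S).card :=
    Finset.card_pos.2 ⟨s, Finset.mem_filter.2 ⟨hsT, hsS⟩⟩
  have hm : n * ((T.filter fun s => s ∈ S).card : ℤ) ≠ 0 :=
    mul_ne_zero hn (by exact_mod_cast hc.ne')
  refine ⟨(n * ((T.filter fun s => s ∈ S).card : ℤ)).natAbs, Int.natAbs_pos.2 hm, ?_⟩
  rcases Int.natAbs_eq (n * ((T.filter fun s => s ∈ S).card : ℤ)) with h | h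
  · rw [h, zpow_natCast] at h5
    exact h5.symm
  · rw [h, zpow_neg, zpow_natCast] at h5
    exact (inv_eq_one.1 h5.symm)

end OzakiFree
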