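import Pool.Agent.Lib.MP_6e8030_nt.W.Cg

open IntermediateField
open scoped ComplexConjugate

noncomputable section

namespace OzakiFree

/-! ### G2: removing the odd exponent -/

/-- the residue field of `E` at `B` is finite: a common exponent of its units -/
theorem G2_res {B : Ideal ZO} (hB : B.IsMaximal) (h2 : (2 : ZO) ∈ B)
    (E : IntermediateField ℚ Om) [FiniteDimensional ℚ E] :
    ∃ M : ℕ, 0 < M ∧ ∀ v : ZF E, iota E v ∉ B → (iota E v) ^ M - 1 ∈ B := by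
  have hqp : (B.comap (iota E)).IsPrime := by
    have := hB.isPrime
    exact Ideal.comap_isPrime _ _
  have h20 : (2 : NumberField.RingOfIntegers (FL E)) ≠ 0 := two_ne_zero
  have hq0 : (B.comap (iota E) : Ideal (NumberField.RingOfIntegers (FL E))) ≠ ⊥ := by
    intro h
    have h3 : (2 : NumberField.RingOfIntegers (FL E)) ∈
        (B.comap (iota E) : Ideal (NumberField.RingOfIntegers (FL E))) := by
      rw [Ideal.mem_comap]
      have h4 : iota E (2 : ZF E) = 2 := map_ofNat (iota E) 2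
      exact h4 ▸ h2
    rw [h, Ideal.mem_bot] at h3
    exact h20 h3
  have hfin : Finite (ZF E ⧸ B.comap (iota E)) :=
    Ideal.finiteQuotientOfFreeOfNeBot
      (B.comap (iota E) : Ideal (NumberField.RingOfIntegers (FL E))) hq0
  have hdom : IsDomain (ZF E ⧸ B.comap (iota E)) := Ideal.Quotient.isDomain _
  have hF : IsField (ZF E ⧸ B.comap (iota E)) := Finite.isField_of_domain _
  have hfinu : Finite (ZF E ⧸ B.comap (iota E))ˣ := inferInstance
  refine ⟨Nat.card (ZF E ⧸ B.comap (iota E))ˣ, Nat.card_pos, fun v hv => ?_⟩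
  have hv0 : Ideal.Quotient.mk (B.comap (iota E)) v ≠ 0 := by
    rw [Ne, Ideal.Quotient.eq_zero_iff_mem, Ideal.mem_comap]
    exact hv
  obtain ⟨w, hw⟩ := hF.mul_inv_cancel hv0
  let u : (ZF E ⧸ B.comap (iota E))ˣ := ⟨Ideal.Quotient.mk (B.comap (iota E)) v, w, hw, by
    rw [mul_comm]; exact hw⟩
  have h5 : u ^ Nat.card (ZF E ⧸ B.comap (iota E))ˣ = 1 := pow_card_eq_one'
  have h6 : (Ideal.Quotient.mk (B.comap (iota E)) v) ^ Nat.card (ZF E ⧸ B.comap (iota E))ˣ = 1 := by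
    have := congrArg Units.val h5
    rwa [Units.val_pow_eq_pow_val, Units.val_one] at this
  rw [← map_pow, ← map_one (Ideal.Quotient.mk (B.comap (iota E))), Ideal.Quotient.eq,
    Ideal.mem_comap, map_sub, map_pow, map_one] at h6
  exact h6

theorem G2_geom {B : Ideal ZO} {z : ZO} (hz : z - 1 ∈ B) (q : ℕ) :
    (∑ i ∈ Finset.range q, z ^ i) - (q : ZO) ∈ B := by
  induction q with
  | zero => simp
  | succ q ih =>
    rw [Finset.sum_range_succ, Nat.cast_succ]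
    have h1 : z ^ q - 1 ∈ B := by
      obtain ⟨c, hc⟩ := sub_one_dvd_pow_sub_one z q
      rw [hc]
      exact B.mul_mem_right _ hz
    have h2 := B.add_mem ih h1
    have h3 : ∑ i ∈ Finset.range q, z ^ i + z ^ q - ((q : ZO) + 1) =
        ∑ i ∈ Finset.range q, z ^ i - (q : ZO) + (z ^ q - 1) := by ring
    rw [h3]
    exact h2

/-- PROOF. `q₀ = B ∩ E`, `c = Nat.card (ZF E ⧸ q₀)` (finite, `> 1`), `N = 2 (c - 1)`. Let `R = ZO / J`, `J = {x | CongB B n x 0}` (an ideal). The image `w` of `v` in `R` satisfies `w ^ (2 q) = 1`. And `v ^ (c - 1) = 1 + b`, `b ∈ q₀`; some power `b ^ k ∈ J` (uniformizer `π` of `q₀`, GA: `r * 2 = π ^ e x`, `r' b = π ^ f x'`, `f ≥ 1`, so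
`b ^ (e n) ≡ 0 mod 2 ^ n` at `B`), and `2 ^ n ∈ J`; so the image of `v ^ (c-1)` is `1 +` nilpotent with `2` nilpotent, so `w ^ ((c - 1) 2 ^ a) = 1` for some `a`. The order of `w` divides `2 q` and `(c - 1) 2 ^ a`, `q` odd, so it divides `2 (c - 1)`. -/
theorem order_odd {B : Ideal ZO} (hB : B.IsMaximal) (h2 : (2 : ZO) ∈ B)
    (E : IntermediateField ℚ Om) [FiniteDimensional ℚ E] :
    ∃ N : ℕ, 0 < N ∧ ∀ v : ZF E, iota E v ∉ B → ∀ n q : ℕ, Odd q →
      CongB B n ((iota E v) ^ (2 * q)) 1 → CongB B n ((iota E v) ^ N) 1 := by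
  obtain ⟨M, hM0, hM⟩ := G2_res hB h2 E
  refine ⟨2 * M, by omega, fun v hv n q hq h => ?_⟩
  have hp := hB.isPrime
  obtain ⟨r, w, hr, hw⟩ := h
  obtain ⟨x, hx⟩ : ∃ x, x = iota E v := ⟨_, rfl⟩
  rw [← hx] at hw hv ⊢
  have hxM : x ^ M - 1 ∈ B := by rw [hx]; exact hM v (hx ▸ hv)
  have hz : x ^ (2 * M) - 1 ∈ B := by
    have h3 : x ^ (2 * M) - 1 = (x ^ M - 1) * (x ^ M + 1) := by
      rw [two_mul, pow_add]; ring
    rw [h3]
    exact B.mul_mem_right _ hxM
  have hS : ∑ i ∈ Finset.range q, (x ^ (2 * M)) ^ i ∉ B := by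
    intro hmem
    have h4 := B.sub_mem hmem (G2_geom hz q)
    rw [sub_sub_cancel] at h4
    obtain ⟨m, hm⟩ := hq
    have h5 : ((q : ℕ) : ZO) = 2 * (m : ZO) + 1 := by rw [hm]; push_cast; ring
    rw [h5] at h4
    have h6 := B.sub_mem h4 (B.mul_mem_right (m : ZO) h2)
    rw [add_sub_cancel_left] at h6
    exact hB.ne_top ((Ideal.eq_top_iff_one _).2 h6)
  have hg : (∑ i ∈ Finset.range q, (x ^ (2 * M)) ^ i) * (x ^ (2 * M) - 1) = (x ^ (2 * q)) ^ M - 1 := by
    rw [geom_sum_mul, ← pow_mul, ← pow_mul]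
    congr 2
    ring
  obtain ⟨c, hc⟩ := sub_one_dvd_pow_sub_one (x ^ (2 * q)) M
  refine ⟨r * ∑ i ∈ Finset.range q, (x ^ (2 * M)) ^ i, w * c, fun h7 => ?_, ?_⟩
  · rcases hp.mem_or_mem h7 with h8 | h8
    · exact hr h8
    · exact hS h8
  · rw [mul_assoc, hg, hc, ← mul_assoc, hw, mul_assoc]

end OzakiFree
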