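import Pool.Agent.Lib.MP_6e8030_nt.W.R1
import Pool.Agent.Lib.MP_6e8030_nt.W.G2
import Pool.Agent.Lib.MP_6e8030_nt.W.Cg

open IntermediateField
open scoped ComplexConjugate

noncomputable section

namespace OzakiFree

/-! ### R2: the relation for all units -/

private theorem R2_lift {E : IntermediateField ℚ Om} (v : ZO) (hv : (v : Om) ∈ E) : ∃ z : ZF E, iota E z = v := by
  have hint : IsIntegral ℤ (⟨(v : Om), hv⟩ : FL E) := by
    have h1 : IsIntegral ℤ (FLhom E (⟨(v : Om), hv⟩ : FL E)) := v.2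
    exact (isIntegral_algHom_iff (FLhom E).toIntAlgHom (FLhom E).injective).1 h1
  exact ⟨⟨⟨(v : Om), hv⟩, hint⟩, rfl⟩

/-- PROOF. `w = h!`. Let `E` be a finite Galois extension of `ℚ` containing `K` (`exists_N`, U15), `N` from `order_odd` for `E`, `W = w N`. For a unit `u` the element `V` of `cong_units` is in `E` and does not depend on `t`; for every `n` choose `t` with `w 2 ^ n < 2 ^ t`, so `m₂ ≥ n` and `V ^ (2 q) ≡ 1 mod 2 ^ n`
(`CongB.mono`), so `V ^ N ≡ 1 mod 2 ^ n` (`order_odd`). `cong_sep`: `V ^ N = 1`. -/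
theorem units_relation {B₂ B₁ : Ideal ZO} {φ : GQ} (hP2 : Prime2 B₂ φ) (hB₁ : B₁.IsMaximal)
    (K : IntermediateField ℚ Om) [FiniteDimensional ℚ K] {m₁ : ℕ} (hK : CycDM 2 (Dl m₁) K)
    (hφK : φ ∈ K.fixingSubgroup) (hσ : ∃ σ ∈ PQ 2, σ ∉ K.fixingSubgroup)
    (hdec : ∀ d ∈ DB B₂, d ∈ (Dl m₁).fixingSubgroup → d ∈ K.fixingSubgroup)
    (hpair : ∀ t : ℕ, ∃ χ₁ χ₂ : GQ → ZMod (2 ^ t), PairData B₂ B₁ φ K t χ₁ χ₂) (T : Finset GQ)
    (hTI : ∀ s ∈ T, s ∈ B₂.inertia GQ)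
    (hT : ∀ g : GQ, ∃! s, s ∈ T ∧ s⁻¹ * g ∈ (Dl m₁).fixingSubgroup) :
    ∃ W : ℕ, 0 < W ∧ ∀ u : (ZF K)ˣ, ∏ s ∈ T, (s (u : ZF K).val) ^ W = 1 := by
  obtain ⟨E, hEfin, hKE, -, hst⟩ := exists_N K 0
  obtain ⟨N, hN, hord⟩ := order_odd hP2.max hP2.two E
  refine ⟨(NumberField.classNumber (FL K)).factorial * N, Nat.mul_pos (Nat.factorial_pos _) hN, fun u => ?_⟩
  obtain ⟨χ₁, χ₂, hp⟩ := hpair 0
  obtain ⟨_, _, V, _, _, hV, hVB, _⟩ := cong_units hP2 hB₁ K hK hφK hσ hdec χ₁ χ₂ hp T hTI hT u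
  have hVE : (V : Om) ∈ E := by
    rw [hV]
    exact prod_mem fun s _ => hst s ((u : ZF K).val ^ (NumberField.classNumber (FL K)).factorial) (pow_mem (hKE (ZF_val_mem (u : ZF K))) _)
  obtain ⟨v, hv⟩ := R2_lift V hVE
  have hcong : ∀ n, CongB B₂ n (V ^ N) 1 := by
    intro n
    obtain ⟨t, ht⟩ : ∃ t : ℕ, (NumberField.classNumber (FL K)).factorial * 2 ^ n < 2 ^ t :=
      ⟨_, Nat.lt_two_pow_self⟩
    obtain ⟨χ₁, χ₂, hp⟩ := hpair t
    obtain ⟨m₂, q, V', hq, hm, hV', _, hc⟩ := cong_units hP2 hB₁ K hK hφK hσ hdec χ₁ χ₂ hp T hTI hT u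
    have hVV : V' = V := Subtype.ext (hV'.trans hV.symm)
    have hmn : n ≤ m₂ := by
      by_contra hlt
      push Not at hlt
      have h1 : (NumberField.classNumber (FL K)).factorial * 2 ^ m₂ ≤
          (NumberField.classNumber (FL K)).factorial * 2 ^ n :=
        Nat.mul_le_mul_left _ (Nat.pow_le_pow_right (by norm_num) hlt.le)
      omega
    have h2 := CongB.mono hmn hc
    rw [hVV, ← hv] at h2
    rw [← hv]
    exact hord v (by rw [hv]; exact hVB) n q hq h2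
  have hfin := cong_sep hP2.max hP2.two (V ^ N) hcong
  have h3 : ((V : Om)) ^ N = 1 := by
    have := congrArg (fun x : ZO => (x : Om)) hfin
    simpa using this
  rw [← h3, hV, ← Finset.prod_pow]
  refine Finset.prod_congr rfl fun s _ => ?_
  rw [map_pow, ← pow_mul]

end OzakiFree
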