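import Pool.Agent.Lib.MP_6e8030_nt.W.K1
import Pool.Agent.Lib.MP_6e8030_nt.W.B5b
import Pool.Agent.Lib.MP_6e8030_nt.W.C1
import Pool.Agent.Lib.MP_6e8030_nt.W.C1b
import Pool.Agent.Lib.MP_6e8030_nt.W.C2d
import Pool.Agent.Lib.MP_6e8030_nt.W.C3
import Pool.Agent.Lib.MP_6e8030_nt.W.C5
import Pool.Agent.Lib.MP_6e8030_nt.W.D0
import Pool.Agent.Lib.MP_6e8030_nt.W.D4
import Pool.Agent.Lib.MP_6e8030_nt.W.D6
import Pool.Agent.Lib.MP_6e8030_nt.W.R2
import Pool.Agent.Lib.MP_6e8030_nt.W.H1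
import Pool.Agent.Lib.MP_6e8030_nt.W.H2

open IntermediateField
open scoped ComplexConjugate

noncomputable section

namespace OzakiFree

/-! # Theorem W: the assembly -/

theorem Fin_conj_sq (φ : Om →+* ℂ) (c : GQ) (hc : ∀ x, φ (c x) = conj (φ x)) : c * c = 1 := by
  ext x
  apply φ.injective
  show φ (c (c x)) = φ x
  rw [hc, hc, Complex.conj_conj]

theorem Fin_conj_mem (φ : Om →+* ℂ) (c : GQ) (hc : ∀ x, φ (c x) = conj (φ x)) : c ∈ PQ 2 := by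
  rw [mem_PQ_iff Nat.prime_two]
  refine ⟨2, two_pos, fun ζ _ => ?_⟩
  rw [pow_two, Fin_conj_sq φ c hc]
  rfl

theorem comm_gal (K : IntermediateField ℚ Om)
    (h : ∀ x ∈ K.fixingSubgroup, ∀ y ∈ K.fixingSubgroup, x * y * x⁻¹ * y⁻¹ ∈ RL 2 K) :
    ∀ x y : GalGroup K (maxUnram 2 K), x * y = y * x := by
  intro x y
  obtain ⟨a, rfl⟩ := N3_surj 2 K x
  obtain ⟨b, rfl⟩ := N3_surj 2 K y
  have h1 : N3_pi 2 K (a * b * a⁻¹ * b⁻¹) = 1 := by
    rw [N3_ker]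
    exact h a a.2 b b.2
  rw [map_mul, map_mul, map_mul, map_inv, map_inv] at h1
  rw [mul_inv_eq_one] at h1
  rw [mul_inv_eq_iff_eq_mul] at h1
  exact h1

section

variable {k : IntermediateField ℚ Om} {χ₀ : GQ → ZMod 2} {B₂ : Ideal ZO} {φ : GQ}
    {s : ℕ} {Bs : Fin s → Ideal ZO} {τ : Fin s → GQ} {ψ : Fin s → GQ → ZMod 2}

theorem Fin_z2 (a : ZMod 2) : a = 0 ∨ a = 1 := by
  revert a; decide

theorem Fin_ne {a : ZMod 2} (h : a ≠ 0) : a = 1 := (Fin_z2 a).resolve_left h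

/-- `∑ ψ m = χ₀` -/
theorem sum_psi (hG : GData (PQ 2) (cycZp 2 k).fixingSubgroup (RL 2 (cycZp 2 k)) χ₀ s τ ψ) :
    ∀ g ∈ PQ 2, ∑ m, ψ m g = χ₀ g := by
  have h := hG.fr (fun g => χ₀ g - ∑ m, ψ m g) ?_ ?_ ?_ ?_
  · intro g hg
    exact (sub_eq_zero.1 (h g hg)).symm
  · intro g hg h' hh'
    show χ₀ (g * h') - ∑ m, ψ m (g * h') = _
    rw [hG.h0 g hg h' hh', Finset.sum_congr rfl (fun m _ => hG.phom m g hg h' hh'),
      Finset.sum_add_distrib]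
    ring
  · have h1 := LC_sum (p := 2) (P := PQ 2) Finset.univ ψ (fun m _ => hG.plc m)
    obtain ⟨U, hU, hU'⟩ := h1
    obtain ⟨V, hV, hV'⟩ := hG.l0
    refine ⟨U ⊓ V, hU.inter hV, fun g hg u hu huP => ?_⟩
    show χ₀ (g * u) - ∑ m, ψ m (g * u) = χ₀ g - ∑ m, ψ m g
    have h2 := hU' g hg u hu.1 huP
    have h3 := hV' g hg u hu.2 huP
    simp only at h2
    rw [h2, h3]
  · intro r hr
    show χ₀ r - ∑ m, ψ m r = 0
    rw [((hG.hH r).1 (hG.RH hr)).2, Finset.sum_congr rfl (fun m _ => hG.pR m r hr)]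
    simp
  · intro m
    show χ₀ (τ m) - ∑ n, ψ n (τ m) = 0
    rw [hG.t1, Finset.sum_congr rfl (fun n _ => hG.pt n m)]
    simp

/-- (C4) -/
theorem psi_prod (hfree : FreeGal 2 (cycZp 2 k)) (hk : KData k χ₀)
    (hG : GData (PQ 2) (cycZp 2 k).fixingSubgroup (RL 2 (cycZp 2 k)) χ₀ s τ ψ)
    (φ' : Om →+* ℂ) (c : GQ) (hc : ∀ x, φ' (c x) = conj (φ' x)) (a b : Fin s) (hab : a ≠ b) :
    ψ a c * ψ b c = 0 := by
  haveI : Fact (Nat.Prime 2) := ⟨Nat.prime_two⟩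
  obtain ⟨l1, l2⟩ := lifts_of_free (p := 2) (cycZp 2 k) hfree
  obtain ⟨η, e1, e2, e3, e4⟩ := lemmaA (p := 2) (PQ 2) (cycZp 2 k).fixingSubgroup
    (RL 2 (cycZp 2 k)) χ₀ (ψ a) (ψ b) hG.h0 (hG.phom a) (hG.phom b) hG.l0 (hG.plc a) (hG.plc b)
    hG.hH hG.RH hG.Rn (hG.pR a) (hG.pR b) l1 l2 (τ a) (hG.tP a) (hG.t1 a)
    (by rw [pow_two]; exact hG.t2 a)
  have h0 : ∀ g ∈ PQ 2, η g = 0 := by
    refine hG.fr η e1 e2 e3 fun m => ?_
    have h1 := e4 (τ m) (hG.tP m) (by rw [hG.t1]; exact one_ne_zero)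
      (by rw [pow_two]; exact hG.t2 m)
    rw [hG.t1, one_mul, hG.pt, hG.pt] at h1
    rw [h1]
    by_cases h2 : a = m
    · rw [if_pos h2, if_neg (fun h => hab (h2.trans h.symm)), mul_zero]
    · rw [if_neg h2, zero_mul]
  have hcP := Fin_conj_mem φ' c hc
  have h2 := e4 c hcP (hk.im φ' c hc) (by
    rw [pow_two, Fin_conj_sq φ' c hc]; exact Subgroup.one_mem _)
  rw [h0 c hcP, mul_zero] at h2
  exact h2.symm

/-- (C5) -/
theorem exists_c0 (hs : 3 ≤ s) (hfree : FreeGal 2 (cycZp 2 k)) (hW : WData k χ₀ B₂ φ s Bs τ ψ)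
    (hG : GData (PQ 2) (cycZp 2 k).fixingSubgroup (RL 2 (cycZp 2 k)) χ₀ s τ ψ) :
    ∃ (φ' : Om →+* ℂ) (c : GQ) (i j : Fin s), (∀ x, φ' (c x) = conj (φ' x)) ∧ i ≠ j ∧
      (2 : ZO) ∉ Bs i ∧ (2 : ZO) ∉ Bs j ∧ ψ i c = 0 ∧ ψ j c = 0 := by
  have hprod := fun φ' c hc a b hab => psi_prod hfree hW.kd hG φ' c hc a b hab
  by_contra hno
  push Not at hno
  -- there is an index over 2
  have he : ∃ e, (2 : ZO) ∈ Bs e := by
    by_contra hne
    push Not at hne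
    obtain ⟨φ', c, hc⟩ := exists_conj
    set i0 : Fin s := ⟨0, by omega⟩
    set i1 : Fin s := ⟨1, by omega⟩
    set i2 : Fin s := ⟨2, by omega⟩
    have h01 : i0 ≠ i1 := by intro h; have := congrArg Fin.val h; simp [i0, i1] at this
    have h02 : i0 ≠ i2 := by intro h; have := congrArg Fin.val h; simp [i0, i2] at this
    have h12 : i1 ≠ i2 := by intro h; have := congrArg Fin.val h; simp [i1, i2] at this
    have p01 := hprod φ' c hc i0 i1 h01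
    have p02 := hprod φ' c hc i0 i2 h02
    have p12 := hprod φ' c hc i1 i2 h12
    rcases Fin_z2 (ψ i0 c) with h0 | h0
    · rcases Fin_z2 (ψ i1 c) with h1 | h1
      · exact hno φ' c i0 i1 hc h01 (hne _) (hne _) h0 h1
      · rw [h1, one_mul] at p12
        exact hno φ' c i0 i2 hc h02 (hne _) (hne _) h0 p12
    · rw [h0, one_mul] at p01 p02
      exact hno φ' c i1 i2 hc h12 (hne _) (hne _) p01 p02
  obtain ⟨e, he⟩ := he
  -- `ψ e` vanishes on all complex conjugations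
  have hec : ∀ (φ' : Om →+* ℂ) (c : GQ), (∀ x, φ' (c x) = conj (φ' x)) → ψ e c = 0 := by
    intro φ' c hc
    by_contra hne
    have h1 := Fin_ne hne
    have h2 : ∀ m, m ≠ e → ψ m c = 0 := by
      intro m hm
      have := hprod φ' c hc e m (fun h => hm h.symm)
      rwa [h1, one_mul] at this
    obtain ⟨i, hi⟩ : ∃ i : Fin s, i ≠ e := by
      by_contra h3
      push Not at h3
      have h4 := (h3 ⟨0, by omega⟩).trans (h3 ⟨1, by omega⟩).symm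
      have := congrArg Fin.val h4
      simp at this
    obtain ⟨j, hj, hji⟩ : ∃ j : Fin s, j ≠ e ∧ i ≠ j := by
      by_contra h3
      push Not at h3
      have h5 : ∀ a : Fin s, a = e ∨ a = i := by
        intro a
        by_cases h6 : a = e
        · exact Or.inl h6
        · right
          by_contra h7
          exact h7 (h3 a h6).symm |>.elim
      have hc3 : Finset.univ ⊆ ({e, i} : Finset (Fin s)) := by
        intro a _
        rcases h5 a with h6 | h6 <;> simp [h6]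
      have := Finset.card_le_card hc3
      rw [Finset.card_univ, Fintype.card_fin] at this
      have h8 := Finset.card_le_two (a := e) (b := i)
      omega
    exact hno φ' c i j hc hji (fun h => hi (hW.one2 _ _ h he)) (fun h => hj (hW.one2 _ _ h he))
      (h2 i hi) (h2 j hj)
  have hodd : ∀ B : Ideal ZO, B.IsMaximal → (2 : ZO) ∉ B → ∀ t ∈ B.inertia GQ, ψ e t = 0 := by
    intro B hB h2 t ht
    have htP : t ∈ PQ 2 := inertia_mem_PQ Nat.prime_two B hB (by exact_mod_cast h2) t ht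
    by_cases h0 : χ₀ t = 0
    · exact hW.pR e t (inertia_mem_RL 2 _ B hB t ht ((hW.kd.mem t).2 ⟨htP, h0⟩))
    · obtain ⟨m, g, hg, hm⟩ := hW.cover B hB t ht htP h0
      have h2m : (2 : ZO) ∉ Bs m := by
        intro h
        apply h2
        have := (hm (2 : ZO)).1 h
        have h3 : g • (2 : ZO) = 2 := by
          have : g • (1 : ZO) = 1 := smul_one g
          have h4 : (2 : ZO) = 1 + 1 := by norm_num
          rw [h4, smul_add, this]
        rwa [h3] at this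
      have hme : e ≠ m := by
        rintro rfl
        exact h2m he
      set t' := g⁻¹ * t * g with ht'
      have ht'I : t' ∈ (Bs m).inertia GQ := hm.inertia' ht
      have ht'P : t' ∈ PQ 2 := PQ_conj' Nat.prime_two g t htP
      have hχ : χ₀ t' = χ₀ t := EM_conj hW.kd.h0 g t hg htP
      have hψ : ψ e t' = ψ e t := EM_conj (hW.phom e) g t hg htP
      have hr : t' * (τ m)⁻¹ ∈ RL 2 (cycZp 2 k) := by
        refine inertia_mem_RL 2 _ (Bs m) (hW.bmax m) _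
          (Subgroup.mul_mem _ ht'I (Subgroup.inv_mem _ (hW.tin m))) ((hW.kd.mem _).2 ⟨?_, ?_⟩)
        · exact Subgroup.mul_mem _ ht'P (Subgroup.inv_mem _ (hW.tP m))
        · rw [hW.kd.h0 _ ht'P _ (Subgroup.inv_mem _ (hW.tP m)), EM_inv hW.kd.h0 _ (hW.tP m), hχ,
            hW.t1, Fin_ne h0]
          decide
      have h5 := hW.phom e _ (Subgroup.mul_mem _ ht'P (Subgroup.inv_mem _ (hW.tP m))) _ (hW.tP m)
      rw [inv_mul_cancel_right, hψ, hW.pR e _ hr, hW.pt, if_neg hme, zero_add] at h5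
      exact h5
  have h0 := real2 (ψ e) (hW.phom e) (hW.plc e) hodd hec (τ e) (hW.tP e)
  rw [hW.pt, if_pos rfl] at h0
  exact one_ne_zero h0

/-- relative restriction of `HomOn` -/
theorem Fin_homOn_mono {n : ℕ} {P Q : Subgroup GQ} (h : Q ≤ P) {χ : GQ → ZMod n} (h1 : HomOn P χ) :
    HomOn Q χ := fun g hg g' hg' => h1 g (h hg) g' (h hg')

theorem Fin_lcOn_mono {n : ℕ} {P Q : Subgroup GQ} (h : Q ≤ P) {χ : GQ → ZMod n} (h1 : LCOn P χ) :
    LCOn Q χ := by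
  obtain ⟨U, hU, hU'⟩ := h1
  exact ⟨U, hU, fun g hg u hu huQ => hU' g (h hg) u hu (h huQ)⟩

theorem Fin_PQ_le (m : ℕ) : PQ 2 ≤ (Dl m).fixingSubgroup :=
  IntermediateField.fixingSubgroup_le (Dl_le m)

/-- **the contradiction** -/
theorem no_two [FiniteDimensional ℚ k] (hW : WData k χ₀ B₂ φ s Bs τ ψ)
    (hG : GData (PQ 2) (cycZp 2 k).fixingSubgroup (RL 2 (cycZp 2 k)) χ₀ s τ ψ)
    (hI : FreeInv (PQ 2) (RL 2 (cycZp 2 k)) s τ)
    (hRL : ∀ g ∈ (k ⊓ cycZp 2 ⊥).fixingSubgroup, ∀ r ∈ RL 2 (cycZp 2 k),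
      g * r * g⁻¹ ∈ RL 2 (cycZp 2 k))
    (φ' : Om →+* ℂ) (c : GQ) (hc : ∀ x, φ' (c x) = conj (φ' x)) (i j : Fin s) (hij : i ≠ j)
    (hi : (2 : ZO) ∉ Bs i) (hj : (2 : ZO) ∉ Bs j) (hic : ψ i c = 0) (hjc : ψ j c = 0) : False := by
  have hP := hW.p2
  set ψs : GQ → ZMod 2 := fun g => ψ i g + ψ j g with hψs
  have s1 : HomOn (PQ 2) ψs := by
    intro g hg h hh
    show ψ i (g * h) + ψ j (g * h) = (ψ i g + ψ j g) + (ψ i h + ψ j h)
    rw [hW.phom i g hg h hh, hW.phom j g hg h hh]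
    ring
  have s2 : LCOn (PQ 2) ψs := by
    obtain ⟨U, hU, hU'⟩ := hW.plc i
    obtain ⟨V, hV, hV'⟩ := hW.plc j
    refine ⟨U ⊓ V, hU.inter hV, fun g hg u hu huP => ?_⟩
    show ψ i (g * u) + ψ j (g * u) = ψ i g + ψ j g
    rw [hU' g hg u hu.1 huP, hV' g hg u hu.2 huP]
  have s3 : ψs φ = 0 := by
    show ψ i φ + ψ j φ = 0
    rw [(hW.odd i hi).1, (hW.odd j hj).1]
    decide
  have s4 : ∀ t ∈ B₂.inertia GQ, t ∈ PQ 2 → ψs t = 0 := by
    intro t ht htP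
    show ψ i t + ψ j t = 0
    rw [(hW.odd i hi).2 t ht htP, (hW.odd j hj).2 t ht htP, add_zero]
  obtain ⟨m', ψ', hm', hS, p1, p2, p3, p4⟩ := extend_psi hP ψs s1 s2 s3 s4
  -- the field of `A`
  have : FiniteDimensional ℚ (k ⊓ cycZp 2 ⊥ : IntermediateField ℚ Om) :=
    FiniteDimensional.of_injective (IntermediateField.inclusion
      (inf_le_left : k ⊓ cycZp 2 ⊥ ≤ k)).toLinearMap
      (IntermediateField.inclusion (inf_le_left : k ⊓ cycZp 2 ⊥ ≤ k)).injective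
  obtain ⟨m₁, hm₁, hA⟩ := exists_Dl ((Dl m').fixingSubgroup ⊓ (k ⊓ cycZp 2 ⊥).fixingSubgroup)
    ((IntermediateField.fixingSubgroup_isOpen (Dl m')).inter
      (IntermediateField.fixingSubgroup_isOpen (k ⊓ cycZp 2 ⊥)))
    (le_inf (Fin_PQ_le m') (IntermediateField.fixingSubgroup_le inf_le_right))
  have hA1 : (Dl m₁).fixingSubgroup ≤ (Dl m').fixingSubgroup := by
    rw [← hA]; exact inf_le_left
  have hA2 : (Dl m₁).fixingSubgroup ≤ (k ⊓ cycZp 2 ⊥).fixingSubgroup := by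
    rw [← hA]; exact inf_le_right
  have hτi : ψ' (τ i) ≠ 0 := by
    rw [p3 _ (hW.tP i)]
    show ψ i (τ i) + ψ j (τ i) ≠ 0
    rw [hW.pt, hW.pt, if_pos rfl, if_neg (fun h => hij h.symm), add_zero]
    exact one_ne_zero
  obtain ⟨K, hKf, hK1, hK2⟩ := field_of_char Nat.prime_two (Dl m₁) ψ' (Fin_homOn_mono hA1 p1)
    (Fin_lcOn_mono hA1 p2) ⟨τ i, Fin_PQ_le m₁ (hW.tP i), hτi⟩
  obtain ⟨K0, hK0f, hK01, hK02⟩ := field_of_char Nat.prime_two (Dl m') ψ' p1 p2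
    ⟨τ i, Fin_PQ_le m' (hW.tP i), hτi⟩
  obtain ⟨B₁, hB₁m, hB₁⟩ := exists_Mv (τ i)⁻¹ B₂ hP.max
  have hB₁' : Mv (τ i) B₁ B₂ := by
    have := hB₁.inv
    rwa [inv_inv] at this
  have hst : ∀ g ∈ (Dl m₁).fixingSubgroup, ∀ x ∈ PQ 2,
      ψ i (g * x * g⁻¹) + ψ j (g * x * g⁻¹) = ψ i x + ψ j x := by
    intro g hg x hx
    exact (hS g).1 (hA1 hg) x hx
  have hpair : ∀ t : ℕ, ∃ χ₁ χ₂ : GQ → ZMod (2 ^ t), PairData B₂ B₁ φ K t χ₁ χ₂ := by
    intro t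
    obtain ⟨f, hf⟩ := exists_coc hG hI i j hij t
    obtain ⟨f', hf'⟩ := exists_coc hG hI i j hij (t + 1)
    exact exists_pair hW hG hRL (fun φ' c hc => Fin_conj_mem φ' c hc) hij hi hj m₁ hA2 ψ' hst
      (Fin_homOn_mono hA1 p1) p3 (fun d hd hd' => p4 d hd (hA1 hd')) K hK2 (τ i) (hW.tP i) hτi B₁
      hB₁' hf hf'
  obtain ⟨T, hT1, hT2⟩ := exists_reps_in hP (Dl m₁).fixingSubgroup
    (IntermediateField.fixingSubgroup_isOpen (Dl m₁)) (Fin_PQ_le m₁)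
  have hφK : φ ∈ K.fixingSubgroup := by
    rw [hK2]
    exact ⟨Fin_PQ_le m₁ hP.memP, by rw [p3 _ hP.memP]; exact s3⟩
  obtain ⟨W, hW0, hrel⟩ := units_relation hP hB₁m K hK1 hφK
    ⟨τ i, hW.tP i, fun h => hτi ((hK2 _).1 h).2⟩
    (fun d hd hd' => (hK2 d).2 ⟨hd', p4 d hd (hA1 hd')⟩) hpair T hT1 hT2
  have hcP := Fin_conj_mem φ' c hc
  obtain ⟨ε, hε1, hε2⟩ := exists_eps (Dl m') K0 (Dl_real m') hK01 φ' c hc
    ((hK02 c).2 ⟨Fin_PQ_le m' hcP, by
      rw [p3 _ hcP]; show ψ i c + ψ j c = 0; rw [hic, hjc, add_zero]⟩)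
  -- `ε` as a unit of `K`
  have hK0K : K0 ≤ K := by
    intro x hx
    rw [← InfiniteGalois.fixedField_fixingSubgroup K, IntermediateField.mem_fixedField_iff]
    intro g hg
    exact fix_F ((hK02 g).2 ⟨hA1 ((hK2 g).1 hg).1, ((hK2 g).1 hg).2⟩) x hx
  obtain ⟨w, hw⟩ := exists_lift_ZF hK0K (ε : ZF K0)
  obtain ⟨w', hw'⟩ := exists_lift_ZF hK0K ((ε⁻¹ : (ZF K0)ˣ) : ZF K0)
  have hww : w * w' = 1 := by
    apply ZF_val_inj
    show w.val * w'.val = 1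
    rw [hw, hw']
    have : (ε : ZF K0) * ((ε⁻¹ : (ZF K0)ˣ) : ZF K0) = 1 := ε.mul_inv
    exact congrArg ZF.val this
  have hεne : (ε : ZF K0).val ≠ 0 := by
    intro h0
    have : (ε : ZF K0) * ((ε⁻¹ : (ZF K0)ˣ) : ZF K0) = 1 := ε.mul_inv
    have h1 : (ε : ZF K0).val * (((ε⁻¹ : (ZF K0)ˣ) : ZF K0)).val = 1 := congrArg ZF.val this
    rw [h0, zero_mul] at h1
    exact zero_ne_one h1
  have hrel2 := hrel ⟨w, w', hww, by rw [mul_comm]; exact hww⟩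
  have hrel3 : ∏ s ∈ T, (s (ε : ZF K0).val) ^ W = 1 := by
    rw [← hw]; exact hrel2
  have hεfix : ∀ g ∈ K0.fixingSubgroup, g (ε : ZF K0).val = (ε : ZF K0).val :=
    fun g hg => fix_F hg _ (ZF_val_mem _)
  obtain ⟨n, hn, hn1⟩ := indep (PQ 2) (Dl m').fixingSubgroup (E10_PQ_normal Nat.prime_two) (Fin_PQ_le m') ψ'
    (ε : ZF K0).val hεne (by
      intro g hg
      by_cases h0 : ψ' g = 0
      · rw [if_pos h0]
        exact hεfix g ((hK02 g).2 ⟨Fin_PQ_le m' hg, h0⟩)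
      · rw [if_neg h0]
        exact eq_inv_of_mul_eq_one_left (hε2 g (Fin_PQ_le m' hg) fun h => h0 ((hK02 g).1 h).2)) T
    (by
      intro s hs hsS
      exact hεfix s ((hK02 s).2 ⟨hsS, p4 s (inertia_le_DB B₂ (hT1 s hs)) hsS⟩))
    (by
      intro s _ hsS g hg
      have hg' : s⁻¹ * g * s ∈ PQ 2 := PQ_conj' Nat.prime_two s g hg
      rw [p3 _ hg', p3 _ hg]
      have := (hS s⁻¹).1 (Subgroup.inv_mem _ hsS) g hg
      rwa [inv_inv] at this)
    (by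
      intro s _ hsS
      by_contra hno
      push Not at hno
      apply hsS
      have h1 : s⁻¹ ∈ (Dl m').fixingSubgroup := by
        rw [hS]
        intro x hx
        have h2 := hno x hx
        rw [p3 _ (PQ_conj' Nat.prime_two s x hx), p3 _ hx] at h2
        rwa [inv_inv]
      have := Subgroup.inv_mem _ h1
      rwa [inv_inv] at this)
    (by
      obtain ⟨s, ⟨hs1, hs2⟩, -⟩ := hT2 1
      refine ⟨s, hs1, hA1 ?_⟩
      have := Subgroup.inv_mem _ hs2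
      rwa [mul_one, inv_inv] at this) W hW0 hrel3
  apply hε1 n hn
  apply Units.ext
  apply ZF_val_inj
  rw [Units.val_pow_eq_pow_val]
  have h1 : ∀ n : ℕ, ((ε : ZF K0) ^ n).val = (ε : ZF K0).val ^ n := by
    intro n
    induction n with
    | zero => rw [pow_zero, pow_zero]; rfl
    | succ n ih => rw [pow_succ, pow_succ, ← ih]; rfl
  rw [h1, hn1]
  rfl

end

/-- **Theorem W** -/
theorem theoremW (k : IntermediateField ℚ Om) [FiniteDimensional ℚ k]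
    (h : relfinrank (k ⊓ cycZp 2 ⊥) k = 2) (him : ∀ c, IsConj c → ¬ Fixes c k)
    (hfree : FreeGal 2 (cycZp 2 k)) :
    ∀ x y : GalGroup (cycZp 2 k) (maxUnram 2 (cycZp 2 k)), x * y = y * x := by
  have : Fact (Nat.Prime 2) := ⟨Nat.prime_two⟩
  obtain ⟨χ₀, hk, hinv, hRL⟩ := exists_kdata k h him
  obtain ⟨B₂, φ, hP⟩ := exists_prime2
  obtain ⟨s, Bs, τ, ψ, hW⟩ := exists_wdata k χ₀ hk hP
  have hG := gdata_of_wdata hW (RL_pro Nat.prime_two (cycZp 2 k))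
  obtain ⟨X, b, hF, -⟩ := free_on (p := 2) (cycZp 2 k) hfree
  by_cases hs : s ≤ 2
  · exact comm_gal _ (comm_small hG hs)
  · exfalso
    obtain ⟨φ', c, i, j, hc, hij, hi, hj, hic, hjc⟩ := exists_c0 (by omega) hfree hW hG
    obtain ⟨n, rfl⟩ : ∃ n, s = n + 1 := ⟨s - 1, by omega⟩
    exact no_two hW hG (free_inv hG X b hF) hRL φ' c hc i j hij hi hj hic hjc

end OzakiFree
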