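import Pool.Agent.Lib.MP_6e8030_nt.W.Cg

open IntermediateField
open scoped ComplexConjugate

noncomputable section

namespace OzakiFree

/-! ### G1: elements of valuation zero -/

private theorem G1_ZF (E : IntermediateField ℚ Om) (y : Om) (hyE : y ∈ E)
    (hint : IsIntegral ℤ y) : ∃ w : ZF E, w.val = y := by
  let x : FL E := ⟨y, hyE⟩
  have hx : IsIntegral ℤ x := by
    refine (isIntegral_algHom_iff (FLhom E).toIntAlgHom (FLhom E).injective).1 ?_
    exact hint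
  exact ⟨⟨x, hx⟩, rfl⟩

private theorem G1_frac (E : IntermediateField ℚ Om) (κ : Om) (hκ : κ ∈ E) (h0 : κ ≠ 0) :
    ∃ x y : ZF E, x ≠ 0 ∧ y ≠ 0 ∧ κ * y.val = x.val := by
  have halg : IsAlgebraic ℤ κ := by
    have : IsAlgebraic ℚ κ := Algebra.IsAlgebraic.isAlgebraic κ
    exact (IsFractionRing.isAlgebraic_iff ℤ ℚ Om).2 this
  obtain ⟨n, hn0, hn⟩ := halg.exists_integral_multiple
  have hn1 : (n : Om) ≠ 0 := by exact_mod_cast hn0
  obtain ⟨x, hx⟩ := G1_ZF E (n • κ) (E.toSubfield.zsmul_mem hκ n) hn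
  obtain ⟨y, hy⟩ := G1_ZF E (n : Om) (E.toSubfield.intCast_mem n) (isIntegral_algebraMap (x := n))
  have hz : ((0 : ZF E)).val = 0 := rfl
  refine ⟨x, y, ?_, ?_, ?_⟩
  · rintro rfl
    rw [hz, zsmul_eq_mul] at hx
    exact mul_ne_zero hn1 h0 hx.symm
  · rintro rfl
    rw [hz] at hy
    exact hn1 hy.symm
  · rw [hx, hy, zsmul_eq_mul, mul_comm]

private theorem G1_prod (κ : Om) (T : Finset GQ) (v : ZO) (hprod : ∏ s ∈ T, s κ = (v : Om))
    (x₁ x₂ : ZO) (h : κ * (x₁ : Om) = (x₂ : Om)) :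
    v * ∏ s ∈ T, s • x₁ = ∏ s ∈ T, s • x₂ := by
  have hc : ∀ x : ZO, ((∏ s ∈ T, s • x : ZO) : Om) = ∏ s ∈ T, s (x : Om) := by
    intro x
    exact map_prod (integralClosure ℤ Om).val _ _
  apply Subtype.ext
  change (v : Om) * ((∏ s ∈ T, s • x₁ : ZO) : Om) = ((∏ s ∈ T, s • x₂ : ZO) : Om)
  rw [hc, hc, ← hprod, ← Finset.prod_mul_distrib]
  refine Finset.prod_congr rfl fun s _ => ?_
  rw [← map_mul, h]

private theorem G1_iff {B : Ideal ZO} (hB : B.IsMaximal) (κ : Om) (T : Finset GQ)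
    (hTn : T.Nonempty) (hT : ∀ s ∈ T, s ∈ DB B) (v : ZO) (hv : v ∉ B)
    (hprod : ∏ s ∈ T, s κ = (v : Om)) (x₁ x₂ : ZO) (h : κ * (x₁ : Om) = (x₂ : Om)) :
    x₁ ∈ B ↔ x₂ ∈ B := by
  have hBp : B.IsPrime := hB.isPrime
  have hm : ∀ x : ZO, (∏ s ∈ T, s • x) ∈ B ↔ x ∈ B := by
    intro x
    rw [hBp.prod_mem_iff]
    constructor
    · rintro ⟨s, hs, hx⟩
      exact (hT s hs x).2 hx
    · intro hx
      obtain ⟨s, hs⟩ := hTn
      exact ⟨s, hs, (hT s hs x).1 hx⟩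
  have h1 := G1_prod κ T v hprod x₁ x₂ h
  rw [← hm x₂, ← h1, hBp.mul_mem_iff_mem_or_mem, hm x₁]
  exact ⟨Or.inr, fun h => h.resolve_left hv⟩

/-- PROOF. `q = B ∩ E`, `κ = x / y`, `x, y ∈ ZF E` nonzero. GA `exists_uniformizer`: `π ∈ q`, `r x = π ^ a w`, `r' y = π ^ b w'` with `r, w, r', w' ∉ q`. If `a = b`: `κ (r w') = r' w`, done. If `a > b` : `κ r w' = π ^ (a - b) r' w`; apply `∏_{s ∈ T} s`: `v ∏ s(r w') = ∏ s(π) ^ (a-b) ∏ s(r' w)`: the left side is not in `B` (`s ∈ DB B` keeps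
the complement of `B`), the right side is in `B` (`T` is nonempty): contradiction. If `a < b` similarly. -/
theorem kappa_frac {B : Ideal ZO} (hB : B.IsMaximal) (E : IntermediateField ℚ Om)
    [FiniteDimensional ℚ E] (κ : Om) (hκ : κ ∈ E) (h0 : κ ≠ 0) (T : Finset GQ) (hTn : T.Nonempty)
    (hT : ∀ s ∈ T, s ∈ DB B) (v : ZO) (hv : v ∉ B) (hprod : ∏ s ∈ T, s κ = (v : Om)) :
    ∃ α b : ZF E, iota E α ∉ B ∧ iota E b ∉ B ∧ κ * b.val = α.val := by
  have hBp : B.IsPrime := hB.isPrime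
  obtain ⟨x, y, hx0, hy0, hxy⟩ := G1_frac E κ hκ h0
  have hqm := comap_max E B hB
  have hqp : (B.comap (iota E)).IsPrime := hqm.isPrime
  have hq0 : B.comap (iota E) ≠ ⊥ := by
    obtain ⟨l, hl, hlB, -⟩ := exists_prime_mem B hB
    intro h
    have h1 : (l : ZF E) ∈ B.comap (iota E) := by
      rw [mem_comap_iff, map_natCast]
      exact hlB
    rw [h, Ideal.mem_bot] at h1
    exact natCast_ne_zero E hl.ne_zero h1
  obtain ⟨π, hπq, hπ0, hu⟩ := exists_uniformizer (B.comap (iota E)) hqm hq0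
  obtain ⟨r, w, hr, hw, hrw⟩ := hu x hx0
  obtain ⟨r', w', hr', hw', hrw'⟩ := hu y hy0
  generalize multiplicity (B.comap (iota E)) (Ideal.span {x}) = a at hrw
  generalize multiplicity (B.comap (iota E)) (Ideal.span {y}) = b at hrw'
  have hmul : ∀ s t : ZF E, (s * t).val = s.val * t.val := fun s t => rfl
  have hmulq : ∀ s t : ZF E, s ∉ B.comap (iota E) → t ∉ B.comap (iota E) →
      iota E (s * t) ∉ B := by
    intro s t hs ht h
    rcases hqp.mem_or_mem (x := s) (y := t) h with h1 | h1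
    · exact hs h1
    · exact ht h1
  have hkey : κ * ((r * w') * π ^ b).val = ((r' * w) * π ^ a).val := by
    have e1 : (r * w') * π ^ b = r * (r' * y) := by
      rw [hrw']
      ring
    have e2 : (r' * w) * π ^ a = r' * (r * x) := by
      rw [hrw]
      ring
    rw [e1, e2, hmul, hmul, hmul, hmul, ← hxy]
    ring
  have hpow : ∀ k : ℕ, (π ^ k).val ≠ 0 := by
    intro k h
    exact pow_ne_zero k hπ0 (ZF_val_inj _ 0 h)
  rcases lt_trichotomy a b with hab | hab | hab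
  · exfalso
    obtain ⟨k, rfl⟩ := Nat.exists_eq_add_of_lt hab
    have h1 : κ * ((r * w') * π ^ (k + 1)).val = (r' * w).val := by
      have e1 : (r * w') * π ^ (a + k + 1) = (r * w') * π ^ (k + 1) * π ^ a := by ring
      rw [e1, hmul _ (π ^ a), hmul _ (π ^ a), ← mul_assoc] at hkey
      exact mul_right_cancel₀ (hpow a) hkey
    have h2 := (G1_iff hB κ T hTn hT v hv hprod (iota E ((r * w') * π ^ (k + 1)))
      (iota E (r' * w)) h1).1 (by
        rw [pow_succ, ← mul_assoc, map_mul]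
        exact B.mul_mem_left _ hπq)
    exact hmulq _ _ hr' hw h2
  · subst hab
    refine ⟨r' * w, r * w', hmulq _ _ hr' hw, hmulq _ _ hr hw', ?_⟩
    rw [hmul _ (π ^ a), hmul _ (π ^ a), ← mul_assoc] at hkey
    exact mul_right_cancel₀ (hpow a) hkey
  · exfalso
    obtain ⟨k, rfl⟩ := Nat.exists_eq_add_of_lt hab
    have h1 : κ * (r * w').val = ((r' * w) * π ^ (k + 1)).val := by
      have e1 : (r' * w) * π ^ (b + k + 1) = (r' * w) * π ^ (k + 1) * π ^ b := by ring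
      rw [e1, hmul _ (π ^ b), hmul _ (π ^ b), ← mul_assoc] at hkey
      exact mul_right_cancel₀ (hpow b) hkey
    have h2 := (G1_iff hB κ T hTn hT v hv hprod (iota E (r * w'))
      (iota E ((r' * w) * π ^ (k + 1))) h1).2 (by
        rw [pow_succ, ← mul_assoc, map_mul]
        exact B.mul_mem_left _ hπq)
    exact hmulq _ _ hr hw' h2

end OzakiFree
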