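import Pool.Agent.Lib.MP_6e8030_nt.W.G1
import Pool.Agent.Lib.MP_6e8030_nt.W.B3d
import Pool.Agent.Lib.MP_6e8030_nt.W.B3e

open IntermediateField
open scoped ComplexConjugate

noncomputable section

namespace OzakiFree

/-! ### G3: the local step -/

private theorem G3_one {B : Ideal ZO} (hB : B.IsMaximal) : (1 : ZO) ∉ B := by
  intro h
  exact hB.ne_top ((Ideal.eq_top_iff_one B).2 h)

private theorem G3_int {B : Ideal ZO} (hB : B.IsMaximal) {m : ℕ} {n e : ℤ}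
    (h : (2 ^ m : ℤ) ∣ n - e) : CongB B m (n : ZO) (e : ZO) := by
  obtain ⟨k, hk⟩ := h
  refine ⟨1, (k : ZO), G3_one hB, ?_⟩
  have h1 : ((n - e : ℤ) : ZO) = ((2 ^ m * k : ℤ) : ZO) := by rw [hk]
  push_cast at h1
  rw [one_mul]
  exact h1

private theorem G3_notMem {B : Ideal ZO} (hB : B.IsMaximal) (h2 : (2 : ZO) ∈ B) {m : ℕ}
    (hm : m ≠ 0) {x y : ZO} (h : CongB B m x y) (hx : x ∉ B) : y ∉ B := by
  intro hy
  obtain ⟨r, z, hr, h1⟩ := h
  have hp : B.IsPrime := hB.isPrime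
  have h3 : (2 : ZO) ^ m ∈ B := Ideal.pow_mem_of_mem B h2 m (Nat.pos_of_ne_zero hm)
  have h4 : r * x ∈ B := by
    have h5 : r * x = r * y + 2 ^ m * z := by rw [← h1]; ring
    rw [h5]
    exact B.add_mem (B.mul_mem_left _ hy) (B.mul_mem_right _ h3)
  rcases hp.mem_or_mem h4 with h5 | h5
  · exact hr h5
  · exact hx h5

private theorem G3_val_prod (T : Finset GQ) (x : ZO) :
    ((∏ s ∈ T, s • x : ZO) : Om) = ∏ s ∈ T, s (x : Om) := by
  classical
  induction T using Finset.induction_on with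
  | empty => rfl
  | insert a T ha ih =>
    rw [Finset.prod_insert ha, Finset.prod_insert ha, ← ih]
    rfl

/-- PROOF. (`m = 0`: `CongB B 0` always holds. Let `m ≥ 1`.) `α, b ∈ ZF E` from `kappa_frac`, `x₁, x₂ ∈ ZF (Dl m)` with `α ≡ x₁`, `b ≡ x₂` modulo `2 ^ m` at `B` (`approx`), so `x₁, x₂ ∉ B`. `∏ s α = v ∏ s b` and (`CongB.smul`, `CongB.prod`) `∏ s α ≡ ∏ s x₁ = N₁`, `∏ s b ≡ N₂` with integers `N₁, N₂ ≡ ± 1 mod 2 ^ m`
(`norm_layer`). So `v N₂ ≡ N₁`, `v ≡ ±1`. -/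
theorem local_step {B : Ideal ZO} {φ : GQ} (hP : Prime2 B φ) {m : ℕ}
    (E : IntermediateField ℚ Om) [FiniteDimensional ℚ E] (hc : CycDM 2 (Dl m) E)
    (hdec : ∀ d ∈ DB B, d ∈ (Dl m).fixingSubgroup → d ∈ E.fixingSubgroup) (T : Finset GQ)
    (hT : ∀ g : GQ, ∃! s, s ∈ T ∧ s⁻¹ * g ∈ (Dl m).fixingSubgroup) (hTD : ∀ s ∈ T, s ∈ DB B)
    (κ : Om) (hκ : κ ∈ E) (h0 : κ ≠ 0) (v : ZO) (hv : v ∉ B) (hprod : ∏ s ∈ T, s κ = (v : Om)) :
    CongB B m v 1 ∨ CongB B m v (-1) := by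
  classical
  have hB := hP.max
  by_cases hm : m = 0
  · subst hm
    left
    exact ⟨1, v - 1, G3_one hB, by rw [one_mul, pow_zero, one_mul]⟩
  have hTn : T.Nonempty := by
    obtain ⟨s, hs, -⟩ := hT 1
    exact ⟨s, hs.1⟩
  obtain ⟨α, b, hα, hb, hκb⟩ := kappa_frac hB E κ hκ h0 T hTn hTD v hv hprod
  obtain ⟨x₁, hx₁⟩ := approx hB (Dl m) E hc hdec α m
  obtain ⟨x₂, hx₂⟩ := approx hB (Dl m) E hc hdec b m
  have hx₁B := G3_notMem hB hP.two hm hx₁ hα
  have hx₂B := G3_notMem hB hP.two hm hx₂ hb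
  obtain ⟨n₁, hn₁, hm₁⟩ := norm_layer hP T hT x₁ hx₁B
  obtain ⟨n₂, hn₂, hm₂⟩ := norm_layer hP T hT x₂ hx₂B
  have e1 : ∏ s ∈ T, s • iota (Dl m) x₁ = (n₁ : ZO) := by
    apply Subtype.ext
    rw [G3_val_prod]
    exact hn₁.trans (by push_cast; rfl)
  have e2 : ∏ s ∈ T, s • iota (Dl m) x₂ = (n₂ : ZO) := by
    apply Subtype.ext
    rw [G3_val_prod]
    exact hn₂.trans (by push_cast; rfl)
  have e3 : ∏ s ∈ T, s • iota E α = v * ∏ s ∈ T, s • iota E b := by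
    apply Subtype.ext
    have h5 : ((v * ∏ s ∈ T, s • iota E b : ZO) : Om) = (v : Om) * ((∏ s ∈ T, s • iota E b : ZO) : Om) := rfl
    rw [h5, G3_val_prod, G3_val_prod, ← hprod, ← Finset.prod_mul_distrib]
    refine Finset.prod_congr rfl fun s _ => ?_
    rw [← map_mul]
    exact congrArg s hκb.symm
  have c1 : CongB B m (∏ s ∈ T, s • iota E α) (n₁ : ZO) := by
    rw [← e1]
    exact CongB.prod hB T _ _ fun s hs => CongB.smul (hTD s hs) hx₁
  have c2 : CongB B m (∏ s ∈ T, s • iota E b) (n₂ : ZO) := by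
    rw [← e2]
    exact CongB.prod hB T _ _ fun s hs => CongB.smul (hTD s hs) hx₂
  have c3 : CongB B m (v * (n₂ : ZO)) (n₁ : ZO) := by
    have h5 := CongB.mul hB (CongB.refl B hB m v) c2
    rw [← e3] at h5
    exact CongB.trans hB h5.symm c1
  have key : ∀ a c : ℤ, CongB B m (n₂ : ZO) (a : ZO) → CongB B m (n₁ : ZO) (c : ZO) → a * a = 1 →
      CongB B m v ((c * a : ℤ) : ZO) := by
    intro a c h5 h6 h7
    have h8 : CongB B m (v * (a : ZO)) (c : ZO) :=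
      CongB.trans hB (CongB.mul hB (CongB.refl B hB m v) h5).symm (CongB.trans hB c3 h6)
    have h9 := CongB.mul hB h8 (CongB.refl B hB m (a : ZO))
    have h10 : v * (a : ZO) * (a : ZO) = v := by
      rw [mul_assoc]
      have : (a : ZO) * (a : ZO) = 1 := by exact_mod_cast congrArg (Int.cast : ℤ → ZO) h7
      rw [this, mul_one]
    rw [h10] at h9
    have h11 : ((c * a : ℤ) : ZO) = (c : ZO) * (a : ZO) := by push_cast; rfl
    rw [h11]
    exact h9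
  have k1 : ∀ n : ℤ, ((2 ^ m : ℤ) ∣ n - 1 ∨ (2 ^ m : ℤ) ∣ n + 1) →
      CongB B m (n : ZO) ((1 : ℤ) : ZO) ∨ CongB B m (n : ZO) ((-1 : ℤ) : ZO) := by
    rintro n (h5 | h5)
    · exact Or.inl (G3_int hB h5)
    · exact Or.inr (G3_int hB (by rwa [sub_neg_eq_add]))
  rcases k1 n₂ hm₂ with h5 | h5 <;> rcases k1 n₁ hm₁ with h6 | h6
  · left
    have := key 1 1 h5 h6 (by norm_num)
    simpa using this
  · right
    have := key 1 (-1) h5 h6 (by norm_num)
    simpa using this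
  · right
    have := key (-1) 1 h5 h6 (by norm_num)
    simpa using this
  · left
    have := key (-1) (-1) h5 h6 (by norm_num)
    simpa using this

end OzakiFree
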