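import Pool.Agent.Lib.MP_6e8030_nt.W.Base2

open IntermediateField
open scoped ComplexConjugate

noncomputable section

namespace OzakiFree

/-! ### H1: a unit of infinite order and norm one -/

theorem H1_exists_tau {p : ℕ} (hp : p.Prime) (D M : IntermediateField ℚ Om)
    (h : CycDM p D M) : ∃ τ : GQ, τ ∈ D.fixingSubgroup ∧ τ ∉ M.fixingSubgroup := by
  by_contra hcon
  push Not at hcon
  have h1 : M ≤ D := by
    rw [← InfiniteGalois.fixedField_fixingSubgroup M,
      ← InfiniteGalois.fixedField_fixingSubgroup D]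
    exact IntermediateField.fixedField_antitone hcon
  have h2 := h.deg
  rw [IntermediateField.relfinrank_eq_one_iff.2 h1] at h2
  exact hp.one_lt.ne h2

/-- the rank of the units if there is a real place -/
theorem H1_rank (K : IntermediateField ℚ Om) [FiniteDimensional ℚ K] (φ : Om →+* ℂ) (c : GQ)
    (hconj : ∀ x, φ (c x) = conj (φ x)) (hcK : c ∈ K.fixingSubgroup) :
    Module.finrank ℚ K + 1 ≤ 2 * (Module.finrank ℤ (UA K) + 1) := by
  have h1 : Module.finrank ℤ (Additive (NumberField.RingOfIntegers (FL K))ˣ) =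
      NumberField.Units.rank (FL K) := NumberField.Units.finrank_eq (FL K)
  have h0 : Module.finrank ℤ (UA K) = NumberField.Units.rank (FL K) := h1
  have h3 := NumberField.InfinitePlace.card_add_two_mul_card_eq_rank (FL K)
  have h4 := NumberField.InfinitePlace.card_eq_nrRealPlaces_add_nrComplexPlaces (FL K)
  have h5 : Module.finrank ℚ (FL K) = Module.finrank ℚ K := by
    have : (DivisionRing.toRatAlgebra : Algebra ℚ (FL K)) =
      (inferInstanceAs (Algebra ℚ K) : Algebra ℚ (FL K)) := Subsingleton.elim _ _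
    rw [this]
    rfl
  have h6 : 0 < Fintype.card (NumberField.InfinitePlace (FL K)) := Fintype.card_pos
  have h7 : 0 < NumberField.InfinitePlace.nrRealPlaces (FL K) := by
    have hr : NumberField.ComplexEmbedding.IsReal (φ.comp (FLhom K)) := by
      ext x
      show conj (φ (FLhom K x)) = φ (FLhom K x)
      rw [← hconj]
      exact congrArg φ ((mem_fixingSubgroup_iff K c).1 hcK _ x.2)
    have hw : NumberField.InfinitePlace.IsReal (NumberField.InfinitePlace.mk (φ.comp (FLhom K))) :=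
      ⟨_, hr, rfl⟩
    classical
    unfold NumberField.InfinitePlace.nrRealPlaces
    rw [Fintype.card_pos_iff]
    exact ⟨⟨_, hw⟩⟩
  rw [h0, NumberField.Units.rank, ← h5]
  omega

/-- the kernel of the norm is not torsion -/
theorem H1_ker {A : Type*} [AddCommGroup A] [Module.Finite ℤ A] (σ : AddMonoid.End A)
    (hσ : ∀ x, σ (σ x) = x)
    (hrank : Module.finrank ℤ (AddMonoidHom.ker (σ - 1)) < Module.finrank ℤ A) :
    ∃ u : A, σ u + u = 0 ∧ ∀ n : ℕ, 0 < n → n • u ≠ 0 := by
  by_contra hcon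
  push Not at hcon
  let N : A →+ A := ((σ + 1 : AddMonoid.End A) : A →+ A)
  have hN : ∀ x, N x = σ x + x := fun x => rfl
  let NL : A →ₗ[ℤ] A := AddMonoidHom.toIntLinearMap N
  have hNL : ∀ x, NL x = σ x + x := fun x => rfl
  have hk : LinearMap.ker NL ≤ Submodule.torsion ℤ A := by
    intro x hx
    have hx' : σ x + x = 0 := hx
    obtain ⟨n, hn, hnx⟩ := hcon x hx'
    rw [Submodule.mem_torsion_iff]
    refine ⟨⟨(n : ℤ), by simpa [mem_nonZeroDivisors_iff_ne_zero] using hn.ne'⟩, ?_⟩
    show (n : ℤ) • x = 0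
    rw [natCast_zsmul]
    exact hnx
  have h1 : Module.finrank ℤ (LinearMap.range NL) = Module.finrank ℤ A := by
    rw [← (NL.quotKerEquivRange).finrank_eq]
    exact finrank_quotient_eq_of_le_torsion hk
  have h2 : LinearMap.range NL ≤ AddSubgroup.toIntSubmodule (AddMonoidHom.ker (σ - 1)) := by
    rintro x ⟨y, rfl⟩
    show (σ - 1) (NL y) = 0
    have h3 : (σ - 1) (NL y) = σ (NL y) - NL y := rfl
    rw [h3, hNL, map_add, hσ, add_comm, sub_self]
  have h4 : Module.finrank ℤ (LinearMap.range NL) ≤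
      Module.finrank ℤ (AddSubgroup.toIntSubmodule (AddMonoidHom.ker (σ - 1))) :=
    Submodule.finrank_mono h2
  have h5 : Module.finrank ℤ (AddSubgroup.toIntSubmodule (AddMonoidHom.ker (σ - 1))) =
      Module.finrank ℤ (AddMonoidHom.ker (σ - 1)) := rfl
  omega

/-- PROOF. `n = [F:ℚ]`, `[K:ℚ] = 2 n`. `rank UA F = n - 1` (`rank_real`). `K` has a real place (from `φ` and `c`: `φ` is real on `K`), so `r₁ ≥ 1`, `rank UA K = r₁ + r₂ - 1 ≥ n` (`r₁ + 2 r₂ = 2 n`, `r₁` even). Let `g ∈ F.fixingSubgroup`, `g ∉ K.fixingSubgroup`. The norm `u ↦ u g(u)` maps the units of `K` to the units of `F`, of smaller rank,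
so its kernel contains an element `ε` of infinite order: `ε g(ε) = 1`; all such `g` act on `K` in the same way. -/
theorem exists_eps (F K : IntermediateField ℚ Om) [FiniteDimensional ℚ F] [FiniteDimensional ℚ K]
    (hF : TotReal F) (hc : CycDM 2 F K) (φ : Om →+* ℂ) (c : GQ)
    (hconj : ∀ x, φ (c x) = conj (φ x)) (hcK : c ∈ K.fixingSubgroup) :
    ∃ ε : (ZF K)ˣ, (∀ n : ℕ, 0 < n → ε ^ n ≠ 1) ∧ ∀ g ∈ F.fixingSubgroup, g ∉ K.fixingSubgroup →
      g (ε : ZF K).val * (ε : ZF K).val = 1 := by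
  obtain ⟨τ, hτ, hτK⟩ := H1_exists_tau Nat.prime_two F K hc
  have hfin := units_finite K
  have hst := hc.stable τ hτ
  obtain ⟨hg1, hg2⟩ := U5_gal Nat.prime_two F K hc
  have hσ : ∀ u : UA K, actU K τ hst (actU K τ hst u) = u := by
    intro u
    refine U6a_units_ext ?_
    show τ (τ ((u.toMul : (ZF K)ˣ) : ZF K).val) = _
    exact hg1 τ hτ _ (ZF_val_mem _)
  have h1 := relfinrank_mul_relfinrank (bot_le : (⊥ : IntermediateField ℚ Om) ≤ F) hc.le
  rw [relfinrank_bot_left, relfinrank_bot_left, hc.deg] at h1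
  have hrank : Module.finrank ℤ (AddMonoidHom.ker (actU K τ hst - 1)) <
      Module.finrank ℤ (UA K) := by
    have h2 := rank_fixed Nat.prime_two F K hc τ hτ hτK
    have h3 := rank_real F hF
    have h4 := H1_rank K φ c hconj hcK
    rw [h2]
    omega
  obtain ⟨u, hu1, hu2⟩ := H1_ker (actU K τ hst) hσ hrank
  refine ⟨u.toMul, fun n hn h => hu2 n hn ?_, ?_⟩
  · apply Additive.toMul.injective
    exact h
  · intro g hg hgK
    have h5 : τ ((u.toMul : (ZF K)ˣ) : ZF K).val * ((u.toMul : (ZF K)ˣ) : ZF K).val = 1 :=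
      congrArg (fun w : UA K => ((w.toMul : (ZF K)ˣ) : ZF K).val) hu1
    obtain ⟨k, hk⟩ := hg2 τ hτ hτK g hg
    have h6 : ∀ m : ℕ, ∀ x ∈ K, (τ ^ (2 * m)) x = x := by
      intro m
      induction m with
      | zero => intro x _; rfl
      | succ m ih =>
        intro x hx
        rw [Nat.mul_succ, pow_add]
        show (τ ^ (2 * m)) ((τ ^ 2) x) = x
        rw [hg1 τ hτ x hx]
        exact ih x hx
    rcases Nat.even_or_odd' k with ⟨m, rfl | rfl⟩
    · exfalso
      apply hgK
      rw [IntermediateField.mem_fixingSubgroup_iff]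
      intro x hx
      rw [hk x hx]
      exact h6 m x hx
    · rw [hk _ (ZF_val_mem _), pow_add, pow_one]
      have h7 : (τ ^ (2 * m) * τ) ((u.toMul : (ZF K)ˣ) : ZF K).val =
          (τ ^ (2 * m)) (τ ((u.toMul : (ZF K)ˣ) : ZF K).val) := rfl
      rw [h7, h6 m _ (hst _ (ZF_val_mem _))]
      exact h5

end OzakiFree
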