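import Pool.Agent.Lib.MP_6e8030_nt.W.Base

open IntermediateField
open scoped ComplexConjugate

noncomputable section

namespace OzakiFree

/-! ### K1: the field `k` -/

private theorem K1_stable (F k : IntermediateField ℚ Om) (hle : F ≤ k) (h : relfinrank F k = 2) (t : GQ)
    (ht : Fixes t F) : ∀ x ∈ k, t x ∈ k := by
  intro x hx
  have h1 : Module.finrank F (extendScalars hle) = 2 := by
    rw [← relfinrank_eq_finrank_of_le hle, h]
  have hq : Algebra.IsQuadraticExtension F (extendScalars hle) := ⟨h1⟩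
  have hn : Normal F (extendScalars hle) := inferInstance
  have hN : Normal F (extendScalars hle) := hn
  let t' : Om →ₐ[F] Om := { (t : Om →+* Om) with
    commutes' := fun y => ht y y.2 }
  have h2 : (extendScalars hle).map t' ≤ extendScalars hle :=
    (normal_iff_forall_map_le.1 hN) t'
  exact h2 ⟨x, hx, rfl⟩

/-- PROOF. `F₀ = k ⊓ ℚ_∞`; `k/F₀` is quadratic, so Galois; `k ℚ_∞ / ℚ_∞` is quadratic (`fixing_inf` U11: `F₀.fixingSubgroup = PQ 2 ⊔ k.fixingSubgroup`, `mem_cycZp_PQ` E1: `(cycZp 2 k).fixingSubgroup = PQ 2 ⊓ k.fixingSubgroup`);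
`exists_chi0` (E11) with `F = F₀` gives `χ₀` on `F₀.fixingSubgroup`. For complex conjugations: they are in `PQ 2` and not in `k.fixingSubgroup`. The last two: `χ₀` is a homomorphism on `F₀.fixingSubgroup`, resp. `RL_conj`
(`cycZp 2 k` is stable under `F₀.fixingSubgroup`, see `stable_of_conj`). -/
theorem exists_kdata (k : IntermediateField ℚ Om) [FiniteDimensional ℚ k]
    (h : relfinrank (k ⊓ cycZp 2 ⊥) k = 2) (him : ∀ c, IsConj c → ¬ Fixes c k) :
    ∃ χ₀ : GQ → ZMod 2, KData k χ₀ ∧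
      (∀ g ∈ (k ⊓ cycZp 2 ⊥).fixingSubgroup, ∀ x ∈ PQ 2, χ₀ (g * x * g⁻¹) = χ₀ x) ∧
      ∀ g ∈ (k ⊓ cycZp 2 ⊥).fixingSubgroup, ∀ r ∈ RL 2 (cycZp 2 k), g * r * g⁻¹ ∈ RL 2 (cycZp 2 k) := by
  have hp2 : Nat.Prime 2 := Nat.prime_two
  set F : IntermediateField ℚ Om := k ⊓ cycZp 2 ⊥ with hF
  have hle : F ≤ k := inf_le_left
  have hfin : FiniteDimensional ℚ F := FiniteDimensional.of_injective
    (IntermediateField.inclusion hle).toLinearMap (IntermediateField.inclusion_injective hle)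
  obtain ⟨χ, hχ, hl, hmem⟩ := exists_chi0 hp2 F k ⟨hle, h, fun t ht => K1_stable F k hle h t ht⟩
  have hPF : PQ 2 ≤ F.fixingSubgroup := by
    rw [hF, fixing_inf hp2 k]
    exact le_sup_left
  have hmemK : ∀ g, g ∈ (cycZp 2 k).fixingSubgroup ↔ g ∈ PQ 2 ∧ χ g = 0 := by
    intro g
    rw [mem_cycZp_PQ hp2 k g, hmem]
    exact ⟨fun hg => ⟨hg.1, hg.2.2⟩, fun hg => ⟨hg.1, hPF hg.1, hg.2⟩⟩
  have h1 : χ 1 = 0 := by
    have := hχ 1 (Subgroup.one_mem _) 1 (Subgroup.one_mem _)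
    rw [mul_one] at this
    simpa using this
  have hconj : ∀ g ∈ F.fixingSubgroup, ∀ x ∈ PQ 2, χ (g * x * g⁻¹) = χ x := by
    intro g hg x hx
    have hg' := F.fixingSubgroup.inv_mem hg
    have hx' := hPF hx
    rw [hχ _ (F.fixingSubgroup.mul_mem hg hx') _ hg', hχ _ hg _ hx']
    have h2 := hχ g hg g⁻¹ hg'
    rw [mul_inv_cancel, h1] at h2
    linear_combination -h2
  have hstab : ∀ g ∈ F.fixingSubgroup, ∀ x ∈ cycZp 2 k, g x ∈ cycZp 2 k := by
    intro g hg
    apply stable_of_conj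
    intro σ hσ
    rw [hmemK] at hσ ⊢
    refine ⟨PQ_conj' hp2 g σ hσ.1, ?_⟩
    have h2 := hconj g⁻¹ (F.fixingSubgroup.inv_mem hg) σ hσ.1
    rw [inv_inv] at h2
    rw [h2]
    exact hσ.2
  refine ⟨χ, ⟨fun a ha b hb => hχ a (hPF ha) b (hPF hb), ?_, hmemK, ?_, ?_⟩, hconj, ?_⟩
  · obtain ⟨U, hU, hU'⟩ := hl
    exact ⟨U, hU, fun a ha u hu hu' => hU' a (hPF ha) u hu (hPF hu')⟩
  · by_contra hcon
    push Not at hcon
    have h2 : PQ 2 ≤ k.fixingSubgroup := fun x hx => (hmem x).2 ⟨hPF hx, hcon x hx⟩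
    have h3 : F.fixingSubgroup ≤ k.fixingSubgroup := by
      rw [hF, fixing_inf hp2 k]
      exact sup_le h2 le_rfl
    have hg : IsGalois ℚ Om := by
      have : IsAlgClosure ℚ Om := instAlgClosureOm
      exact IsAlgClosure.isGalois ℚ Om
    have h4 : k ≤ F := by
      rw [← InfiniteGalois.fixedField_fixingSubgroup F]
      intro x hx
      rw [IntermediateField.mem_fixedField_iff]
      intro f hf
      exact (IntermediateField.mem_fixingSubgroup_iff k f).1 (h3 hf) x hx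
    have h5 : F = k := le_antisymm hle h4
    rw [h5, relfinrank_self] at h
    exact absurd h (by norm_num)
  · intro φ c hc hc0
    have hcc : ∀ y, c (c y) = y := by
      intro y
      apply φ.injective
      rw [hc, hc, Complex.conj_conj]
    have hcP : c ∈ PQ 2 := by
      rw [mem_PQ_iff hp2]
      refine ⟨2, by norm_num, fun ζ _ => ?_⟩
      rw [pow_two]
      exact hcc ζ
    have hck : c ∈ k.fixingSubgroup := (hmem c).2 ⟨hPF hcP, hc0⟩
    exact him c ⟨φ, hc⟩ ((IntermediateField.mem_fixingSubgroup_iff k c).1 hck)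
  · intro g hg r hr
    exact RL_conj 2 (cycZp 2 k) g (hstab g hg) (hstab g⁻¹ (F.fixingSubgroup.inv_mem hg)) r hr

end OzakiFree
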