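import Pool.Agent.Lib.MP_6e8030_nt.W.E6
import Pool.Agent.Lib.MP_6e8030_nt.W.F1
import Pool.Agent.Lib.MP_6e8030_nt.W.G3
import Pool.Agent.Lib.MP_6e8030_nt.W.E0
import Pool.Agent.Lib.MP_6e8030_nt.W.L2
import Pool.Agent.Lib.MP_6e8030_nt.W.Base2

open IntermediateField
open scoped ComplexConjugate

noncomputable section

namespace OzakiFree

/-! ### R1: the congruence for the conjugates of a unit -/

private theorem R1_mem (M : IntermediateField ℚ Om) (y : Om) (h : ∀ g ∈ M.fixingSubgroup, g y = y) :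
    y ∈ M := by
  have hg : IsGalois ℚ Om := N3_gal
  rw [← InfiniteGalois.fixedField_fixingSubgroup M, IntermediateField.mem_fixedField_iff]
  exact h

private theorem R1_finrank (M : IntermediateField ℚ Om) :
    Module.finrank ℚ M = M.fixingSubgroup.index := by
  have hg : IsGalois ℚ Om := N3_gal
  exact IntermediateField.finrank_eq_fixingSubgroup_index Om M

private theorem R1_relIndex (D M : IntermediateField ℚ Om) [FiniteDimensional ℚ D] (h : D ≤ M) :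
    M.fixingSubgroup.relIndex D.fixingSubgroup = relfinrank D M := by
  have h1 := IntermediateField.finrank_bot_mul_relfinrank h
  rw [R1_finrank, R1_finrank] at h1
  have h2 := Subgroup.relIndex_mul_index (IntermediateField.fixingSubgroup_antitone h)
  have h3 : D.fixingSubgroup.index ≠ 0 := by
    rw [← R1_finrank]
    exact Module.finrank_pos.ne'
  rw [← h1, mul_comm] at h2
  exact mul_left_cancel₀ h3 h2

private theorem R1_norm {D K : IntermediateField ℚ Om}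
    (hst : ∀ t ∈ D.fixingSubgroup, ∀ x ∈ K, t x ∈ K) {t g : GQ}
    (ht : t ∈ D.fixingSubgroup) (hg : g ∈ K.fixingSubgroup) :
    t⁻¹ * g * t ∈ K.fixingSubgroup := by
  rw [IntermediateField.mem_fixingSubgroup_iff]
  intro x hx
  have h1 : g (t x) = t x := fix_F hg _ (hst t ht x hx)
  rw [AlgEquiv.mul_apply, AlgEquiv.mul_apply, h1]
  exact N11_inv_apply t x

private theorem R1_two {D K : IntermediateField ℚ Om} [FiniteDimensional ℚ D] (hK : CycDM 2 D K)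
    {a b : GQ} (ha : a ∈ D.fixingSubgroup) (hb : b ∈ D.fixingSubgroup) :
    a * b ∈ K.fixingSubgroup ↔ (a ∈ K.fixingSubgroup ↔ b ∈ K.fixingSubgroup) := by
  have h1 := R1_relIndex D K hK.le
  rw [hK.deg] at h1
  have h2 := Subgroup.mul_mem_iff_of_index_two
    (H := K.fixingSubgroup.subgroupOf D.fixingSubgroup) h1 (a := ⟨a, ha⟩) (b := ⟨b, hb⟩)
  exact h2

private theorem R1_one {G : Subgroup GQ} {n : ℕ} {χ : GQ → ZMod n} (h : HomOn G χ) : χ 1 = 0 := by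
  have := h 1 (one_mem _) 1 (one_mem _)
  rw [mul_one] at this
  exact left_eq_add.1 this

private theorem R1_pow {G : Subgroup GQ} {n : ℕ} {χ : GQ → ZMod n} (h : HomOn G χ) {ν : GQ}
    (hν : ν ∈ G) (i : ℕ) : χ (ν ^ i) = i • χ ν := by
  induction i with
  | zero => rw [pow_zero, zero_smul, R1_one h]
  | succ i ih => rw [pow_succ, h _ (pow_mem hν i) _ hν, ih, succ_nsmul]

/-- an element of the inertia group whose value generates the image of the inertia group -/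
private theorem R1_gen {t : ℕ} (B : Ideal ZO) (G : Subgroup GQ) (χ : GQ → ZMod (2 ^ t))
    (h : HomOn G χ) :
    ∃ ν ∈ B.inertia GQ, ν ∈ G ∧ ∀ ν' ∈ B.inertia GQ, ν' ∈ G →
      ∃ i < addOrderOf (χ ν), i • χ ν = χ ν' := by
  classical
  have hne : NeZero (2 ^ t) := ⟨by positivity⟩
  let S : AddSubgroup (ZMod (2 ^ t)) :=
    { carrier := {x | ∃ ν ∈ B.inertia GQ, ν ∈ G ∧ χ ν = x}
      zero_mem' := ⟨1, one_mem _, one_mem _, R1_one h⟩
      add_mem' := by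
        rintro _ _ ⟨ν, h1, h2, rfl⟩ ⟨ν', h1', h2', rfl⟩
        exact ⟨ν * ν', mul_mem h1 h1', mul_mem h2 h2', h _ h2 _ h2'⟩
      neg_mem' := by
        rintro _ ⟨ν, h1, h2, rfl⟩
        refine ⟨ν⁻¹, inv_mem h1, inv_mem h2, ?_⟩
        have h3 := h ν h2 ν⁻¹ (inv_mem h2)
        rw [mul_inv_cancel, R1_one h] at h3
        exact (neg_eq_of_add_eq_zero_right h3.symm).symm }
  obtain ⟨⟨x, ν, h1, h2, hx⟩, hgen⟩ := IsAddCyclic.exists_generator (α := S)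
  subst hx
  refine ⟨ν, h1, h2, ?_⟩
  intro ν' h1' h2'
  obtain ⟨n, hn⟩ := AddSubgroup.mem_zmultiples_iff.1 (hgen ⟨χ ν', ν', h1', h2', rfl⟩)
  have hn' : n • χ ν = χ ν' := congrArg Subtype.val hn
  have h4 : χ ν' ∈ AddSubgroup.zmultiples (χ ν) := AddSubgroup.mem_zmultiples_iff.2 ⟨n, hn'⟩
  rw [(isOfFinAddOrder_of_finite (χ ν)).mem_zmultiples_iff_mem_range_addOrderOf,
    Finset.mem_image] at h4
  obtain ⟨i, hi, hi'⟩ := h4
  exact ⟨i, Finset.mem_range.1 hi, hi'⟩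

private theorem R1_reps {Γ : Type*} [Group Γ] (G₁ G₂ : Subgroup Γ) (hle : G₂ ≤ G₁) (T : Finset Γ)
    (hT : ∀ g : Γ, ∃! s, s ∈ T ∧ s⁻¹ * g ∈ G₁) (ν : Γ) (hν : ν ∈ G₁) (o : ℕ)
    (h : ∀ g ∈ G₁, ∃! i, i < o ∧ (ν ^ i)⁻¹ * g ∈ G₂) :
    ∃ T' : Finset Γ, (∀ g : Γ, ∃! s, s ∈ T' ∧ s⁻¹ * g ∈ G₂) ∧
      (∀ g ∈ T', ∃ s ∈ T, ∃ i : ℕ, g = s * ν ^ i) ∧ o ≤ T'.card ∧
      ∀ (M : Type) [CommMonoid M] (f : Γ → M),
        ∏ g ∈ T', f g = ∏ s ∈ T, ∏ i ∈ Finset.range o, f (s * ν ^ i) := by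
  classical
  have hinj : Set.InjOn (fun x : Γ × ℕ => x.1 * ν ^ x.2) (T ×ˢ Finset.range o : Finset (Γ × ℕ)) := by
    rintro ⟨s, i⟩ hsi ⟨s', i'⟩ hsi' hE
    rw [Finset.mem_coe, Finset.mem_product] at hsi hsi'
    obtain ⟨hs, hi⟩ := hsi
    obtain ⟨hs', hi'⟩ := hsi'
    have hE' : s * ν ^ i = s' * ν ^ i' := hE
    obtain ⟨r, -, hr⟩ := hT (s * ν ^ i)
    have e1 := hr s ⟨hs, by
      have e : s⁻¹ * (s * ν ^ i) = ν ^ i := by group
      rw [e]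
      exact pow_mem hν i⟩
    have e2 := hr s' ⟨hs', by
      have e : s'⁻¹ * (s * ν ^ i) = ν ^ i' := by rw [hE']; group
      rw [e]
      exact pow_mem hν i'⟩
    have e3 : s = s' := e1.trans e2.symm
    subst e3
    have e4 : ν ^ i = ν ^ i' := mul_left_cancel hE'
    obtain ⟨k, -, hk⟩ := h (ν ^ i) (pow_mem hν i)
    have e5 := hk i ⟨Finset.mem_range.1 hi, by rw [inv_mul_cancel]; exact one_mem _⟩
    have e6 := hk i' ⟨Finset.mem_range.1 hi', by rw [e4, inv_mul_cancel]; exact one_mem _⟩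
    rw [e5, e6]
  refine ⟨(T ×ˢ Finset.range o).image (fun x => x.1 * ν ^ x.2), ?_, ?_, ?_, ?_⟩
  · intro g
    obtain ⟨s, ⟨hs, hsg⟩, hsu⟩ := hT g
    obtain ⟨i, ⟨hi, hig⟩, hiu⟩ := h _ hsg
    refine ⟨s * ν ^ i, ⟨Finset.mem_image.2 ⟨(s, i), Finset.mem_product.2
      ⟨hs, Finset.mem_range.2 hi⟩, rfl⟩, ?_⟩, ?_⟩
    · have e : (s * ν ^ i)⁻¹ * g = (ν ^ i)⁻¹ * (s⁻¹ * g) := by group
      rw [e]
      exact hig
    · rintro r ⟨hr, hrg⟩
      obtain ⟨⟨s', i'⟩, hsi', rfl⟩ := Finset.mem_image.1 hr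
      rw [Finset.mem_product] at hsi'
      obtain ⟨hs', hi'⟩ := hsi'
      have hrg' : (s' * ν ^ i')⁻¹ * g ∈ G₂ := hrg
      have e1 : s' = s := hsu s' ⟨hs', by
        have e : s'⁻¹ * g = ν ^ i' * ((s' * ν ^ i')⁻¹ * g) := by group
        rw [e]
        exact mul_mem (pow_mem hν i') (hle hrg')⟩
      subst e1
      have e2 : i' = i := hiu i' ⟨Finset.mem_range.1 hi', by
        have e : (ν ^ i')⁻¹ * (s'⁻¹ * g) = (s' * ν ^ i')⁻¹ * g := by group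
        rw [e]
        exact hrg'⟩
      subst e2
      rfl
  · intro g hg
    obtain ⟨⟨s, i⟩, hsi, rfl⟩ := Finset.mem_image.1 hg
    rw [Finset.mem_product] at hsi
    exact ⟨s, hsi.1, i, rfl⟩
  · rw [Finset.card_image_of_injOn hinj, Finset.card_product, Finset.card_range]
    obtain ⟨s, ⟨hs, -⟩, -⟩ := hT 1
    have hpos : 0 < T.card := Finset.card_pos.2 ⟨s, hs⟩
    calc o = 1 * o := (one_mul o).symm
      _ ≤ T.card * o := Nat.mul_le_mul_right o hpos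
  · intro M _ f
    rw [Finset.prod_image hinj, Finset.prod_product]

private theorem R1_card {Γ : Type*} [Group Γ] (G : Subgroup Γ) (T : Finset Γ)
    (hT : ∀ g : Γ, ∃! s, s ∈ T ∧ s⁻¹ * g ∈ G) : G.index = T.card := by
  have hb : Function.Bijective (fun s : T => ((s : Γ) : Γ ⧸ G)) := by
    constructor
    · intro s s' hss
      have h1 : (s : Γ)⁻¹ * (s' : Γ) ∈ G := QuotientGroup.eq.1 hss
      obtain ⟨r, -, hr⟩ := hT s'
      have e1 := hr s ⟨s.2, h1⟩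
      have e2 := hr s' ⟨s'.2, by rw [inv_mul_cancel]; exact one_mem _⟩
      exact Subtype.ext (e1.trans e2.symm)
    · intro x
      obtain ⟨g, rfl⟩ := QuotientGroup.mk_surjective x
      obtain ⟨s, ⟨hs, hsg⟩, -⟩ := hT g
      exact ⟨⟨s, hs⟩, QuotientGroup.eq.2 hsg⟩
  rw [Subgroup.index, ← Nat.card_eq_of_bijective _ hb, Nat.card_eq_fintype_card, Fintype.card_coe]

/-- PROOF. `w = h!`. `units_norm` for `χ₁` (with `B₁`) and `χ₂` (with `B₂`), `g₀ = φ` (`χ₁ φ = 1`, `χ₂ φ = -1`): `β₁, β₂` with norms `u ^ w`, and `ν ∈ I_{B₂} ⊓ K.fixingSubgroup` with `2 ^ t ≤ w o`, `o = addOrderOf (χ₂ ν)`. `cup` (with `hp.nu1`) gives `κ`, `q`. `M*` := field of `χ₁ + χ₂` (`field_of_chi`), `κ ∈ M*`.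
`(M*).fixingSubgroup ⊔ PQ 2 = (Dl m₂).fixingSubgroup` (`exists_Dl`). `CycDM 2 (Dl m₂) M*`: (`g ∈ (Dl m₂).fixingSubgroup` is `a x`, `a ∈ (M*).fixingSubgroup`, `x ∈ PQ 2`; `x ∈ M*.fixingSubgroup` iff `x ∈ K.fixingSubgroup` by `hp.sum`; index 2: `PQ 2 ⊓ K.fixingSubgroup` has index 2 in `PQ 2` by `hσ`, `hK2`).
`hdec` for `Dl m₂`: `d = a x ∈ DB B₂`, `d ∈ (Dl m₁).fixingSubgroup` (since `a ∈ K.fixingSubgroup` and `x ∈ PQ 2`) so `d ∈ K.fixingSubgroup`, `x ∈ K.fixingSubgroup`, `x ∈ M*.fixingSubgroup`, `d ∈ M*.fixingSubgroup`. `(χ₁ + χ₂) ν = χ₂ ν` has order `o`, and every element of `K.fixingSubgroup` is `ν' x`, `ν' ∈ I_{B₂} ⊓ K.fixingSubgroup`,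
`x ∈ PQ 2 ⊓ K.fixingSubgroup` (`hP2.surj`; `hdec`), so `χ₁ + χ₂` has the same image as `χ₂` on `I_{B₂} ⊓ K.fixingSubgroup`, which has to be generated by `χ₂ ν`: CHOOSE `ν` of maximal order `o` (the subgroup of `ZMod (2 ^ t)` is cyclic; `2 ^ t ≤ w o` remains true). Then the `s ν ^ i` (`s ∈ T`, `i < o`) are representatives
of `GQ / (Dl m₂).fixingSubgroup`: `g ∈ s (Dl m₁).fixingSubgroup`, `(Dl m₁).fixingSubgroup = K.fixingSubgroup * PQ 2` (`hdec'`, `hP2.surj`). They are in `DB B₂`. `∏ (s ν ^ i) κ = ∏_s s (u ^ (w q)) = V ^ q`, `V := ∏_s s(u ^ w) ∈ ZO`, a unit, not in `B₂`. `local_step`: `V ^ q ≡ ±1 mod 2 ^ m₂`, so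
`V ^ (2 q) ≡ 1`. `2 ^ (m₂ - 2) = |T| o ≥ o` (`Dl_rank`; number of representatives = degree), so `2 ^ t ≤ w 2 ^ m₂`. -/
theorem cong_units {B₂ B₁ : Ideal ZO} {φ : GQ} (hP2 : Prime2 B₂ φ) (hB₁ : B₁.IsMaximal)
    (K : IntermediateField ℚ Om) [FiniteDimensional ℚ K] {m₁ : ℕ} (hK : CycDM 2 (Dl m₁) K)
    (hφK : φ ∈ K.fixingSubgroup) (hσ : ∃ σ ∈ PQ 2, σ ∉ K.fixingSubgroup)
    (hdec : ∀ d ∈ DB B₂, d ∈ (Dl m₁).fixingSubgroup → d ∈ K.fixingSubgroup) {t : ℕ}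
    (χ₁ χ₂ : GQ → ZMod (2 ^ t)) (hp : PairData B₂ B₁ φ K t χ₁ χ₂) (T : Finset GQ)
    (hTI : ∀ s ∈ T, s ∈ B₂.inertia GQ)
    (hT : ∀ g : GQ, ∃! s, s ∈ T ∧ s⁻¹ * g ∈ (Dl m₁).fixingSubgroup) (u : (ZF K)ˣ) :
    ∃ (m₂ q : ℕ) (V : ZO), Odd q ∧
      2 ^ t ≤ (NumberField.classNumber (FL K)).factorial * 2 ^ m₂ ∧
      (V : Om) = ∏ s ∈ T, s ((u : ZF K).val ^ (NumberField.classNumber (FL K)).factorial) ∧
      V ∉ B₂ ∧ CongB B₂ m₂ (V ^ (2 * q)) 1 := by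
  classical
  have hne : NeZero (2 ^ t) := ⟨by positivity⟩
  have hPm : PQ 2 ≤ (Dl m₁).fixingSubgroup :=
    IntermediateField.fixingSubgroup_antitone (Dl_le m₁)
  have hKG : K.fixingSubgroup ≤ (Dl m₁).fixingSubgroup :=
    IntermediateField.fixingSubgroup_antitone hK.le
  obtain ⟨hu1, -⟩ := units_norm K χ₁ hp.h1 hp.l1 φ hφK (by rw [hp.phi1]; exact isUnit_one) B₁ hB₁
    hp.ram1 hp.conj1
  obtain ⟨hu2, ν₀, hν₀, hν₀K, hν₀t⟩ := units_norm K χ₂ hp.h2 hp.l2 φ hφK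
    (by rw [hp.phi2]; exact isUnit_one.neg) B₂ hP2.max hp.ram2 hp.conj2
  obtain ⟨ν, hν, hνK, hgen⟩ := R1_gen B₂ K.fixingSubgroup χ₂ hp.h2
  have hto : 2 ^ t ≤ (NumberField.classNumber (FL K)).factorial * addOrderOf (χ₂ ν) := by
    refine hν₀t.trans (Nat.mul_le_mul_left _ ?_)
    obtain ⟨i, -, hi⟩ := hgen ν₀ hν₀ hν₀K
    rw [← hi]
    refine Nat.le_of_dvd (addOrderOf_pos _) (addOrderOf_dvd_of_nsmul_eq_zero ?_)
    rw [smul_comm, addOrderOf_nsmul_eq_zero, smul_zero]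
  obtain ⟨β₁, hβ₁, hM1, hN1⟩ := hu1 u
  obtain ⟨β₂, hβ₂, hM2, hN2⟩ := hu2 u
  obtain ⟨κ, hκ0, hκ, q, hq, hκq⟩ := cup K χ₁ χ₂ hp.h1 hp.l1 hp.h2 hp.l2 φ ν hφK hνK hp.phi1
    hp.phi2 (hp.nu1 ν hν hνK) β₁ β₂ _ hβ₁ hβ₂ hM1 hM2 hN1 hN2
  have hχ : HomOn K.fixingSubgroup (fun g => χ₁ g + χ₂ g) := by
    intro g hg h hh
    show χ₁ (g * h) + χ₂ (g * h) = χ₁ g + χ₂ g + (χ₁ h + χ₂ h)
    rw [hp.h1 g hg h hh, hp.h2 g hg h hh]
    ring
  have hχl : LCOn K.fixingSubgroup (fun g => χ₁ g + χ₂ g) := by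
    obtain ⟨U₁, hU₁, h₁⟩ := hp.l1
    obtain ⟨U₂, hU₂, h₂⟩ := hp.l2
    refine ⟨U₁ ⊓ U₂, hU₁.inter hU₂, fun g hg u hu huK => ?_⟩
    show χ₁ (g * u) + χ₂ (g * u) = χ₁ g + χ₂ g
    rw [h₁ g hg u hu.1 huK, h₂ g hg u hu.2 huK]
  obtain ⟨M, hMfin, hKM, hMst, hMmem, -⟩ := field_of_chi K _ hχ hχl
  have hκM : κ ∈ M := R1_mem M κ fun g hg => hκ g ((hMmem g).1 hg).1 ((hMmem g).1 hg).2
  have hPn : (PQ 2).Normal := E10_PQ_normal Nat.prime_two
  obtain ⟨m₂, hm₂, hU⟩ := exists_Dl (M.fixingSubgroup ⊔ PQ 2)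
    (Subgroup.isOpen_mono le_sup_left (IntermediateField.fixingSubgroup_isOpen M)) le_sup_right
  have hMD : M.fixingSubgroup ≤ (Dl m₂).fixingSubgroup := by
    rw [← hU]
    exact le_sup_left
  have hPD : PQ 2 ≤ (Dl m₂).fixingSubgroup := by
    rw [← hU]
    exact le_sup_right
  have hPG : ∀ x ∈ PQ 2, x ∈ K.fixingSubgroup → x ∈ M.fixingSubgroup := fun x hx hxK =>
    (hMmem x).2 ⟨hxK, hp.sum x hx hxK⟩
  have hMK : ∀ g, g ∈ M.fixingSubgroup ↔ g ∈ (Dl m₂).fixingSubgroup ∧ g ∈ K.fixingSubgroup := by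
    intro g
    refine ⟨fun hg => ⟨hMD hg, ((hMmem g).1 hg).1⟩, ?_⟩
    rintro ⟨hg, hgK⟩
    rw [← hU] at hg
    have hg' : g ∈ ((M.fixingSubgroup ⊔ PQ 2 : Subgroup GQ) : Set GQ) := hg
    rw [Subgroup.mul_normal] at hg'
    obtain ⟨a, ha, x, hx, rfl⟩ := Set.mem_mul.1 hg'
    have hxK : x ∈ K.fixingSubgroup := by
      have e : x = a⁻¹ * (a * x) := by group
      rw [e]
      exact mul_mem (inv_mem ((hMmem a).1 ha).1) hgK
    exact mul_mem ha (hPG x hx hxK)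
  have hD12 : (Dl m₂).fixingSubgroup ≤ (Dl m₁).fixingSubgroup := by
    rw [← hU]
    exact sup_le (fun g hg => hKG ((hMmem g).1 hg).1) hPm
  have hDM : Dl m₂ ≤ M := fun x hx => R1_mem M x fun g hg => fix_F (hMD hg) x hx
  have hcyc : CycDM 2 (Dl m₂) M := by
    refine ⟨hDM, ?_, ?_⟩
    · rw [← R1_relIndex (Dl m₂) M hDM, Subgroup.relIndex_eq_two_iff]
      obtain ⟨σ, hσP, hσK⟩ := hσ
      refine ⟨σ, hPD hσP, fun b hb => ?_⟩
      have h1 := R1_two hK (hD12 hb) (hPm hσP)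
      rw [hMK, hMK]
      by_cases hbK : b ∈ K.fixingSubgroup
      · right
        exact ⟨⟨hb, hbK⟩, fun h => hσK ((h1.1 h.2).1 hbK)⟩
      · left
        exact ⟨⟨mul_mem hb (hPD hσP), h1.2 ⟨fun h => absurd h hbK, fun h => absurd h hσK⟩⟩,
          fun h => hbK h.2⟩
    · intro t ht x hx
      refine R1_mem M (t x) fun g hg => ?_
      obtain ⟨hg1, hg2⟩ := (hMK g).1 hg
      have h1 : t⁻¹ * g * t ∈ M.fixingSubgroup := (hMK _).2
        ⟨mul_mem (mul_mem (inv_mem ht) hg1) ht, R1_norm hK.stable (hD12 ht) hg2⟩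
      have h2 : (t⁻¹ * g * t) x = x := fix_F h1 x hx
      have h3 : g * t = t * (t⁻¹ * g * t) := by group
      rw [← AlgEquiv.mul_apply, h3, AlgEquiv.mul_apply, h2]
  have hdec' : ∀ d ∈ DB B₂, d ∈ (Dl m₂).fixingSubgroup → d ∈ M.fixingSubgroup :=
    fun d hd hdD => (hMK d).2 ⟨hdD, hdec d hd (hD12 hdD)⟩
  have hA : ∀ g ∈ (Dl m₁).fixingSubgroup,
      ∃! i, i < addOrderOf (χ₂ ν) ∧ (ν ^ i)⁻¹ * g ∈ (Dl m₂).fixingSubgroup := by
    intro g hg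
    obtain ⟨ν', hν', hx⟩ := hP2.surj g
    have hν'1 : ν' ∈ (Dl m₁).fixingSubgroup := by
      have e : ν' = g * (ν'⁻¹ * g)⁻¹ := by group
      rw [e]
      exact mul_mem hg (inv_mem (hPm hx))
    have hν'K : ν' ∈ K.fixingSubgroup := hdec ν' (inertia_le_DB B₂ hν') hν'1
    have key : ∀ i : ℕ, (ν ^ i)⁻¹ * g ∈ (Dl m₂).fixingSubgroup ↔ i • χ₂ ν = χ₂ ν' := by
      intro i
      have h1 : (ν ^ i)⁻¹ * ν' ∈ K.fixingSubgroup := mul_mem (inv_mem (pow_mem hνK i)) hν'K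
      have h1I : (ν ^ i)⁻¹ * ν' ∈ B₂.inertia GQ := mul_mem (inv_mem (pow_mem hν i)) hν'
      have h2 : (ν ^ i)⁻¹ * g = (ν ^ i)⁻¹ * ν' * (ν'⁻¹ * g) := by group
      have h3 : (ν ^ i)⁻¹ * g ∈ (Dl m₂).fixingSubgroup ↔
          (ν ^ i)⁻¹ * ν' ∈ (Dl m₂).fixingSubgroup := by
        rw [h2]
        exact Subgroup.mul_mem_cancel_right _ (hPD hx)
      have h4 : (ν ^ i)⁻¹ * ν' ∈ (Dl m₂).fixingSubgroup ↔ (ν ^ i)⁻¹ * ν' ∈ M.fixingSubgroup :=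
        ⟨fun h => (hMK _).2 ⟨h, h1⟩, fun h => hMD h⟩
      have h5 : (ν ^ i)⁻¹ * ν' ∈ M.fixingSubgroup ↔ χ₂ ((ν ^ i)⁻¹ * ν') = 0 := by
        have h6 := hp.nu1 _ h1I h1
        constructor
        · intro h
          have h7 : χ₁ ((ν ^ i)⁻¹ * ν') + χ₂ ((ν ^ i)⁻¹ * ν') = 0 := ((hMmem _).1 h).2
          rwa [h6, zero_add] at h7
        · intro h
          refine (hMmem _).2 ⟨h1, ?_⟩
          show χ₁ ((ν ^ i)⁻¹ * ν') + χ₂ ((ν ^ i)⁻¹ * ν') = 0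
          rw [h6, h, add_zero]
      have h7 : χ₂ ν' = i • χ₂ ν + χ₂ ((ν ^ i)⁻¹ * ν') := by
        have e : ν' = ν ^ i * ((ν ^ i)⁻¹ * ν') := by group
        have e2 : χ₂ ν' = χ₂ (ν ^ i * ((ν ^ i)⁻¹ * ν')) := congrArg χ₂ e
        rw [e2, hp.h2 _ (pow_mem hνK i) _ h1, R1_pow hp.h2 hνK]
      rw [h3, h4, h5, h7]
      constructor
      · intro h
        rw [h, add_zero]
      · intro h
        exact left_eq_add.1 h
    obtain ⟨i, hi, hi'⟩ := hgen ν' hν' hν'K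
    refine ⟨i, ⟨hi, (key i).2 hi'⟩, ?_⟩
    rintro j ⟨hj, hj'⟩
    have h8 := (key j).1 hj'
    exact nsmul_injOn_Iio_addOrderOf hj hi (h8.trans hi'.symm)
  obtain ⟨T', hT', hT'2, hcard, hprod⟩ := R1_reps (Dl m₁).fixingSubgroup (Dl m₂).fixingSubgroup hD12
    T hT ν (hKG hνK) _ hA
  have hTD : ∀ s ∈ T', s ∈ DB B₂ := by
    intro g hg
    obtain ⟨s, hs, i, rfl⟩ := hT'2 g hg
    exact mul_mem (inertia_le_DB B₂ (hTI s hs)) (inertia_le_DB B₂ (pow_mem hν i))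
  have hunit : IsUnit (iota K (u : ZF K)) := u.isUnit.map (iota K)
  let V : ZO := ∏ s ∈ T, s • (iota K (u : ZF K)) ^ (NumberField.classNumber (FL K)).factorial
  have hVu : IsUnit V := by
    refine Finset.prod_induction _ IsUnit (fun a b ha hb => ha.mul hb) isUnit_one fun s _ => ?_
    exact (hunit.pow _).map (MulSemiringAction.toRingHom GQ ZO s)
  have hVB : V ∉ B₂ := fun hV => hP2.max.ne_top (Ideal.eq_top_of_isUnit_mem _ hV hVu)
  have hVval : (V : Om) =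
      ∏ s ∈ T, s ((u : ZF K).val ^ (NumberField.classNumber (FL K)).factorial) := by
    have h1 : ((∏ s ∈ T, s • (iota K (u : ZF K)) ^ (NumberField.classNumber (FL K)).factorial : ZO) : Om)
        = ∏ s ∈ T, ((s • (iota K (u : ZF K)) ^ (NumberField.classNumber (FL K)).factorial : ZO) : Om) :=
      map_prod (Subalgebra.val (integralClosure ℤ Om)) _ T
    refine h1.trans (Finset.prod_congr rfl fun s _ => ?_)
    rfl
  have hVq : ∏ g ∈ T', g κ = ((V ^ q : ZO) : Om) := by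
    rw [hprod Om (fun g => g κ)]
    have h1 : ∀ s ∈ T, ∏ i ∈ Finset.range (addOrderOf (χ₂ ν)), (s * ν ^ i) κ =
        (s ((u : ZF K).val ^ (NumberField.classNumber (FL K)).factorial)) ^ q := by
      intro s _
      rw [← map_pow, ← hκq, map_prod]
      rfl
    rw [Finset.prod_congr rfl h1, Finset.prod_pow, ← hVval]
    rfl
  have hVqB : V ^ q ∉ B₂ := fun h => hVB (hP2.max.isPrime.mem_of_pow_mem q h)
  have hloc := local_step hP2 M hcyc hdec' T' hT' hTD κ hκM hκ0 (V ^ q) hVqB hVq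
  refine ⟨m₂, q, V, hq, ?_, hVval, hVB, ?_⟩
  · refine hto.trans (Nat.mul_le_mul_left _ (hcard.trans ?_))
    rw [← R1_card _ T' hT', ← R1_finrank, Dl_rank hm₂]
    exact Nat.pow_le_pow_right (by norm_num) (Nat.sub_le _ _)
  · have e : V ^ (2 * q) = (V ^ q) ^ 2 := by rw [← pow_mul, mul_comm]
    rw [e]
    rcases hloc with h | h
    · have h1 := h.pow hP2.max 2
      rwa [one_pow] at h1
    · have h1 := h.pow hP2.max 2
      rwa [neg_one_sq] at h1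

end OzakiFree
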