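import Pool.Agent.Lib.MP_6e8030_nt.W.L2

open IntermediateField
open scoped ComplexConjugate

noncomputable section

namespace OzakiFree

/-! ### X1: characters of `PQ 2` extend to a layer -/

private theorem X1_small {s : Set GQ} (hs : s ∈ nhds (1 : GQ)) :
    ∃ U : Subgroup GQ, U.Normal ∧ IsOpen (U : Set GQ) ∧ (U : Set GQ) ⊆ s := by
  have hg : IsGalois ℚ Om := N3_gal
  rw [krullTopology_mem_nhds_one_iff_of_normal] at hs
  obtain ⟨E, hE, hEn, hEs⟩ := hs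
  have hfin := hE
  have hnor := hEn
  have hEg : IsGalois ℚ E := { to_normal := hnor }
  exact ⟨E.fixingSubgroup, (InfiniteGalois.normal_iff_isGalois E).2 hEg,
    IntermediateField.fixingSubgroup_isOpen E, hEs⟩

/-- PROOF. Let `U` be an open subgroup as in `LCOn`, replaced by a smaller open NORMAL subgroup of `GQ` (`R8_small`, `N3_small`; compactness: an open subgroup has finite index, take its normal core). `x u ↦ χ x` is well defined on `PQ 2 * U`, a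
homomorphism, and `PQ 2 ⊔ U = (Dl m₀).fixingSubgroup` for some `m₀` (`exists_Dl`). Restrict to the larger `m`. -/
theorem extend_layer {n : ℕ} (χ : GQ → ZMod n) (h1 : HomOn (PQ 2) χ) (h2 : LCOn (PQ 2) χ) :
    ∃ m₀ : ℕ, ∀ m, m₀ ≤ m → ∃ χ' : GQ → ZMod n, HomOn (Dl m).fixingSubgroup χ' ∧
      LCOn (Dl m).fixingSubgroup χ' ∧ ∀ t ∈ PQ 2, χ' t = χ t := by
  classical
  obtain ⟨U₀, hU₀, hχ₀⟩ := h2
  obtain ⟨U, hUn, hU, hUU⟩ := X1_small (hU₀.mem_nhds (Subgroup.one_mem U₀))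
  have hχ : ∀ g ∈ PQ 2, ∀ u ∈ U, u ∈ PQ 2 → χ (g * u) = χ g :=
    fun g hg u hu hu' => hχ₀ g hg u (hUU hu) hu'
  have hVopen : IsOpen ((PQ 2 ⊔ U : Subgroup GQ) : Set GQ) := Subgroup.isOpen_mono le_sup_right hU
  obtain ⟨m₀, -, hm₀⟩ := exists_Dl (PQ 2 ⊔ U) hVopen le_sup_left
  refine ⟨m₀, fun m hm => ?_⟩
  -- the decomposition
  have hdec : ∀ g ∈ (Dl m).fixingSubgroup, ∃ x ∈ PQ 2, x⁻¹ * g ∈ U := by
    intro g hg
    have hg' : g ∈ (Dl m₀).fixingSubgroup :=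
      IntermediateField.fixingSubgroup_antitone (Dl_mono hm) hg
    rw [← hm₀] at hg'
    have h3 : g ∈ ((PQ 2 ⊔ U : Subgroup GQ) : Set GQ) := hg'
    rw [Subgroup.mul_normal] at h3
    obtain ⟨x, hx, u, hu, hxu⟩ := Set.mem_mul.1 h3
    refine ⟨x, hx, ?_⟩
    rw [← hxu, inv_mul_cancel_left]
    exact hu
  have hwd : ∀ (g x y : GQ), x ∈ PQ 2 → y ∈ PQ 2 → x⁻¹ * g ∈ U → y⁻¹ * g ∈ U → χ y = χ x := by
    intro g x y hx hy hxg hyg
    have h3 : x⁻¹ * y ∈ U := by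
      have h4 := U.mul_mem hxg (U.inv_mem hyg)
      have h5 : x⁻¹ * g * (y⁻¹ * g)⁻¹ = x⁻¹ * y := by group
      rwa [h5] at h4
    have h4 := hχ x hx (x⁻¹ * y) h3 ((PQ 2).mul_mem ((PQ 2).inv_mem hx) hy)
    rwa [mul_inv_cancel_left] at h4
  let χ' : GQ → ZMod n := fun g => if h : ∃ x ∈ PQ 2, x⁻¹ * g ∈ U then χ h.choose else 0
  have hval : ∀ (g x : GQ), x ∈ PQ 2 → x⁻¹ * g ∈ U → χ' g = χ x := by
    intro g x hx hxg
    have h3 : ∃ x ∈ PQ 2, x⁻¹ * g ∈ U := ⟨x, hx, hxg⟩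
    have h4 : χ' g = χ h3.choose := dif_pos h3
    rw [h4]
    exact hwd g x _ hx h3.choose_spec.1 hxg h3.choose_spec.2
  refine ⟨χ', ?_, ⟨U, hU, ?_⟩, ?_⟩
  · intro g hg h hh
    obtain ⟨x, hx, hxg⟩ := hdec g hg
    obtain ⟨y, hy, hyh⟩ := hdec h hh
    rw [hval g x hx hxg, hval h y hy hyh, ← h1 x hx y hy]
    apply hval (g * h) (x * y) ((PQ 2).mul_mem hx hy)
    have h3 : (x * y)⁻¹ * (g * h) = (y⁻¹ * (x⁻¹ * g) * (y⁻¹)⁻¹) * (y⁻¹ * h) := by group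
    rw [h3]
    exact U.mul_mem (hUn.conj_mem _ hxg y⁻¹) hyh
  · intro g hg u hu _
    obtain ⟨x, hx, hxg⟩ := hdec g hg
    rw [hval g x hx hxg]
    apply hval (g * u) x hx
    rw [← mul_assoc]
    exact U.mul_mem hxg hu
  · intro t ht
    exact hval t t ht (by rw [inv_mul_cancel]; exact U.one_mem)

end OzakiFree
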